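import Pool.Agent.Helper46.RC.Proc

/-!
# Marginals of a low-degree eigenfunction
-/

open Finset

namespace Pool.Agent.RC

namespace Red

/-- marginal of `f` along the tuple `a` -/
noncomputable def marg {n j : ℕ} (Γ : Subgroup (Equiv.Perm (Fin n))) [Fintype Γ] (f : Γ → ℝ)
    (a z : Fin j → Fin n) : ℝ :=
  ∑ g : Γ, if (g : Equiv.Perm (Fin n)) • a = z then f g else 0

variable {n : ℕ} {Γ : Subgroup (Equiv.Perm (Fin n))} [Fintype Γ]

theorem sum_marg {j : ℕ} (f : Γ → ℝ) (a : Fin j → Fin n) (φ : (Fin j → Fin n) → ℝ) :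
    ∑ g : Γ, f g * φ ((g : Equiv.Perm (Fin n)) • a) = ∑ z, φ z * marg Γ f a z := by
  unfold marg
  simp only [Finset.mul_sum]
  rw [Finset.sum_comm]
  refine Finset.sum_congr rfl fun g _ => ?_
  rw [Finset.sum_eq_single ((g : Equiv.Perm (Fin n)) • a)]
  · rw [if_pos rfl, mul_comm]
  · intro z _ hz
    rw [if_neg hz.symm, mul_zero]
  · intro h
    exact absurd (Finset.mem_univ _) h

theorem exists_marg {r : ℕ} (f : Γ → ℝ)
    (hdeg : f ∈ Submodule.span ℝ {h : Γ → ℝ | ∃ (a : Fin r → Fin n) (φ : (Fin r → Fin n) → ℝ),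
      h = fun g : Γ => φ ((g : Equiv.Perm (Fin n)) • a)}) (hf : f ≠ 0) :
    ∃ a z : Fin r → Fin n, marg Γ f a z ≠ 0 := by
  by_contra hno
  push Not at hno
  have key : ∀ h ∈ Submodule.span ℝ {h : Γ → ℝ | ∃ (a : Fin r → Fin n)
      (φ : (Fin r → Fin n) → ℝ), h = fun g : Γ => φ ((g : Equiv.Perm (Fin n)) • a)},
      ∑ g, f g * h g = 0 := by
    intro h hh
    induction hh using Submodule.span_induction with
    | mem h hh =>
      obtain ⟨a, φ, rfl⟩ := hh
      rw [sum_marg f a φ]
      exact Finset.sum_eq_zero fun z _ => by rw [hno a z, mul_zero]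
    | zero => simp
    | add h h' _ _ ih ih' =>
      simp only [Pi.add_apply, mul_add, Finset.sum_add_distrib, ih, ih', add_zero]
    | smul c h _ ih =>
      simp only [Pi.smul_apply, smul_eq_mul]
      have : ∀ g, f g * (c * h g) = c * (f g * h g) := fun g => by ring
      simp only [this]
      rw [← Finset.mul_sum, ih, mul_zero]
  have h1 := key f hdeg
  apply hf
  funext g
  have h2 := (Finset.sum_eq_zero_iff_of_nonneg (fun g _ => mul_self_nonneg (f g))).mp h1 g
    (Finset.mem_univ g)
  simpa using h2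

/-- summing over one coordinate -/
theorem sum_update {j : ℕ} (f : Γ → ℝ) (a z : Fin (j + 1) → Fin n) (i : Fin (j + 1)) :
    ∑ u : Fin n, marg Γ f a (Function.update z i u) =
      marg Γ f (a ∘ i.succAbove) (z ∘ i.succAbove) := by
  unfold marg
  rw [Finset.sum_comm]
  refine Finset.sum_congr rfl fun g _ => ?_
  have hiff : ∀ u : Fin n, (g : Equiv.Perm (Fin n)) • a = Function.update z i u ↔
      ((g : Equiv.Perm (Fin n)) • (a ∘ i.succAbove) = z ∘ i.succAbove ∧
        (g : Equiv.Perm (Fin n)) (a i) = u) := by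
    intro u
    constructor
    · intro h
      constructor
      · funext l
        have h1 := congrFun h (i.succAbove l)
        rw [Function.update_of_ne (Fin.succAbove_ne i l)] at h1
        exact h1
      · have h1 := congrFun h i
        rw [Function.update_self] at h1
        exact h1
    · rintro ⟨h1, h2⟩
      funext l
      rcases eq_or_ne l i with rfl | hl
      · rw [Function.update_self]
        exact h2
      · obtain ⟨l', rfl⟩ := Fin.exists_succAbove_eq hl
        rw [Function.update_of_ne hl]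
        exact congrFun h1 l'
  simp only [hiff]
  by_cases hP : (g : Equiv.Perm (Fin n)) • (a ∘ i.succAbove) = z ∘ i.succAbove
  · simp only [hP, true_and, if_true]
    rw [Finset.sum_eq_single ((g : Equiv.Perm (Fin n)) (a i))]
    · rw [if_pos rfl]
    · intro u _ hu
      rw [if_neg hu.symm]
    · intro h
      exact absurd (Finset.mem_univ _) h
  · simp only [hP, false_and, if_false, Finset.sum_const_zero]

theorem marg_not_inj {j : ℕ} (f : Γ → ℝ)
    (hmin : ∀ a z : Fin j → Fin n, marg Γ f a z = 0) (a z : Fin (j + 1) → Fin n)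
    (hz : ¬ Function.Injective z) : marg Γ f a z = 0 := by
  by_cases ha : Function.Injective a
  · unfold marg
    refine Finset.sum_eq_zero fun g _ => ?_
    rw [if_neg]
    rintro rfl
    exact hz fun p q hpq => ha ((g : Equiv.Perm (Fin n)).injective hpq)
  · rw [Function.Injective] at ha
    push Not at ha
    obtain ⟨p, q, hpq, hne⟩ := ha
    by_cases hzz : z p = z q
    · rw [← hmin (a ∘ q.succAbove) (z ∘ q.succAbove)]
      unfold marg
      refine Finset.sum_congr rfl fun g _ => ?_
      congr 1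
      apply propext
      constructor
      · intro h
        funext l
        exact congrFun h (q.succAbove l)
      · intro h
        obtain ⟨p', rfl⟩ := Fin.exists_succAbove_eq hne
        funext l
        rcases eq_or_ne l q with rfl | hl
        · have h1 : (g : Equiv.Perm (Fin n)) (a (l.succAbove p')) = z (l.succAbove p') :=
            congrFun h p'
          change (g : Equiv.Perm (Fin n)) (a l) = z l
          rw [← hpq, h1, hzz]
        · obtain ⟨l', rfl⟩ := Fin.exists_succAbove_eq hl
          exact congrFun h l'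
    · unfold marg
      refine Finset.sum_eq_zero fun g _ => ?_
      rw [if_neg]
      rintro rfl
      apply hzz
      change (g : Equiv.Perm (Fin n)) (a p) = (g : Equiv.Perm (Fin n)) (a q)
      rw [hpq]

theorem marg_inv_smul {j : ℕ} (f : Γ → ℝ) (a y : Fin j → Fin n) (x : Γ) :
    marg Γ f a ((x : Equiv.Perm (Fin n))⁻¹ • y) =
      ∑ g : Γ, if (g : Equiv.Perm (Fin n)) • a = y then f (x⁻¹ * g) else 0 := by
  unfold marg
  rw [← Equiv.sum_comp (Equiv.mulLeft x)
    (fun g : Γ => if (g : Equiv.Perm (Fin n)) • a = y then f (x⁻¹ * g) else 0)]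
  refine Finset.sum_congr rfl fun g _ => ?_
  simp only [Equiv.coe_mulLeft, Subgroup.coe_mul, inv_mul_cancel_left]
  congr 1
  apply propext
  rw [mul_smul, eq_inv_smul_iff]

theorem marg_smul {j : ℕ} (f : Γ → ℝ) (a y : Fin j → Fin n) (x : Γ) :
    marg Γ f a ((x : Equiv.Perm (Fin n)) • y) =
      ∑ g : Γ, if (g : Equiv.Perm (Fin n)) • a = y then f (x * g) else 0 := by
  have h := marg_inv_smul f a y x⁻¹
  rw [inv_inv, Subgroup.coe_inv, inv_inv] at h
  exact h

end Red

open Red in
theorem red {n r m : ℕ} (Γ : Subgroup (Equiv.Perm (Fin n))) [Fintype Γ] (x : Fin m → Γ)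
    (μ : ℝ) (f : Γ → ℝ)
    (hdeg : f ∈ Submodule.span ℝ {h : Γ → ℝ | ∃ (a : Fin r → Fin n) (φ : (Fin r → Fin n) → ℝ),
      h = fun g : Γ => φ ((g : Equiv.Perm (Fin n)) • a)})
    (h0 : ∑ g, f g = 0) (hf : f ≠ 0)
    (hμ : ∀ g, ∑ i, (f ((x i)⁻¹ * g) + f (x i * g)) = μ * f g) :
    ∃ j, 1 ≤ j ∧ j ≤ r ∧ ∃ h : (Fin j → Fin n) → ℝ, InW h ∧ h ≠ 0 ∧
      ∀ y, ∑ i, (h ((x i : Equiv.Perm (Fin n))⁻¹ • y) + h ((x i : Equiv.Perm (Fin n)) • y))
        = μ * h y := by
  classical
  have hex : ∃ j, ∃ a z : Fin j → Fin n, marg Γ f a z ≠ 0 := ⟨r, exists_marg f hdeg hf⟩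
  have hr : Nat.find hex ≤ r := Nat.find_min' hex (exists_marg f hdeg hf)
  obtain ⟨a, z, haz⟩ := Nat.find_spec hex
  have hmin : ∀ i < Nat.find hex, ∀ a z : Fin i → Fin n, marg Γ f a z = 0 := by
    intro i hi a z
    by_contra hne
    exact Nat.find_min hex hi ⟨a, z, hne⟩
  generalize Nat.find hex = j at hr a z haz hmin
  cases j with
  | zero =>
    exfalso
    apply haz
    unfold marg
    rw [← h0]
    refine Finset.sum_congr rfl fun g _ => ?_
    rw [if_pos (Subsingleton.elim _ _)]
  | succ j =>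
    have hmin' := hmin j (Nat.lt_succ_self j)
    refine ⟨j + 1, by omega, hr, marg Γ f a, ⟨?_, ?_⟩, ?_, ?_⟩
    · exact fun y hy => marg_not_inj f hmin' a y hy
    · intro i y
      rw [sum_update]
      exact hmin' _ _
    · intro h
      exact haz (congrFun h z)
    · intro y
      simp only [marg_inv_smul, marg_smul]
      simp only [← Finset.sum_add_distrib]
      rw [Finset.sum_comm]
      unfold marg
      rw [Finset.mul_sum]
      refine Finset.sum_congr rfl fun g _ => ?_
      by_cases hg : (g : Equiv.Perm (Fin n)) • a = y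
      · simp only [hg, if_true]
        exact hμ g
      · simp only [hg, if_false, add_zero, Finset.sum_const_zero, mul_zero]

end Pool.Agent.RC
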