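import Pool.Agent.Helper46.RC.LevAll
import Pool.Agent.Helper46.RC.Red

/-!
# From the level property to the alternating groups
-/

open Finset Filter Topology

namespace Pool.Agent.RC

namespace FinalAux

/-- real functions of degree at most `r` -/
def degR (n r : ℕ) : Submodule ℝ (alternatingGroup (Fin n) → ℝ) :=
  Submodule.span ℝ {h | ∃ (a : Fin r → Fin n) (φ : (Fin r → Fin n) → ℝ),
    h = fun g : alternatingGroup (Fin n) => φ ((g : Equiv.Perm (Fin n)) • a)}

/-- complex functions of degree at most `r` -/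
def degC (n r : ℕ) : Submodule ℂ (alternatingGroup (Fin n) → ℂ) :=
  Submodule.span ℂ {h | ∃ (a : Fin r → Fin n) (φ : (Fin r → Fin n) → ℂ),
    h = fun g : alternatingGroup (Fin n) => φ (fun i => (g : Equiv.Perm (Fin n)) (a i))}

theorem re_im_mem {n r : ℕ} (f : alternatingGroup (Fin n) → ℂ) (hf : f ∈ degC n r) :
    (fun g => (f g).re) ∈ degR n r ∧ (fun g => (f g).im) ∈ degR n r := by
  induction hf using Submodule.span_induction with
  | mem h hh =>
    obtain ⟨a, φ, rfl⟩ := hh
    exact ⟨Submodule.subset_span ⟨a, fun z => (φ z).re, rfl⟩,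
      Submodule.subset_span ⟨a, fun z => (φ z).im, rfl⟩⟩
  | zero => exact ⟨(degR n r).zero_mem, (degR n r).zero_mem⟩
  | add f g _ _ ihf ihg =>
    exact ⟨(degR n r).add_mem ihf.1 ihg.1, (degR n r).add_mem ihf.2 ihg.2⟩
  | smul c f _ ih =>
    constructor
    · have h1 := (degR n r).sub_mem ((degR n r).smul_mem c.re ih.1)
        ((degR n r).smul_mem c.im ih.2)
      convert h1 using 1
      ext g
      simp [Complex.mul_re]
    · have h1 := (degR n r).add_mem ((degR n r).smul_mem c.re ih.2)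
        ((degR n r).smul_mem c.im ih.1)
      convert h1 using 1
      ext g
      simp [Complex.mul_im]

/-- A gap of the restricted family on `InW` functions bounds the eigenvalues on low degree
functions (real case). -/
theorem real_bound {n m m₁ r : ℕ} (hm : m₁ ≤ m) {ε : ℝ}
    (x : Fin m → alternatingGroup (Fin n))
    (hgap : GapUpTo n m₁ r ε (fun i => (x (Fin.castLE hm i) : Equiv.Perm (Fin n))))
    (μ : ℝ) (f : alternatingGroup (Fin n) → ℝ) (hdeg : f ∈ degR n r) (h0 : ∑ g, f g = 0)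
    (hf : f ≠ 0) (hμ : ∀ g, ∑ i, (f ((x i)⁻¹ * g) + f (x i * g)) = μ * f g) :
    μ ≤ 2 * m - 2 * ε := by
  obtain ⟨j, hj, hjr, h, hW, hne, heig⟩ := red (alternatingGroup (Fin n)) x μ f hdeg h0 hf hμ
  have hpos : 0 < ∑ y, h y ^ 2 := by
    have hnn : 0 ≤ ∑ y, h y ^ 2 := Finset.sum_nonneg fun y _ => sq_nonneg _
    rcases hnn.lt_or_eq with h1 | h1
    · exact h1
    · exfalso
      apply hne
      funext y
      have := (Finset.sum_eq_zero_iff_of_nonneg (fun y _ => sq_nonneg (h y))).mp h1.symm y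
        (Finset.mem_univ y)
      simpa using this
  -- pair the eigenvalue equation with h
  have h1 : μ * ∑ y, h y ^ 2 = 2 * ∑ i, ∑ y, h ((x i : Equiv.Perm (Fin n)) • y) * h y := by
    have h2 : ∀ i, ∑ y, h ((x i : Equiv.Perm (Fin n))⁻¹ • y) * h y =
        ∑ y, h ((x i : Equiv.Perm (Fin n)) • y) * h y := by
      intro i
      rw [← sum_smul_tuple (x i : Equiv.Perm (Fin n))]
      refine Finset.sum_congr rfl fun y _ => ?_
      rw [inv_smul_smul, mul_comm]
    calc μ * ∑ y, h y ^ 2 = ∑ y, (μ * h y) * h y := by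
          rw [Finset.mul_sum]
          exact Finset.sum_congr rfl fun y _ => by ring
      _ = ∑ y, (∑ i, (h ((x i : Equiv.Perm (Fin n))⁻¹ • y) +
            h ((x i : Equiv.Perm (Fin n)) • y))) * h y :=
          Finset.sum_congr rfl fun y _ => by rw [heig]
      _ = ∑ i, ∑ y, (h ((x i : Equiv.Perm (Fin n))⁻¹ • y) * h y +
            h ((x i : Equiv.Perm (Fin n)) • y) * h y) := by
          rw [Finset.sum_comm]
          refine Finset.sum_congr rfl fun y _ => ?_
          rw [Finset.sum_mul]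
          exact Finset.sum_congr rfl fun i _ => by ring
      _ = _ := by
          rw [Finset.mul_sum]
          refine Finset.sum_congr rfl fun i _ => ?_
          rw [Finset.sum_add_distrib, h2]
          ring
  have h3 : ∑ i, ∑ y, h ((x i : Equiv.Perm (Fin n)) • y) * h y ≤
      ((m : ℝ) - ε) * ∑ y, h y ^ 2 := by
    obtain ⟨d, rfl⟩ := Nat.exists_eq_add_of_le hm
    rw [Fin.sum_univ_add]
    have h4 := hgap j hj hjr h hW
    have h5 : ∑ i : Fin d, ∑ y, h ((x (Fin.natAdd m₁ i) : Equiv.Perm (Fin n)) • y) * h y ≤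
        ∑ i : Fin d, ∑ y, h y ^ 2 := Finset.sum_le_sum fun i _ => LevAux.sum_mul_le _ h
    rw [Finset.sum_const, Finset.card_univ, Fintype.card_fin, nsmul_eq_mul] at h5
    have h6 : ∑ i : Fin m₁, ∑ y, h ((x (Fin.castAdd d i) : Equiv.Perm (Fin n)) • y) * h y ≤
        ((m₁ : ℝ) - ε) * ∑ y, h y ^ 2 := h4
    push_cast
    linarith
  by_contra hcon
  push Not at hcon
  have h7 : (2 * (m : ℝ) - 2 * ε) * ∑ y, h y ^ 2 < μ * ∑ y, h y ^ 2 :=
    mul_lt_mul_of_pos_right hcon hpos
  rw [h1] at h7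
  linarith

theorem complex_bound {n m m₁ r : ℕ} (hm : m₁ ≤ m) {ε : ℝ}
    (x : Fin m → alternatingGroup (Fin n))
    (hgap : GapUpTo n m₁ r ε (fun i => (x (Fin.castLE hm i) : Equiv.Perm (Fin n))))
    (μ : ℝ) (f : alternatingGroup (Fin n) → ℂ) (hdeg : f ∈ degC n r) (h0 : ∑ g, f g = 0)
    (hf : f ≠ 0) (hμ : ∀ g, ∑ i, (f ((x i)⁻¹ * g) + f (x i * g)) = (μ : ℂ) * f g) :
    μ ≤ 2 * m - 2 * ε := by
  obtain ⟨hre, him⟩ := re_im_mem f hdeg
  by_cases hr : (fun g => (f g).re) = 0
  · have hi : (fun g => (f g).im) ≠ 0 := by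
      intro hi
      apply hf
      funext g
      exact Complex.ext (congrFun hr g) (congrFun hi g)
    refine real_bound hm x hgap μ _ him ?_ hi ?_
    · have := congrArg Complex.im h0
      simpa using this
    · intro g
      have := congrArg Complex.im (hμ g)
      simpa using this
  · refine real_bound hm x hgap μ _ hre ?_ hr ?_
    · have := congrArg Complex.re h0
      simpa using this
    · intro g
      have := congrArg Complex.re (hμ g)
      simpa using this

theorem card_restrict {α : Type*} [Fintype α] {m₁ m : ℕ} (hm : m₁ ≤ m)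
    (P : (Fin m₁ → α) → Prop) :
    Nat.card {x : Fin m → α // P (fun i => x (Fin.castLE hm i))} =
      Nat.card {x : Fin m₁ → α // P x} * Fintype.card α ^ (m - m₁) := by
  classical
  obtain ⟨d, rfl⟩ := Nat.exists_eq_add_of_le hm
  rw [Nat.add_sub_cancel_left]
  have e : {x : Fin (m₁ + d) → α // P (fun i => x (Fin.castLE hm i))} ≃
      {x : Fin m₁ → α // P x} × (Fin d → α) := by
    refine ((Fin.appendEquiv (α := α) m₁ d).symm.subtypeEquiv
      (q := fun p : (Fin m₁ → α) × (Fin d → α) => P p.1) (fun x => ?_)).trans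
      (Equiv.prodSubtypeFstEquivSubtypeProd (p := P))
    rfl
  rw [Nat.card_congr e, Nat.card_prod, Nat.card_eq_fintype_card (α := Fin d → α),
    Fintype.card_fun, Fintype.card_fin]

end FinalAux

open FinalAux

theorem alt_limit {γ : ℝ} (hγ : γ < 1) : ∃ m₀ : ℕ, 2 ≤ m₀ ∧ ∃ ε : ℝ, 0 < ε ∧ ∀ m ≥ m₀,
    ∀ Good : (n : ℕ) → (Fin m → alternatingGroup (Fin n)) → Prop,
      (∀ n x, (∀ f ∈ degC n ⌊(n : ℝ) ^ γ⌋₊, ∑ g, f g = 0 → f ≠ 0 → ∀ μ : ℝ,
        (∀ g, ∑ i, (f ((x i)⁻¹ * g) + f (x i * g)) = (μ : ℂ) * f g) → μ ≤ 2 * m - ε) →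
          Good n x) →
      Tendsto (fun n : ℕ => (Nat.card {x : Fin m → alternatingGroup (Fin n) // Good n x} : ℝ) /
          (Nat.card (alternatingGroup (Fin n)) : ℝ) ^ m) atTop (𝓝 1) := by
  obtain ⟨m₁, hm₁, ε, hε, hlim⟩ := lev_all hγ
  refine ⟨m₁ + 1, by omega, 2 * ε, by linarith, fun m hm Good hGood => ?_⟩
  have hmm : m₁ ≤ m := by omega
  set p : ℕ → ℝ := fun n =>
    (Nat.card {x : Fin m₁ → Equiv.Perm (Fin n) // ¬ GapUpTo n m₁ ⌊(n : ℝ) ^ γ⌋₊ ε x} : ℝ) /
      (n.factorial : ℝ) ^ m₁ with hp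
  have hbad : ∀ n ≥ 2, (Nat.card {x : Fin m → alternatingGroup (Fin n) // ¬ Good n x} : ℝ) /
      (Nat.card (alternatingGroup (Fin n)) : ℝ) ^ m ≤ 2 ^ m₁ * p n := by
    intro n hn
    have : Nontrivial (Fin n) := Fin.nontrivial_iff_two_le.mpr hn
    have hA : 2 * Fintype.card (alternatingGroup (Fin n)) = n.factorial := by
      rw [two_mul_card_alternatingGroup, Fintype.card_perm, Fintype.card_fin]
    have hA' : (n.factorial : ℝ) = 2 * Fintype.card (alternatingGroup (Fin n)) := by
      exact_mod_cast hA.symm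
    have hApos : (0 : ℝ) < Fintype.card (alternatingGroup (Fin n)) := by
      exact_mod_cast Fintype.card_pos
    rw [Nat.card_eq_fintype_card (α := alternatingGroup (Fin n))]
    rw [div_le_iff₀ (by positivity)]
    have h1 : Nat.card {x : Fin m → alternatingGroup (Fin n) // ¬ Good n x} ≤
        Nat.card {x : Fin m → alternatingGroup (Fin n) //
          ¬ GapUpTo n m₁ ⌊(n : ℝ) ^ γ⌋₊ ε
            (fun i => (x (Fin.castLE hmm i) : Equiv.Perm (Fin n)))} :=
      Nat.card_le_card_of_injective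
        (fun x => ⟨x.1, fun hg => x.2 (hGood n x.1 (fun f hf h0 hne μ hμ =>
          complex_bound hmm x.1 hg μ f hf h0 hne hμ))⟩)
        (fun x x' h => Subtype.ext (by simpa using h))
    have h2 := card_restrict (α := alternatingGroup (Fin n)) hmm
      (fun x => ¬ GapUpTo n m₁ ⌊(n : ℝ) ^ γ⌋₊ ε (fun i => (x i : Equiv.Perm (Fin n))))
    have h3 : Nat.card {x : Fin m₁ → alternatingGroup (Fin n) //
          ¬ GapUpTo n m₁ ⌊(n : ℝ) ^ γ⌋₊ ε (fun i => (x i : Equiv.Perm (Fin n)))} ≤
        Nat.card {x : Fin m₁ → Equiv.Perm (Fin n) // ¬ GapUpTo n m₁ ⌊(n : ℝ) ^ γ⌋₊ ε x} :=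
      Nat.card_le_card_of_injective
        (fun x => ⟨fun i => (x.1 i : Equiv.Perm (Fin n)), x.2⟩)
        (fun x x' h => Subtype.ext (funext fun i => Subtype.ext (by
          have := congrFun (congrArg Subtype.val h) i
          simpa using this)))
    have h4 : (Nat.card {x : Fin m₁ → Equiv.Perm (Fin n) //
        ¬ GapUpTo n m₁ ⌊(n : ℝ) ^ γ⌋₊ ε x} : ℝ) = p n * (n.factorial : ℝ) ^ m₁ := by
      rw [hp]
      simp only
      rw [div_mul_cancel₀ _ (by positivity)]
    calc (Nat.card {x : Fin m → alternatingGroup (Fin n) // ¬ Good n x} : ℝ)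
        ≤ (Nat.card {x : Fin m₁ → alternatingGroup (Fin n) //
          ¬ GapUpTo n m₁ ⌊(n : ℝ) ^ γ⌋₊ ε (fun i => (x i : Equiv.Perm (Fin n)))} : ℝ) *
            (Fintype.card (alternatingGroup (Fin n)) : ℝ) ^ (m - m₁) := by
          exact_mod_cast h1.trans (le_of_eq h2)
      _ ≤ (p n * (n.factorial : ℝ) ^ m₁) *
            (Fintype.card (alternatingGroup (Fin n)) : ℝ) ^ (m - m₁) := by
          rw [← h4]
          have h3' : (Nat.card {x : Fin m₁ → alternatingGroup (Fin n) //
            ¬ GapUpTo n m₁ ⌊(n : ℝ) ^ γ⌋₊ ε (fun i => (x i : Equiv.Perm (Fin n)))} : ℝ) ≤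
            Nat.card {x : Fin m₁ → Equiv.Perm (Fin n) //
              ¬ GapUpTo n m₁ ⌊(n : ℝ) ^ γ⌋₊ ε x} := by exact_mod_cast h3
          gcongr
      _ = 2 ^ m₁ * p n * (Fintype.card (alternatingGroup (Fin n)) : ℝ) ^ m := by
          rw [hA', mul_pow]
          have : (Fintype.card (alternatingGroup (Fin n)) : ℝ) ^ m =
              (Fintype.card (alternatingGroup (Fin n)) : ℝ) ^ m₁ *
              (Fintype.card (alternatingGroup (Fin n)) : ℝ) ^ (m - m₁) := by
            rw [← pow_add]; congr 1; omega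
          rw [this]
          ring
  have hsplit : ∀ n, (Nat.card {x : Fin m → alternatingGroup (Fin n) // Good n x} : ℝ) /
      (Nat.card (alternatingGroup (Fin n)) : ℝ) ^ m =
      1 - (Nat.card {x : Fin m → alternatingGroup (Fin n) // ¬ Good n x} : ℝ) /
      (Nat.card (alternatingGroup (Fin n)) : ℝ) ^ m := by
    intro n
    classical
    have hApos : (0 : ℝ) < Fintype.card (alternatingGroup (Fin n)) := by
      exact_mod_cast Fintype.card_pos
    have h1 := Fintype.card_subtype_compl (fun x : Fin m → alternatingGroup (Fin n) => Good n x)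
    have h2 := Fintype.card_subtype_le (fun x : Fin m → alternatingGroup (Fin n) => Good n x)
    rw [Fintype.card_fun, Fintype.card_fin] at h1 h2
    simp only [Nat.card_eq_fintype_card]
    rw [h1, Nat.cast_sub h2]
    push_cast
    field_simp
    ring
  have hbadlim : Tendsto (fun n : ℕ =>
      (Nat.card {x : Fin m → alternatingGroup (Fin n) // ¬ Good n x} : ℝ) /
      (Nat.card (alternatingGroup (Fin n)) : ℝ) ^ m) atTop (𝓝 0) := by
    have h1 : Tendsto (fun n => 2 ^ m₁ * p n) atTop (𝓝 (2 ^ m₁ * 0)) := hlim.const_mul _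
    rw [mul_zero] at h1
    refine squeeze_zero' (Eventually.of_forall fun n => by positivity) ?_ h1
    filter_upwards [eventually_ge_atTop 2] with n hn
    exact hbad n hn
  have := (tendsto_const_nhds (x := (1 : ℝ))).sub hbadlim
  rw [sub_zero] at this
  refine this.congr fun n => ?_
  rw [hsplit]

end Pool.Agent.RC
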