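import Pool.Agent.Helper46.RC.Proc

/-!
# Equivariance

The average of a conjugation-invariant family of spectral projections is bounded by the
proportion of dimensions on invariant subspaces.
-/

open Finset

namespace Pool.Agent.RC

open scoped InnerProductSpace

namespace Equiv

variable {E : Type*} [NormedAddCommGroup E] [InnerProductSpace ℝ E] [FiniteDimensional ℝ E]

omit [FiniteDimensional ℝ E] in
/-- isometries preserve the inner product -/
theorem inner_pres (T : E →ₗ[ℝ] E) (hT : ∀ v, ‖T v‖ = ‖v‖) (v w : E) :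
    ⟪T v, T w⟫_ℝ = ⟪v, w⟫_ℝ :=
  (⟨T, hT⟩ : E →ₗᵢ[ℝ] E).inner_map_map v w

omit [FiniteDimensional ℝ E] in
theorem low_map {A : E →ₗ[ℝ] E} {D D' : E →ₗ[ℝ] E} (h : ∀ v, D' (A v) = A (D v)) (ε : ℝ) {v : E}
    (hv : v ∈ low D ε) : A v ∈ low D' ε := by
  unfold low at *
  induction hv using Submodule.iSup_induction' with
  | mem μ v hv =>
    refine Submodule.mem_iSup_of_mem μ ?_
    rw [Module.End.mem_eigenspace_iff] at hv ⊢
    rw [h, hv, map_smul]
  | zero => rw [map_zero]; exact Submodule.zero_mem _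
  | add x y _ _ hx hy => rw [map_add]; exact Submodule.add_mem _ hx hy

/-- the projections are conjugated by an isometry -/
theorem proj_conj {A A' : E →ₗ[ℝ] E} (hA : ∀ v, ‖A v‖ = ‖v‖) (hAA : ∀ v, A (A' v) = v)
    (hAA' : ∀ v, A' (A v) = v)
    {D D' : E →ₗ[ℝ] E} (h : ∀ v, D' (A v) = A (D v)) (ε : ℝ) (v : E) :
    (low D' ε).starProjection (A v) = A ((low D ε).starProjection v) := by
  refine (Submodule.eq_starProjection_of_mem_of_inner_eq_zero ?_ ?_)
  · exact low_map h ε (Submodule.starProjection_apply_mem _ _)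
  · intro w hw
    have h' : ∀ v, D (A' v) = A' (D' v) := by
      intro v
      have := h (A' v)
      rw [hAA] at this
      rw [this, hAA']
    have hw' := low_map h' ε hw
    rw [← map_sub, ← hAA w, inner_pres A hA]
    exact Submodule.starProjection_inner_eq_zero _ _ hw'

/-- if a symmetric operator preserves a subspace then it commutes with the projection -/
theorem commute_proj {D : E →ₗ[ℝ] E} (hD : D.IsSymmetric) {F : Submodule ℝ E}
    (hF : ∀ v ∈ F, D v ∈ F) (v : E) :
    F.starProjection (D v) = D (F.starProjection v) := by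
  refine Submodule.eq_starProjection_of_mem_of_inner_eq_zero ?_ ?_
  · exact hF _ (Submodule.starProjection_apply_mem _ _)
  · intro w hw
    rw [← map_sub, hD]
    exact Submodule.starProjection_inner_eq_zero _ _ (hF w hw)

theorem proj_mem {D : E →ₗ[ℝ] E} (hD : D.IsSymmetric) {F : Submodule ℝ E}
    (hF : ∀ v ∈ F, D v ∈ F) (ε : ℝ) {v : E} (hv : v ∈ F) :
    (low D ε).starProjection v ∈ F := by
  set L := low D ε
  have hL : ∀ w ∈ L, F.starProjection.toLinearMap w ∈ L := by
    intro w hw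
    exact low_map (A := F.starProjection.toLinearMap) (D := D) (D' := D)
      (fun u => (commute_proj hD hF u).symm) ε hw
  have h := commute_proj (D := F.starProjection.toLinearMap) (F := L)
    (Submodule.starProjection_isSymmetric F) hL v
  have h1 : F.starProjection.toLinearMap v = v := by
    exact Submodule.starProjection_eq_self_iff.2 hv
  rw [h1] at h
  exact Submodule.starProjection_eq_self_iff.1 h.symm

/-- the Hilbert-Schmidt norm of a projection on an invariant subspace -/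
theorem hs_le {L F : Submodule ℝ E} (hLF : ∀ v ∈ F, L.starProjection v ∈ F) {ι : Type*}
    [Fintype ι] (b : OrthonormalBasis ι ℝ F) :
    ∑ i, ‖L.starProjection (b i : E)‖ ^ 2 ≤ Module.finrank ℝ (L ⊓ F : Submodule ℝ E) := by
  set f := stdOrthonormalBasis ℝ (L ⊓ F : Submodule ℝ E)
  have h1 : ∀ i, ‖L.starProjection (b i : E)‖ ^ 2 = ∑ j, ⟪(f j : E), (b i : E)⟫_ℝ ^ 2 := by
    intro i
    have hm : L.starProjection (b i : E) ∈ L ⊓ F :=
      ⟨Submodule.starProjection_apply_mem _ _, hLF _ (b i).2⟩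
    have h := f.sum_sq_norm_inner_right (⟨L.starProjection (b i : E), hm⟩ : (L ⊓ F : Submodule ℝ E))
    rw [show ‖L.starProjection (b i : E)‖ = ‖(⟨L.starProjection (b i : E), hm⟩ :
      (L ⊓ F : Submodule ℝ E))‖ from rfl, ← h]
    refine Finset.sum_congr rfl (fun j _ => ?_)
    rw [Real.norm_eq_abs, sq_abs]
    congr 1
    change ⟪(f j : E), L.starProjection (b i : E)⟫_ℝ = _
    rw [← Submodule.inner_starProjection_left_eq_right,
      Submodule.starProjection_eq_self_iff.2 (f j).2.1]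
  simp_rw [h1]
  rw [Finset.sum_comm]
  have h2 : ∀ j, ∑ i, ⟪(f j : E), (b i : E)⟫_ℝ ^ 2 = 1 := by
    intro j
    have h := b.sum_sq_norm_inner_left (⟨(f j : E), (f j).2.2⟩ : F)
    have h3 : ‖(⟨(f j : E), (f j).2.2⟩ : F)‖ = 1 := by
      change ‖(f j : E)‖ = 1
      exact f.norm_eq_one j
    rw [h3] at h
    simpa [Real.norm_eq_abs, sq_abs] using h
  simp_rw [h2]
  simp

end Equiv

theorem equiv_bound {G : Type*} [Group G] {E : Type*} [NormedAddCommGroup E]
    [InnerProductSpace ℝ E] [FiniteDimensional ℝ E] (ρ : G →* (E →ₗ[ℝ] E))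
    (hρ : ∀ g v, ‖ρ g v‖ = ‖v‖) {Ω : Type*} [Fintype Ω] (D : Ω → E →ₗ[ℝ] E)
    (hD : ∀ ω, (D ω).IsSymmetric)
    (hconj : ∀ h : G, ∃ e : Ω ≃ Ω, ∀ ω v, D (e ω) (ρ h v) = ρ h (D ω v))
    (hinv : ∀ F : Submodule ℝ E, (∀ h, ∀ v ∈ F, ρ h v ∈ F) → ∀ ω, ∀ v ∈ F, D ω v ∈ F)
    (ε κ : ℝ)
    (hκ : ∀ F : Submodule ℝ E, (∀ h, ∀ v ∈ F, ρ h v ∈ F) →
      ∑ ω, (Module.finrank ℝ (low (D ω) ε ⊓ F : Submodule ℝ E) : ℝ) ≤
        κ * Fintype.card Ω * Module.finrank ℝ F) (v : E) :
    ∑ ω, ‖(low (D ω) ε).starProjection v‖ ^ 2 ≤ κ * Fintype.card Ω * ‖v‖ ^ 2 := by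
  classical
  have hρρ : ∀ h v, ρ h (ρ h⁻¹ v) = v := by
    intro h v
    simp
  have hρρ' : ∀ h v, ρ h⁻¹ (ρ h v) = v := by
    intro h v
    simp
  set S : E →ₗ[ℝ] E := ∑ ω, (low (D ω) ε).starProjection.toLinearMap with hS
  have hSa : ∀ v, S v = ∑ ω, (low (D ω) ε).starProjection v := by
    intro v
    simp [hS, LinearMap.sum_apply]
  have hSsym : S.IsSymmetric := by
    intro x y
    rw [hSa, hSa, sum_inner, inner_sum]
    exact Finset.sum_congr rfl (fun ω _ => Submodule.inner_starProjection_left_eq_right _ _ _)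
  have hcomm : ∀ h v, S (ρ h v) = ρ h (S v) := by
    intro h v
    obtain ⟨e, he⟩ := hconj h
    rw [hSa, hSa, map_sum, ← e.sum_comp]
    exact Finset.sum_congr rfl (fun ω _ => Equiv.proj_conj (hρ h) (hρρ h) (hρρ' h) (he ω) ε v)
  have hnorm : ∀ v, ∑ ω, ‖(low (D ω) ε).starProjection v‖ ^ 2 = ⟪S v, v⟫_ℝ := by
    intro v
    rw [hSa, sum_inner]
    refine Finset.sum_congr rfl (fun ω _ => ?_)
    rw [← real_inner_self_eq_norm_sq, Submodule.inner_starProjection_left_eq_right]
    rw [Submodule.inner_starProjection_left_eq_right]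
    congr 1
    exact Submodule.starProjection_eq_self_iff.2 (Submodule.starProjection_apply_mem _ _)
  have heig : ∀ μ : ℝ, Module.End.HasEigenvalue S μ → μ ≤ κ * Fintype.card Ω := by
    intro μ hμ
    set F := Module.End.eigenspace S μ with hF
    have hFρ : ∀ h, ∀ v ∈ F, ρ h v ∈ F := by
      intro h v hv
      rw [hF, Module.End.mem_eigenspace_iff] at hv ⊢
      rw [hcomm, hv, map_smul]
    have hFD := hinv F hFρ
    set b := stdOrthonormalBasis ℝ F
    have h1 : ∑ i, ∑ ω, ‖(low (D ω) ε).starProjection (b i : E)‖ ^ 2 =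
        μ * Module.finrank ℝ F := by
      calc _ = ∑ i : Fin (Module.finrank ℝ F), μ := by
            refine Finset.sum_congr rfl (fun i _ => ?_)
            rw [hnorm]
            have hm : S ((b i : F) : E) = μ • ((b i : F) : E) :=
              Module.End.mem_eigenspace_iff.1 (b i).2
            rw [hm, inner_smul_left, real_inner_self_eq_norm_sq]
            have : ‖((b i : F) : E)‖ = 1 := b.norm_eq_one i
            rw [this]
            simp
        _ = _ := by simp [mul_comm]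
    rw [Finset.sum_comm] at h1
    have h2 : ∑ ω, ∑ i, ‖(low (D ω) ε).starProjection (b i : E)‖ ^ 2 ≤
        κ * Fintype.card Ω * Module.finrank ℝ F := by
      refine le_trans (Finset.sum_le_sum (fun ω _ => ?_)) (hκ F hFρ)
      exact Equiv.hs_le (fun v hv => Equiv.proj_mem (hD ω) (hFD ω) ε hv) b
    rw [h1] at h2
    have hpos : 0 < (Module.finrank ℝ F : ℝ) := by
      have : F ≠ ⊥ := hμ
      have := (Submodule.one_le_finrank_iff.2 this)
      exact_mod_cast this
    exact le_of_mul_le_mul_right h2 hpos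
  rw [hnorm]
  set B := hSsym.eigenvectorBasis rfl
  have h3 : ⟪S v, v⟫_ℝ = ∑ i, hSsym.eigenvalues rfl i * ⟪B i, v⟫_ℝ ^ 2 := by
    rw [← B.sum_inner_mul_inner (S v) v]
    refine Finset.sum_congr rfl (fun i _ => ?_)
    have h5 : S (B i) = hSsym.eigenvalues rfl i • B i := by
      exact hSsym.apply_eigenvectorBasis rfl i
    rw [hSsym v (B i), h5, inner_smul_right, real_inner_comm v (B i)]
    ring
  have h4 : ∑ i, ⟪B i, v⟫_ℝ ^ 2 = ‖v‖ ^ 2 := by
    have := B.sum_sq_norm_inner_right v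
    simpa [Real.norm_eq_abs, sq_abs] using this
  rw [h3, ← h4, Finset.mul_sum]
  refine Finset.sum_le_sum (fun i _ => ?_)
  exact mul_le_mul_of_nonneg_right (heig _ (hSsym.hasEigenvalue_eigenvalues rfl i)) (sq_nonneg _)

end Pool.Agent.RC
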