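import Pool.Agent.Helper46.RC.Proc

open Finset

namespace Pool.Agent.RC

theorem sum_pow_wrd {G R A : Type*} [Group G] [Semiring R] [Fintype A] (ρ : G →* R) (m : A → G)
    (K : ℕ) : (∑ a, ρ (m a)) ^ K = ∑ U : Fin K → A, ρ (wrd m K U) := by
  induction K with
  | zero =>
    rw [pow_zero, Fintype.sum_unique]
    simp [wrd]
  | succ K ih =>
    rw [pow_succ', ih, Finset.sum_mul_sum]
    rw [← (Fin.snocEquiv (fun _ : Fin (K + 1) => A)).sum_comp, Fintype.sum_prod_type]
    refine Finset.sum_congr rfl fun a _ => Finset.sum_congr rfl fun U _ => ?_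
    simp [wrd, Fin.snocEquiv, map_mul]

end Pool.Agent.RC
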