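import Pool.Agent.Helper46.RC.Proc

/-!
# The quadratic form of a conjugation-invariant family on functions with vanishing marginals
-/

open Finset

namespace Pool.Agent.RC.Op

/-- Two embeddings of a finite type differ by a permutation. -/
theorem exists_perm {n : ℕ} {κ : Type*} (e e' : κ ↪ Fin n) :
    ∃ h : Equiv.Perm (Fin n), ∀ i, h (e i) = e' i := by
  classical
  let E : {x // x ∈ Set.range e} ≃ {x // x ∈ Set.range e'} :=
    (Equiv.ofInjective e e.injective).symm.trans (Equiv.ofInjective e' e'.injective)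
  refine ⟨E.extendSubtype, fun i => ?_⟩
  rw [Equiv.extendSubtype_apply_of_mem E (e i) ⟨i, rfl⟩]
  change ((Equiv.ofInjective e' e'.injective)
    ((Equiv.ofInjective e e.injective).symm ⟨e i, ⟨i, rfl⟩⟩) : Fin n) = e' i
  have : (Equiv.ofInjective e e.injective).symm ⟨e i, ⟨i, rfl⟩⟩ = i := by
    rw [Equiv.symm_apply_eq]; rfl
  rw [this]; rfl

/-- Average over all permutations. -/
theorem avg {n : ℕ} {κ : Type*} [Fintype κ] (e : κ ↪ Fin n) (Φ : (κ → Fin n) → ℝ) :
    (Fintype.card (κ ↪ Fin n) : ℝ) * ∑ h : Equiv.Perm (Fin n), Φ (fun i => h (e i)) =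
      n.factorial * ∑ e' : κ ↪ Fin n, Φ e' := by
  classical
  have h1 : ∀ e' : κ ↪ Fin n, ∑ h : Equiv.Perm (Fin n), Φ (fun i => h (e' i)) =
      ∑ h : Equiv.Perm (Fin n), Φ (fun i => h (e i)) := by
    intro e'
    obtain ⟨p, hp⟩ := exists_perm e e'
    rw [← Equiv.sum_comp (Equiv.mulRight p) (fun h : Equiv.Perm (Fin n) =>
      Φ (fun i => h (e i)))]
    refine Finset.sum_congr rfl (fun h _ => ?_)
    congr 1
    funext i
    simp [hp i]
  have h2 : ∀ h : Equiv.Perm (Fin n), ∑ e' : κ ↪ Fin n, Φ (fun i => h (e' i)) =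
      ∑ e' : κ ↪ Fin n, Φ e' := by
    intro h
    let T : (κ ↪ Fin n) ≃ (κ ↪ Fin n) :=
      { toFun := fun e' => e'.trans h.toEmbedding
        invFun := fun e' => e'.trans h.symm.toEmbedding
        left_inv := fun e' => by ext i; simp
        right_inv := fun e' => by ext i; simp }
    rw [← Equiv.sum_comp T (fun e' : κ ↪ Fin n => Φ e')]
    rfl
  calc (Fintype.card (κ ↪ Fin n) : ℝ) * ∑ h : Equiv.Perm (Fin n), Φ (fun i => h (e i))
      = ∑ e' : κ ↪ Fin n, ∑ h : Equiv.Perm (Fin n), Φ (fun i => h (e' i)) := by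
        rw [Finset.sum_congr rfl (fun e' _ => h1 e')]
        rw [Finset.sum_const, Finset.card_univ, nsmul_eq_mul]
    _ = ∑ h : Equiv.Perm (Fin n), ∑ e' : κ ↪ Fin n, Φ (fun i => h (e' i)) :=
        Finset.sum_comm
    _ = n.factorial * ∑ e' : κ ↪ Fin n, Φ e' := by
        rw [Finset.sum_congr rfl (fun h _ => h2 h), Finset.sum_const, Finset.card_univ,
          nsmul_eq_mul, Fintype.card_perm, Fintype.card_fin]

/-- A weight that does not depend on a coordinate gives zero. -/
theorem vanish {n : ℕ} {ι : Type*} [Fintype ι] [DecidableEq ι] (F c : (ι → Fin n) → ℝ) (i : ι)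
    (hF : ∀ v, ∑ u : Fin n, F (Function.update v i u) = 0)
    (hc : ∀ v u, c (Function.update v i u) = c v) : ∑ v, c v * F v = 0 := by
  have hinv : Function.Involutive (fun p : (ι → Fin n) × Fin n =>
      ((Function.update p.1 i p.2, p.1 i) : (ι → Fin n) × Fin n)) := by
    rintro ⟨v, u⟩
    simp
  have h1 : ∑ p : (ι → Fin n) × Fin n, c p.1 * F p.1 =
      ∑ p : (ι → Fin n) × Fin n, c (Function.update p.1 i p.2) * F (Function.update p.1 i p.2) := by
    rw [← Equiv.sum_comp hinv.toPerm (fun p : (ι → Fin n) × Fin n => c p.1 * F p.1)]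
    rfl
  have h2 : ∑ p : (ι → Fin n) × Fin n, c (Function.update p.1 i p.2) *
      F (Function.update p.1 i p.2) = 0 := by
    rw [Fintype.sum_prod_type]
    refine Finset.sum_eq_zero (fun v _ => ?_)
    simp only [hc]
    rw [← Finset.mul_sum, hF, mul_zero]
  have h3 : ∑ p : (ι → Fin n) × Fin n, c p.1 * F p.1 = n * ∑ v, c v * F v := by
    rw [Fintype.sum_prod_type]
    simp only [Finset.sum_const, Finset.card_univ, Fintype.card_fin, nsmul_eq_mul]
    rw [Finset.mul_sum]
  rcases Nat.eq_zero_or_pos n with hn | hn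
  · subst hn
    refine Finset.sum_eq_zero (fun v _ => ?_)
    exact (v i).elim0
  · have : (n : ℝ) ≠ 0 := by positivity
    have h4 : (n : ℝ) * ∑ v, c v * F v = 0 := by rw [← h3, h1, h2]
    rcases mul_eq_zero.mp h4 with h | h
    · exact absurd h this
    · exact h

/-- Replace the complement by the set in every coordinate, at the cost of a sign. -/
theorem flip {n : ℕ} {ι : Type*} [Fintype ι] [DecidableEq ι] (F : (ι → Fin n) → ℝ)
    (hF : ∀ i v, ∑ u : Fin n, F (Function.update v i u) = 0) (Y : Finset (Fin n)) :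
    ∑ v : ι → Fin n, (∏ i, (if v i ∈ Y then (0 : ℝ) else 1)) * F v =
      (-1) ^ (Fintype.card ι) * ∑ v : ι → Fin n, (∏ i, (if v i ∈ Y then (1 : ℝ) else 0)) * F v := by
  have h1 : ∀ v : ι → Fin n, (∏ i, (if v i ∈ Y then (0 : ℝ) else 1)) =
      ∑ t ∈ (univ : Finset ι).powerset, ∏ i ∈ t, (-(if v i ∈ Y then (1 : ℝ) else 0)) := by
    intro v
    have : ∀ i, (if v i ∈ Y then (0 : ℝ) else 1) = -(if v i ∈ Y then (1 : ℝ) else 0) + 1 := by
      intro i; split_ifs <;> simp
    rw [Finset.prod_congr rfl (fun i _ => this i), Finset.prod_add]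
    refine Finset.sum_congr rfl (fun t _ => ?_)
    simp
  simp only [h1, Finset.sum_mul]
  rw [Finset.sum_comm]
  rw [Finset.sum_eq_single (univ : Finset ι)]
  · rw [Finset.mul_sum]
    refine Finset.sum_congr rfl (fun v _ => ?_)
    rw [Finset.prod_neg, Finset.card_univ, mul_assoc]
  · intro t _ ht
    obtain ⟨i, hi⟩ : ∃ i, i ∉ t := by
      by_contra hcon
      push Not at hcon
      exact ht (Finset.eq_univ_iff_forall.mpr hcon)
    refine vanish F (fun v => ∏ i ∈ t, (-(if v i ∈ Y then (1 : ℝ) else 0))) i (hF i) ?_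
    intro v u
    refine Finset.prod_congr rfl (fun k hk => ?_)
    have : k ≠ i := fun h => hi (h ▸ hk)
    rw [Function.update_of_ne this]
  · intro h; exact absurd (Finset.mem_powerset_self _) h

/-- The tuple which is `v` on `S` and `y ∘ τ` off `S`. -/
def W {n j : ℕ} (S : Finset (Fin j)) (τ : Fin j → Fin j) (y : Fin j → Fin n)
    (v : {i // i ∈ S} → Fin n) : Fin j → Fin n :=
  fun i => if h : i ∈ S then v ⟨i, h⟩ else y (τ i)

theorem W_update {n j : ℕ} (S : Finset (Fin j)) (τ : Fin j → Fin j) (y : Fin j → Fin n)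
    (v : {i // i ∈ S} → Fin n) (i : {i // i ∈ S}) (u : Fin n) :
    W S τ y (Function.update v i u) = Function.update (W S τ y v) i u := by
  funext k
  by_cases hk : k = i
  · subst hk
    simp [W, i.2]
  · rw [Function.update_of_ne hk]
    by_cases hS : k ∈ S
    · have : (⟨k, hS⟩ : {i // i ∈ S}) ≠ i := fun h => hk (congrArg Subtype.val h)
      simp [W, hS, Function.update_of_ne this]
    · simp [W, hS]

theorem sum_emb {n j : ℕ} (S : Finset (Fin j)) (τ : Fin j → Fin j)
    (f : (Fin j → Fin n) → ℝ) (hf : InW f) :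
    ∑ e : (Fin j ⊕ {i // i ∈ S}) ↪ Fin n,
        f (W S τ (fun l => e (Sum.inl l)) (fun i => e (Sum.inr i))) * f (fun l => e (Sum.inl l)) =
      ∑ y : Fin j → Fin n, f y * ∑ v : {i // i ∈ S} → Fin n,
        (∏ i, (if v i ∈ univ.image y then (0 : ℝ) else 1)) * f (W S τ y v) := by
  classical
  let G : ((Fin j ⊕ {i // i ∈ S}) → Fin n) → ℝ := fun e =>
    f (W S τ (fun l => e (Sum.inl l)) (fun i => e (Sum.inr i))) * f (fun l => e (Sum.inl l))
  have h1 : ∑ e : (Fin j ⊕ {i // i ∈ S}) ↪ Fin n, G e =
      ∑ e : (Fin j ⊕ {i // i ∈ S}) → Fin n, if Function.Injective e then G e else 0 := by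
    rw [← Finset.sum_filter]
    rw [← Equiv.sum_comp (Equiv.subtypeInjectiveEquivEmbedding (Fin j ⊕ {i // i ∈ S}) (Fin n))]
    exact (Finset.sum_subtype (p := fun e : (Fin j ⊕ {i // i ∈ S}) → Fin n =>
      Function.Injective e) (univ.filter (fun e => Function.Injective e)) (by simp) G).symm
  change ∑ e : (Fin j ⊕ {i // i ∈ S}) ↪ Fin n, G e = _
  rw [h1]
  have h2 : ∀ e : (Fin j ⊕ {i // i ∈ S}) → Fin n, (if Function.Injective e then G e else 0) =
      f (fun l => e (Sum.inl l)) *
        ((∏ i, (if e (Sum.inr i) ∈ univ.image (fun l => e (Sum.inl l)) then (0 : ℝ) else 1)) *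
          f (W S τ (fun l => e (Sum.inl l)) (fun i => e (Sum.inr i)))) := by
    intro e
    by_cases he : Function.Injective e
    · rw [if_pos he]
      have : (∏ i : {i // i ∈ S}, (if e (Sum.inr i) ∈ univ.image (fun l => e (Sum.inl l))
          then (0 : ℝ) else 1)) = 1 := by
        refine Finset.prod_eq_one (fun i _ => ?_)
        rw [if_neg]
        intro hmem
        obtain ⟨l, _, hl⟩ := Finset.mem_image.mp hmem
        have := he hl
        simp at this
      rw [this, one_mul]
      change f _ * f _ = _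
      ring
    · rw [if_neg he]
      by_cases h3 : Function.Injective (fun l => e (Sum.inl l))
      · by_cases h4 : ∃ i : {i // i ∈ S}, e (Sum.inr i) ∈ univ.image (fun l => e (Sum.inl l))
        · obtain ⟨i, hi⟩ := h4
          have : (∏ i : {i // i ∈ S}, (if e (Sum.inr i) ∈ univ.image (fun l => e (Sum.inl l))
              then (0 : ℝ) else 1)) = 0 :=
            Finset.prod_eq_zero (Finset.mem_univ i) (by rw [if_pos hi])
          rw [this]; ring
        · have h5 : ¬ Function.Injective (W S τ (fun l => e (Sum.inl l))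
              (fun i => e (Sum.inr i))) := by
            intro h6
            apply he
            push Not at h4
            rintro (a | a) (b | b) hab
            · rw [h3 hab]
            · exact absurd (Finset.mem_image.mpr ⟨a, Finset.mem_univ _, hab⟩) (h4 b)
            · exact absurd (Finset.mem_image.mpr ⟨b, Finset.mem_univ _, hab.symm⟩) (h4 a)
            · have h7 : (a : Fin j) = b := by
                apply h6
                simpa [W, a.2, b.2] using hab
              rw [Subtype.ext h7]
          rw [hf.1 _ h5]; ring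
      · rw [hf.1 _ h3]; ring
  rw [Finset.sum_congr rfl (fun e _ => h2 e)]
  rw [← Equiv.sum_comp (Equiv.sumArrowEquivProdArrow (Fin j) {i // i ∈ S} (Fin n)).symm]
  rw [Fintype.sum_prod_type]
  refine Finset.sum_congr rfl (fun y _ => ?_)
  rw [Finset.mul_sum]
  rfl

/-- The number of fillings of `S` giving an injective tuple of indices is at most `|S|!`. -/
theorem card_fill {j : ℕ} (S : Finset (Fin j)) (τ : Fin j → Fin j)
    (hτ : ∀ a ∉ S, ∀ b ∉ S, τ a = τ b → a = b) :
    ((univ : Finset ({i // i ∈ S} → Fin j)).filter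
      (fun ρ => Function.Injective (W S τ (fun l => l) ρ))).card ≤ S.card.factorial := by
  classical
  let R : Finset (Fin j) := univ \ (univ \ S).image τ
  have hR : R.card = S.card := by
    have h1 : ((univ \ S).image τ).card = (univ \ S).card := by
      apply Finset.card_image_of_injOn
      intro a ha b hb hab
      simp only [Finset.coe_sdiff, Finset.coe_univ, Set.mem_sdiff, Set.mem_univ, true_and,
        Finset.mem_coe] at ha hb
      exact hτ a ha b hb hab
    have h2 := Finset.card_sdiff_add_card_eq_card (Finset.subset_univ ((univ \ S).image τ))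
    have h3 := Finset.card_sdiff_add_card_eq_card (Finset.subset_univ S)
    change (univ \ (univ \ S).image τ).card = S.card
    omega
  have h4 : Fintype.card ({i // i ∈ S} ↪ {i // i ∈ R}) = S.card.factorial := by
    rw [Fintype.card_embedding_eq, Fintype.card_coe, Fintype.card_coe, hR,
      Nat.descFactorial_self]
  rw [← h4, ← Fintype.card_coe]
  have hmem : ∀ ρ : {x // x ∈ (univ : Finset ({i // i ∈ S} → Fin j)).filter
      (fun ρ => Function.Injective (W S τ (fun l => l) ρ))}, ∀ i, ρ.1 i ∈ R := by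
    intro ρ i
    have hinj := (Finset.mem_filter.mp ρ.2).2
    simp only [R, Finset.mem_sdiff, Finset.mem_univ, true_and, Finset.mem_image, not_exists,
      not_and]
    intro a ha hai
    have h5 : W S τ (fun l => l) ρ.1 a = W S τ (fun l => l) ρ.1 i := by
      simp [W, ha, hai]
    have := hinj h5
    exact ha (this ▸ i.2)
  refine Fintype.card_le_of_injective (fun ρ =>
    (⟨fun i => ⟨ρ.1 i, hmem ρ i⟩, ?_⟩ : {i // i ∈ S} ↪ {i // i ∈ R})) ?_
  · intro a b hab
    have hinj := (Finset.mem_filter.mp ρ.2).2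
    have h5 : ρ.1 a = ρ.1 b := congrArg Subtype.val hab
    have h6 : W S τ (fun l => l) ρ.1 a = W S τ (fun l => l) ρ.1 b := by
      simp [W, h5]
    exact Subtype.ext (hinj h6)
  · intro ρ ρ' h
    apply Subtype.ext
    funext i
    have := congrArg (fun e : {i // i ∈ S} ↪ {i // i ∈ R} => ((e i : {i // i ∈ R}) : Fin j)) h
    simpa using this

/-- The main estimate. -/
theorem main {n j : ℕ} (S : Finset (Fin j)) (τ : Fin j → Fin j)
    (hτ : ∀ a ∉ S, ∀ b ∉ S, τ a = τ b → a = b) (f : (Fin j → Fin n) → ℝ) (hf : InW f) :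
    ∑ y : Fin j → Fin n, f y * ∑ v : {i // i ∈ S} → Fin n,
        (∏ i, (if v i ∈ univ.image y then (0 : ℝ) else 1)) * f (W S τ y v) ≤
      S.card.factorial * ∑ y, f y ^ 2 := by
  classical
  have h1 : ∀ y : Fin j → Fin n, Function.Injective y →
      ∑ v : {i // i ∈ S} → Fin n, (∏ i, (if v i ∈ univ.image y then (0 : ℝ) else 1)) *
        f (W S τ y v) = (-1) ^ S.card * ∑ ρ ∈ (univ : Finset ({i // i ∈ S} → Fin j)).filter
      (fun ρ => Function.Injective (W S τ (fun l => l) ρ)),
        f (fun l => y (W S τ (fun l => l) ρ l)) := by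
    intro y hy
    rw [flip (fun v => f (W S τ y v)) _ (univ.image y)]
    · rw [Fintype.card_coe]
      congr 1
      have h2 : ∀ v : {i // i ∈ S} → Fin n, (∏ i, (if v i ∈ univ.image y then (1 : ℝ) else 0)) *
          f (W S τ y v) = if ∀ i, v i ∈ univ.image y then f (W S τ y v) else 0 := by
        intro v
        by_cases h : ∀ i, v i ∈ univ.image y
        · rw [if_pos h, Finset.prod_eq_one (fun i _ => by rw [if_pos (h i)]), one_mul]
        · rw [if_neg h]
          push Not at h
          obtain ⟨i, hi⟩ := h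
          rw [Finset.prod_eq_zero (Finset.mem_univ i) (by rw [if_neg hi]), zero_mul]
      rw [Finset.sum_congr rfl (fun v _ => h2 v), ← Finset.sum_filter]
      symm
      have h3 : ∑ ρ ∈ (univ : Finset ({i // i ∈ S} → Fin j)).filter
          (fun ρ => Function.Injective (W S τ (fun l => l) ρ)),
          f (fun l => y (W S τ (fun l => l) ρ l)) =
          ∑ ρ : {i // i ∈ S} → Fin j, f (W S τ y (fun i => y (ρ i))) := by
        rw [Finset.sum_filter]
        refine Finset.sum_congr rfl (fun ρ _ => ?_)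
        have h4 : (fun l => y (W S τ (fun l => l) ρ l)) = W S τ y (fun i => y (ρ i)) := by
          funext l
          by_cases hl : l ∈ S <;> simp [W, hl]
        rw [h4]
        split_ifs with h5
        · rfl
        · rw [hf.1]
          rw [← h4]
          intro h6
          exact h5 (fun a b hab => h6 (by simp only [hab]))
      rw [h3]
      refine Finset.sum_bij (fun ρ _ => fun i => y (ρ i)) ?_ ?_ ?_ ?_
      · intro ρ _
        rw [Finset.mem_filter]
        exact ⟨Finset.mem_univ _, fun i => Finset.mem_image.mpr ⟨ρ i, Finset.mem_univ _, rfl⟩⟩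
      · intro ρ _ ρ' _ h
        funext i
        exact hy (congrFun h i)
      · intro v hv
        have hv' := (Finset.mem_filter.mp hv).2
        choose ρ hρ using fun i => Finset.mem_image.mp (hv' i)
        exact ⟨ρ, Finset.mem_univ _, funext fun i => (hρ i).2⟩
      · intro ρ _
        rfl
    · intro i v
      have := hf.2 i (W S τ y v)
      simp only [W_update]
      exact this
  have h5 : ∀ y : Fin j → Fin n, f y * ∑ v : {i // i ∈ S} → Fin n,
        (∏ i, (if v i ∈ univ.image y then (0 : ℝ) else 1)) * f (W S τ y v) ≤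
      ∑ ρ ∈ (univ : Finset ({i // i ∈ S} → Fin j)).filter
      (fun ρ => Function.Injective (W S τ (fun l => l) ρ)),
        (1 / 2 * (f y ^ 2) + 1 / 2 * f (fun l => y (W S τ (fun l => l) ρ l)) ^ 2) := by
    intro y
    by_cases hy : Function.Injective y
    · rw [h1 y hy, ← mul_assoc, Finset.mul_sum]
      refine Finset.sum_le_sum (fun ρ _ => ?_)
      rcases neg_one_pow_eq_or ℝ S.card with h | h <;> rw [h] <;>
        nlinarith [sq_nonneg (f y - f (fun l => y (W S τ (fun l => l) ρ l))),
          sq_nonneg (f y + f (fun l => y (W S τ (fun l => l) ρ l)))]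
    · rw [hf.1 y hy, zero_mul]
      exact Finset.sum_nonneg (fun ρ _ => by positivity)
  refine le_trans (Finset.sum_le_sum (fun y _ => h5 y)) ?_
  rw [Finset.sum_comm]
  have h6 : ∀ ρ ∈ (univ : Finset ({i // i ∈ S} → Fin j)).filter
      (fun ρ => Function.Injective (W S τ (fun l => l) ρ)),
      ∑ y : Fin j → Fin n,
        (1 / 2 * (f y ^ 2) + 1 / 2 * f (fun l => y (W S τ (fun l => l) ρ l)) ^ 2) =
      ∑ y, f y ^ 2 := by
    intro ρ hρ
    have hinj := (Finset.mem_filter.mp hρ).2
    let π : Equiv.Perm (Fin j) := Equiv.ofBijective _ (Finite.injective_iff_bijective.mp hinj)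
    have h7 : ∑ y : Fin j → Fin n, f (fun l => y (W S τ (fun l => l) ρ l)) ^ 2 =
        ∑ y : Fin j → Fin n, f y ^ 2 := by
      rw [← Equiv.sum_comp (Equiv.arrowCongr π.symm (Equiv.refl (Fin n)))
        (fun y : Fin j → Fin n => f y ^ 2)]
      rfl
    rw [Finset.sum_add_distrib, ← Finset.mul_sum, ← Finset.mul_sum, h7]
    ring
  rw [Finset.sum_congr rfl h6, Finset.sum_const, nsmul_eq_mul]
  refine mul_le_mul_of_nonneg_right ?_ (Finset.sum_nonneg (fun y _ => by positivity))
  exact_mod_cast card_fill S τ hτ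

theorem pair_bound {n j : ℕ} (σ : Equiv.Perm (Fin n)) (y : Fin j ↪ Fin n)
    (f : (Fin j → Fin n) → ℝ) (hf : InW f) :
    (n.descFactorial j : ℝ) * ∑ h : Equiv.Perm (Fin n), f (h • (σ • (y : Fin j → Fin n))) *
      f (h • (y : Fin j → Fin n)) ≤
      n.factorial * (1 / ((n - j).choose (outN σ y) : ℝ)) * ∑ y, f y ^ 2 := by
  classical
  let S : Finset (Fin j) := univ.filter (fun i : Fin j => ∀ l, σ (y i) ≠ y l)
  have hScard : outN σ y = S.card := by
    unfold outN
    congr!
  have hmemS : ∀ i, i ∈ S ↔ ∀ l, σ (y i) ≠ y l := fun i => by simp [S]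
  have hτex : ∀ i : Fin j, ∃ l : Fin j, i ∉ S → σ (y i) = y l := by
    intro i
    by_cases hi : i ∈ S
    · exact ⟨i, fun h => absurd hi h⟩
    · rw [hmemS] at hi
      push Not at hi
      obtain ⟨l, hl⟩ := hi
      exact ⟨l, fun _ => hl⟩
  choose τ hτ using hτex
  have hτinj : ∀ a ∉ S, ∀ b ∉ S, τ a = τ b → a = b := by
    intro a ha b hb hab
    have h1 := hτ a ha
    rw [hab, ← hτ b hb] at h1
    exact y.injective (σ.injective h1)
  let e : (Fin j ⊕ {i // i ∈ S}) ↪ Fin n :=
    ⟨Sum.elim y (fun i => σ (y i)), by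
      rintro (a | a) (b | b) hab
      · rw [y.injective hab]
      · exact absurd hab.symm ((hmemS b).mp b.2 a)
      · exact absurd hab ((hmemS a).mp a.2 b)
      · have := y.injective (σ.injective hab)
        rw [Subtype.ext this]⟩
  have hn : (0 : ℝ) < Fintype.card ((Fin j ⊕ {i // i ∈ S}) ↪ Fin n) := by
    have : 0 < Fintype.card ((Fin j ⊕ {i // i ∈ S}) ↪ Fin n) := Fintype.card_pos_iff.mpr ⟨e⟩
    exact_mod_cast this
  have hcard : Fintype.card ((Fin j ⊕ {i // i ∈ S}) ↪ Fin n) =
      n.descFactorial j * (S.card.factorial * (n - j).choose S.card) := by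
    rw [Fintype.card_embedding_eq, Fintype.card_sum, Fintype.card_fin, Fintype.card_fin,
      Fintype.card_coe, ← Nat.descFactorial_mul_descFactorial (Nat.le_add_right j S.card),
      Nat.add_sub_cancel_left, Nat.descFactorial_eq_factorial_mul_choose (n - j) S.card]
    ring
  let Φ : ((Fin j ⊕ {i // i ∈ S}) → Fin n) → ℝ := fun e =>
    f (W S τ (fun l => e (Sum.inl l)) (fun i => e (Sum.inr i))) * f (fun l => e (Sum.inl l))
  have h1 := avg e Φ
  have h2 : ∀ h : Equiv.Perm (Fin n), Φ (fun i => h (e i)) =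
      f (h • (σ • (y : Fin j → Fin n))) * f (h • (y : Fin j → Fin n)) := by
    intro h
    change f _ * f _ = _
    congr 1
    congr 1
    funext i
    by_cases hi : i ∈ S
    · simp only [W, hi, dif_pos]
      rfl
    · simp only [W, hi, dif_neg, not_false_eq_true]
      change h (y (τ i)) = h (σ (y i))
      rw [hτ i hi]
  rw [Finset.sum_congr rfl (fun h _ => h2 h)] at h1
  have h3 : ∑ e' : (Fin j ⊕ {i // i ∈ S}) ↪ Fin n, Φ e' ≤ S.card.factorial * ∑ y, f y ^ 2 := by
    have := sum_emb S τ f hf
    change ∑ e' : (Fin j ⊕ {i // i ∈ S}) ↪ Fin n, Φ e' = _ at this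
    rw [this]
    exact main S τ hτinj f hf
  rw [hcard] at h1 hn
  push_cast at h1 hn
  rw [hScard]
  have hC : (0 : ℝ) < (n - j).choose S.card := by
    rcases (Nat.cast_nonneg ((n - j).choose S.card) : (0 : ℝ) ≤ _).lt_or_eq with h | h
    · exact h
    · rw [← h] at hn; simp at hn
  have hF : (0 : ℝ) < S.card.factorial := by exact_mod_cast S.card.factorial_pos
  have h4 : ((n.descFactorial j : ℝ) * ∑ h : Equiv.Perm (Fin n),
      f (h • (σ • (y : Fin j → Fin n))) * f (h • (y : Fin j → Fin n))) *
      (S.card.factorial * (n - j).choose S.card) ≤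
      n.factorial * (S.card.factorial * ∑ y, f y ^ 2) := by
    calc _ = (n.descFactorial j : ℝ) * (S.card.factorial * (n - j).choose S.card) *
        ∑ h : Equiv.Perm (Fin n),
          f (h • (σ • (y : Fin j → Fin n))) * f (h • (y : Fin j → Fin n)) := by ring
      _ = _ := h1
      _ ≤ _ := mul_le_mul_of_nonneg_left h3 (by positivity)
  rw [← sub_nonneg] at h4 ⊢
  have h5 : n.factorial * (S.card.factorial * ∑ y, f y ^ 2) -
      ((n.descFactorial j : ℝ) * ∑ h : Equiv.Perm (Fin n),
      f (h • (σ • (y : Fin j → Fin n))) * f (h • (y : Fin j → Fin n))) *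
      (S.card.factorial * (n - j).choose S.card) =
      (S.card.factorial * (n - j).choose S.card) *
      (n.factorial * (1 / ((n - j).choose S.card : ℝ)) * ∑ y, f y ^ 2 -
      (n.descFactorial j : ℝ) * ∑ h : Equiv.Perm (Fin n),
      f (h • (σ • (y : Fin j → Fin n))) * f (h • (y : Fin j → Fin n))) := by
    field_simp
  rw [h5] at h4
  exact nonneg_of_mul_nonneg_right h4 (by positivity)

end Pool.Agent.RC.Op

namespace Pool.Agent.RC

open Op in
theorem op {n j : ℕ} {Z : Type*} [Fintype Z] (g : Z → Equiv.Perm (Fin n))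
    (hconj : ∀ h : Equiv.Perm (Fin n), ∃ e : Z ≃ Z, ∀ z, g (e z) = h * g z * h⁻¹) (β : ℝ)
    (hβ : ∑ z, ∑ y : Fin j ↪ Fin n, (1 / ((n - j).choose (outN (g z) y) : ℝ)) ≤
      β * Fintype.card Z * n.descFactorial j)
    (f : (Fin j → Fin n) → ℝ) (hf : InW f) :
    ∑ z, ∑ y, f (g z • y) * f y ≤ β * Fintype.card Z * ∑ y, f y ^ 2 := by
  classical
  have hF : 0 ≤ ∑ y, f y ^ 2 := Finset.sum_nonneg (fun y _ => by positivity)
  -- restrict to injective tuples
  have hinj : ∀ G : (Fin j → Fin n) → ℝ, (∀ y, ¬ Function.Injective y → G y = 0) →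
      ∑ y, G y = ∑ y : Fin j ↪ Fin n, G y := by
    intro G hG
    rw [← Equiv.sum_comp (Equiv.subtypeInjectiveEquivEmbedding (Fin j) (Fin n))]
    have h1 : ∑ y : {y : Fin j → Fin n // Function.Injective y}, G y =
        ∑ y ∈ univ.filter (fun y : Fin j → Fin n => Function.Injective y), G y :=
      (Finset.sum_subtype (p := fun y : Fin j → Fin n => Function.Injective y)
        (univ.filter (fun y => Function.Injective y)) (by simp) G).symm
    have h2 : ∑ y ∈ univ.filter (fun y : Fin j → Fin n => Function.Injective y), G y =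
        ∑ y, G y := by
      rw [Finset.sum_filter]
      refine Finset.sum_congr rfl (fun y _ => ?_)
      split_ifs with h
      · rfl
      · rw [hG y h]
    rw [← h2, ← h1]
    rfl
  -- average over conjugations
  have havg : ∀ h : Equiv.Perm (Fin n), ∑ z, ∑ y, f (g z • y) * f y =
      ∑ z, ∑ y : Fin j ↪ Fin n, f (h • (g z • (y : Fin j → Fin n))) *
        f (h • (y : Fin j → Fin n)) := by
    intro h
    obtain ⟨e, he⟩ := hconj h
    rw [← Equiv.sum_comp e (fun z => ∑ y, f (g z • y) * f y)]
    refine Finset.sum_congr rfl (fun z _ => ?_)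
    rw [← Equiv.sum_comp (MulAction.toPerm h) (fun y : Fin j → Fin n => f (g (e z) • y) * f y)]
    rw [← hinj (fun y => f (h • (g z • y)) * f (h • y))]
    · refine Finset.sum_congr rfl (fun y _ => ?_)
      rw [he]
      simp only [MulAction.toPerm_apply]
      congr 2
      rw [mul_smul, inv_smul_smul, mul_smul]
    · intro y hy
      have : ¬ Function.Injective (h • y) := by
        intro h1
        apply hy
        intro a b hab
        apply h1
        change h (y a) = h (y b)
        rw [hab]
      rw [hf.1 _ this, mul_zero]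
  have hsum : (n.factorial : ℝ) * ∑ z, ∑ y, f (g z • y) * f y =
      ∑ z, ∑ y : Fin j ↪ Fin n, ∑ h : Equiv.Perm (Fin n),
        f (h • (g z • (y : Fin j → Fin n))) * f (h • (y : Fin j → Fin n)) := by
    have h1 : (n.factorial : ℝ) * ∑ z, ∑ y, f (g z • y) * f y =
        ∑ h : Equiv.Perm (Fin n), ∑ z, ∑ y, f (g z • y) * f y := by
      rw [Finset.sum_const, Finset.card_univ, nsmul_eq_mul, Fintype.card_perm, Fintype.card_fin]
    rw [h1, Finset.sum_congr rfl (fun h _ => havg h), Finset.sum_comm]
    refine Finset.sum_congr rfl (fun z _ => ?_)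
    rw [Finset.sum_comm]
  have hfac : (0 : ℝ) < n.factorial := by exact_mod_cast n.factorial_pos
  rcases Nat.eq_zero_or_pos (n.descFactorial j) with hd | hd
  · have hempty : IsEmpty (Fin j ↪ Fin n) := by
      rw [← Fintype.card_eq_zero_iff, Fintype.card_embedding_eq]
      simpa using hd
    have h0 : ∑ y, f y ^ 2 = 0 := by
      rw [hinj (fun y => f y ^ 2) (fun y hy => by rw [hf.1 y hy]; simp)]
      exact Fintype.sum_empty _
    rw [h0, mul_zero]
    have h1 : (n.factorial : ℝ) * ∑ z, ∑ y, f (g z • y) * f y = 0 := by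
      rw [hsum]
      refine Finset.sum_eq_zero (fun z _ => ?_)
      exact Fintype.sum_empty _
    rcases mul_eq_zero.mp h1 with h | h
    · exact absurd h hfac.ne'
    · exact h.le
  · have hd' : (0 : ℝ) < n.descFactorial j := by exact_mod_cast hd
    have h1 : (n.descFactorial j : ℝ) * (n.factorial * ∑ z, ∑ y, f (g z • y) * f y) ≤
        n.factorial * (∑ y, f y ^ 2) * (β * Fintype.card Z * n.descFactorial j) := by
      rw [hsum, Finset.mul_sum]
      calc ∑ z, (n.descFactorial j : ℝ) * ∑ y : Fin j ↪ Fin n, ∑ h : Equiv.Perm (Fin n),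
            f (h • (g z • (y : Fin j → Fin n))) * f (h • (y : Fin j → Fin n))
          ≤ ∑ z, ∑ y : Fin j ↪ Fin n, n.factorial *
            (1 / ((n - j).choose (outN (g z) y) : ℝ)) * ∑ y, f y ^ 2 := by
            refine Finset.sum_le_sum (fun z _ => ?_)
            rw [Finset.mul_sum]
            exact Finset.sum_le_sum (fun y _ => pair_bound (g z) y f hf)
        _ = n.factorial * (∑ y, f y ^ 2) *
            ∑ z, ∑ y : Fin j ↪ Fin n, (1 / ((n - j).choose (outN (g z) y) : ℝ)) := by
            rw [Finset.mul_sum]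
            refine Finset.sum_congr rfl (fun z _ => ?_)
            rw [Finset.mul_sum]
            refine Finset.sum_congr rfl (fun y _ => ?_)
            ring
        _ ≤ _ := mul_le_mul_of_nonneg_left hβ (by positivity)
    have h2 : (n.descFactorial j * n.factorial : ℝ) * ∑ z, ∑ y, f (g z • y) * f y ≤
        (n.descFactorial j * n.factorial : ℝ) * (β * Fintype.card Z * ∑ y, f y ^ 2) := by
      calc _ = (n.descFactorial j : ℝ) * (n.factorial * ∑ z, ∑ y, f (g z • y) * f y) := by ring
        _ ≤ _ := h1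
        _ = _ := by ring
    exact le_of_mul_le_mul_left h2 (by positivity)

end Pool.Agent.RC
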