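import Pool.Agent.Helper46.RC.Proc

/-!
# Dimension bound by a trace (module DimB)
-/

open Finset

namespace Pool.Agent.RC

open scoped InnerProductSpace

namespace DimB

variable {E : Type*} [NormedAddCommGroup E] [InnerProductSpace ℝ E] {ι : Type*} [Fintype ι]

/-- vectors with the same coordinates are equal -/
theorem ext_coord (b : OrthonormalBasis ι ℝ E) {v w : E} (h : ∀ i, ⟪b i, v⟫_ℝ = ⟪b i, w⟫_ℝ) :
    v = w := by
  apply b.repr.injective
  ext i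
  rw [OrthonormalBasis.repr_apply_apply, OrthonormalBasis.repr_apply_apply, h i]

/-- diagonal operator -/
noncomputable def dg (b : OrthonormalBasis ι ℝ E) (w : ι → ℝ) : E →ₗ[ℝ] E :=
  ∑ i, w i • ((innerₛₗ ℝ (b i)).smulRight (b i))

theorem coord_dg (b : OrthonormalBasis ι ℝ E) (w : ι → ℝ) (v : E) (i : ι) :
    ⟪b i, dg b w v⟫_ℝ = w i * ⟪b i, v⟫_ℝ := by
  classical
  unfold dg
  rw [LinearMap.sum_apply, inner_sum, Finset.sum_eq_single i]
  · rw [LinearMap.smul_apply, LinearMap.smulRight_apply, inner_smul_right, inner_smul_right,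
      b.inner_eq_one i, mul_one]
    rfl
  · intro j _ hj
    rw [LinearMap.smul_apply, LinearMap.smulRight_apply, inner_smul_right, inner_smul_right,
      b.inner_eq_zero (Ne.symm hj), mul_zero, mul_zero]
  · intro h
    exact absurd (Finset.mem_univ i) h

/-- the spectral theorem: a symmetric operator is diagonal -/
theorem eq_dg [FiniteDimensional ℝ E] {A : E →ₗ[ℝ] E} (hA : A.IsSymmetric) :
    ∃ (b : OrthonormalBasis (Fin (Module.finrank ℝ E)) ℝ E) (w : Fin (Module.finrank ℝ E) → ℝ),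
      ∀ v i, ⟪b i, A v⟫_ℝ = w i * ⟪b i, v⟫_ℝ := by
  refine ⟨hA.eigenvectorBasis rfl, hA.eigenvalues rfl, fun v i => ?_⟩
  rw [← hA (hA.eigenvectorBasis rfl i) v, hA.apply_eigenvectorBasis rfl i, inner_smul_left]
  rfl

theorem norm_sq (b : OrthonormalBasis ι ℝ E) (v : E) : ‖v‖ ^ 2 = ∑ i, ⟪b i, v⟫_ℝ ^ 2 :=
  (b.sum_sq_inner_right v).symm

theorem inner_diag (b : OrthonormalBasis ι ℝ E) {A : E →ₗ[ℝ] E} {w : ι → ℝ}
    (h : ∀ v i, ⟪b i, A v⟫_ℝ = w i * ⟪b i, v⟫_ℝ) (v : E) :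
    ⟪A v, v⟫_ℝ = ∑ i, w i * ⟪b i, v⟫_ℝ ^ 2 := by
  rw [← OrthonormalBasis.sum_inner_mul_inner b (A v) v]
  refine Finset.sum_congr rfl fun i _ => ?_
  rw [real_inner_comm, h]
  ring

/-- an eigenvalue is a value of the form -/
theorem weight_eq (b : OrthonormalBasis ι ℝ E) {A : E →ₗ[ℝ] E} {w : ι → ℝ}
    (h : ∀ v i, ⟪b i, A v⟫_ℝ = w i * ⟪b i, v⟫_ℝ) (i : ι) : w i = ⟪A (b i), b i⟫_ℝ := by
  rw [real_inner_comm, h, b.inner_eq_one i, mul_one]

theorem coord_pow (b : OrthonormalBasis ι ℝ E) {A : E →ₗ[ℝ] E} {w : ι → ℝ}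
    (h : ∀ v i, ⟪b i, A v⟫_ℝ = w i * ⟪b i, v⟫_ℝ) (k : ℕ) (v : E) (i : ι) :
    ⟪b i, (A ^ k) v⟫_ℝ = w i ^ k * ⟪b i, v⟫_ℝ := by
  induction k with
  | zero => simp
  | succ k ih =>
    rw [pow_succ', Module.End.mul_apply, h, ih]
    ring

theorem trace_cyc [FiniteDimensional ℝ E] (A B : E →ₗ[ℝ] E) (K : ℕ) :
    LinearMap.trace ℝ E ((A * B) ^ K) = LinearMap.trace ℝ E ((B * A) ^ K) := by
  cases K with
  | zero => rw [pow_zero, pow_zero]
  | succ K =>
    have h1 : ∀ k : ℕ, (A * B) ^ (k + 1) = A * ((B * A) ^ k * B) := by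
      intro k
      induction k with
      | zero => rw [zero_add, pow_one, pow_zero, one_mul]
      | succ k ih =>
        rw [pow_succ' (A * B), ih, pow_succ' (B * A)]
        simp only [mul_assoc]
    rw [h1 K, LinearMap.trace_mul_comm, mul_assoc, ← pow_succ]

/-- a subspace on which the form of a symmetric operator is large gives a lower bound of the
trace of an even power -/
theorem trace_ge [FiniteDimensional ℝ E] {C : E →ₗ[ℝ] E} (hC : C.IsSymmetric) (θ : ℝ)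
    (hθ : 0 ≤ θ) (W : Submodule ℝ E) (hW : ∀ h ∈ W, θ * ‖h‖ ^ 2 ≤ ⟪C h, h⟫_ℝ) (K : ℕ)
    (hK : Even K) :
    (Module.finrank ℝ W : ℝ) * θ ^ K ≤ LinearMap.trace ℝ E (C ^ K) := by
  classical
  obtain ⟨b, w, h⟩ := eq_dg hC
  obtain ⟨J, hJ⟩ : ∃ J : Finset (Fin (Module.finrank ℝ E)), J = univ.filter (fun i => θ ≤ w i) :=
    ⟨_, rfl⟩
  have hmem : ∀ i, i ∈ J ↔ θ ≤ w i := by
    intro i
    rw [hJ, Finset.mem_filter]
    exact ⟨fun h => h.2, fun h => ⟨Finset.mem_univ i, h⟩⟩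
  have htr : LinearMap.trace ℝ E (C ^ K) = ∑ i, w i ^ K := by
    rw [LinearMap.trace_eq_sum_inner (C ^ K) b]
    refine Finset.sum_congr rfl fun i _ => ?_
    rw [coord_pow b h, b.inner_eq_one i, mul_one]
  have hdim : Module.finrank ℝ W ≤ J.card := by
    let F : W →ₗ[ℝ] (J → ℝ) := LinearMap.pi fun i => (innerₛₗ ℝ (b i)).comp W.subtype
    have hF : Function.Injective F := by
      rw [← LinearMap.ker_eq_bot, LinearMap.ker_eq_bot']
      intro v hv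
      have hv' : ∀ i ∈ J, ⟪b i, (v : E)⟫_ℝ = 0 := by
        intro i hi
        have := congrFun hv ⟨i, hi⟩
        exact this
      by_contra hne
      have h1 := hW v v.2
      rw [inner_diag b h, norm_sq b, Finset.mul_sum] at h1
      have h2 : ∑ i, w i * ⟪b i, (v : E)⟫_ℝ ^ 2 < ∑ i, θ * ⟪b i, (v : E)⟫_ℝ ^ 2 := by
        refine Finset.sum_lt_sum ?_ ?_
        · intro i _
          by_cases hi : i ∈ J
          · rw [hv' i hi]; simp
          · rw [hmem, not_le] at hi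
            exact mul_le_mul_of_nonneg_right hi.le (sq_nonneg _)
        · have hex : ∃ i, ⟪b i, (v : E)⟫_ℝ ≠ 0 := by
            by_contra hall
            push Not at hall
            apply hne
            apply Subtype.ext
            refine ext_coord b fun i => ?_
            rw [hall i]
            simp
          obtain ⟨i, hi⟩ := hex
          have hiJ : i ∉ J := fun hiJ => hi (hv' i hiJ)
          rw [hmem, not_le] at hiJ
          exact ⟨i, Finset.mem_univ i, mul_lt_mul_of_pos_right hiJ (by positivity)⟩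
      exact absurd h1 (not_le.2 h2)
    have h3 := LinearMap.finrank_le_finrank_of_injective hF
    rw [Module.finrank_fintype_fun_eq_card, Fintype.card_coe] at h3
    exact h3
  rw [htr]
  calc (Module.finrank ℝ W : ℝ) * θ ^ K ≤ J.card * θ ^ K := by
        refine mul_le_mul_of_nonneg_right ?_ (pow_nonneg hθ K)
        exact_mod_cast hdim
    _ = ∑ i ∈ J, θ ^ K := by rw [Finset.sum_const, nsmul_eq_mul]
    _ ≤ ∑ i ∈ J, w i ^ K :=
        Finset.sum_le_sum fun i hi => pow_le_pow_left₀ hθ ((hmem i).1 hi) K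
    _ ≤ ∑ i, w i ^ K :=
        Finset.sum_le_sum_of_subset_of_nonneg (Finset.subset_univ J)
          fun i _ _ => hK.pow_nonneg (w i)

end DimB

open DimB in
theorem dimb {E : Type*} [NormedAddCommGroup E] [InnerProductSpace ℝ E]
    [FiniteDimensional ℝ E] (L T : E →ₗ[ℝ] E) (hL : L.IsSymmetric) (hT : T.IsSymmetric)
    (hL0 : ∀ v, 0 ≤ ⟪L v, v⟫_ℝ) (hL1 : ∀ v, ⟪L v, v⟫_ℝ ≤ ‖v‖ ^ 2) (hT1 : ∀ v, ‖T v‖ ≤ ‖v‖)
    (ε : ℝ) (hε : 0 < ε) (hε' : ε ≤ 1 / 2) (U : Submodule ℝ E)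
    (hUL : ∀ v ∈ U, ‖v‖ ^ 2 - ⟪L v, v⟫_ℝ ≤ ε / 100 * ‖v‖ ^ 2)
    (hUT : ∀ v ∈ U, ‖v‖ ^ 2 - ⟪T v, v⟫_ℝ ≤ ε / 100 * ‖v‖ ^ 2) (a K : ℕ) (ha : Even a)
    (hK : Even K) :
    (Module.finrank ℝ U : ℝ) * (1 / 2 * (1 - ε) ^ a) ^ K ≤
      LinearMap.trace ℝ E ((L ^ a * T) ^ K) := by
  classical
  obtain ⟨m, hm⟩ := ha
  obtain ⟨b, l, hb⟩ := eq_dg hL
  have hl0 : ∀ i, 0 ≤ l i := fun i => by rw [weight_eq b hb i]; exact hL0 _
  have hl1 : ∀ i, l i ≤ 1 := fun i => by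
    rw [weight_eq b hb i]
    refine (hL1 _).trans ?_
    rw [b.norm_eq_one i, one_pow]
  obtain ⟨χ, hχ⟩ : ∃ χ : Fin (Module.finrank ℝ E) → ℝ,
      ∀ i, χ i = if 1 - ε < l i then 1 else 0 := ⟨_, fun _ => rfl⟩
  obtain ⟨P, hP⟩ : ∃ P : E →ₗ[ℝ] E, P = dg b χ := ⟨_, rfl⟩
  obtain ⟨R, hR⟩ : ∃ R : E →ₗ[ℝ] E, R = dg b (fun i => χ i * (l i ^ m)⁻¹) := ⟨_, rfl⟩
  have hPc : ∀ v i, ⟪b i, P v⟫_ℝ = χ i * ⟪b i, v⟫_ℝ := fun v i => by rw [hP, coord_dg]
  have hRc : ∀ v i, ⟪b i, R v⟫_ℝ = χ i * (l i ^ m)⁻¹ * ⟪b i, v⟫_ℝ := fun v i => by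
    rw [hR, coord_dg]
  have hMR : ∀ v, (L ^ m) (R v) = P v := by
    intro v
    refine ext_coord b fun i => ?_
    rw [coord_pow b hb, hRc, hPc, hχ]
    split_ifs with hi
    · have : l i ^ m ≠ 0 := pow_ne_zero m (by linarith : (0 : ℝ) < l i).ne'
      field_simp
    · ring
  -- distance to the projection
  have hdist : ∀ g ∈ U, ‖g - P g‖ ^ 2 ≤ 1 / 100 * ‖g‖ ^ 2 := by
    intro g hg
    have h1 := hUL g hg
    rw [inner_diag b hb, norm_sq b g, ← Finset.sum_sub_distrib] at h1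
    have h2 : ε * ‖g - P g‖ ^ 2 ≤ ∑ i, (⟪b i, g⟫_ℝ ^ 2 - l i * ⟪b i, g⟫_ℝ ^ 2) := by
      rw [norm_sq b, Finset.mul_sum]
      refine Finset.sum_le_sum fun i _ => ?_
      rw [inner_sub_right, hPc, hχ]
      split_ifs with hi
      · have := hl1 i
        nlinarith [sq_nonneg ⟪b i, g⟫_ℝ]
      · nlinarith [sq_nonneg ⟪b i, g⟫_ℝ]
    rw [norm_sq b g]
    have h3 := h2.trans h1
    have h4 : ε * ‖g - P g‖ ^ 2 ≤ ε * (1 / 100 * ∑ i, ⟪b i, g⟫_ℝ ^ 2) := by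
      refine h3.trans (le_of_eq ?_)
      ring
    exact le_of_mul_le_mul_left h4 hε
  have hpyth : ∀ g, ‖g‖ ^ 2 = ‖P g‖ ^ 2 + ‖g - P g‖ ^ 2 := by
    intro g
    rw [norm_sq b g, norm_sq b (P g), norm_sq b (g - P g), ← Finset.sum_add_distrib]
    refine Finset.sum_congr rfl fun i _ => ?_
    rw [inner_sub_right, hPc, hχ]
    split_ifs <;> ring
  -- the form of `T` on the projections
  have hq0 : ∀ v, 0 ≤ ‖v‖ ^ 2 - ⟪T v, v⟫_ℝ := by
    intro v
    have h1 := real_inner_le_norm (T v) v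
    have h2 := mul_le_mul_of_nonneg_right (hT1 v) (norm_nonneg v)
    nlinarith
  have hq2 : ∀ v, ‖v‖ ^ 2 - ⟪T v, v⟫_ℝ ≤ 2 * ‖v‖ ^ 2 := by
    intro v
    have h1 := abs_real_inner_le_norm (T v) v
    have h2 := mul_le_mul_of_nonneg_right (hT1 v) (norm_nonneg v)
    have h3 := (abs_le.1 h1).1
    nlinarith
  have hTP : ∀ g ∈ U, 1 / 2 * ‖P g‖ ^ 2 ≤ ⟪T (P g), P g⟫_ℝ := by
    intro g hg
    have h1 := hq0 (g + (g - P g))
    have h2 : ‖g + (g - P g)‖ ^ 2 - ⟪T (g + (g - P g)), g + (g - P g)⟫_ℝ +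
        (‖P g‖ ^ 2 - ⟪T (P g), P g⟫_ℝ) =
        2 * (‖g‖ ^ 2 - ⟪T g, g⟫_ℝ) + 2 * (‖g - P g‖ ^ 2 - ⟪T (g - P g), g - P g⟫_ℝ) := by
      have e : P g = g - (g - P g) := by abel
      obtain ⟨d, hd⟩ : ∃ d, d = g - P g := ⟨_, rfl⟩
      rw [← hd] at e ⊢
      rw [e, map_add, map_sub, norm_add_sq_real, norm_sub_sq_real]
      simp only [inner_add_left, inner_add_right, inner_sub_left, inner_sub_right]
      ring
    have h3 := hUT g hg
    have h4 := hq2 (g - P g)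
    have h5 := hdist g hg
    have h6 := hpyth g
    have h7 : ε / 100 * ‖g‖ ^ 2 ≤ 1 / 200 * ‖g‖ ^ 2 := by
      refine mul_le_mul_of_nonneg_right ?_ (sq_nonneg _)
      linarith
    nlinarith [sq_nonneg ‖g‖]
  -- the symmetric operator
  have hLm : (L ^ m).IsSymmetric := hL.pow m
  obtain ⟨C, hC⟩ : ∃ C : E →ₗ[ℝ] E, C = L ^ m * T * L ^ m := ⟨_, rfl⟩
  have hCsym : C.IsSymmetric := by
    intro x y
    rw [hC]
    simp only [Module.End.mul_apply]
    rw [hLm, hT, hLm]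
  have hCin : ∀ h, ⟪C h, h⟫_ℝ = ⟪T ((L ^ m) h), (L ^ m) h⟫_ℝ := by
    intro h
    rw [hC]
    simp only [Module.End.mul_apply]
    rw [hLm]
  have h1ε : 0 ≤ 1 - ε := by linarith
  have hfin : Module.finrank ℝ (U.map R) = Module.finrank ℝ U := by
    have hinj : Function.Injective (R.domRestrict U) := by
      rw [← LinearMap.ker_eq_bot, LinearMap.ker_eq_bot']
      intro v hv
      have hv' : R (v : E) = 0 := hv
      have h1 : P (v : E) = 0 := by rw [← hMR, hv', map_zero]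
      have h2 := hdist v v.2
      rw [h1, sub_zero] at h2
      have h3 : ‖(v : E)‖ ^ 2 = 0 := le_antisymm (by linarith) (sq_nonneg _)
      exact Subtype.ext (norm_eq_zero.1 (pow_eq_zero_iff (by norm_num) |>.1 h3))
    have hr : LinearMap.range (R.domRestrict U) = U.map R := by
      rw [LinearMap.range_domRestrict]
    rw [← hr]
    exact LinearMap.finrank_range_of_inj hinj
  have hkey := trace_ge hCsym (1 / 2 * (1 - ε) ^ a) (by positivity) (U.map R) ?_ K hK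
  · rw [hfin] at hkey
    refine hkey.trans (le_of_eq ?_)
    rw [hC, trace_cyc (L ^ m * T) (L ^ m) K, ← mul_assoc, ← pow_add, ← hm]
  · rintro _ ⟨g, hg, rfl⟩
    rw [hCin, hMR]
    refine le_trans ?_ (hTP g hg)
    rw [mul_assoc]
    refine mul_le_mul_of_nonneg_left ?_ (by norm_num)
    rw [norm_sq b (R g), norm_sq b (P g), Finset.mul_sum]
    refine Finset.sum_le_sum fun i _ => ?_
    rw [hRc, hPc, hχ]
    split_ifs with hi
    · have h2 : 0 < l i := by linarith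
      have h3 : (1 - ε) ^ a ≤ l i ^ a := pow_le_pow_left₀ h1ε hi.le a
      have h4 : l i ^ a = (l i ^ m) ^ 2 := by rw [hm, ← pow_mul]; congr 1; ring
      have h5 : 0 < (l i ^ m) ^ 2 := by positivity
      have h6 : (1 - ε) ^ a * (1 * (l i ^ m)⁻¹ * ⟪b i, g⟫_ℝ) ^ 2 =
          ((1 - ε) ^ a / (l i ^ m) ^ 2) * ⟪b i, g⟫_ℝ ^ 2 := by
        field_simp
      rw [h6, one_mul]
      refine mul_le_of_le_one_left (sq_nonneg _) ?_
      rw [div_le_one h5, ← h4]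
      exact h3
    · simp

end Pool.Agent.RC
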