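import Pool.Agent.Helper46.RC.Proc

/-!
# RC-Low: the low part of a symmetric operator
-/

open Finset

namespace Pool.Agent.RC

open scoped InnerProductSpace

section LowLemmas

variable {E : Type*} [NormedAddCommGroup E] [InnerProductSpace ℝ E] [FiniteDimensional ℝ E]

theorem low_inner_proj (D : E →ₗ[ℝ] E) (hD : D.IsSymmetric) {n : ℕ}
    (hn : Module.finrank ℝ E = n) (ε : ℝ) (v : E) (i : Fin n) :
    ⟪hD.eigenvectorBasis hn i, (low D ε).starProjection v⟫_ℝ =
      if hD.eigenvalues hn i < ε then ⟪hD.eigenvectorBasis hn i, v⟫_ℝ else 0 := by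
  set b := hD.eigenvectorBasis hn with hb
  have hDb : D (b i) = hD.eigenvalues hn i • b i := hD.apply_eigenvectorBasis hn i
  by_cases h : hD.eigenvalues hn i < ε
  · rw [if_pos h]
    have hmem : b i ∈ low D ε := by
      have h1 : b i ∈ Module.End.eigenspace D (hD.eigenvalues hn i) :=
        Module.End.mem_eigenspace_iff.2 hDb
      exact Submodule.mem_iSup_of_mem (⟨_, h⟩ : {μ : ℝ // μ < ε}) h1
    have h2 : v - (low D ε).starProjection v ∈ (low D ε)ᗮ :=
      Submodule.sub_starProjection_mem_orthogonal v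
    have h3 : ⟪b i, v - (low D ε).starProjection v⟫_ℝ = 0 :=
      (Submodule.mem_orthogonal _ _).1 h2 _ hmem
    rw [inner_sub_right] at h3
    linarith
  · rw [if_neg h]
    have hle : low D ε ≤ (Submodule.span ℝ {b i})ᗮ := by
      refine iSup_le ?_
      rintro ⟨μ, hμ⟩ x hx
      rw [Submodule.mem_orthogonal_singleton_iff_inner_right]
      have h1 : D x = μ • x := Module.End.mem_eigenspace_iff.1 hx
      have h2 : ⟪D (b i), x⟫_ℝ = ⟪b i, D x⟫_ℝ := hD (b i) x
      rw [hDb, h1, real_inner_smul_left, real_inner_smul_right] at h2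
      have h3 : (hD.eigenvalues hn i - μ) * ⟪b i, x⟫_ℝ = 0 := by linarith
      rcases mul_eq_zero.1 h3 with h4 | h4
      · exfalso
        have : hD.eigenvalues hn i = μ := by linarith
        exact h (this ▸ hμ)
      · exact h4
    have h4 := hle (Submodule.starProjection_apply_mem (low D ε) v)
    rwa [Submodule.mem_orthogonal_singleton_iff_inner_right] at h4

theorem low_inner_pow (D A : E →ₗ[ℝ] E) (hD : D.IsSymmetric) (hA : A.IsSymmetric) {n : ℕ}
    (hn : Module.finrank ℝ E = n) (c : Fin n → ℝ)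
    (h : ∀ i, A (hD.eigenvectorBasis hn i) = c i • hD.eigenvectorBasis hn i) (v : E) :
    ⟪A v, v⟫_ℝ = ∑ i, c i * ⟪hD.eigenvectorBasis hn i, v⟫_ℝ ^ 2 := by
  rw [← (hD.eigenvectorBasis hn).sum_inner_mul_inner (A v) v]
  refine Finset.sum_congr rfl (fun i _ => ?_)
  rw [hA v _, h i, real_inner_smul_right, real_inner_comm]
  ring

theorem low_norm_sq (D : E →ₗ[ℝ] E) (hD : D.IsSymmetric) {n : ℕ}
    (hn : Module.finrank ℝ E = n) (v : E) :
    ‖v‖ ^ 2 = ∑ i, ⟪hD.eigenvectorBasis hn i, v⟫_ℝ ^ 2 := by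
  rw [← (hD.eigenvectorBasis hn).sum_sq_norm_inner_right v]
  refine Finset.sum_congr rfl (fun i _ => ?_)
  rw [Real.norm_eq_abs, sq_abs]

theorem low_proj {E : Type*} [NormedAddCommGroup E] [InnerProductSpace ℝ E]
    [FiniteDimensional ℝ E] (D : E →ₗ[ℝ] E) (hD : D.IsSymmetric)
    (hD0 : ∀ v, 0 ≤ ⟪D v, v⟫_ℝ) (ε : ℝ) (hε : 0 < ε) (v : E) :
    ε * ‖v - (low D ε).starProjection v‖ ^ 2 ≤ ⟪D v, v⟫_ℝ := by
  have hn : Module.finrank ℝ E = Module.finrank ℝ E := rfl
  have hl0 : ∀ i, 0 ≤ hD.eigenvalues hn i := by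
    intro i
    have h1 := hD0 (hD.eigenvectorBasis hn i)
    have h2 : D (hD.eigenvectorBasis hn i) = hD.eigenvalues hn i • hD.eigenvectorBasis hn i :=
      hD.apply_eigenvectorBasis hn i
    rw [h2, real_inner_smul_left, real_inner_self_eq_norm_sq,
      (hD.eigenvectorBasis hn).norm_eq_one i] at h1
    linarith
  rw [low_inner_pow D D hD hD hn _ (fun i => hD.apply_eigenvectorBasis hn i) v,
    low_norm_sq D hD hn, Finset.mul_sum]
  refine Finset.sum_le_sum (fun i _ => ?_)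
  rw [inner_sub_right, low_inner_proj D hD hn ε v i]
  by_cases h : hD.eigenvalues hn i < ε
  · rw [if_pos h, sub_self]
    have := mul_nonneg (hl0 i) (sq_nonneg ⟪hD.eigenvectorBasis hn i, v⟫_ℝ)
    simpa using this
  · rw [if_neg h, sub_zero]
    exact mul_le_mul_of_nonneg_right (not_lt.1 h) (sq_nonneg _)

theorem low_le {E : Type*} [NormedAddCommGroup E] [InnerProductSpace ℝ E]
    [FiniteDimensional ℝ E] (D : E →ₗ[ℝ] E) (hD : D.IsSymmetric) (ε : ℝ) (v : E)
    (hv : v ∈ low D ε) : ⟪D v, v⟫_ℝ ≤ ε * ‖v‖ ^ 2 := by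
  have hn : Module.finrank ℝ E = Module.finrank ℝ E := rfl
  rw [low_inner_pow D D hD hD hn _ (fun i => hD.apply_eigenvectorBasis hn i) v,
    low_norm_sq D hD hn, Finset.mul_sum]
  refine Finset.sum_le_sum (fun i _ => ?_)
  by_cases h : hD.eigenvalues hn i < ε
  · exact mul_le_mul_of_nonneg_right h.le (sq_nonneg _)
  · have h1 := low_inner_proj D hD hn ε v i
    rw [if_neg h, Submodule.starProjection_eq_self_iff.2 hv] at h1
    rw [h1]
    simp

theorem low_pow {E : Type*} [NormedAddCommGroup E] [InnerProductSpace ℝ E]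
    [FiniteDimensional ℝ E] (A : E →ₗ[ℝ] E) (hA : A.IsSymmetric) (ε : ℝ) (hε : 0 < ε)
    (hε1 : ε < 1) (K : ℕ) (hK : Even K) (v : E) :
    (1 - ε) ^ K * ‖(low (1 - A) ε).starProjection v‖ ^ 2 ≤ ⟪(A ^ K) v, v⟫_ℝ := by
  have hn : Module.finrank ℝ E = Module.finrank ℝ E := rfl
  have hD : (1 - A : E →ₗ[ℝ] E).IsSymmetric := LinearMap.IsSymmetric.id.sub hA
  have hAb : ∀ i, A (hD.eigenvectorBasis hn i) =
      (1 - hD.eigenvalues hn i) • hD.eigenvectorBasis hn i := by
    intro i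
    have h1 : (1 - A : E →ₗ[ℝ] E) (hD.eigenvectorBasis hn i) =
      hD.eigenvalues hn i • hD.eigenvectorBasis hn i := hD.apply_eigenvectorBasis hn i
    rw [LinearMap.sub_apply, Module.End.one_apply] at h1
    rw [sub_smul, one_smul, ← h1]
    abel
  have hpow : ∀ (m : ℕ) i, (A ^ m) (hD.eigenvectorBasis hn i) =
      (1 - hD.eigenvalues hn i) ^ m • hD.eigenvectorBasis hn i := by
    intro m i
    induction m with
    | zero => simp
    | succ m ih =>
      rw [pow_succ', Module.End.mul_apply, ih, map_smul, hAb, smul_smul, pow_succ]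
  have hAK : (A ^ K).IsSymmetric := hA.pow K
  rw [low_inner_pow (1 - A) (A ^ K) hD hAK hn _ (hpow K) v, low_norm_sq (1 - A) hD hn,
    Finset.mul_sum]
  refine Finset.sum_le_sum (fun i _ => ?_)
  rw [low_inner_proj (1 - A) hD hn ε v i]
  by_cases h : hD.eigenvalues hn i < ε
  · rw [if_pos h]
    exact mul_le_mul_of_nonneg_right (pow_le_pow_left₀ (by linarith) (by linarith) K)
      (sq_nonneg _)
  · rw [if_neg h]
    have := mul_nonneg (hK.pow_nonneg (1 - hD.eigenvalues hn i))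
      (sq_nonneg ⟪hD.eigenvectorBasis hn i, v⟫_ℝ)
    simpa using this

end LowLemmas

end Pool.Agent.RC
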