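import Pool.Agent.Helper46.RC.Chain
import Pool.Agent.Helper46.RC.Equiv
import Pool.Agent.Helper46.RC.Low
import Pool.Agent.Helper46.RC.DimB
import Pool.Agent.Helper46.RC.Pow

/-!
# The abstract block estimate
-/

open Finset

namespace Pool.Agent.RC

open scoped InnerProductSpace

namespace AbsAux

variable {G : Type*} [Group G] {E : Type*} [NormedAddCommGroup E] [InnerProductSpace ℝ E]
  (ρ : G →* (E →ₗ[ℝ] E))

theorem inner_rho (hρ : ∀ g v, ‖ρ g v‖ = ‖v‖) (g : G) (v w : E) :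
    ⟪ρ g v, ρ g w⟫_ℝ = ⟪v, w⟫_ℝ :=
  (⟨ρ g, hρ g⟩ : E →ₗᵢ[ℝ] E).inner_map_map v w

theorem rho_inv (g : G) (v : E) : ρ g (ρ g⁻¹ v) = v := by
  rw [← Module.End.mul_apply, ← map_mul, mul_inv_cancel, map_one, Module.End.one_apply]

theorem inner_inv (hρ : ∀ g v, ‖ρ g v‖ = ‖v‖) (g : G) (v w : E) :
    ⟪ρ g⁻¹ v, w⟫_ℝ = ⟪v, ρ g w⟫_ℝ := by
  rw [← inner_rho ρ hρ g (ρ g⁻¹ v) w, rho_inv]

/-- symmetrization of `ρ g` -/
noncomputable def sym (g : G) : E →ₗ[ℝ] E := (1 / 2 : ℝ) • (ρ g + ρ g⁻¹)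

theorem sym_apply (g : G) (v : E) : sym ρ g v = (1 / 2 : ℝ) • (ρ g v + ρ g⁻¹ v) := rfl

theorem sym_symm (hρ : ∀ g v, ‖ρ g v‖ = ‖v‖) (g : G) : (sym ρ g).IsSymmetric := by
  intro v w
  have h1 := inner_inv ρ hρ g v w
  have h2 := inner_inv ρ hρ g⁻¹ v w
  rw [inv_inv] at h2
  simp only [sym_apply, inner_smul_left, inner_smul_right, inner_add_left, inner_add_right,
    RCLike.conj_to_real]
  rw [h1, h2]
  ring

theorem inner_sym (hρ : ∀ g v, ‖ρ g v‖ = ‖v‖) (g : G) (v : E) :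
    ⟪sym ρ g v, v⟫_ℝ = ⟪ρ g v, v⟫_ℝ := by
  have h1 := inner_inv ρ hρ g v v
  simp only [sym_apply, inner_smul_left, inner_add_left, RCLike.conj_to_real]
  rw [h1, real_inner_comm (ρ g v) v]
  ring

theorem norm_sym (hρ : ∀ g v, ‖ρ g v‖ = ‖v‖) (g : G) (v : E) : ‖sym ρ g v‖ ≤ ‖v‖ := by
  rw [sym_apply, norm_smul]
  have := norm_add_le (ρ g v) (ρ g⁻¹ v)
  rw [hρ, hρ] at this
  rw [Real.norm_of_nonneg (by norm_num)]
  linarith

theorem inner_rho_le (hρ : ∀ g v, ‖ρ g v‖ = ‖v‖) (g : G) (v : E) :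
    ⟪ρ g v, v⟫_ℝ ≤ ‖v‖ ^ 2 := by
  have := real_inner_le_norm (ρ g v) v
  rw [hρ] at this
  nlinarith

theorem neg_le_inner_rho (hρ : ∀ g v, ‖ρ g v‖ = ‖v‖) (g : G) (v : E) :
    -‖v‖ ^ 2 ≤ ⟪ρ g v, v⟫_ℝ := by
  have := abs_real_inner_le_norm (ρ g v) v
  rw [hρ] at this
  nlinarith [abs_le.mp this]

theorem sym_conj (h g : G) (v : E) : sym ρ (h * g * h⁻¹) (ρ h v) = ρ h (sym ρ g v) := by
  have e1 : ρ (h * g * h⁻¹) (ρ h v) = ρ h (ρ g v) := by
    rw [← Module.End.mul_apply, ← map_mul, ← Module.End.mul_apply, ← map_mul]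
    congr 2
    group
  have e2 : ρ (h * g * h⁻¹)⁻¹ (ρ h v) = ρ h (ρ g⁻¹ v) := by
    rw [← Module.End.mul_apply, ← map_mul, ← Module.End.mul_apply, ← map_mul]
    congr 2
    group
  rw [sym_apply, sym_apply, e1, e2, map_smul, map_add]

/-- the lazy averaging operator -/
noncomputable def lazy {s : ℕ} (x : Fin s → G) : E →ₗ[ℝ] E :=
  (1 / (4 * s) : ℝ) • ∑ c : Bool × Fin s × Bool, ρ (letter x c)

theorem sum_letter {s : ℕ} (x : Fin s → G) :
    ∑ c : Bool × Fin s × Bool, ρ (letter x c) =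
      (2 * s : ℝ) • (1 : E →ₗ[ℝ] E) + (2 : ℝ) • ∑ i, sym ρ (x i) := by
  rw [Fintype.sum_prod_type]
  simp only [Fintype.sum_prod_type, Fintype.sum_bool, letter]
  simp only [if_true, Bool.false_eq_true, if_false, map_one, sym, Finset.smul_sum, smul_smul]
  rw [add_comm]
  congr 1
  · rw [Finset.sum_const, Finset.card_univ, Fintype.card_fin]
    ext v
    simp only [LinearMap.smul_apply, LinearMap.add_apply, Module.End.one_apply]
    rw [← Nat.cast_smul_eq_nsmul ℝ, ← two_smul ℝ v, smul_smul]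
    ring_nf
  · refine Finset.sum_congr rfl fun i _ => ?_
    norm_num

theorem lazy_eq {s : ℕ} (hs : 1 ≤ s) (x : Fin s → G) :
    lazy ρ x = (1 / 2 : ℝ) • (1 : E →ₗ[ℝ] E) + (1 / (2 * s) : ℝ) • ∑ i, sym ρ (x i) := by
  have : (s : ℝ) ≠ 0 := by positivity
  rw [lazy, sum_letter, smul_add, smul_smul, smul_smul]
  congr 2
  · field_simp; norm_num
  · field_simp; norm_num

theorem lazy_symm {s : ℕ} (hs : 1 ≤ s) (hρ : ∀ g v, ‖ρ g v‖ = ‖v‖) (x : Fin s → G) :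
    (lazy ρ x).IsSymmetric := by
  intro v w
  rw [lazy_eq ρ hs]
  simp only [LinearMap.add_apply, LinearMap.smul_apply, LinearMap.sum_apply,
    Module.End.one_apply, inner_add_left, inner_add_right, inner_smul_left, inner_smul_right,
    RCLike.conj_to_real, sum_inner, inner_sum]
  congr 2
  exact Finset.sum_congr rfl fun i _ => sym_symm ρ hρ (x i) v w

theorem inner_lazy {s : ℕ} (hs : 1 ≤ s) (hρ : ∀ g v, ‖ρ g v‖ = ‖v‖) (x : Fin s → G) (v : E) :
    ‖v‖ ^ 2 - ⟪lazy ρ x v, v⟫_ℝ = (1 / (2 * s)) * ∑ i, (‖v‖ ^ 2 - ⟪ρ (x i) v, v⟫_ℝ) := by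
  have : (s : ℝ) ≠ 0 := by positivity
  rw [lazy_eq ρ hs]
  simp only [LinearMap.add_apply, LinearMap.smul_apply, LinearMap.sum_apply,
    Module.End.one_apply, inner_add_left, inner_smul_left, RCLike.conj_to_real, sum_inner,
    inner_sym ρ hρ, real_inner_self_eq_norm_sq, Finset.sum_sub_distrib, Finset.sum_const,
    Finset.card_univ, Fintype.card_fin, nsmul_eq_mul]
  field_simp
  ring

/-- the macro words give the power of `L ^ a * T` -/
theorem pow_eq {s : ℕ} (hs : 1 ≤ s) (x : Fin s → G) (t : G) (a K : ℕ) :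
    (Fintype.card (Fin K → (Fin a → Bool × Fin s × Bool) × Bool) : ℝ) •
      ((lazy ρ x) ^ a * sym ρ t) ^ K =
      ∑ U : Fin K → (Fin a → Bool × Fin s × Bool) × Bool,
        ρ (wrd (mac (wrd (letter x) a) t) K U) := by
  have hs' : (s : ℝ) ≠ 0 := by positivity
  rw [← sum_pow_wrd ρ (mac (wrd (letter x) a) t) K]
  have h1 : ∑ p : (Fin a → Bool × Fin s × Bool) × Bool, ρ (mac (wrd (letter x) a) t p) =
      ((4 * s : ℝ) ^ a * 2) • ((lazy ρ x) ^ a * sym ρ t) := by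
    have h2 : ∑ u : Fin a → Bool × Fin s × Bool, ρ (wrd (letter x) a u) =
        ((4 * s : ℝ) ^ a) • (lazy ρ x) ^ a := by
      rw [← sum_pow_wrd ρ (letter x) a]
      have h3 : ∑ c : Bool × Fin s × Bool, ρ (letter x c) = (4 * s : ℝ) • lazy ρ x := by
        rw [lazy, smul_smul]
        have : (4 * s : ℝ) * (1 / (4 * s)) = 1 := by field_simp
        rw [this, one_smul]
      rw [h3, smul_pow]
    rw [Fintype.sum_prod_type]
    simp only [mac, Fintype.sum_bool, if_true, Bool.false_eq_true, if_false, map_mul]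
    simp only [← mul_add]
    rw [← Finset.sum_mul, h2]
    have h4 : ρ t + ρ t⁻¹ = (2 : ℝ) • sym ρ t := by
      rw [sym, smul_smul]; norm_num
    rw [h4, smul_mul_smul_comm]
  rw [h1, smul_pow]
  congr 1
  simp only [Fintype.card_fun, Fintype.card_prod, Fintype.card_bool, Fintype.card_fin]
  push_cast
  ring

/-- the dimension bound for one block on one representation -/
theorem dim_block [FiniteDimensional ℝ E] (hρ : ∀ g v, ‖ρ g v‖ = ‖v‖) {s : ℕ} (hs : 1 ≤ s)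
    (x : Fin s → G) (t : G) (a K : ℕ) (ha : Even a) (hK : Even K) (ε : ℝ) (hε : 0 < ε)
    (hε' : ε ≤ 1 / 2) (U : Submodule ℝ E)
    (hU : ∀ v ∈ U, (∑ i, (‖v‖ ^ 2 - ⟪ρ (x i) v, v⟫_ℝ)) + (‖v‖ ^ 2 - ⟪ρ t v, v⟫_ℝ) ≤
      ε / 100 * ‖v‖ ^ 2) :
    (Fintype.card (Fin K → (Fin a → Bool × Fin s × Bool) × Bool) : ℝ) *
      ((Module.finrank ℝ U : ℝ) * (1 / 2 * (1 - ε) ^ a) ^ K) ≤
      ∑ W : Fin K → (Fin a → Bool × Fin s × Bool) × Bool,
        LinearMap.trace ℝ E (ρ (wrd (mac (wrd (letter x) a) t) K W)) := by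
  have hs1 : (1 : ℝ) ≤ s := by exact_mod_cast hs
  have hnn : ∀ v : E, 0 ≤ ∑ i, (‖v‖ ^ 2 - ⟪ρ (x i) v, v⟫_ℝ) := fun v =>
    Finset.sum_nonneg fun i _ => by linarith [inner_rho_le ρ hρ (x i) v]
  have hle : ∀ v : E, ∑ i, (‖v‖ ^ 2 - ⟪ρ (x i) v, v⟫_ℝ) ≤ s * (2 * ‖v‖ ^ 2) := by
    intro v
    calc ∑ i, (‖v‖ ^ 2 - ⟪ρ (x i) v, v⟫_ℝ) ≤ ∑ i : Fin s, (2 * ‖v‖ ^ 2) :=
          Finset.sum_le_sum fun i _ => by linarith [neg_le_inner_rho ρ hρ (x i) v]
      _ = _ := by simp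
  have h := dimb (lazy ρ x) (sym ρ t) (lazy_symm ρ hs hρ x) (sym_symm ρ hρ t)
    (fun v => by
      have h1 := inner_lazy ρ hs hρ x v
      have h2 : (1 / (2 * s) : ℝ) * ∑ i, (‖v‖ ^ 2 - ⟪ρ (x i) v, v⟫_ℝ) ≤ ‖v‖ ^ 2 := by
        calc (1 / (2 * s) : ℝ) * ∑ i, (‖v‖ ^ 2 - ⟪ρ (x i) v, v⟫_ℝ)
            ≤ (1 / (2 * s) : ℝ) * (s * (2 * ‖v‖ ^ 2)) :=
              mul_le_mul_of_nonneg_left (hle v) (by positivity)
          _ = _ := by field_simp
      linarith)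
    (fun v => by
      have h1 := inner_lazy ρ hs hρ x v
      have h2 : 0 ≤ (1 / (2 * s) : ℝ) * ∑ i, (‖v‖ ^ 2 - ⟪ρ (x i) v, v⟫_ℝ) :=
        mul_nonneg (by positivity) (hnn v)
      linarith)
    (norm_sym ρ hρ t) ε hε hε' U
    (fun v hv => by
      rw [inner_lazy ρ hs hρ x v]
      have h1 := hU v hv
      have h2 : 0 ≤ ‖v‖ ^ 2 - ⟪ρ t v, v⟫_ℝ := by linarith [inner_rho_le ρ hρ t v]
      have h3 : (1 / (2 * s) : ℝ) ≤ 1 := by
        rw [div_le_one (by positivity)]; linarith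
      have h4 := hnn v
      nlinarith)
    (fun v hv => by
      rw [inner_sym ρ hρ]
      have h1 := hU v hv
      have h4 := hnn v
      linarith) a K ha hK
  rw [← map_sum, ← pow_eq ρ hs x t a K, map_smul, smul_eq_mul]
  exact mul_le_mul_of_nonneg_left h (by positivity)

end AbsAux

open AbsAux

theorem abs_block {G : Type*} [Group G] {E : Type*} [NormedAddCommGroup E]
    [InnerProductSpace ℝ E] [FiniteDimensional ℝ E] (ρ : G →* (E →ₗ[ℝ] E))
    (hρ : ∀ g v, ‖ρ g v‖ = ‖v‖) {Ω : Type*} [Fintype Ω] {s : ℕ} (hs : 1 ≤ s)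
    (x : Ω → Fin s → G) (t : Ω → G)
    (hconj : ∀ h : G, ∃ e : Ω ≃ Ω, ∀ ω, (∀ i, x (e ω) i = h * x ω i * h⁻¹) ∧
      t (e ω) = h * t ω * h⁻¹)
    (a K B : ℕ) (ha : Even a) (hK : Even K) (hB : 1 ≤ B) (ε β : ℝ) (hε : 0 < ε)
    (hε' : ε ≤ 1 / 2) (hβ0 : 0 ≤ β)
    (hβ : ∀ v : E, ∑ ω, ∑ U : Fin K → (Fin a → Bool × Fin s × Bool) × Bool,
      ⟪ρ (wrd (mac (wrd (letter (x ω)) a) (t ω)) K U) v, v⟫_ℝ ≤
        β * Fintype.card Ω * Fintype.card (Fin K → (Fin a → Bool × Fin s × Bool) × Bool) *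
          ‖v‖ ^ 2) :
    (Nat.card {ω : Fin B → Ω // ∃ v : E, v ≠ 0 ∧
        ∑ b, ((∑ i, (‖v‖ ^ 2 - ⟪ρ (x (ω b) i) v, v⟫_ℝ)) +
          (‖v‖ ^ 2 - ⟪ρ (t (ω b)) v, v⟫_ℝ)) < ε / (400 * B ^ 2) * ‖v‖ ^ 2} : ℝ) ≤
      4 * (β / (1 / 2 * (1 - ε) ^ a) ^ K) ^ B * Module.finrank ℝ E *
        (Fintype.card Ω : ℝ) ^ B := by
  classical
  set D : Ω → E →ₗ[ℝ] E := fun ω => (∑ i, (1 - sym ρ (x ω i))) + (1 - sym ρ (t ω)) with hDdef
  have hDapp : ∀ ω v, D ω v = (∑ i, (v - sym ρ (x ω i) v)) + (v - sym ρ (t ω) v) := by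
    intro ω v
    simp [hDdef, LinearMap.add_apply, LinearMap.sum_apply, LinearMap.sub_apply]
  have hDsym : ∀ ω, (D ω).IsSymmetric := by
    intro ω v w
    rw [hDapp, hDapp]
    simp only [inner_add_left, inner_add_right, inner_sub_left, inner_sub_right, sum_inner,
      inner_sum]
    rw [sym_symm ρ hρ (t ω) v w]
    congr 1
    exact Finset.sum_congr rfl fun i _ => by rw [sym_symm ρ hρ (x ω i) v w]
  have hDinner : ∀ ω v, ⟪D ω v, v⟫_ℝ = (∑ i, (‖v‖ ^ 2 - ⟪ρ (x ω i) v, v⟫_ℝ)) +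
      (‖v‖ ^ 2 - ⟪ρ (t ω) v, v⟫_ℝ) := by
    intro ω v
    rw [hDapp]
    simp only [inner_add_left, inner_sub_left, sum_inner, inner_sym ρ hρ,
      real_inner_self_eq_norm_sq]
  have hD0 : ∀ ω v, 0 ≤ ⟪D ω v, v⟫_ℝ := by
    intro ω v
    rw [hDinner]
    refine add_nonneg (Finset.sum_nonneg fun i _ => ?_) ?_
    · linarith [inner_rho_le ρ hρ (x ω i) v]
    · linarith [inner_rho_le ρ hρ (t ω) v]
  set δ : ℝ := ε / 100 with hδ
  have hδ0 : 0 < δ := by positivity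
  have hθ : 0 < (1 / 2 * (1 - ε) ^ a : ℝ) ^ K := by
    have : 0 < 1 - ε := by linarith
    positivity
  set N : ℝ := (Fintype.card (Fin K → (Fin a → Bool × Fin s × Bool) × Bool) : ℝ) with hN
  have hN0 : 0 < N := by
    have : 0 < s := hs
    haveI : Nonempty (Fin s) := ⟨⟨0, this⟩⟩
    rw [hN]
    exact_mod_cast Fintype.card_pos
  -- the dimension bound on invariant subspaces
  have hκ : ∀ F : Submodule ℝ E, (∀ h, ∀ v ∈ F, ρ h v ∈ F) →
      ∑ ω, (Module.finrank ℝ (low (D ω) δ ⊓ F : Submodule ℝ E) : ℝ) ≤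
        (β / (1 / 2 * (1 - ε) ^ a) ^ K) * Fintype.card Ω * Module.finrank ℝ F := by
    intro F hF
    let ρF : G →* (F →ₗ[ℝ] F) :=
      { toFun := fun g => (ρ g).restrict (fun v hv => hF g v hv)
        map_one' := by ext v; simp
        map_mul' := fun g h => by ext v; simp }
    have hρF : ∀ g (v : F), ((ρF g v : F) : E) = ρ g v := fun g v => rfl
    have hρFn : ∀ g (v : F), ‖ρF g v‖ = ‖v‖ := fun g v => hρ g v
    have hdim : ∀ ω, N * ((Module.finrank ℝ (low (D ω) δ ⊓ F : Submodule ℝ E) : ℝ) *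
        (1 / 2 * (1 - ε) ^ a) ^ K) ≤
        ∑ W : Fin K → (Fin a → Bool × Fin s × Bool) × Bool,
          LinearMap.trace ℝ F (ρF (wrd (mac (wrd (letter (x ω)) a) (t ω)) K W)) := by
      intro ω
      have h1 := dim_block ρF hρFn hs (x ω) (t ω) a K ha hK ε hε hε'
        (Submodule.comap F.subtype (low (D ω) δ)) (fun v hv => by
          have h2 := low_le (D ω) (hDsym ω) δ (v : E) hv
          rw [hDinner] at h2
          exact h2)
      have h3 : Module.finrank ℝ (Submodule.comap F.subtype (low (D ω) δ)) =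
          Module.finrank ℝ (low (D ω) δ ⊓ F : Submodule ℝ E) := by
        have h4 : Submodule.comap F.subtype (low (D ω) δ) =
            Submodule.comap F.subtype (low (D ω) δ ⊓ F) := by
          ext v; simp
        rw [h4]
        exact (Submodule.comapSubtypeEquivOfLe (inf_le_right)).finrank_eq
      rw [h3] at h1
      exact h1
    set e := stdOrthonormalBasis ℝ F with he
    have htr : ∀ g : G, LinearMap.trace ℝ F (ρF g) =
        ∑ i, ⟪ρ g (e i : E), (e i : E)⟫_ℝ := by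
      intro g
      rw [LinearMap.trace_eq_sum_inner (ρF g) e]
      refine Finset.sum_congr rfl fun i _ => ?_
      rw [real_inner_comm]
      rfl
    have hsum : ∑ ω, ∑ W : Fin K → (Fin a → Bool × Fin s × Bool) × Bool,
          LinearMap.trace ℝ F (ρF (wrd (mac (wrd (letter (x ω)) a) (t ω)) K W)) ≤
        β * Fintype.card Ω * N * Module.finrank ℝ F := by
      simp only [htr]
      calc ∑ ω, ∑ W : Fin K → (Fin a → Bool × Fin s × Bool) × Bool,
            ∑ i, ⟪ρ (wrd (mac (wrd (letter (x ω)) a) (t ω)) K W) (e i : E), (e i : E)⟫_ℝ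
          = ∑ i, ∑ ω, ∑ W : Fin K → (Fin a → Bool × Fin s × Bool) × Bool,
            ⟪ρ (wrd (mac (wrd (letter (x ω)) a) (t ω)) K W) (e i : E), (e i : E)⟫_ℝ := by
            rw [Finset.sum_comm (s := (univ : Finset (Fin (Module.finrank ℝ F))))]
            exact Finset.sum_congr rfl fun ω _ => Finset.sum_comm
        _ ≤ ∑ i : Fin (Module.finrank ℝ F), β * Fintype.card Ω * N * 1 := by
            refine Finset.sum_le_sum fun i _ => ?_
            have := hβ (e i : E)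
            have hn : ‖(e i : E)‖ = 1 := e.orthonormal.1 i
            rw [hn, one_pow] at this
            exact this
        _ = _ := by simp; ring
    have hsum2 : N * ((1 / 2 * (1 - ε) ^ a) ^ K *
        ∑ ω, (Module.finrank ℝ (low (D ω) δ ⊓ F : Submodule ℝ E) : ℝ)) ≤
        β * Fintype.card Ω * N * Module.finrank ℝ F := by
      refine le_trans ?_ hsum
      rw [Finset.mul_sum, Finset.mul_sum]
      refine Finset.sum_le_sum fun ω _ => ?_
      refine le_trans (le_of_eq ?_) (hdim ω)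
      ring
    have h5 : (1 / 2 * (1 - ε) ^ a) ^ K *
        ∑ ω, (Module.finrank ℝ (low (D ω) δ ⊓ F : Submodule ℝ E) : ℝ) ≤
        β * Fintype.card Ω * Module.finrank ℝ F := by
      refine le_of_mul_le_mul_left ?_ hN0
      refine hsum2.trans (le_of_eq ?_)
      ring
    rw [div_mul_eq_mul_div, div_mul_eq_mul_div, le_div_iff₀ hθ, mul_comm]
    exact h5
  have hproj := equiv_bound ρ hρ D hDsym (fun h => by
      obtain ⟨e, he⟩ := hconj h
      refine ⟨e, fun ω v => ?_⟩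
      rw [hDapp, hDapp, map_add, map_sum]
      congr 1
      · refine Finset.sum_congr rfl fun i _ => ?_
        rw [map_sub, (he ω).1 i, sym_conj]
      · rw [map_sub, (he ω).2, sym_conj])
    (fun F hF ω v hv => by
      have hs : ∀ g, sym ρ g v ∈ F := fun g => by
        rw [sym_apply]
        exact F.smul_mem _ (F.add_mem (hF g v hv) (hF g⁻¹ v hv))
      rw [hDapp]
      exact F.add_mem (F.sum_mem fun i _ => F.sub_mem hv (hs _)) (F.sub_mem hv (hs _)))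
    δ _ hκ
  have hch := chain (fun ω => ((low (D ω) δ).starProjection : E →L[ℝ] E).toLinearMap)
    (fun ω v => (low (D ω) δ).norm_starProjection_apply_le v)
    (β / (1 / 2 * (1 - ε) ^ a) ^ K) hproj (fun ω v => ⟪D ω v, v⟫_ℝ) δ hδ0
    (fun ω v => low_proj (D ω) (hDsym ω) (hD0 ω) δ hδ0 v) B hB
  refine le_trans (le_of_eq ?_) hch
  have hBr : (B : ℝ) ≠ 0 := by positivity
  have h6 : δ / (4 * (B : ℝ) ^ 2) = ε / (400 * B ^ 2) := by
    rw [hδ]; field_simp; norm_num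
  rw [h6]
  simp only [hDinner]

end Pool.Agent.RC
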