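import Pool.Agent.Helper46.RC.Beta

/-!
# Asymptotics of the bootstrapping step
-/

open Finset

namespace Pool.Agent.RC

namespace Asy

theorem rpow_pow {x : ℝ} (hx : 0 ≤ x) (y : ℝ) (m : ℕ) : (x ^ y) ^ m = x ^ (y * m) := by
  rw [Real.rpow_mul hx, Real.rpow_natCast]

theorem two_pow_le {x c : ℝ} (hx : 1 ≤ x) (h4 : 4 ≤ x ^ c) (j : ℕ) :
    (2 : ℝ) ^ j ≤ x ^ (c / 2 * j) := by
  have hx0 : (0 : ℝ) ≤ x := by linarith
  have h2 : (2 : ℝ) ≤ x ^ (c / 2) := by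
    have h1 : x ^ c = (x ^ (c / 2)) ^ 2 := by
      rw [rpow_pow hx0]
      congr 1
      push_cast
      ring
    have h3 : 0 ≤ x ^ (c / 2) := Real.rpow_nonneg hx0 _
    nlinarith
  rw [← rpow_pow hx0]
  exact pow_le_pow_left₀ (by norm_num) h2 j

/-- the first two terms -/
theorem term12 {n j : ℕ} {c : ℝ} (hc : 0 < c) (hj : 1 ≤ j) (hjn : 2 * j ≤ n)
    (hjγ : (j : ℝ) ≤ (n : ℝ) ^ (1 - 24 * c)) (h4 : 4 ≤ (n : ℝ) ^ c) (e : ℕ)
    (he : (j : ℝ) ≤ 12 * e) :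
    2 ^ j * ((j : ℝ) / (n - j)) ^ e ≤ (n : ℝ) ^ (-(c * j)) := by
  have hjn' : 2 * (j : ℝ) ≤ n := by exact_mod_cast hjn
  have hj' : (1 : ℝ) ≤ j := by exact_mod_cast hj
  generalize (n : ℝ) = x at *
  have hx1 : 1 ≤ x := by linarith
  have hx0 : 0 < x := by linarith
  have hy : (j : ℝ) / (x - j) ≤ x ^ (-(23 * c)) := by
    have h1 : (j : ℝ) / (x - j) ≤ 2 * (j / x) := by
      rw [div_le_iff₀ (by linarith)]
      have h2 : 2 * ((j : ℝ) / x) * (x - j) = 2 * j - j * (2 * j / x) := by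
        field_simp
      have h3 : 2 * (j : ℝ) / x ≤ 1 := (div_le_one hx0).mpr hjn'
      rw [h2]
      nlinarith
    have h2 : (j : ℝ) / x ≤ x ^ (-(24 * c)) := by
      rw [div_le_iff₀ hx0]
      calc (j : ℝ) ≤ x ^ (1 - 24 * c) := hjγ
        _ = x ^ (-(24 * c)) * x := by
          conv_rhs => rw [← Real.rpow_one x, Real.rpow_one, ← Real.rpow_add_one hx0.ne']
          congr 1
          ring
    have h3 : (2 : ℝ) ≤ x ^ c := by linarith
    calc (j : ℝ) / (x - j) ≤ 2 * (j / x) := h1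
      _ ≤ x ^ c * x ^ (-(24 * c)) :=
        mul_le_mul h3 h2 (by positivity) (by positivity)
      _ = x ^ (-(23 * c)) := by
        rw [← Real.rpow_add hx0]
        congr 1
        ring
  have hy0 : 0 ≤ (j : ℝ) / (x - j) := div_nonneg (by linarith) (by linarith)
  calc 2 ^ j * ((j : ℝ) / (x - j)) ^ e ≤ x ^ (c / 2 * j) * (x ^ (-(23 * c))) ^ e :=
        mul_le_mul (two_pow_le hx1 h4 j) (pow_le_pow_left₀ hy0 hy e) (by positivity) (by positivity)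
    _ = x ^ (c / 2 * j + -(23 * c) * e) := by
        rw [rpow_pow hx0.le, ← Real.rpow_add hx0]
    _ ≤ x ^ (-(c * j)) := by
        apply Real.rpow_le_rpow_of_exponent_le hx1
        have h5 : c * (j : ℝ) ≤ c * (12 * e) := mul_le_mul_of_nonneg_left he hc.le
        nlinarith

/-- the third term -/
theorem term3 {j k r : ℕ} {x X δ C : ℝ} (hx : 2 ≤ x) (hX0 : 0 ≤ X) (hX : X ≤ x ^ (-δ))
    (hδ : 0 < δ) (h9 : 2 ^ 9 ≤ x ^ (δ / 2)) (hr : 1 ≤ r) (hkr : C * j ≤ k * r)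
    (hC : C * δ = 4) : 2 ^ j * (2 ^ (8 * k) * (2 * X ^ r) ^ k) ≤ x ^ (-(j : ℝ)) := by
  have hx1 : 1 ≤ x := by linarith
  have hx0 : 0 < x := by linarith
  have hr' : (1 : ℝ) ≤ r := by exact_mod_cast hr
  have h1 : (2 : ℝ) ^ (8 * k) * (2 * X ^ r) ^ k = (2 ^ 9 * X ^ r) ^ k := by
    rw [pow_mul, ← mul_pow]
    congr 1
    ring
  have h2 : (2 : ℝ) ^ 9 * X ^ r ≤ x ^ (-(δ * r / 2)) := by
    calc (2 : ℝ) ^ 9 * X ^ r ≤ x ^ (δ / 2) * (x ^ (-δ)) ^ r :=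
          mul_le_mul h9 (pow_le_pow_left₀ hX0 hX r) (by positivity) (by positivity)
      _ = x ^ (δ / 2 + -δ * r) := by rw [rpow_pow hx0.le, ← Real.rpow_add hx0]
      _ ≤ x ^ (-(δ * r / 2)) := by
          apply Real.rpow_le_rpow_of_exponent_le hx1
          nlinarith
  have h3 : ((2 : ℝ) ^ 9 * X ^ r) ^ k ≤ x ^ (-(2 * (j : ℝ))) := by
    calc ((2 : ℝ) ^ 9 * X ^ r) ^ k ≤ (x ^ (-(δ * r / 2))) ^ k :=
          pow_le_pow_left₀ (by positivity) h2 k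
      _ = x ^ (-(δ * r / 2) * k) := rpow_pow hx0.le _ _
      _ ≤ x ^ (-(2 * (j : ℝ))) := by
          apply Real.rpow_le_rpow_of_exponent_le hx1
          have h4 : δ * (C * j) ≤ δ * (k * r) := mul_le_mul_of_nonneg_left hkr hδ.le
          have h5 : δ * (C * j) = 4 * j := by rw [← mul_assoc, mul_comm δ C, hC]
          nlinarith
  have h4 : (2 : ℝ) ^ j ≤ x ^ (j : ℝ) := by
    rw [Real.rpow_natCast]
    exact pow_le_pow_left₀ (by norm_num) hx j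
  rw [h1]
  calc (2 : ℝ) ^ j * (2 ^ 9 * X ^ r) ^ k ≤ x ^ (j : ℝ) * x ^ (-(2 * (j : ℝ))) :=
        mul_le_mul h4 h3 (by positivity) (by positivity)
    _ = x ^ (-(j : ℝ)) := by
        rw [← Real.rpow_add hx0]
        congr 1
        ring

/-- the fourth term -/
theorem term4 {j k q : ℕ} {x C : ℝ} (hx : 2 ≤ x) (hqk : 2 * ((q : ℝ) * (8 * k : ℕ)) ≤ x)
    (hk : (k : ℝ) ≤ 2 * C * j) (hq1 : j ≤ 4 * q) (hq2 : q ≤ j) (hj : 1 ≤ j) (hC : 1 ≤ C)
    (h256 : 256 * C ≤ x ^ (1 / 12 : ℝ)) :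
    2 ^ j * ((8 * k : ℕ) * (2 ^ q / (x - q * (8 * k : ℕ)) ^ ((q + 1) / 2))) ≤
      x ^ (-((j : ℝ) / 24)) := by
  have hx1 : 1 ≤ x := by linarith
  have hx0 : 0 < x := by linarith
  have hj' : (1 : ℝ) ≤ j := by exact_mod_cast hj
  have hbase : x / 2 ≤ x - q * (8 * k : ℕ) := by linarith
  have hb1 : 1 ≤ x / 2 := by linarith
  have hden : (x / 2) ^ ((j : ℝ) / 8) ≤ (x - q * (8 * k : ℕ)) ^ ((q + 1) / 2) := by
    calc (x / 2) ^ ((j : ℝ) / 8) ≤ (x / 2) ^ (((q + 1) / 2 : ℕ) : ℝ) := by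
          apply Real.rpow_le_rpow_of_exponent_le hb1
          have h1 : j ≤ 8 * ((q + 1) / 2) := by omega
          have h2 : (j : ℝ) ≤ 8 * (((q + 1) / 2 : ℕ) : ℝ) := by exact_mod_cast h1
          linarith
      _ = (x / 2) ^ ((q + 1) / 2) := Real.rpow_natCast _ _
      _ ≤ (x - q * (8 * k : ℕ)) ^ ((q + 1) / 2) := pow_le_pow_left₀ (by linarith) hbase _
  have hpos : 0 < (x / 2) ^ ((j : ℝ) / 8) := Real.rpow_pos_of_pos (by linarith) _
  have h1 : (2 : ℝ) ^ q / (x - q * (8 * k : ℕ)) ^ ((q + 1) / 2) ≤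
      2 ^ j * (2 ^ j * x ^ (-((j : ℝ) / 8))) := by
    have e1 : (x / 2) ^ ((j : ℝ) / 8) = x ^ ((j : ℝ) / 8) / 2 ^ ((j : ℝ) / 8) :=
      Real.div_rpow hx0.le (by norm_num) _
    have e2 : (2 : ℝ) ^ ((j : ℝ) / 8) ≤ 2 ^ j := by
      rw [← Real.rpow_natCast]
      exact Real.rpow_le_rpow_of_exponent_le (by norm_num) (by linarith)
    have e3 : 0 < x ^ ((j : ℝ) / 8) := Real.rpow_pos_of_pos hx0 _
    calc (2 : ℝ) ^ q / (x - q * (8 * k : ℕ)) ^ ((q + 1) / 2) ≤ 2 ^ j / (x / 2) ^ ((j : ℝ) / 8) :=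
          div_le_div₀ (by positivity) (pow_le_pow_right₀ (by norm_num) hq2) hpos hden
      _ = 2 ^ j * (2 ^ ((j : ℝ) / 8) * x ^ (-((j : ℝ) / 8))) := by
          rw [e1, Real.rpow_neg hx0.le]
          field_simp
      _ ≤ 2 ^ j * (2 ^ j * x ^ (-((j : ℝ) / 8))) := by
          refine mul_le_mul_of_nonneg_left ?_ (by positivity)
          exact mul_le_mul_of_nonneg_right e2 (by positivity)
  have h2 : ((8 * k : ℕ) : ℝ) ≤ (16 * C) ^ j * 2 ^ j := by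
    have e1 : ((8 * k : ℕ) : ℝ) ≤ 16 * C * j := by
      push_cast
      linarith
    have e2 : (16 * C) ^ 1 ≤ (16 * C) ^ j := pow_le_pow_right₀ (by linarith) hj
    have e3 : (j : ℝ) ≤ 2 ^ j := by exact_mod_cast (Nat.lt_two_pow_self (n := j)).le
    rw [pow_one] at e2
    calc ((8 * k : ℕ) : ℝ) ≤ 16 * C * j := e1
      _ ≤ (16 * C) ^ j * 2 ^ j := mul_le_mul e2 e3 (by positivity) (by positivity)
  have hdiv0 : 0 ≤ (2 : ℝ) ^ q / (x - q * (8 * k : ℕ)) ^ ((q + 1) / 2) :=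
    div_nonneg (by positivity) (pow_nonneg (by linarith) _)
  calc 2 ^ j * (((8 * k : ℕ) : ℝ) * (2 ^ q / (x - q * (8 * k : ℕ)) ^ ((q + 1) / 2))) ≤
        2 ^ j * (((16 * C) ^ j * 2 ^ j) * (2 ^ j * (2 ^ j * x ^ (-((j : ℝ) / 8))))) := by
        refine mul_le_mul_of_nonneg_left ?_ (by positivity)
        exact mul_le_mul h2 h1 hdiv0 (by positivity)
    _ = (256 * C) ^ j * x ^ (-((j : ℝ) / 8)) := by
        have e1 : (256 * C) ^ j = (2 : ℝ) ^ j * ((16 * C) ^ j * 2 ^ j * (2 ^ j * 2 ^ j)) := by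
          rw [← mul_pow, ← mul_pow, ← mul_pow, ← mul_pow]
          congr 1
          ring
        rw [e1]
        ring
    _ ≤ (x ^ (1 / 12 : ℝ)) ^ j * x ^ (-((j : ℝ) / 8)) := by
        refine mul_le_mul_of_nonneg_right ?_ (by positivity)
        exact pow_le_pow_left₀ (by linarith) h256 j
    _ = x ^ (1 / 12 * (j : ℝ) + -((j : ℝ) / 8)) := by
        rw [rpow_pow hx0.le, ← Real.rpow_add hx0]
    _ ≤ x ^ (-((j : ℝ) / 24)) := by
        apply Real.rpow_le_rpow_of_exponent_le hx1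
        linarith

/-- the bound of `betaS` -/
theorem betaS_le {n j k r : ℕ} {c δ C : ℝ} (hc : 0 < c) (hc1 : c ≤ 1 / 24) (hj : 1 ≤ j)
    (hjn : 2 * j ≤ n) (hjγ : (j : ℝ) ≤ (n : ℝ) ^ (1 - 24 * c)) (h4 : 4 ≤ (n : ℝ) ^ c)
    (hX : 32 * (((j + 3) / 4 : ℕ) * (8 * k : ℕ)) / (n : ℝ) ≤ (n : ℝ) ^ (-δ)) (hδ : 0 < δ)
    (h9 : 2 ^ 9 ≤ (n : ℝ) ^ (δ / 2)) (hr : 1 ≤ r) (hkr : C * j ≤ k * r) (hC : C * δ = 4)
    (hqk : 2 * (((j + 3) / 4 : ℕ) * (8 * k : ℕ) : ℝ) ≤ n) (hk : (k : ℝ) ≤ 2 * C * j)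
    (hC1 : 1 ≤ C) (h256 : 256 * C ≤ (n : ℝ) ^ (1 / 12 : ℝ)) :
    0 ≤ betaS n j k r ∧ betaS n j k r ≤ 4 * (n : ℝ) ^ (-(c * j)) := by
  have hjn' : 2 * (j : ℝ) ≤ n := by exact_mod_cast hjn
  have hj' : (1 : ℝ) ≤ j := by exact_mod_cast hj
  have hn2 : (2 : ℝ) ≤ n := by linarith
  have hn1 : (1 : ℝ) ≤ n := by linarith
  have hy0 : 0 ≤ (j : ℝ) / (n - j) := div_nonneg (by linarith) (by linarith)
  have hd0 : (0 : ℝ) ≤ (n : ℝ) - ((j + 3) / 4 : ℕ) * (8 * k : ℕ) := by linarith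
  have t1 : ((j : ℝ) / (n - j)) ^ ((j + 1) / 2) ≤ (n : ℝ) ^ (-(c * j)) := by
    refine le_trans ?_ (term12 hc hj hjn hjγ h4 ((j + 1) / 2) ?_)
    · refine le_mul_of_one_le_left (by positivity) ?_
      exact one_le_pow₀ (by norm_num)
    · have : j ≤ 12 * ((j + 1) / 2) := by omega
      exact_mod_cast this
  have t2 : 2 ^ j * ((j : ℝ) / (n - j)) ^ (((j + 3) / 4 + 2) / 3) ≤ (n : ℝ) ^ (-(c * j)) := by
    refine term12 hc hj hjn hjγ h4 _ ?_
    have : j ≤ 12 * (((j + 3) / 4 + 2) / 3) := by omega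
    exact_mod_cast this
  have t3 : 2 ^ j * (2 ^ (8 * k) *
      (2 * (32 * (((j + 3) / 4 : ℕ) * (8 * k : ℕ)) / (n : ℝ)) ^ r) ^ k) ≤
      (n : ℝ) ^ (-(c * j)) := by
    refine (term3 hn2 (by positivity) hX hδ h9 hr hkr hC).trans ?_
    apply Real.rpow_le_rpow_of_exponent_le hn1
    nlinarith
  have t4 : 2 ^ j * ((8 * k : ℕ) * (2 ^ ((j + 3) / 4) /
      ((n : ℝ) - ((j + 3) / 4 : ℕ) * (8 * k : ℕ)) ^ (((j + 3) / 4 + 1) / 2))) ≤
      (n : ℝ) ^ (-(c * j)) := by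
    refine (term4 hn2 hqk hk (by omega) (by omega) hj hC1 h256).trans ?_
    apply Real.rpow_le_rpow_of_exponent_le hn1
    nlinarith
  constructor
  · unfold betaS
    positivity
  · unfold betaS
    rw [mul_add]
    linarith

/-- lower bound of the denominator -/
theorem denom_le {j k a : ℕ} {x c ε M C : ℝ} (hx : 0 < x) (hε : 0 < ε) (hε1 : ε ≤ 1 / 2)
    (hM : 16 * ε * M ≤ c / 8) (hka : (k : ℝ) * a ≤ M * (j * Real.log x))
    (hk : (k : ℝ) ≤ 2 * C * j) (hlog : 64 * C ≤ c * Real.log x) (hL : 0 ≤ Real.log x) :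
    x ^ (-(3 / 8 * (c * j))) ≤ (1 / 2 * (1 - ε) ^ a) ^ (8 * k) := by
  have h1 : Real.exp (-(2 * ε)) ≤ 1 - ε := by
    have h2 := Real.one_sub_inv_le_log_of_pos (x := 1 - ε) (by linarith)
    have h3 : -(2 * ε) ≤ Real.log (1 - ε) := by
      refine le_trans ?_ h2
      have h4 : (1 - ε)⁻¹ ≤ 1 + 2 * ε := by
        rw [inv_le_comm₀ (by linarith) (by linarith)]
        rw [inv_le_iff_one_le_mul₀ (by linarith)]
        nlinarith
      linarith
    calc Real.exp (-(2 * ε)) ≤ Real.exp (Real.log (1 - ε)) := Real.exp_le_exp.mpr h3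
      _ = 1 - ε := Real.exp_log (by linarith)
  have h2 : Real.exp (-1) ≤ 1 / 2 := by
    rw [Real.exp_neg, inv_le_comm₀ (Real.exp_pos 1) (by norm_num)]
    have := Real.add_one_le_exp (1 : ℝ)
    norm_num
    linarith
  have h3 : Real.exp (-1 - 2 * ε * a) ≤ 1 / 2 * (1 - ε) ^ a := by
    have e1 : Real.exp (-1 - 2 * ε * a) = Real.exp (-1) * Real.exp (-(2 * ε)) ^ a := by
      rw [← Real.exp_nat_mul, ← Real.exp_add]
      congr 1
      ring
    rw [e1]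
    exact mul_le_mul h2 (pow_le_pow_left₀ (Real.exp_nonneg _) h1 a) (by positivity) (by norm_num)
  calc x ^ (-(3 / 8 * (c * j))) = Real.exp (Real.log x * (-(3 / 8 * (c * j)))) :=
        Real.rpow_def_of_pos hx _
    _ ≤ Real.exp ((8 * k : ℕ) * (-1 - 2 * ε * a)) := by
        apply Real.exp_le_exp.mpr
        push_cast
        have hj0 : (0 : ℝ) ≤ j := Nat.cast_nonneg j
        have e1 : 64 * C * j ≤ c * Real.log x * j := mul_le_mul_of_nonneg_right hlog hj0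
        have e2 : 16 * ε * (k * a) ≤ 16 * ε * (M * (j * Real.log x)) :=
          mul_le_mul_of_nonneg_left hka (by positivity)
        have e3 : 16 * ε * M * (j * Real.log x) ≤ c / 8 * (j * Real.log x) :=
          mul_le_mul_of_nonneg_right hM (by positivity)
        nlinarith
    _ = Real.exp (-1 - 2 * ε * a) ^ (8 * k) := by rw [Real.exp_nat_mul]
    _ ≤ (1 / 2 * (1 - ε) ^ a) ^ (8 * k) := pow_le_pow_left₀ (Real.exp_nonneg _) h3 _

/-- the final combination -/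
theorem combine {j k a B : ℕ} {x c ε β : ℝ} (hx : 1 ≤ x) (hc : 0 < c) (hj : 1 ≤ j)
    (hβ0 : 0 ≤ β) (hβ : β ≤ 4 * x ^ (-(c * j)))
    (hD : x ^ (-(3 / 8 * (c * j))) ≤ (1 / 2 * (1 - ε) ^ a) ^ (8 * k))
    (h4 : 4 ≤ x ^ (c / 8)) (hB : 4 ≤ c * B) :
    4 * (β / (1 / 2 * (1 - ε) ^ a) ^ (8 * k)) ^ B * x ^ j ≤ 4 / x ^ j := by
  have hx0 : 0 < x := by linarith
  have hj' : (1 : ℝ) ≤ j := by exact_mod_cast hj
  have hpos : 0 < x ^ (-(3 / 8 * (c * j))) := Real.rpow_pos_of_pos hx0 _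
  have h1 : β / (1 / 2 * (1 - ε) ^ a) ^ (8 * k) ≤ x ^ (-(c * j / 2)) := by
    calc β / (1 / 2 * (1 - ε) ^ a) ^ (8 * k) ≤
          (4 * x ^ (-(c * j))) / x ^ (-(3 / 8 * (c * j))) :=
          div_le_div₀ (by positivity) hβ hpos hD
      _ = 4 * x ^ (-(5 / 8 * (c * j))) := by
          rw [mul_div_assoc, ← Real.rpow_sub hx0]
          congr 2
          ring
      _ ≤ x ^ (c / 8) * x ^ (-(5 / 8 * (c * j))) :=
          mul_le_mul_of_nonneg_right h4 (by positivity)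
      _ = x ^ (c / 8 + -(5 / 8 * (c * j))) := by rw [← Real.rpow_add hx0]
      _ ≤ x ^ (-(c * j / 2)) := by
          apply Real.rpow_le_rpow_of_exponent_le hx
          nlinarith
  have h0 : 0 ≤ β / (1 / 2 * (1 - ε) ^ a) ^ (8 * k) := div_nonneg hβ0 (hpos.le.trans hD)
  have h2 : (β / (1 / 2 * (1 - ε) ^ a) ^ (8 * k)) ^ B ≤ x ^ (-(2 * (j : ℝ))) := by
    calc (β / (1 / 2 * (1 - ε) ^ a) ^ (8 * k)) ^ B ≤ (x ^ (-(c * j / 2))) ^ B :=
          pow_le_pow_left₀ h0 h1 B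
      _ = x ^ (-(c * j / 2) * B) := rpow_pow hx0.le _ _
      _ ≤ x ^ (-(2 * (j : ℝ))) := by
          apply Real.rpow_le_rpow_of_exponent_le hx
          have e1 : 4 * (j : ℝ) ≤ c * B * j := mul_le_mul_of_nonneg_right hB (by linarith)
          nlinarith
  have h3 : x ^ (-(2 * (j : ℝ))) * x ^ j = 1 / x ^ j := by
    rw [← Real.rpow_natCast, ← Real.rpow_add hx0, one_div, ← Real.rpow_neg hx0.le]
    congr 1
    ring
  calc 4 * (β / (1 / 2 * (1 - ε) ^ a) ^ (8 * k)) ^ B * x ^ j ≤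
        4 * x ^ (-(2 * (j : ℝ))) * x ^ j := by
        refine mul_le_mul_of_nonneg_right ?_ (by positivity)
        exact mul_le_mul_of_nonneg_left h2 (by norm_num)
    _ = 4 / x ^ j := by
        rw [mul_assoc, h3]
        ring

/-- the mixing length -/
theorem mixing {n r a s : ℕ} {ε₀ : ℝ} (hs : 1 ≤ s) (hε₀ : 0 < ε₀) (hε₀s : ε₀ ≤ 2 * s)
    (hn : 1 ≤ n) (ha : 2 * (s / ε₀ * (r * Real.log n)) ≤ a) :
    (1 - ε₀ / (2 * s)) ^ a * (n.descFactorial r : ℝ) ≤ 1 := by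
  have hs' : (1 : ℝ) ≤ s := by exact_mod_cast hs
  have hn0 : (0 : ℝ) < n := by exact_mod_cast hn
  have h0 : 0 ≤ 1 - ε₀ / (2 * s) := by
    rw [sub_nonneg, div_le_one (by linarith)]
    exact hε₀s
  have h1 : 1 - ε₀ / (2 * s) ≤ Real.exp (-(ε₀ / (2 * s))) := by
    have := Real.add_one_le_exp (-(ε₀ / (2 * s)))
    linarith
  have h2 : (1 - ε₀ / (2 * s)) ^ a ≤ Real.exp (-(r * Real.log n)) := by
    calc (1 - ε₀ / (2 * s)) ^ a ≤ Real.exp (-(ε₀ / (2 * s))) ^ a := pow_le_pow_left₀ h0 h1 a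
      _ = Real.exp (a * (-(ε₀ / (2 * s)))) := by rw [Real.exp_nat_mul]
      _ ≤ Real.exp (-(r * Real.log n)) := by
          apply Real.exp_le_exp.mpr
          have e1 : ε₀ / (2 * s) * (2 * (s / ε₀ * (r * Real.log n))) ≤ ε₀ / (2 * s) * a :=
            mul_le_mul_of_nonneg_left ha (by positivity)
          have e2 : ε₀ / (2 * s) * (2 * (s / ε₀ * (r * Real.log n))) = r * Real.log n := by
            field_simp
          rw [e2] at e1
          linarith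
  have h3 : (n.descFactorial r : ℝ) ≤ (n : ℝ) ^ r := by
    exact_mod_cast Nat.descFactorial_le_pow n r
  have h4 : Real.exp (-(r * Real.log n)) * (n : ℝ) ^ r = 1 := by
    have e1 : (n : ℝ) ^ r = Real.exp (r * Real.log n) := by
      rw [Real.exp_nat_mul, Real.exp_log hn0]
    rw [e1, ← Real.exp_add, neg_add_cancel, Real.exp_zero]
  calc (1 - ε₀ / (2 * s)) ^ a * (n.descFactorial r : ℝ) ≤
        Real.exp (-(r * Real.log n)) * (n : ℝ) ^ r :=
        mul_le_mul h2 h3 (by positivity) (Real.exp_nonneg _)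
    _ = 1 := h4

theorem ev_rpow {α : ℝ} (hα : 0 < α) (K : ℝ) : ∀ᶠ n : ℕ in Filter.atTop, K ≤ (n : ℝ) ^ α :=
  ((tendsto_rpow_atTop hα).comp tendsto_natCast_atTop_atTop).eventually_ge_atTop K

end Asy

open Asy in
set_option linter.unusedVariables false in
theorem asy (s : ℕ) (hs : 1 ≤ s) (ε₀ γ γ' : ℝ) (hε₀ : 0 < ε₀) (hε₀s : ε₀ ≤ 2 * s)
    (hγ : 0 ≤ γ) (hγ1 : γ < 1) (hγ' : γ' < (1 + γ) / 2) :
    ∃ ε : ℝ, 0 < ε ∧ ε ≤ 1 / 2 ∧ ∃ B : ℕ, 1 ≤ B ∧ ∃ N : ℕ, ∀ n ≥ N, ∀ j : ℕ,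
      ⌊(n : ℝ) ^ γ⌋₊ < j → j ≤ ⌊(n : ℝ) ^ γ'⌋₊ →
      2 * j ≤ n ∧ ∃ k r' a : ℕ, 1 ≤ k ∧ 1 ≤ r' ∧ r' ≤ ⌊(n : ℝ) ^ γ⌋₊ ∧
        2 * r' ≤ ((j + 3) / 4 + 7) / 8 + 1 ∧ 2 * ((j + 3) / 4 * (8 * k)) ≤ n ∧ Even a ∧
        (1 - ε₀ / (2 * s)) ^ a * (n.descFactorial r' : ℝ) ≤ 1 ∧
        4 * (betaS n j k r' / (1 / 2 * (1 - ε) ^ a) ^ (8 * k)) ^ B * (n : ℝ) ^ j ≤
          4 / (n : ℝ) ^ j := by
  rcases le_or_gt γ' γ with hle | hlt
  · -- nothing to do
    refine ⟨1 / 2, by norm_num, le_rfl, 1, le_rfl, 1, fun n hn j hj1 hj2 => ?_⟩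
    exfalso
    have hn' : (1 : ℝ) ≤ n := by exact_mod_cast hn
    have h1 : (n : ℝ) ^ γ' ≤ (n : ℝ) ^ γ := Real.rpow_le_rpow_of_exponent_le hn' hle
    have h2 := Nat.floor_le_floor h1
    omega
  · have hs' : (1 : ℝ) ≤ s := by exact_mod_cast hs
    obtain ⟨δ, hδdef⟩ : ∃ δ : ℝ, δ = (1 + γ - 2 * γ') / 2 := ⟨_, rfl⟩
    have hδ : 0 < δ := by rw [hδdef]; linarith
    have hδ1 : δ < 1 := by rw [hδdef]; linarith
    obtain ⟨C, hCdef⟩ : ∃ C : ℝ, C = 4 / δ := ⟨_, rfl⟩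
    have hC : C * δ = 4 := by rw [hCdef]; field_simp
    have hC1 : 1 ≤ C := by
      rw [hCdef, le_div_iff₀ hδ]
      linarith
    obtain ⟨c, hcdef⟩ : ∃ c : ℝ, c = (1 - γ') / 24 := ⟨_, rfl⟩
    have hc : 0 < c := by rw [hcdef]; linarith
    have hc1 : c ≤ 1 / 24 := by rw [hcdef]; linarith
    obtain ⟨ε, hεdef⟩ : ∃ ε : ℝ, ε = min (1 / 2) (c * ε₀ / (1024 * s * C)) := ⟨_, rfl⟩
    have hε : 0 < ε := by rw [hεdef]; exact lt_min (by norm_num) (by positivity)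
    have hε1 : ε ≤ 1 / 2 := by rw [hεdef]; exact min_le_left _ _
    have hε2 : 16 * ε * (8 * C * (s / ε₀)) ≤ c / 8 := by
      have h1 : ε ≤ c * ε₀ / (1024 * s * C) := by rw [hεdef]; exact min_le_right _ _
      calc 16 * ε * (8 * C * (s / ε₀)) ≤
            16 * (c * ε₀ / (1024 * s * C)) * (8 * C * (s / ε₀)) := by
            refine mul_le_mul_of_nonneg_right ?_ (by positivity)
            linarith
        _ = c / 8 := by
            field_simp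
            norm_num
    obtain ⟨N, hN⟩ := Filter.eventually_atTop.mp
      (((ev_rpow (α := c / 8) (by positivity) 4).and
        ((ev_rpow (α := δ / 2) (by positivity) (2 ^ 9)).and
        ((ev_rpow (α := 1 / 12) (by norm_num) (256 * C)).and
        ((ev_rpow (α := δ) hδ (32 * (4096 * C))).and
        (((Real.tendsto_log_atTop.comp tendsto_natCast_atTop_atTop).eventually_ge_atTop
          (max 2 (64 * C / c))).and (Filter.eventually_ge_atTop 2)))))))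
    refine ⟨ε, hε, hε1, ⌈4 / c⌉₊, Nat.one_le_ceil_iff.mpr (by positivity), N, ?_⟩
    intro n hn j hj1 hj2
    obtain ⟨E1, E2, E3, E5, E6, E7⟩ := hN n hn
    simp only [Function.comp] at E6
    have hn2 : (2 : ℝ) ≤ n := by exact_mod_cast E7
    have hn1 : (1 : ℝ) ≤ n := by linarith
    have hn0 : (0 : ℝ) < n := by linarith
    have hL2 : 2 ≤ Real.log n := (le_max_left _ _).trans E6
    have hLC : 64 * C ≤ c * Real.log n := by
      have h1 : 64 * C / c ≤ Real.log n := (le_max_right _ _).trans E6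
      rw [div_le_iff₀ hc] at h1
      linarith
    -- the range of `j`
    have hr1 : 1 ≤ ⌊(n : ℝ) ^ γ⌋₊ := by
      rw [Nat.one_le_floor_iff]
      exact Real.one_le_rpow hn1 hγ
    have hj : 1 ≤ j := by omega
    have hj' : (1 : ℝ) ≤ j := by exact_mod_cast hj
    have hjγ : (j : ℝ) ≤ (n : ℝ) ^ γ' := (Nat.le_floor_iff (by positivity)).mp hj2
    have e24 : 1 - 24 * c = γ' := by rw [hcdef]; ring
    have h4c : 4 ≤ (n : ℝ) ^ c := E1.trans (Real.rpow_le_rpow_of_exponent_le hn1 (by linarith))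
    have hjn : 2 * (j : ℝ) ≤ n := by
      have h1 : 4 ≤ (n : ℝ) ^ (24 * c) :=
        h4c.trans (Real.rpow_le_rpow_of_exponent_le hn1 (by linarith))
      have h2 : (n : ℝ) ^ γ' * (n : ℝ) ^ (24 * c) = n := by
        rw [← Real.rpow_add hn0, ← e24]
        simp
      have h3 : 0 < (n : ℝ) ^ γ' := Real.rpow_pos_of_pos hn0 _
      nlinarith
    have hjn' : 2 * j ≤ n := by exact_mod_cast hjn
    refine ⟨hjn', ?_⟩
    -- the parameters
    generalize hrdef : ⌊(n : ℝ) ^ γ⌋₊ = r at *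
    have hrγ : (n : ℝ) ^ γ ≤ 2 * r := by
      have h1 := (Nat.lt_floor_add_one ((n : ℝ) ^ γ)).le
      rw [hrdef] at h1
      have h2 : (1 : ℝ) ≤ r := by exact_mod_cast hr1
      linarith
    obtain ⟨r', hr'def⟩ : ∃ r' : ℕ, r' = max 1 (r / 64) := ⟨_, rfl⟩
    have hr'1 : 1 ≤ r' := by omega
    have hr'r : r' ≤ r := by omega
    have hr'128 : r ≤ 128 * r' := by omega
    have hr'1' : (1 : ℝ) ≤ r' := by exact_mod_cast hr'1
    have hr'0 : (0 : ℝ) < r' := by linarith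
    have hr'γ : (n : ℝ) ^ γ ≤ 256 * r' := by
      have : (r : ℝ) ≤ 128 * r' := by exact_mod_cast hr'128
      linarith
    have hr'j : (r' : ℝ) ≤ j := by exact_mod_cast (hr'r.trans hj1.le)
    obtain ⟨k, hkdef⟩ : ∃ k : ℕ, k = ⌈C * j / r'⌉₊ := ⟨_, rfl⟩
    have hk1 : 1 ≤ k := by
      rw [hkdef]
      exact Nat.one_le_ceil_iff.mpr (by positivity)
    have hkr : C * j ≤ k * r' := by
      have h1 := Nat.le_ceil (C * j / r')
      rw [← hkdef, div_le_iff₀ hr'0] at h1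
      exact h1
    have hkr2 : (k : ℝ) * r' ≤ 2 * C * j := by
      have h1 := (Nat.ceil_lt_add_one (a := C * j / r') (by positivity)).le
      rw [← hkdef] at h1
      calc (k : ℝ) * r' ≤ (C * j / r' + 1) * r' := mul_le_mul_of_nonneg_right h1 hr'0.le
        _ = C * j + r' := by field_simp
        _ ≤ 2 * C * j := by nlinarith
    have hk2 : (k : ℝ) ≤ 2 * C * j := by
      have : (k : ℝ) * 1 ≤ k * r' := mul_le_mul_of_nonneg_left hr'1' (by positivity)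
      linarith
    obtain ⟨a', ha'def⟩ : ∃ a' : ℕ, a' = ⌈(s : ℝ) / ε₀ * (r' * Real.log n)⌉₊ := ⟨_, rfl⟩
    have ha1 : (s : ℝ) / ε₀ * (r' * Real.log n) ≤ a' := by
      rw [ha'def]
      exact Nat.le_ceil _
    have ha2 : (a' : ℝ) ≤ 2 * ((s : ℝ) / ε₀ * (r' * Real.log n)) := by
      have h1 := (Nat.ceil_lt_add_one (a := (s : ℝ) / ε₀ * (r' * Real.log n))
        (by positivity)).le
      rw [← ha'def] at h1
      have h2 : 1 ≤ (s : ℝ) / ε₀ * (r' * Real.log n) := by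
        have h3 : 1 / 2 ≤ (s : ℝ) / ε₀ := by
          rw [le_div_iff₀ hε₀]
          linarith
        have h4 : 2 ≤ r' * Real.log n := by nlinarith
        nlinarith
      linarith
    -- the product `8 q k`
    have hqj : (((j + 3) / 4 : ℕ) : ℝ) ≤ j := by
      have : (j + 3) / 4 ≤ j := by omega
      exact_mod_cast this
    have hprod : (((j + 3) / 4 : ℕ) : ℝ) * (8 * k : ℕ) ≤ 4096 * C * (n : ℝ) ^ (1 - 2 * δ) := by
      have h1 : ((8 * k : ℕ) : ℝ) * r' ≤ 16 * C * j := by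
        push_cast
        nlinarith
      have h2 : (((j + 3) / 4 : ℕ) : ℝ) * (8 * k : ℕ) * r' ≤ 16 * C * (j * j) := by
        calc (((j + 3) / 4 : ℕ) : ℝ) * (8 * k : ℕ) * r' =
              (((j + 3) / 4 : ℕ) : ℝ) * ((8 * k : ℕ) * r') := by ring
          _ ≤ j * (16 * C * j) := mul_le_mul hqj h1 (by positivity) (by positivity)
          _ = 16 * C * (j * j) := by ring
      have h3 : (j : ℝ) * j ≤ (n : ℝ) ^ γ' * (n : ℝ) ^ γ' :=
        mul_le_mul hjγ hjγ (by positivity) (by positivity)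
      have h4 : (n : ℝ) ^ γ' * (n : ℝ) ^ γ' = (n : ℝ) ^ (1 - 2 * δ) * (n : ℝ) ^ γ := by
        rw [← Real.rpow_add hn0, ← Real.rpow_add hn0]
        congr 1
        rw [hδdef]
        ring
      have h5 : (n : ℝ) ^ (1 - 2 * δ) * (n : ℝ) ^ γ ≤ (n : ℝ) ^ (1 - 2 * δ) * (256 * r') :=
        mul_le_mul_of_nonneg_left hr'γ (by positivity)
      have h6 : (((j + 3) / 4 : ℕ) : ℝ) * (8 * k : ℕ) * r' ≤
          4096 * C * (n : ℝ) ^ (1 - 2 * δ) * r' := by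
        calc (((j + 3) / 4 : ℕ) : ℝ) * (8 * k : ℕ) * r' ≤ 16 * C * (j * j) := h2
          _ ≤ 16 * C * ((n : ℝ) ^ (1 - 2 * δ) * (256 * r')) := by
              refine mul_le_mul_of_nonneg_left ?_ (by positivity)
              linarith
          _ = 4096 * C * (n : ℝ) ^ (1 - 2 * δ) * r' := by ring
      exact le_of_mul_le_mul_right h6 hr'0
    have hX : 32 * (((j + 3) / 4 : ℕ) * (8 * k : ℕ)) / (n : ℝ) ≤ (n : ℝ) ^ (-δ) := by
      rw [div_le_iff₀ hn0]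
      have h1 : (n : ℝ) ^ (-δ) * n = (n : ℝ) ^ δ * (n : ℝ) ^ (1 - 2 * δ) := by
        rw [← Real.rpow_add hn0, ← Real.rpow_add_one hn0.ne']
        congr 1
        ring
      rw [h1]
      calc 32 * ((((j + 3) / 4 : ℕ) : ℝ) * (8 * k : ℕ)) ≤
            32 * (4096 * C * (n : ℝ) ^ (1 - 2 * δ)) :=
            mul_le_mul_of_nonneg_left hprod (by norm_num)
        _ = 32 * (4096 * C) * (n : ℝ) ^ (1 - 2 * δ) := by ring
        _ ≤ (n : ℝ) ^ δ * (n : ℝ) ^ (1 - 2 * δ) :=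
            mul_le_mul_of_nonneg_right E5 (by positivity)
    have hqk : 2 * (((j + 3) / 4 : ℕ) * (8 * k : ℕ) : ℝ) ≤ n := by
      have h1 : (n : ℝ) ^ (-δ) ≤ 1 := Real.rpow_le_one_of_one_le_of_nonpos hn1 (by linarith)
      have h2 := hX.trans h1
      rw [div_le_one hn0] at h2
      linarith [show (0 : ℝ) ≤ ((j + 3) / 4 : ℕ) * (8 * k : ℕ) by positivity]
    have hβ := betaS_le (r := r') hc hc1 hj hjn' (by rw [e24]; exact hjγ) h4c hX hδ E2 hr'1 hkr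
      hC hqk hk2 hC1 E3
    have hka : (k : ℝ) * ((2 * a' : ℕ) : ℝ) ≤ 8 * C * (s / ε₀) * (j * Real.log n) := by
      push_cast
      calc (k : ℝ) * (2 * a') ≤ k * (2 * (2 * ((s : ℝ) / ε₀ * (r' * Real.log n)))) := by
            refine mul_le_mul_of_nonneg_left ?_ (by positivity)
            linarith
        _ = 4 * ((s : ℝ) / ε₀ * Real.log n) * (k * r') := by ring
        _ ≤ 4 * ((s : ℝ) / ε₀ * Real.log n) * (2 * C * j) := by
            refine mul_le_mul_of_nonneg_left hkr2 ?_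
            have : 0 ≤ Real.log n := by linarith
            positivity
        _ = 8 * C * (s / ε₀) * (j * Real.log n) := by ring
    have hD := denom_le (j := j) (k := k) (a := 2 * a') (x := n) (c := c) (C := C) hn0 hε hε1 hε2
      hka hk2 hLC (by linarith)
    refine ⟨k, r', 2 * a', hk1, hr'1, hr'r, by omega, ?_, even_two_mul a', ?_, ?_⟩
    · exact_mod_cast hqk
    · refine mixing hs hε₀ hε₀s (by omega) ?_
      push_cast
      linarith
    · refine combine hn1 hc hj hβ.1 hβ.2 hD E1 ?_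
      have := Nat.le_ceil (4 / c)
      rw [div_le_iff₀ hc] at this
      linarith

end Pool.Agent.RC
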