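import Pool.Agent.Helper46.RC.Proc

/-!
# Chains of contractions

A union bound over chains: if a random contraction `P ω` has small second moment on every vector,
then few tuples of `B` of them almost fix a common vector.
-/

open Finset

namespace Pool.Agent.RC

open scoped InnerProductSpace

namespace Chain

variable {E : Type*} [NormedAddCommGroup E] [InnerProductSpace ℝ E]
    {Ω : Type*}

/-- The product `P (ω 0) * P (ω 1) * ... * P (ω (K - 1))`. -/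
def comp (P : Ω → E →ₗ[ℝ] E) : (K : ℕ) → (Fin K → Ω) → (E →ₗ[ℝ] E)
  | 0, _ => LinearMap.id
  | K + 1, ω => (P (ω 0)).comp (comp P K (fun i => ω i.succ))

theorem comp_sub (P : Ω → E →ₗ[ℝ] E) (hP : ∀ ω v, ‖P ω v‖ ≤ ‖v‖) (K : ℕ) (ω : Fin K → Ω) (v : E) :
    ‖comp P K ω v - v‖ ≤ ∑ b, ‖v - P (ω b) v‖ := by
  induction K with
  | zero => simp [comp]
  | succ K ih =>
    rw [Fin.sum_univ_succ]
    have h1 := ih (fun i => ω i.succ)
    have h2 : comp P (K + 1) ω v - v =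
        P (ω 0) (comp P K (fun i => ω i.succ) v - v) - (v - P (ω 0) v) := by
      simp only [comp, LinearMap.comp_apply, map_sub]
      abel
    rw [h2]
    calc _ ≤ ‖P (ω 0) (comp P K (fun i => ω i.succ) v - v)‖ + ‖v - P (ω 0) v‖ := norm_sub_le _ _
      _ ≤ ‖comp P K (fun i => ω i.succ) v - v‖ + ‖v - P (ω 0) v‖ := by
          gcongr
          exact hP _ _
      _ ≤ _ := by linarith

theorem sum_comp [Fintype Ω] (P : Ω → E →ₗ[ℝ] E) (κ : ℝ)
    (hκ : ∀ v, ∑ ω, ‖P ω v‖ ^ 2 ≤ κ * Fintype.card Ω * ‖v‖ ^ 2) (h0 : 0 ≤ κ * Fintype.card Ω)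
    (K : ℕ) (v : E) :
    ∑ ω : Fin K → Ω, ‖comp P K ω v‖ ^ 2 ≤ (κ * Fintype.card Ω) ^ K * ‖v‖ ^ 2 := by
  induction K with
  | zero => simp [comp]
  | succ K ih =>
    rw [← (Fin.consEquiv (fun _ => Ω)).sum_comp, Fintype.sum_prod_type, Finset.sum_comm]
    have h : ∀ ω' : Fin K → Ω, ∑ x : Ω,
        ‖comp P (K + 1) (Fin.consEquiv (fun _ => Ω) (x, ω')) v‖ ^ 2 ≤
          κ * Fintype.card Ω * ‖comp P K ω' v‖ ^ 2 := by
      intro ω'
      have := hκ (comp P K ω' v)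
      simpa [comp, Fin.consEquiv] using this
    calc _ ≤ ∑ ω' : Fin K → Ω, κ * Fintype.card Ω * ‖comp P K ω' v‖ ^ 2 :=
          Finset.sum_le_sum (fun ω' _ => h ω')
      _ = κ * Fintype.card Ω * ∑ ω' : Fin K → Ω, ‖comp P K ω' v‖ ^ 2 := by
          rw [Finset.mul_sum]
      _ ≤ κ * Fintype.card Ω * ((κ * Fintype.card Ω) ^ K * ‖v‖ ^ 2) := by
          gcongr
      _ = _ := by ring

theorem norm_le_hs {ι : Type*} [Fintype ι] (e : OrthonormalBasis ι ℝ E) (C : E →ₗ[ℝ] E) (v : E) :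
    ‖C v‖ ^ 2 ≤ ‖v‖ ^ 2 * ∑ i, ‖C (e i)‖ ^ 2 := by
  have h1 : C v = ∑ i, ⟪e i, v⟫_ℝ • C (e i) := by
    conv_lhs => rw [← e.sum_repr' v]
    simp [map_sum]
  have h2 : ‖C v‖ ≤ ∑ i, |⟪e i, v⟫_ℝ| * ‖C (e i)‖ := by
    rw [h1]
    refine (norm_sum_le _ _).trans (le_of_eq ?_)
    refine Finset.sum_congr rfl (fun i _ => ?_)
    rw [norm_smul, Real.norm_eq_abs]
  calc ‖C v‖ ^ 2 ≤ (∑ i, |⟪e i, v⟫_ℝ| * ‖C (e i)‖) ^ 2 := by
        gcongr
    _ ≤ (∑ i, |⟪e i, v⟫_ℝ| ^ 2) * ∑ i, ‖C (e i)‖ ^ 2 := Finset.sum_mul_sq_le_sq_mul_sq _ _ _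
    _ = _ := by
        congr 1
        have := e.sum_sq_norm_inner_right v
        simpa [Real.norm_eq_abs] using this

end Chain

theorem chain {E : Type*} [NormedAddCommGroup E] [InnerProductSpace ℝ E] [FiniteDimensional ℝ E]
    {Ω : Type*} [Fintype Ω] (P : Ω → E →ₗ[ℝ] E) (hP : ∀ ω v, ‖P ω v‖ ≤ ‖v‖) (κ : ℝ)
    (hκ : ∀ v, ∑ ω, ‖P ω v‖ ^ 2 ≤ κ * Fintype.card Ω * ‖v‖ ^ 2) (Q : Ω → E → ℝ) (ε : ℝ)
    (hε : 0 < ε) (hQ : ∀ ω v, ε * ‖v - P ω v‖ ^ 2 ≤ Q ω v) (B : ℕ) (hB : 1 ≤ B) :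
    (Nat.card {ω : Fin B → Ω // ∃ v : E, v ≠ 0 ∧
        ∑ b, Q (ω b) v < ε / (4 * B ^ 2) * ‖v‖ ^ 2} : ℝ) ≤
      4 * κ ^ B * Module.finrank ℝ E * (Fintype.card Ω : ℝ) ^ B := by
  classical
  have hB' : (0 : ℝ) < B := by exact_mod_cast hB
  by_cases hE : ∀ v : E, v = 0
  · have hempty : IsEmpty {ω : Fin B → Ω // ∃ v : E, v ≠ 0 ∧
        ∑ b, Q (ω b) v < ε / (4 * B ^ 2) * ‖v‖ ^ 2} := by
      constructor
      rintro ⟨ω, v, hv, -⟩
      exact hv (hE v)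
    have : Subsingleton E := ⟨fun a b => by rw [hE a, hE b]⟩
    rw [Nat.card_of_isEmpty]
    simp [Module.finrank_zero_of_subsingleton]
  · push Not at hE
    obtain ⟨v₀, hv₀⟩ := hE
    have h0 : 0 ≤ κ * Fintype.card Ω := by
      have h1 := hκ v₀
      have h2 : 0 ≤ ∑ ω, ‖P ω v₀‖ ^ 2 := Finset.sum_nonneg (fun _ _ => by positivity)
      have h3 : 0 < ‖v₀‖ ^ 2 := by positivity
      by_contra hneg
      push Not at hneg
      have := mul_neg_of_neg_of_pos hneg h3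
      linarith
    set e := stdOrthonormalBasis ℝ E with he
    have hbad : ∀ ω : Fin B → Ω, (∃ v : E, v ≠ 0 ∧
        ∑ b, Q (ω b) v < ε / (4 * B ^ 2) * ‖v‖ ^ 2) →
        1 / 4 ≤ ∑ i, ‖Chain.comp P B ω (e i)‖ ^ 2 := by
      rintro ω ⟨v, hv, hlt⟩
      have hvn : 0 < ‖v‖ := norm_pos_iff.2 hv
      have hQ0 : ∀ b, 0 ≤ Q (ω b) v := fun b =>
        le_trans (by positivity) (hQ (ω b) v)
      have hb : ∀ b, ‖v - P (ω b) v‖ ≤ ‖v‖ / (2 * B) := by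
        intro b
        have h1 : Q (ω b) v ≤ ∑ b, Q (ω b) v :=
          Finset.single_le_sum (f := fun b => Q (ω b) v) (fun b _ => hQ0 b) (Finset.mem_univ b)
        have h2 : ε * ‖v - P (ω b) v‖ ^ 2 ≤ ε * (‖v‖ / (2 * B)) ^ 2 := by
          calc _ ≤ Q (ω b) v := hQ _ _
            _ ≤ ε / (4 * B ^ 2) * ‖v‖ ^ 2 := h1.trans hlt.le
            _ = _ := by field_simp; norm_num
        have h3 := le_of_mul_le_mul_left h2 hε
        exact le_of_sq_le_sq h3 (by positivity)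
      have hs : ‖Chain.comp P B ω v - v‖ ≤ ‖v‖ / 2 := by
        refine (Chain.comp_sub P hP B ω v).trans ?_
        calc ∑ b, ‖v - P (ω b) v‖ ≤ ∑ _b : Fin B, ‖v‖ / (2 * B) :=
              Finset.sum_le_sum (fun b _ => hb b)
          _ = ‖v‖ / 2 := by
              rw [Finset.sum_const, Finset.card_univ, Fintype.card_fin, nsmul_eq_mul]
              field_simp
      have hc : ‖v‖ / 2 ≤ ‖Chain.comp P B ω v‖ := by
        have h1 : ‖v‖ ≤ ‖Chain.comp P B ω v‖ + ‖Chain.comp P B ω v - v‖ := by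
          have := norm_sub_le (Chain.comp P B ω v) (Chain.comp P B ω v - v)
          rwa [sub_sub_cancel] at this
        linarith
      have hn := Chain.norm_le_hs e (Chain.comp P B ω) v
      have h4 : ‖v‖ ^ 2 * (1 / 4) ≤ ‖v‖ ^ 2 * ∑ i, ‖Chain.comp P B ω (e i)‖ ^ 2 := by
        calc _ = (‖v‖ / 2) ^ 2 := by ring
          _ ≤ ‖Chain.comp P B ω v‖ ^ 2 := by gcongr
          _ ≤ _ := hn
      exact le_of_mul_le_mul_left h4 (by positivity)
    have hsum : ∑ ω : Fin B → Ω, ∑ i, ‖Chain.comp P B ω (e i)‖ ^ 2 ≤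
        (κ * Fintype.card Ω) ^ B * Module.finrank ℝ E := by
      rw [Finset.sum_comm]
      calc _ ≤ ∑ i, (κ * Fintype.card Ω) ^ B * ‖e i‖ ^ 2 :=
            Finset.sum_le_sum (fun i _ => Chain.sum_comp P κ hκ h0 B (e i))
        _ = _ := by
            simp [e.norm_eq_one, mul_comm]
    have hcard : (Nat.card {ω : Fin B → Ω // ∃ v : E, v ≠ 0 ∧
        ∑ b, Q (ω b) v < ε / (4 * B ^ 2) * ‖v‖ ^ 2} : ℝ) * (1 / 4) ≤
        ∑ ω : Fin B → Ω, ∑ i, ‖Chain.comp P B ω (e i)‖ ^ 2 := by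
      rw [Nat.card_eq_fintype_card, Fintype.card_subtype]
      rw [← nsmul_eq_mul, ← Finset.sum_const]
      refine le_trans (Finset.sum_le_sum (fun ω hω => hbad ω (Finset.mem_filter.1 hω).2)) ?_
      exact Finset.sum_le_sum_of_subset_of_nonneg (Finset.filter_subset _ _)
        (fun ω _ _ => Finset.sum_nonneg (fun i _ => by positivity))
    have := hcard.trans hsum
    rw [mul_pow] at this
    linarith

end Pool.Agent.RC
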