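import Pool.Agent.Helper46.RC.Proc

/-!
# Exploration of a single path
-/

open Finset

namespace Pool.Agent.RC

namespace Expl1

variable {n s : ℕ}

/-- a permutation or its inverse -/
def sg (b : Bool) (σ : Equiv.Perm (Fin n)) : Equiv.Perm (Fin n) := if b then σ else σ⁻¹

theorem sg_sg (b : Bool) (σ : Equiv.Perm (Fin n)) : sg b (sg b σ) = σ := by
  unfold sg; split_ifs <;> simp

theorem sg_not (b : Bool) (σ : Equiv.Perm (Fin n)) : sg (!b) σ = (sg b σ)⁻¹ := by
  unfold sg; cases b <;> simp

/-- the end of the path -/
def act (x : Fin s → Equiv.Perm (Fin n)) : List (Fin s × Bool) → Fin n → Fin n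
  | [], y => y
  | c :: L, y => sg c.2 (x c.1) (act x L y)

theorem lift_eq (x : Fin s → Equiv.Perm (Fin n)) (L : List (Fin s × Bool)) (y : Fin n) :
    FreeGroup.lift x (FreeGroup.mk L) y = act x L y := by
  rw [FreeGroup.lift_mk]
  induction L with
  | nil => rfl
  | cons c L ih =>
    rw [List.map_cons, List.prod_cons, Equiv.Perm.mul_apply, ih, act, sg]
    cases c.2 <;> rfl

/-- the points of the path, last one first -/
def pts (x : Fin s → Equiv.Perm (Fin n)) : List (Fin s × Bool) → Fin n → List (Fin n)
  | [], y => [y]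
  | c :: L, y => act x (c :: L) y :: pts x L y

theorem length_pts (x : Fin s → Equiv.Perm (Fin n)) (L : List (Fin s × Bool)) (y : Fin n) :
    (pts x L y).length = L.length + 1 := by
  induction L with
  | nil => rfl
  | cons c L ih => rw [pts, List.length_cons, ih, List.length_cons]

theorem pts_head (x : Fin s → Equiv.Perm (Fin n)) (L : List (Fin s × Bool)) (y : Fin n) :
    (pts x L y).head? = some (act x L y) := by
  cases L <;> rfl

theorem act_mem_pts (x : Fin s → Equiv.Perm (Fin n)) (L : List (Fin s × Bool)) (y : Fin n) :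
    act x L y ∈ pts x L y := by
  cases L with
  | nil => exact List.mem_singleton.2 rfl
  | cons c L => exact List.mem_cons_self

theorem act_eq_of_pts_eq {x x' : Fin s → Equiv.Perm (Fin n)} {L : List (Fin s × Bool)}
    {y : Fin n} (h : pts x L y = pts x' L y) : act x L y = act x' L y := by
  have h1 := pts_head x L y
  rw [h, pts_head] at h1
  exact (Option.some.inj h1).symm

theorem mem_pts_start (x : Fin s → Equiv.Perm (Fin n)) (L : List (Fin s × Bool)) (y : Fin n) :
    y ∈ pts x L y := by
  induction L with
  | nil => exact List.mem_singleton.2 rfl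
  | cons c L ih => exact List.mem_cons_of_mem _ ih

/-- the targets of the edges of `sg b (x i)` used by the path -/
def tg (x : Fin s → Equiv.Perm (Fin n)) (i : Fin s) (b : Bool) :
    List (Fin s × Bool) → Fin n → List (Fin n)
  | [], _ => []
  | c :: L, y => if c.1 = i then (if c.2 = b then act x (c :: L) y else act x L y) :: tg x i b L y
      else tg x i b L y

theorem length_tg (x : Fin s → Equiv.Perm (Fin n)) (i : Fin s) (b : Bool)
    (L : List (Fin s × Bool)) (y : Fin n) : (tg x i b L y).length ≤ L.length := by
  induction L with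
  | nil => exact le_rfl
  | cons c L ih =>
    rw [tg]
    split_ifs
    · rw [List.length_cons, List.length_cons]; omega
    · rw [List.length_cons, List.length_cons]; omega
    · rw [List.length_cons]; omega

/-- the sources of the edges of `sg b (x i)` used by the path are points of the path -/
theorem tg_spec (x : Fin s → Equiv.Perm (Fin n)) (i : Fin s) (b : Bool)
    (L : List (Fin s × Bool)) (y : Fin n) {w : Fin n} (hw : w ∈ tg x i b L y) :
    ∃ p ∈ pts x L y, sg b (x i) p = w := by
  induction L with
  | nil => exact absurd hw List.not_mem_nil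
  | cons c L ih =>
    rw [tg] at hw
    have hrec : w ∈ tg x i b L y → ∃ p ∈ pts x (c :: L) y, sg b (x i) p = w := by
      intro h
      obtain ⟨p, hp, hpw⟩ := ih h
      exact ⟨p, List.mem_cons_of_mem _ hp, hpw⟩
    split_ifs at hw with h1 h2
    · rcases List.mem_cons.1 hw with h | h
      · refine ⟨act x L y, List.mem_cons_of_mem _ (act_mem_pts x L y), ?_⟩
        rw [h, act, ← h1, ← h2]
      · exact hrec h
    · rcases List.mem_cons.1 hw with h | h
      · refine ⟨act x (c :: L) y, List.mem_cons_self, ?_⟩
        have hb : b = !c.2 := by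
          cases hc : c.2 <;> cases hb : b <;> simp_all
        rw [h, act, ← h1, hb, sg_not]
        exact (sg c.2 (x c.1)).symm_apply_apply _
      · exact hrec h
    · exact hrec hw

/-- the last point of the path is not the source of a used edge of `sg b (x i)` -/
theorem not_mem_tg {x : Fin s → Equiv.Perm (Fin n)} {i : Fin s} {b : Bool}
    {L : List (Fin s × Bool)} {y : Fin n} (hnd : (pts x L y).Nodup)
    (hred : FreeGroup.IsReduced ((i, b) :: L)) :
    sg b (x i) (act x L y) ∉ tg x i b L y := by
  cases L with
  | nil => exact List.not_mem_nil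
  | cons c L =>
    intro hmem
    rw [pts, List.nodup_cons] at hnd
    have hrec : sg b (x i) (act x (c :: L) y) ∈ tg x i b L y → False := by
      intro h
      obtain ⟨p, hp, hpw⟩ := tg_spec x i b L y h
      have := (sg b (x i)).injective hpw
      exact hnd.1 (this ▸ hp)
    rw [tg] at hmem
    have hred' : i = c.1 → b = c.2 := by
      have := List.isChain_cons_cons.1 hred
      exact this.1
    split_ifs at hmem with h1 h2
    · rcases List.mem_cons.1 hmem with h | h
      · have h3 : act x (c :: L) y = sg b (x i) (act x L y) := by rw [act, h1, h2]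
        rw [h3] at h
        have h4 := (sg b (x i)).injective h
        apply hnd.1
        rw [h3, h4]
        exact act_mem_pts x L y
      · exact hrec h
    · exact h2 (hred' h1.symm).symm
    · exact hrec hmem

/-- the switched tuple -/
def sw (x : Fin s → Equiv.Perm (Fin n)) (i : Fin s) (b : Bool) (w u : Fin n) :
    Fin s → Equiv.Perm (Fin n) :=
  Function.update x i (sg b (Equiv.swap w u * sg b (x i)))

theorem sw_same (x : Fin s → Equiv.Perm (Fin n)) (i : Fin s) (b : Bool) (w u : Fin n) :
    sg b (sw x i b w u i) = Equiv.swap w u * sg b (x i) := by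
  unfold sw
  rw [Function.update_self, sg_sg]

theorem sw_other (x : Fin s → Equiv.Perm (Fin n)) {i j : Fin s} (b : Bool) (w u : Fin n)
    (h : j ≠ i) : sw x i b w u j = x j := by
  unfold sw
  rw [Function.update_of_ne h]

theorem sw_sw (x : Fin s → Equiv.Perm (Fin n)) (i : Fin s) (b : Bool) (w u : Fin n) :
    sw (sw x i b w u) i b w u = x := by
  funext j
  by_cases h : j = i
  · subst h
    have h1 : sg b (sw (sw x j b w u) j b w u j) = sg b (x j) := by
      rw [sw_same, sw_same, ← mul_assoc, Equiv.swap_mul_self, one_mul]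
    have h2 := congrArg (sg b) h1
    rwa [sg_sg, sg_sg] at h2
  · rw [sw_other _ _ _ _ h, sw_other _ _ _ _ h]

theorem pts_sw (x : Fin s → Equiv.Perm (Fin n)) (i : Fin s) (b : Bool) (w u : Fin n)
    (L : List (Fin s × Bool)) (y : Fin n) (hw : w ∉ tg x i b L y) (hu : u ∉ tg x i b L y) :
    pts (sw x i b w u) L y = pts x L y := by
  induction L with
  | nil => rfl
  | cons c L ih =>
    have hw' : w ∉ tg x i b L y := by
      intro h; apply hw; rw [tg]; split_ifs
      · exact List.mem_cons_of_mem _ h
      · exact List.mem_cons_of_mem _ h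
      · exact h
    have hu' : u ∉ tg x i b L y := by
      intro h; apply hu; rw [tg]; split_ifs
      · exact List.mem_cons_of_mem _ h
      · exact List.mem_cons_of_mem _ h
      · exact h
    have ih' := ih hw' hu'
    have hact := act_eq_of_pts_eq ih'
    rw [pts, pts, ih']
    congr 1
    rw [act, act, hact]
    by_cases h1 : c.1 = i
    · by_cases h2 : c.2 = b
      · have hne : act x (c :: L) y ≠ w ∧ act x (c :: L) y ≠ u := by
          constructor
          · intro h; apply hw; rw [tg, if_pos h1, if_pos h2, ← h]; exact List.mem_cons_self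
          · intro h; apply hu; rw [tg, if_pos h1, if_pos h2, ← h]; exact List.mem_cons_self
        rw [act] at hne
        rw [h1, h2] at hne ⊢
        rw [sw_same, Equiv.Perm.mul_apply, Equiv.swap_apply_of_ne_of_ne hne.1 hne.2]
      · have hne : act x L y ≠ w ∧ act x L y ≠ u := by
          constructor
          · intro h; apply hw; rw [tg, if_pos h1, if_neg h2, ← h]; exact List.mem_cons_self
          · intro h; apply hu; rw [tg, if_pos h1, if_neg h2, ← h]; exact List.mem_cons_self
        have hb : c.2 = !b := by
          cases hc : c.2 <;> cases hb : b <;> simp_all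
        rw [h1, hb, sg_not, sg_not, sw_same, mul_inv_rev, Equiv.Perm.mul_apply, Equiv.swap_inv,
          Equiv.swap_apply_of_ne_of_ne hne.1 hne.2]
    · rw [sw_other _ _ _ _ h1]

open Classical in
/-- the key estimate: one given closing of the path -/
theorem key (i : Fin s) (b : Bool) (L : List (Fin s × Bool)) (y : Fin n)
    (hred : FreeGroup.IsReduced ((i, b) :: L)) (a : ℕ) :
    (univ.filter (fun x : Fin s → Equiv.Perm (Fin n) => (pts x L y).Nodup ∧
      act x ((i, b) :: L) y = (pts x L y).getD a y)).card * (n - L.length) ≤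
      n.factorial ^ s := by
  set Q := univ.filter (fun x : Fin s → Equiv.Perm (Fin n) => (pts x L y).Nodup ∧
      act x ((i, b) :: L) y = (pts x L y).getD a y) with hQ
  let S : Finset (Σ _ : Fin s → Equiv.Perm (Fin n), Fin n) :=
    Q.sigma (fun x => univ \ (tg x i b L y).toFinset)
  have h1 : Q.card * (n - L.length) ≤ S.card := by
    rw [Finset.card_sigma, ← smul_eq_mul]
    apply Finset.card_nsmul_le_sum
    intro x _
    rw [Finset.card_sdiff_of_subset (subset_univ _), Finset.card_univ, Fintype.card_fin]
    have h2 := (List.toFinset_card_le (tg x i b L y)).trans (length_tg x i b L y)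
    omega
  have h2 : S.card ≤ (univ : Finset (Fin s → Equiv.Perm (Fin n))).card := by
    apply Finset.card_le_card_of_injOn
      (fun p => sw p.1 i b (act p.1 ((i, b) :: L) y) p.2) (fun _ _ => mem_univ _)
    rintro ⟨x, u⟩ hx ⟨x', u'⟩ hx' heq
    simp only [S, mem_coe, mem_sigma, hQ, mem_filter, mem_univ, true_and, mem_sdiff,
      List.mem_toFinset] at hx hx' heq
    obtain ⟨⟨hnd, hw⟩, hu⟩ := hx
    obtain ⟨⟨hnd', hw'⟩, hu'⟩ := hx'
    have e1 := pts_sw x i b _ u L y (not_mem_tg hnd hred) hu
    have e2 := pts_sw x' i b _ u' L y (not_mem_tg hnd' hred) hu'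
    have hpts : pts x L y = pts x' L y := by
      rw [← e1, ← e2]
      exact congrArg (fun z => pts z L y) heq
    have hact := act_eq_of_pts_eq hpts
    have hww : act x ((i, b) :: L) y = act x' ((i, b) :: L) y := by
      rw [hw, hw', hpts]
    have huu : u = u' := by
      have h3 : sg b (sw x i b (act x ((i, b) :: L) y) u i) (act x L y) = u := by
        rw [sw_same, Equiv.Perm.mul_apply]
        exact Equiv.swap_apply_left _ _
      have h4 : sg b (sw x' i b (act x' ((i, b) :: L) y) u' i) (act x' L y) = u' := by
        rw [sw_same, Equiv.Perm.mul_apply]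
        exact Equiv.swap_apply_left _ _
      rw [← h3, ← h4, heq, hact]
    subst huu
    have hxx : x = x' := by
      rw [← sw_sw x i b (act x ((i, b) :: L) y) u, heq, hww, sw_sw]
    subst hxx
    rfl
  have h3 : (univ : Finset (Fin s → Equiv.Perm (Fin n))).card = n.factorial ^ s := by
    rw [Finset.card_univ, Fintype.card_fun, Fintype.card_perm, Fintype.card_fin,
      Fintype.card_fin]
  rw [← h3]
  exact h1.trans h2

open Classical in
theorem bad_card {ℓ : ℕ} (hn : ℓ < n) (y : Fin n) : ∀ L : List (Fin s × Bool),
    FreeGroup.IsReduced L → L.length ≤ ℓ →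
    ((univ.filter (fun x : Fin s → Equiv.Perm (Fin n) => ¬ (pts x L y).Nodup)).card : ℝ) ≤
      L.length * ℓ / ((n : ℝ) - ℓ) * (n.factorial : ℝ) ^ s := by
  have hpos : (0 : ℝ) < (n : ℝ) - ℓ := by
    have : (ℓ : ℝ) < n := by exact_mod_cast hn
    linarith
  intro L
  induction L with
  | nil =>
    intro _ _
    have : (univ.filter (fun x : Fin s → Equiv.Perm (Fin n) => ¬ (pts x [] y).Nodup)) = ∅ := by
      apply Finset.filter_eq_empty_iff.2
      intro x _ h
      exact h (List.nodup_singleton y)
    rw [this]
    simp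
  | cons c L ih =>
    intro hred hlen
    obtain ⟨i, b⟩ := c
    have hred' : FreeGroup.IsReduced L := List.IsChain.tail hred
    rw [List.length_cons] at hlen
    have ih' := ih hred' (by omega)
    -- the new bad tuples
    have hsub : (univ.filter (fun x : Fin s → Equiv.Perm (Fin n) =>
        ¬ (pts x ((i, b) :: L) y).Nodup)) ⊆
        (univ.filter (fun x : Fin s → Equiv.Perm (Fin n) => ¬ (pts x L y).Nodup)) ∪
        (range (L.length + 1)).biUnion (fun a =>
          univ.filter (fun x : Fin s → Equiv.Perm (Fin n) => (pts x L y).Nodup ∧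
            act x ((i, b) :: L) y = (pts x L y).getD a y)) := by
      intro x hx
      simp only [mem_filter, mem_univ, true_and, mem_union, mem_biUnion, mem_range] at hx ⊢
      by_cases hnd : (pts x L y).Nodup
      · right
        have hmem : act x ((i, b) :: L) y ∈ pts x L y := by
          by_contra hcon
          exact hx (List.nodup_cons.2 ⟨hcon, hnd⟩)
        obtain ⟨a, ha, hax⟩ := List.mem_iff_getElem.1 hmem
        refine ⟨a, by rw [← length_pts x L y]; exact ha, hnd, ?_⟩
        rw [List.getD_eq_getElem _ _ ha, hax]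
      · exact Or.inl hnd
    have hcard := (Finset.card_le_card hsub).trans (Finset.card_union_le _ _)
    have hbU := Finset.card_biUnion_le (s := range (L.length + 1)) (t := fun a =>
          univ.filter (fun x : Fin s → Equiv.Perm (Fin n) => (pts x L y).Nodup ∧
            act x ((i, b) :: L) y = (pts x L y).getD a y))
    have hkey : ∀ a ∈ range (L.length + 1),
        ((univ.filter (fun x : Fin s → Equiv.Perm (Fin n) => (pts x L y).Nodup ∧
            act x ((i, b) :: L) y = (pts x L y).getD a y)).card : ℝ) ≤
        (n.factorial : ℝ) ^ s / ((n : ℝ) - ℓ) := by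
      intro a _
      rw [le_div_iff₀ hpos]
      have h1 := key i b L y hred a
      have h2 : ((univ.filter (fun x : Fin s → Equiv.Perm (Fin n) => (pts x L y).Nodup ∧
            act x ((i, b) :: L) y = (pts x L y).getD a y)).card : ℝ) * ((n - L.length : ℕ) : ℝ) ≤
            (n.factorial : ℝ) ^ s := by exact_mod_cast h1
      refine le_trans (mul_le_mul_of_nonneg_left ?_ (Nat.cast_nonneg _)) h2
      rw [Nat.cast_sub (by omega)]
      have : (L.length : ℝ) ≤ ℓ := by exact_mod_cast (by omega : L.length ≤ ℓ)
      linarith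
    have hsum : ((∑ a ∈ range (L.length + 1),
        (univ.filter (fun x : Fin s → Equiv.Perm (Fin n) => (pts x L y).Nodup ∧
            act x ((i, b) :: L) y = (pts x L y).getD a y)).card : ℕ) : ℝ) ≤
        (L.length + 1 : ℕ) * ((n.factorial : ℝ) ^ s / ((n : ℝ) - ℓ)) := by
      rw [Nat.cast_sum]
      refine (Finset.sum_le_sum hkey).trans ?_
      rw [Finset.sum_const, card_range, nsmul_eq_mul]
    have hcard' : ((univ.filter (fun x : Fin s → Equiv.Perm (Fin n) =>
        ¬ (pts x ((i, b) :: L) y).Nodup)).card : ℝ) ≤
        ((univ.filter (fun x : Fin s → Equiv.Perm (Fin n) => ¬ (pts x L y).Nodup)).card : ℝ) +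
        (L.length + 1 : ℕ) * ((n.factorial : ℝ) ^ s / ((n : ℝ) - ℓ)) := by
      have h1 := hcard.trans (Nat.add_le_add_left hbU _)
      have h2 : ((univ.filter (fun x : Fin s → Equiv.Perm (Fin n) =>
        ¬ (pts x ((i, b) :: L) y).Nodup)).card : ℝ) ≤ ((_ : ℕ) : ℝ) := Nat.cast_le.2 h1
      rw [Nat.cast_add] at h2
      linarith
    refine hcard'.trans ?_
    have h5 : (L.length + 1 : ℕ) * ((n.factorial : ℝ) ^ s / ((n : ℝ) - ℓ)) ≤
        (ℓ : ℝ) * ((n.factorial : ℝ) ^ s / ((n : ℝ) - ℓ)) := by
      apply mul_le_mul_of_nonneg_right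
      · exact_mod_cast hlen
      · positivity
    have h6 : ((((i, b) :: L).length : ℕ) : ℝ) = L.length + 1 := by
      rw [List.length_cons]; push_cast; ring
    rw [h6]
    calc _ ≤ (L.length : ℝ) * ℓ / ((n : ℝ) - ℓ) * (n.factorial : ℝ) ^ s +
        (ℓ : ℝ) * ((n.factorial : ℝ) ^ s / ((n : ℝ) - ℓ)) := add_le_add ih' h5
      _ = _ := by ring

end Expl1

open Expl1 in
theorem expl1 {n s ℓ : ℕ} (L : List (Fin s × Bool)) (hred : FreeGroup.IsReduced L) (hL : L ≠ [])
    (hℓ : L.length ≤ ℓ) (hn : ℓ < n) (y : Fin n) :
    (Nat.card {x : Fin s → Equiv.Perm (Fin n) // FreeGroup.lift x (FreeGroup.mk L) y = y} : ℝ) ≤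
      ℓ ^ 2 / ((n : ℝ) - ℓ) * (n.factorial : ℝ) ^ s := by
  classical
  have hpos : (0 : ℝ) < (n : ℝ) - ℓ := by
    have : (ℓ : ℝ) < n := by exact_mod_cast hn
    linarith
  rw [Nat.card_eq_fintype_card, Fintype.card_subtype]
  have h1 : (univ.filter (fun x : Fin s → Equiv.Perm (Fin n) =>
      FreeGroup.lift x (FreeGroup.mk L) y = y)).card ≤
      (univ.filter (fun x : Fin s → Equiv.Perm (Fin n) => ¬ (pts x L y).Nodup)).card := by
    apply Finset.card_le_card
    intro x hx
    simp only [mem_filter, mem_univ, true_and] at hx ⊢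
    rw [lift_eq] at hx
    cases L with
    | nil => exact absurd rfl hL
    | cons c L =>
      rw [pts, List.nodup_cons]
      intro h
      apply h.1
      rw [hx]
      exact mem_pts_start x L y
  have h2 := bad_card hn y L hred hℓ
  have h3 : ((univ.filter (fun x : Fin s → Equiv.Perm (Fin n) =>
      FreeGroup.lift x (FreeGroup.mk L) y = y)).card : ℝ) ≤
      ((univ.filter (fun x : Fin s → Equiv.Perm (Fin n) => ¬ (pts x L y).Nodup)).card : ℝ) := by
    exact_mod_cast h1
  refine h3.trans (h2.trans ?_)
  apply mul_le_mul_of_nonneg_right _ (by positivity)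
  apply div_le_div_of_nonneg_right _ hpos.le
  rw [sq]
  apply mul_le_mul_of_nonneg_right _ (Nat.cast_nonneg _)
  exact_mod_cast hℓ

end Pool.Agent.RC
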