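import Pool.Agent.Helper46.RC.Proc

/-!
# Words of length `ℓ` over five generators and their inverses which are trivial
-/

open Finset

namespace Pool.Agent.RC

theorem Rw5.step (L : List (Fin 5 × Bool)) :
    ∑ x : Fin 5 × Bool, (1 / 3 : ℝ) ^ (FreeGroup.reduce (x :: L)).length ≤
      6 * (1 / 3 : ℝ) ^ (FreeGroup.reduce L).length := by
  simp only [FreeGroup.reduce.cons]
  rcases FreeGroup.reduce L with _ | ⟨hd, tl⟩
  · simp
    norm_num
  · have h1 : ∀ x : Fin 5 × Bool, (1 / 3 : ℝ) ^ (List.length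
        (if x.1 = hd.1 ∧ x.2 = !hd.2 then tl else x :: hd :: tl)) =
        (1 / 3 : ℝ) ^ (tl.length + 2) +
          (if x = (hd.1, !hd.2) then (1 / 3 : ℝ) ^ tl.length - (1 / 3 : ℝ) ^ (tl.length + 2)
            else 0) := by
      intro x
      by_cases h : x = (hd.1, !hd.2)
      · subst h
        simp
      · have h2 : ¬ (x.1 = hd.1 ∧ x.2 = !hd.2) := by
          intro h2
          exact h (Prod.ext h2.1 h2.2)
        simp [h, h2]
    have h2 : ∑ x : Fin 5 × Bool, (1 / 3 : ℝ) ^ (List.length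
        (if x.1 = hd.1 ∧ x.2 = !hd.2 then tl else x :: hd :: tl)) =
        6 * (1 / 3 : ℝ) ^ (hd :: tl).length := by
      rw [Finset.sum_congr rfl fun x _ => h1 x, Finset.sum_add_distrib, Finset.sum_ite_eq']
      simp only [Finset.sum_const, Finset.card_univ, Finset.mem_univ, if_true, Fintype.card_prod,
        Fintype.card_fin, Fintype.card_bool, List.length_cons, nsmul_eq_mul]
      push_cast
      ring
    exact h2.le

theorem Rw5.total (ℓ : ℕ) :
    ∑ w : Fin ℓ → Fin 5 × Bool, (1 / 3 : ℝ) ^ (FreeGroup.reduce (List.ofFn w)).length ≤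
      6 ^ ℓ := by
  induction ℓ with
  | zero => simp
  | succ ℓ ih =>
    rw [← (Fin.consEquiv (fun _ : Fin (ℓ + 1) => Fin 5 × Bool)).sum_comp, Fintype.sum_prod_type,
      Finset.sum_comm]
    calc ∑ w : Fin ℓ → Fin 5 × Bool, ∑ x : Fin 5 × Bool,
        (1 / 3 : ℝ) ^ (FreeGroup.reduce (List.ofFn
          (Fin.consEquiv (fun _ : Fin (ℓ + 1) => Fin 5 × Bool) (x, w)))).length
        ≤ ∑ w : Fin ℓ → Fin 5 × Bool,
          6 * (1 / 3 : ℝ) ^ (FreeGroup.reduce (List.ofFn w)).length := by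
          refine Finset.sum_le_sum fun w _ => ?_
          refine le_trans (le_of_eq ?_) (Rw5.step (List.ofFn w))
          refine Finset.sum_congr rfl fun x _ => ?_
          simp [Fin.consEquiv, List.ofFn_succ]
      _ = 6 * ∑ w : Fin ℓ → Fin 5 × Bool,
          (1 / 3 : ℝ) ^ (FreeGroup.reduce (List.ofFn w)).length := by rw [Finset.mul_sum]
      _ ≤ 6 * 6 ^ ℓ := by gcongr
      _ = 6 ^ (ℓ + 1) := by ring

theorem rw5 (ℓ : ℕ) :
    Nat.card {w : Fin ℓ → Fin 5 × Bool // FreeGroup.mk (List.ofFn w) = 1} ≤ 6 ^ ℓ := by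
  classical
  rw [Nat.card_eq_fintype_card, Fintype.card_subtype]
  have h : (((univ.filter fun w : Fin ℓ → Fin 5 × Bool =>
      FreeGroup.mk (List.ofFn w) = 1).card : ℕ) : ℝ) ≤ 6 ^ ℓ := by
    rw [Finset.card_eq_sum_ones]
    push_cast
    refine le_trans ?_ (Rw5.total ℓ)
    refine le_trans ?_ (Finset.sum_le_sum_of_subset_of_nonneg (Finset.filter_subset
      (fun w : Fin ℓ → Fin 5 × Bool => FreeGroup.mk (List.ofFn w) = 1) _)
      fun _ _ _ => by positivity)
    refine Finset.sum_le_sum fun w hw => ?_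
    have h1 : FreeGroup.mk (List.ofFn w) = 1 := (Finset.mem_filter.1 hw).2
    have h2 : FreeGroup.reduce (List.ofFn w) = [] := by
      rw [← FreeGroup.toWord_mk, h1, FreeGroup.toWord_one]
    simp [h2]
  exact_mod_cast h

end Pool.Agent.RC
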