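import Pool.Agent.Helper46.RC.BaseRep
import Pool.Agent.Helper46.RC.Chain
import Pool.Agent.Helper46.RC.Low
import Pool.Agent.Helper46.RC.Rw5
import Pool.Agent.Helper46.RC.Expl1

/-!
# Level zero
-/

open Finset

namespace Pool.Agent.RC

namespace Base

open scoped InnerProductSpace

/-- The letter `x i` or its inverse. -/
def let2 {G : Type*} [Group G] {s : ℕ} (x : Fin s → G) (c : Fin s × Bool) : G :=
  if c.2 then x c.1 else (x c.1)⁻¹

theorem wrd_let2 {G : Type*} [Group G] {s : ℕ} (x : Fin s → G) (K : ℕ)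
    (U : Fin K → Fin s × Bool) :
    wrd (let2 x) K U = FreeGroup.lift x (FreeGroup.mk (List.ofFn (fun i => U (Fin.rev i)))) := by
  induction K with
  | zero =>
    rw [List.ofFn_zero]
    change (1 : G) = _
    rw [FreeGroup.lift_mk]
    simp
  | succ K ih =>
    rw [List.ofFn_succ, wrd, ih]
    rw [FreeGroup.lift_mk, FreeGroup.lift_mk, List.map_cons, List.prod_cons]
    congr 1
    · rw [Fin.rev_zero]
      unfold let2
      cases (U (Fin.last K)).2 <;> rfl
    · congr 2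
      congr 1
      funext i
      rw [Fin.rev_succ]

variable {n : ℕ}

/-- The word map for a fixed word has small return probability. -/
theorem word_bound {s K : ℕ} (hn : K < n) (U : Fin K → Fin s × Bool)
    (hU : FreeGroup.mk (List.ofFn (fun i => U (Fin.rev i))) ≠ 1) (y : Fin n) :
    (Nat.card {x : Fin s → Equiv.Perm (Fin n) // wrd (let2 x) K U y = y} : ℝ) ≤
      K ^ 2 / ((n : ℝ) - K) * (n.factorial : ℝ) ^ s := by
  classical
  set w := FreeGroup.mk (List.ofFn (fun i => U (Fin.rev i))) with hw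
  have h1 : w.toWord ≠ [] := by
    intro h
    apply hU
    exact FreeGroup.toWord_eq_nil_iff.1 h
  have h2 : w.toWord.length ≤ K := by
    have := FreeGroup.norm_mk_le (L₁ := List.ofFn (fun i => U (Fin.rev i)))
    rw [List.length_ofFn] at this
    exact this
  have h3 := expl1 (n := n) w.toWord FreeGroup.isReduced_toWord h1 h2 hn y
  have e : ∀ x : Fin s → Equiv.Perm (Fin n), wrd (let2 x) K U =
      FreeGroup.lift x (FreeGroup.mk w.toWord) := by
    intro x
    rw [FreeGroup.mk_toWord, wrd_let2, hw]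
  have e2 : (Nat.card {x : Fin s → Equiv.Perm (Fin n) // wrd (let2 x) K U y = y} : ℝ) =
      (Nat.card {x : Fin s → Equiv.Perm (Fin n) //
        FreeGroup.lift x (FreeGroup.mk w.toWord) y = y} : ℝ) := by
    simp only [e]
  rw [e2]
  exact h3

theorem wrd_conj {G : Type*} [Group G] {s : ℕ} (x : Fin s → G) (h : G) (K : ℕ)
    (U : Fin K → Fin s × Bool) :
    wrd (let2 (fun i => h * x i * h⁻¹)) K U = h * wrd (let2 x) K U * h⁻¹ := by
  induction K with
  | zero => simp [wrd]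
  | succ K ih =>
    rw [wrd, wrd, ih]
    have : let2 (fun i => h * x i * h⁻¹) (U (Fin.last K)) =
        h * let2 x (U (Fin.last K)) * h⁻¹ := by
      unfold let2
      split_ifs
      · rfl
      · group
    rw [this]
    group

/-- Simultaneous conjugation. -/
def conjE {G : Type*} [Group G] {s : ℕ} (h : G) : (Fin s → G) ≃ (Fin s → G) where
  toFun x := fun i => h * x i * h⁻¹
  invFun x := fun i => h⁻¹ * x i * h
  left_inv x := by funext i; group
  right_inv x := by funext i; group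

theorem card_perm_pow (s : ℕ) : (Fintype.card (Fin s → Equiv.Perm (Fin n)) : ℝ) =
    (n.factorial : ℝ) ^ s := by
  rw [Fintype.card_fun, Fintype.card_perm, Fintype.card_fin, Fintype.card_fin]
  push_cast
  rfl

/-- Words with nontrivial reduction contribute little. -/
theorem op_word {s K : ℕ} (hn : K < n) (hn2 : 2 ≤ n) (U : Fin K → Fin s × Bool)
    (hU : FreeGroup.mk (List.ofFn (fun i => U (Fin.rev i))) ≠ 1) (f : Wsub n 1) :
    ∑ x : Fin s → Equiv.Perm (Fin n), ⟪rho n 1 (wrd (let2 x) K U) f, f⟫_ℝ ≤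
      ((K : ℝ) ^ 2 / ((n : ℝ) - K) + 1 / ((n : ℝ) - 1)) * (n.factorial : ℝ) ^ s * ‖f‖ ^ 2 := by
  classical
  have hnr : (2 : ℝ) ≤ n := by exact_mod_cast hn2
  have h1 := op (Z := Fin s → Equiv.Perm (Fin n)) (j := 1) (fun x => wrd (let2 x) K U)
    (fun h => ⟨conjE h, fun z => wrd_conj z h K U⟩)
    ((K : ℝ) ^ 2 / ((n : ℝ) - K) + 1 / ((n : ℝ) - 1)) ?_
    (fun y => (f : EuclideanSpace ℝ (Fin 1 → Fin n)) y) f.2
  · rw [norm_sq_eq, Finset.sum_congr rfl (fun x _ => inner_rho_self _ f)]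
    rw [card_perm_pow] at h1
    exact h1
  · -- the bound on the sum
    have hterm : ∀ (σ : Equiv.Perm (Fin n)) (y : Fin 1 ↪ Fin n),
        (1 / ((n - 1).choose (outN σ y) : ℝ)) ≤
          (if σ (y 0) = y 0 then 1 else 0) + 1 / ((n : ℝ) - 1) := by
      intro σ y
      have hpos : 0 ≤ 1 / ((n : ℝ) - 1) := by
        apply div_nonneg zero_le_one
        linarith
      by_cases hy : σ (y 0) = y 0
      · rw [if_pos hy]
        have h0 : outN σ y = 0 := by
          unfold outN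
          rw [Finset.card_eq_zero, Finset.filter_eq_empty_iff]
          intro i _ h
          have hi : i = 0 := Subsingleton.elim _ _
          subst hi
          exact h 0 hy
        rw [h0, Nat.choose_zero_right]
        simp only [Nat.cast_one, div_one]
        linarith
      · rw [if_neg hy]
        have h0 : outN σ y = 1 := by
          unfold outN
          rw [Finset.filter_true_of_mem]
          · simp
          · intro i _ l
            have hi : i = 0 := Subsingleton.elim _ _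
            have hl : l = 0 := Subsingleton.elim _ _
            subst hi
            subst hl
            exact hy
        rw [h0, Nat.choose_one_right, Nat.cast_sub (by omega)]
        simp
    have hcount : ∀ y : Fin 1 ↪ Fin n,
        ∑ x : Fin s → Equiv.Perm (Fin n), (if wrd (let2 x) K U (y 0) = y 0 then (1 : ℝ) else 0) ≤
          (K : ℝ) ^ 2 / ((n : ℝ) - K) * (n.factorial : ℝ) ^ s := by
      intro y
      refine le_trans (le_of_eq ?_) (word_bound hn U hU (y 0))
      rw [Nat.card_eq_fintype_card, Fintype.card_subtype, Finset.sum_boole]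
    rw [Finset.sum_comm]
    calc ∑ y : Fin 1 ↪ Fin n, ∑ x : Fin s → Equiv.Perm (Fin n),
          (1 / ((n - 1).choose (outN (wrd (let2 x) K U) y) : ℝ))
        ≤ ∑ y : Fin 1 ↪ Fin n, ((K : ℝ) ^ 2 / ((n : ℝ) - K) * (n.factorial : ℝ) ^ s +
            (n.factorial : ℝ) ^ s * (1 / ((n : ℝ) - 1))) := by
          refine Finset.sum_le_sum (fun y _ => ?_)
          refine (Finset.sum_le_sum (fun x _ => hterm _ y)).trans ?_
          rw [Finset.sum_add_distrib]
          apply add_le_add (hcount y)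
          rw [Finset.sum_const, Finset.card_univ, nsmul_eq_mul, card_perm_pow]
      _ = _ := by
          rw [Finset.sum_const, Finset.card_univ, Fintype.card_embedding_eq, Fintype.card_fin,
            Fintype.card_fin, nsmul_eq_mul, card_perm_pow]
          ring

/-- The averaging operator. -/
noncomputable def avg {s : ℕ} (x : Fin s → Equiv.Perm (Fin n)) : Wsub n 1 →ₗ[ℝ] Wsub n 1 :=
  (1 / (2 * s : ℝ)) • ∑ c : Fin s × Bool, rho n 1 (let2 x c)

theorem inner_avg {s : ℕ} (x : Fin s → Equiv.Perm (Fin n)) (f g : Wsub n 1) :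
    ⟪avg x f, g⟫_ℝ = (1 / (2 * s : ℝ)) * ∑ c : Fin s × Bool, ⟪rho n 1 (let2 x c) f, g⟫_ℝ := by
  unfold avg
  rw [LinearMap.smul_apply, real_inner_smul_left, LinearMap.sum_apply, sum_inner]

theorem avg_symm {s : ℕ} (x : Fin s → Equiv.Perm (Fin n)) : (avg x).IsSymmetric := by
  intro f g
  rw [real_inner_comm (avg x g) f, inner_avg, inner_avg]
  congr 1
  rw [Fintype.sum_prod_type, Fintype.sum_prod_type]
  refine Finset.sum_congr rfl (fun i _ => ?_)
  rw [Fintype.sum_bool, Fintype.sum_bool]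
  simp only [let2, if_true, Bool.false_eq_true, if_false]
  rw [real_inner_comm f, inner_rho_right, real_inner_comm f (rho n 1 (x i)⁻¹ g),
    inner_rho_right, inv_inv, add_comm]

theorem inner_avg_self {s : ℕ} (hs : 1 ≤ s) (x : Fin s → Equiv.Perm (Fin n)) (f : Wsub n 1) :
    ⟪avg x f, f⟫_ℝ = (1 / (s : ℝ)) * ∑ i, ⟪rho n 1 (x i) f, f⟫_ℝ := by
  rw [inner_avg, Fintype.sum_prod_type]
  have h : ∀ i : Fin s, ∑ b : Bool, ⟪rho n 1 (let2 x (i, b)) f, f⟫_ℝ =
      2 * ⟪rho n 1 (x i) f, f⟫_ℝ := by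
    intro i
    rw [Fintype.sum_bool]
    simp only [let2, if_true, Bool.false_eq_true, if_false]
    rw [inner_rho_inv_self]
    ring
  rw [Finset.sum_congr rfl (fun i _ => h i), ← Finset.mul_sum]
  have : (s : ℝ) ≠ 0 := by
    have : 0 < s := hs
    exact_mod_cast this.ne'
  field_simp

theorem one_sub_avg_nonneg {s : ℕ} (hs : 1 ≤ s) (x : Fin s → Equiv.Perm (Fin n))
    (f : Wsub n 1) : 0 ≤ ⟪(1 - avg x) f, f⟫_ℝ := by
  rw [LinearMap.sub_apply, Module.End.one_apply, inner_sub_left, real_inner_self_eq_norm_sq,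
    inner_avg_self hs]
  have hsr : (0 : ℝ) < s := by exact_mod_cast hs
  have h : ∀ i ∈ (Finset.univ : Finset (Fin s)), ⟪rho n 1 (x i) f, f⟫_ℝ ≤ ‖f‖ ^ 2 := by
    intro i _
    have := real_inner_le_norm (rho n 1 (x i) f) f
    rw [norm_rho, ← pow_two] at this
    exact this
  have h2 := Finset.sum_le_sum h
  rw [Finset.sum_const, Finset.card_univ, Fintype.card_fin, nsmul_eq_mul] at h2
  have h3 : (1 / (s : ℝ)) * ∑ i, ⟪rho n 1 (x i) f, f⟫_ℝ ≤ (1 / (s : ℝ)) * (s * ‖f‖ ^ 2) :=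
    mul_le_mul_of_nonneg_left h2 (by positivity)
  have h4 : (1 / (s : ℝ)) * (s * ‖f‖ ^ 2) = ‖f‖ ^ 2 := by
    field_simp
  linarith

theorem avg_pow {s : ℕ} (x : Fin s → Equiv.Perm (Fin n)) (K : ℕ) (f : Wsub n 1) :
    ⟪(avg x ^ K) f, f⟫_ℝ = (1 / (2 * s : ℝ)) ^ K *
      ∑ U : Fin K → Fin s × Bool, ⟪rho n 1 (wrd (let2 x) K U) f, f⟫_ℝ := by
  unfold avg
  rw [smul_pow, sum_pow_wrd, LinearMap.smul_apply, real_inner_smul_left, LinearMap.sum_apply,
    sum_inner]

/-- The bound on the sum of the squared projections. -/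
theorem kappa_bound {K : ℕ} (hK : Even K) (hn : K < n) (hn2 : 2 ≤ n) (f : Wsub n 1) :
    ∑ x : Fin 5 → Equiv.Perm (Fin n),
      ‖(low (1 - avg x) (1 / 20)).starProjection f‖ ^ 2 ≤
      ((20 / 19 : ℝ) ^ K * ((6 / 10) ^ K + ((K : ℝ) ^ 2 / ((n : ℝ) - K) + 1 / ((n : ℝ) - 1)))) *
        Fintype.card (Fin 5 → Equiv.Perm (Fin n)) * ‖f‖ ^ 2 := by
  classical
  have hnr : (2 : ℝ) ≤ n := by exact_mod_cast hn2
  have hKr : (K : ℝ) < n := by exact_mod_cast hn
  have h1 : ∀ x : Fin 5 → Equiv.Perm (Fin n),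
      (1 - 1 / 20 : ℝ) ^ K * ‖(low (1 - avg x) (1 / 20)).starProjection f‖ ^ 2 ≤
        ⟪(avg x ^ K) f, f⟫_ℝ :=
    fun x => low_pow (avg x) (avg_symm x) (1 / 20) (by norm_num) (by norm_num) K hK f
  set β : ℝ := (K : ℝ) ^ 2 / ((n : ℝ) - K) + 1 / ((n : ℝ) - 1) with hβ
  have hβ0 : 0 ≤ β := by
    apply add_nonneg
    · apply div_nonneg (by positivity)
      linarith
    · apply div_nonneg zero_le_one
      linarith
  have h2 : ∑ x : Fin 5 → Equiv.Perm (Fin n), ⟪(avg x ^ K) f, f⟫_ℝ ≤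
      ((6 / 10) ^ K + β) * Fintype.card (Fin 5 → Equiv.Perm (Fin n)) * ‖f‖ ^ 2 := by
    rw [Finset.sum_congr rfl (fun x _ => avg_pow x K f), ← Finset.mul_sum, Finset.sum_comm]
    have h3 : ∀ U : Fin K → Fin 5 × Bool,
        ∑ x : Fin 5 → Equiv.Perm (Fin n), ⟪rho n 1 (wrd (let2 x) K U) f, f⟫_ℝ ≤
          ((if FreeGroup.mk (List.ofFn (fun i => U (Fin.rev i))) = 1 then 1 else 0) + β) *
            ((n.factorial : ℝ) ^ 5 * ‖f‖ ^ 2) := by
      intro U
      by_cases hU : FreeGroup.mk (List.ofFn (fun i => U (Fin.rev i))) = 1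
      · rw [if_pos hU]
        have h4 : ∀ x : Fin 5 → Equiv.Perm (Fin n),
            ⟪rho n 1 (wrd (let2 x) K U) f, f⟫_ℝ = ‖f‖ ^ 2 := by
          intro x
          rw [wrd_let2, hU, map_one, map_one, Module.End.one_apply, real_inner_self_eq_norm_sq]
        rw [Finset.sum_congr rfl (fun x _ => h4 x), Finset.sum_const, Finset.card_univ,
          nsmul_eq_mul, card_perm_pow]
        have h5 : 0 ≤ β * ((n.factorial : ℝ) ^ 5 * ‖f‖ ^ 2) := by positivity
        linarith
      · rw [if_neg hU, zero_add]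
        have h4 := op_word hn hn2 U hU f
        rw [← hβ] at h4
        linarith
    have h6 : ∑ U : Fin K → Fin 5 × Bool,
        (if FreeGroup.mk (List.ofFn (fun i => U (Fin.rev i))) = 1 then (1 : ℝ) else 0) ≤ 6 ^ K := by
      rw [Finset.sum_boole]
      have h7 := rw5 K
      rw [Nat.card_eq_fintype_card, Fintype.card_subtype] at h7
      have h8 : (Finset.univ.filter (fun U : Fin K → Fin 5 × Bool =>
          FreeGroup.mk (List.ofFn (fun i => U (Fin.rev i))) = 1)).card =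
          (Finset.univ.filter (fun w : Fin K → Fin 5 × Bool =>
            FreeGroup.mk (List.ofFn w) = 1)).card := by
        apply Finset.card_bij (fun U _ => fun i => U (Fin.rev i))
        · intro U hU
          rw [Finset.mem_filter] at hU ⊢
          exact ⟨Finset.mem_univ _, hU.2⟩
        · intro U _ U' _ h
          funext i
          have := congrFun h (Fin.rev i)
          simpa using this
        · intro w hw
          have hrr : (fun i : Fin K => w (Fin.rev (Fin.rev i))) = w := by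
            funext i
            rw [Fin.rev_rev]
          refine ⟨fun i => w (Fin.rev i), ?_, hrr⟩
          rw [Finset.mem_filter] at hw ⊢
          refine ⟨Finset.mem_univ _, ?_⟩
          rw [hrr]
          exact hw.2
      rw [h8]
      exact_mod_cast h7
    calc (1 / (2 * ((5 : ℕ) : ℝ))) ^ K * ∑ U : Fin K → Fin 5 × Bool,
          ∑ x : Fin 5 → Equiv.Perm (Fin n), ⟪rho n 1 (wrd (let2 x) K U) f, f⟫_ℝ
        ≤ (1 / (2 * ((5 : ℕ) : ℝ))) ^ K * ∑ U : Fin K → Fin 5 × Bool,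
          ((if FreeGroup.mk (List.ofFn (fun i => U (Fin.rev i))) = 1 then 1 else 0) + β) *
            ((n.factorial : ℝ) ^ 5 * ‖f‖ ^ 2) :=
          mul_le_mul_of_nonneg_left (Finset.sum_le_sum (fun U _ => h3 U)) (by positivity)
      _ ≤ (1 / (2 * ((5 : ℕ) : ℝ))) ^ K * ((6 ^ K + 10 ^ K * β) *
            ((n.factorial : ℝ) ^ 5 * ‖f‖ ^ 2)) := by
          apply mul_le_mul_of_nonneg_left _ (by positivity)
          rw [← Finset.sum_mul]
          apply mul_le_mul_of_nonneg_right _ (by positivity)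
          rw [Finset.sum_add_distrib]
          apply add_le_add h6
          rw [Finset.sum_const, Finset.card_univ, Fintype.card_fun, Fintype.card_prod,
            Fintype.card_fin, Fintype.card_bool, Fintype.card_fin, nsmul_eq_mul]
          push_cast
          norm_num
      _ = _ := by
          rw [card_perm_pow]
          have e1 : (1 / (2 * ((5 : ℕ) : ℝ))) ^ K * (6 ^ K + 10 ^ K * β) =
              (6 / 10) ^ K + β := by
            rw [mul_add, ← mul_pow, ← mul_assoc, ← mul_pow]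
            norm_num
          rw [← mul_assoc, e1]
          ring
  have h7 : (19 / 20 : ℝ) ^ K * ∑ x : Fin 5 → Equiv.Perm (Fin n),
      ‖(low (1 - avg x) (1 / 20)).starProjection f‖ ^ 2 ≤
      ((6 / 10) ^ K + β) * Fintype.card (Fin 5 → Equiv.Perm (Fin n)) * ‖f‖ ^ 2 := by
    rw [Finset.mul_sum]
    refine le_trans (Finset.sum_le_sum (fun x _ => ?_)) h2
    have := h1 x
    have e : (1 - 1 / 20 : ℝ) = 19 / 20 := by norm_num
    rw [e] at this
    exact this
  have h8 : (20 / 19 : ℝ) ^ K * (19 / 20 : ℝ) ^ K = 1 := by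
    rw [← mul_pow]
    norm_num
  calc ∑ x : Fin 5 → Equiv.Perm (Fin n), ‖(low (1 - avg x) (1 / 20)).starProjection f‖ ^ 2
      = (20 / 19 : ℝ) ^ K * ((19 / 20 : ℝ) ^ K * ∑ x : Fin 5 → Equiv.Perm (Fin n),
        ‖(low (1 - avg x) (1 / 20)).starProjection f‖ ^ 2) := by
        rw [← mul_assoc, h8, one_mul]
    _ ≤ (20 / 19 : ℝ) ^ K * (((6 / 10) ^ K + β) *
        Fintype.card (Fin 5 → Equiv.Perm (Fin n)) * ‖f‖ ^ 2) :=
        mul_le_mul_of_nonneg_left h7 (by positivity)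
    _ = _ := by ring

/-- The real sequence controlling the probability. -/
noncomputable def kap (n : ℕ) : ℝ :=
  (20 / 19 : ℝ) ^ (2 * (Nat.log 2 n + 1)) * ((6 / 10) ^ (2 * (Nat.log 2 n + 1)) +
    (((2 * (Nat.log 2 n + 1) : ℕ) : ℝ) ^ 2 / ((n : ℝ) - (2 * (Nat.log 2 n + 1) : ℕ)) +
      1 / ((n : ℝ) - 1)))

theorem kap_bound {n : ℕ} (hn : 4 * (Nat.log 2 n + 1) ≤ n) (hn2 : 2 ≤ n) :
    4 * kap n ^ 4 * n ≤ 4 * 2 ^ 8 * 5000 * ((Nat.log 2 n + 1 : ℕ) : ℝ) ^ 8 /
      2 ^ (Nat.log 2 n + 1) * 2 := by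
  set L : ℕ := Nat.log 2 n + 1 with hL
  have hLn : (2 : ℝ) ^ L ≤ 2 * n := by
    have : 2 ^ Nat.log 2 n ≤ n := Nat.pow_log_le_self 2 (by omega)
    have h2 : ((2 ^ Nat.log 2 n : ℕ) : ℝ) ≤ n := by exact_mod_cast this
    rw [hL, pow_succ]
    push_cast at h2
    linarith
  have hnL : (n : ℝ) < 2 ^ L := by
    have : n < 2 ^ (Nat.log 2 n + 1) := Nat.lt_pow_succ_log_self (by norm_num) n
    exact_mod_cast this
  have hnr : (2 : ℝ) ≤ n := by exact_mod_cast hn2
  have hn0 : (0 : ℝ) < n := by linarith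
  have hL1 : 1 ≤ L := by omega
  have hL1r : (1 : ℝ) ≤ L := by exact_mod_cast hL1
  have hLr : 4 * (L : ℝ) ≤ n := by exact_mod_cast hn
  -- the inner sum
  have h1 : (6 / 10 : ℝ) ^ (2 * L) ≤ 1 / n := by
    rw [pow_mul]
    have h2 : ((6 / 10 : ℝ) ^ 2) ^ L ≤ (1 / 2) ^ L :=
      pow_le_pow_left₀ (by norm_num) (by norm_num) L
    have h3 : (1 / 2 : ℝ) ^ L ≤ 1 / n := by
      rw [one_div_pow]
      exact one_div_le_one_div_of_le hn0 hnL.le
    exact h2.trans h3
  have h2 : ((2 * L : ℕ) : ℝ) ^ 2 / ((n : ℝ) - (2 * L : ℕ)) ≤ 8 * (L : ℝ) ^ 2 / n := by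
    push_cast
    rw [div_le_div_iff₀ (by linarith) hn0]
    have h3 : (n : ℝ) ≤ 2 * ((n : ℝ) - 2 * L) := by linarith
    have h4 : 4 * (L : ℝ) ^ 2 * n ≤ 4 * (L : ℝ) ^ 2 * (2 * ((n : ℝ) - 2 * L)) :=
      mul_le_mul_of_nonneg_left h3 (by positivity)
    linarith
  have h3 : 1 / ((n : ℝ) - 1) ≤ 2 / n := by
    rw [div_le_div_iff₀ (by linarith) hn0]
    linarith
  have hS0 : 0 ≤ (6 / 10 : ℝ) ^ (2 * L) + (((2 * L : ℕ) : ℝ) ^ 2 / ((n : ℝ) - (2 * L : ℕ)) +
      1 / ((n : ℝ) - 1)) := by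
    have h4 : (0 : ℝ) < (n : ℝ) - (2 * L : ℕ) := by
      push_cast
      linarith
    have h5 : (0 : ℝ) < (n : ℝ) - 1 := by linarith
    positivity
  have hS : (6 / 10 : ℝ) ^ (2 * L) + (((2 * L : ℕ) : ℝ) ^ 2 / ((n : ℝ) - (2 * L : ℕ)) +
      1 / ((n : ℝ) - 1)) ≤ 11 * (L : ℝ) ^ 2 / n := by
    have h4 : 3 / (n : ℝ) ≤ 3 * (L : ℝ) ^ 2 / n := by
      rw [div_le_div_iff_of_pos_right hn0]
      nlinarith
    have h5 : 11 * (L : ℝ) ^ 2 / n = 8 * (L : ℝ) ^ 2 / n + 3 * (L : ℝ) ^ 2 / n := by ring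
    have h6 : 3 / (n : ℝ) = 1 / n + 2 / n := by ring
    linarith
  have hk : kap n ^ 4 ≤ (2 * n) * (11 * (L : ℝ) ^ 2 / n) ^ 4 := by
    unfold kap
    rw [← hL, mul_pow]
    apply mul_le_mul _ (pow_le_pow_left₀ hS0 hS 4) (by positivity) (by positivity)
    have e : (((20 / 19 : ℝ) ^ (2 * L)) ^ 4) = ((20 / 19 : ℝ) ^ 8) ^ L := by
      rw [← pow_mul, ← pow_mul]
      congr 1
      ring
    rw [e]
    refine (pow_le_pow_left₀ (by positivity) ?_ L).trans hLn
    norm_num
  have hn2' : (0 : ℝ) < n ^ 2 := by positivity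
  calc 4 * kap n ^ 4 * n ≤ 4 * ((2 * n) * (11 * (L : ℝ) ^ 2 / n) ^ 4) * n := by
        apply mul_le_mul_of_nonneg_right _ hn0.le
        linarith
    _ = 8 * 11 ^ 4 * (L : ℝ) ^ 8 / n ^ 2 := by
        field_simp
        ring
    _ ≤ 4 * 2 ^ 8 * 5000 * (L : ℝ) ^ 8 / 2 ^ L * 2 := by
        have h5 : (2 : ℝ) ^ L ≤ n ^ 2 := by nlinarith
        have h6 : 8 * 11 ^ 4 * (L : ℝ) ^ 8 / n ^ 2 ≤ 8 * 11 ^ 4 * (L : ℝ) ^ 8 / 2 ^ L := by
          apply div_le_div_of_nonneg_left (by positivity) (by positivity) h5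
        refine h6.trans ?_
        rw [div_mul_eq_mul_div, div_le_div_iff_of_pos_right (by positivity)]
        have : (0 : ℝ) ≤ (L : ℝ) ^ 8 := by positivity
        nlinarith

open Filter in
theorem log_tendsto : Tendsto (fun n : ℕ => Nat.log 2 n + 1) atTop atTop := by
  rw [tendsto_atTop]
  intro b
  filter_upwards [eventually_ge_atTop (2 ^ b)] with n hn
  have : b ≤ Nat.log 2 n := Nat.le_log_of_pow_le (by norm_num) hn
  omega

open Filter Topology in
theorem kap_tendsto : Tendsto (fun n : ℕ => 4 * 2 ^ 8 * 5000 *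
    ((Nat.log 2 n + 1 : ℕ) : ℝ) ^ 8 / 2 ^ (Nat.log 2 n + 1) * 2) atTop (𝓝 0) := by
  have h := tendsto_pow_const_div_const_pow_of_one_lt 8 (r := (2 : ℝ)) (by norm_num)
  have h2 := (h.comp log_tendsto).const_mul (4 * 2 ^ 8 * 5000 * 2 : ℝ)
  rw [mul_zero] at h2
  refine h2.congr (fun n => ?_)
  simp only [Function.comp_apply]
  ring

open Filter in
theorem eventually_small : ∀ᶠ n : ℕ in atTop, 4 * (Nat.log 2 n + 1) ≤ n := by
  have h := tendsto_pow_const_div_const_pow_of_one_lt 1 (r := (2 : ℝ)) (by norm_num)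
  have h2 := h.comp log_tendsto
  have h3 := h2.eventually (gt_mem_nhds (show (0 : ℝ) < 1 / 8 by norm_num))
  filter_upwards [h3, eventually_ge_atTop 2] with n hn hn2
  simp only [Function.comp_apply, pow_one] at hn
  rw [div_lt_iff₀ (by positivity)] at hn
  have hLn : (2 : ℝ) ^ (Nat.log 2 n + 1) ≤ 2 * n := by
    have : 2 ^ Nat.log 2 n ≤ n := Nat.pow_log_le_self 2 (by omega)
    have h2 : ((2 ^ Nat.log 2 n : ℕ) : ℝ) ≤ n := by exact_mod_cast this
    rw [pow_succ]
    push_cast at h2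
    linarith
  have : (4 * ((Nat.log 2 n + 1 : ℕ) : ℝ)) ≤ n := by linarith
  exact_mod_cast this

/-- Splitting twenty permutations into four blocks of five. -/
def blockE (n : ℕ) : (Fin 20 → Equiv.Perm (Fin n)) ≃ (Fin 4 → Fin 5 → Equiv.Perm (Fin n)) :=
  (Equiv.arrowCongr (finProdFinEquiv (m := 4) (n := 5)).symm (Equiv.refl _)).trans
    (Equiv.curry _ _ _)

theorem blockE_apply (x : Fin 20 → Equiv.Perm (Fin n)) (b : Fin 4) (i : Fin 5) :
    blockE n x b i = x (finProdFinEquiv (b, i)) := rfl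

/-- If there is no bad vector then the gap holds. -/
theorem gap_of_good (x : Fin 20 → Equiv.Perm (Fin n))
    (hx : ¬ ∃ v : Wsub n 1, v ≠ 0 ∧ ∑ b, ⟪(1 - avg (blockE n x b)) v, v⟫_ℝ <
      (1 / 20 : ℝ) / (4 * ((4 : ℕ) : ℝ) ^ 2) * ‖v‖ ^ 2) :
    GapUpTo n 20 1 (1 / 256) x := by
  intro j hj1 hj2 f hf
  have hj : j = 1 := by omega
  subst hj
  set v : Wsub n 1 := ⟨WithLp.toLp 2 f, hf⟩ with hv
  have hvf : ∀ y, (v : EuclideanSpace ℝ (Fin 1 → Fin n)) y = f y := fun y => rfl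
  have hnorm : ‖v‖ ^ 2 = ∑ y, f y ^ 2 := norm_sq_eq v
  have hin : ∀ σ : Equiv.Perm (Fin n), ⟪rho n 1 σ v, v⟫_ℝ = ∑ y, f (σ • y) * f y :=
    fun σ => inner_rho_self σ v
  by_cases hv0 : v = 0
  · have h1 : ∀ i, ∑ y, f (x i • y) * f y = 0 := by
      intro i
      rw [← hin, hv0, map_zero, inner_zero_left]
    rw [Finset.sum_congr rfl (fun i _ => h1 i), ← hnorm, hv0]
    simp
  · push Not at hx
    have h1 := hx v hv0
    have h2 : ∀ b : Fin 4, ⟪(1 - avg (blockE n x b)) v, v⟫_ℝ = ‖v‖ ^ 2 -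
        (1 / ((5 : ℕ) : ℝ)) * ∑ i : Fin 5, ⟪rho n 1 (x (finProdFinEquiv (b, i))) v, v⟫_ℝ := by
      intro b
      rw [LinearMap.sub_apply, Module.End.one_apply, inner_sub_left,
        real_inner_self_eq_norm_sq, inner_avg_self (by norm_num)]
      rfl
    rw [Finset.sum_congr rfl (fun b _ => h2 b), Finset.sum_sub_distrib, Finset.sum_const,
      Finset.card_univ, Fintype.card_fin, nsmul_eq_mul, ← Finset.mul_sum] at h1
    have h3 : ∑ b : Fin 4, ∑ i : Fin 5, ⟪rho n 1 (x (finProdFinEquiv (b, i))) v, v⟫_ℝ =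
        ∑ k : Fin 20, ∑ y, f (x k • y) * f y := by
      rw [← Fintype.sum_prod_type']
      rw [← Equiv.sum_comp (finProdFinEquiv (m := 4) (n := 5))
        (fun k : Fin 20 => ∑ y, f (x k • y) * f y)]
      exact Finset.sum_congr rfl (fun p _ => hin _)
    rw [h3] at h1
    rw [← hnorm]
    norm_num at h1 ⊢
    linarith

end Base

open Base in
open scoped InnerProductSpace in
/-- Level zero. -/
theorem lev_zero : Lev 0 := by
  classical
  refine ⟨20, by norm_num, 1 / 256, by norm_num, ?_⟩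
  refine squeeze_zero' (Filter.Eventually.of_forall (fun n => by positivity)) ?_ kap_tendsto
  filter_upwards [eventually_small, Filter.eventually_ge_atTop 2] with n hn hn2
  have hr : ⌊(n : ℝ) ^ (0 : ℝ)⌋₊ = 1 := by
    rw [Real.rpow_zero]
    simp
  rw [hr]
  set K : ℕ := 2 * (Nat.log 2 n + 1) with hK
  have hKn : K < n := by omega
  have hchain := chain (E := Wsub n 1) (Ω := Fin 5 → Equiv.Perm (Fin n))
    (fun x => ((low (1 - avg x) (1 / 20)).starProjection : Wsub n 1 →L[ℝ] Wsub n 1).toLinearMap)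
    (fun x v => Submodule.norm_starProjection_apply_le _ v) (kap n)
    (fun v => kappa_bound (even_two_mul _) hKn hn2 v)
    (fun x v => ⟪(1 - avg x) v, v⟫_ℝ) (1 / 20) (by norm_num)
    (fun x v => low_proj (1 - avg x) (LinearMap.IsSymmetric.sub LinearMap.IsSymmetric.one
      (avg_symm x)) (one_sub_avg_nonneg (by norm_num) x) (1 / 20) (by norm_num) v) 4 (by norm_num)
  have hcard : (Nat.card {x : Fin 20 → Equiv.Perm (Fin n) // ¬ GapUpTo n 20 1 (1 / 256) x} : ℝ) ≤
      (Nat.card {ω : Fin 4 → Fin 5 → Equiv.Perm (Fin n) // ∃ v : Wsub n 1, v ≠ 0 ∧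
        ∑ b, ⟪(1 - avg (ω b)) v, v⟫_ℝ < (1 / 20 : ℝ) / (4 * ((4 : ℕ) : ℝ) ^ 2) * ‖v‖ ^ 2} : ℝ) := by
    have : Nat.card {x : Fin 20 → Equiv.Perm (Fin n) // ¬ GapUpTo n 20 1 (1 / 256) x} ≤
      Nat.card {ω : Fin 4 → Fin 5 → Equiv.Perm (Fin n) // ∃ v : Wsub n 1, v ≠ 0 ∧
        ∑ b, ⟪(1 - avg (ω b)) v, v⟫_ℝ < (1 / 20 : ℝ) / (4 * ((4 : ℕ) : ℝ) ^ 2) * ‖v‖ ^ 2} := by
      apply Nat.card_le_card_of_injective (fun x => ⟨blockE n x.1, by
        by_contra hcon
        exact x.2 (gap_of_good x.1 hcon)⟩)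
      intro x x' h
      apply Subtype.ext
      apply (blockE n).injective
      exact congrArg Subtype.val h
    exact_mod_cast this
  have hfin : (Module.finrank ℝ (Wsub n 1) : ℝ) ≤ n := by
    have := finrank_Wsub n 1
    rw [pow_one] at this
    exact_mod_cast this
  have hfac : (0 : ℝ) < (n.factorial : ℝ) ^ 20 := by positivity
  rw [div_le_iff₀ hfac]
  refine hcard.trans (hchain.trans ?_)
  rw [card_perm_pow, ← pow_mul]
  have e20 : 5 * 4 = 20 := by norm_num
  rw [e20]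
  apply mul_le_mul_of_nonneg_right _ hfac.le
  refine le_trans ?_ (kap_bound hn hn2)
  apply mul_le_mul_of_nonneg_left hfin
  positivity

end Pool.Agent.RC
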