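import Pool.Agent.Helper46.RC.Op
import Pool.Agent.Helper46.RC.Pow

/-!
# The representation of `Perm (Fin n)` on the `InW` functions as an inner product space
-/

open Finset

namespace Pool.Agent.RC

namespace Base

open scoped InnerProductSpace

variable {n j : ℕ}

theorem inW_zero : InW (fun _ : Fin j → Fin n => (0 : ℝ)) :=
  ⟨fun _ _ => rfl, fun i y => by simp⟩

theorem inW_add {f g : (Fin j → Fin n) → ℝ} (hf : InW f) (hg : InW g) :
    InW (fun y => f y + g y) := by
  refine ⟨fun y hy => ?_, fun i y => ?_⟩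
  · simp only []
    rw [hf.1 y hy, hg.1 y hy, add_zero]
  · rw [Finset.sum_add_distrib, hf.2 i y, hg.2 i y, add_zero]

theorem inW_smul {f : (Fin j → Fin n) → ℝ} (c : ℝ) (hf : InW f) :
    InW (fun y => c * f y) := by
  refine ⟨fun y hy => ?_, fun i y => ?_⟩
  · simp only []
    rw [hf.1 y hy, mul_zero]
  · rw [← Finset.mul_sum, hf.2 i y, mul_zero]

theorem inW_act {f : (Fin j → Fin n) → ℝ} (σ : Equiv.Perm (Fin n)) (hf : InW f) :
    InW (fun y => f (σ • y)) := by
  refine ⟨fun y hy => ?_, fun i y => ?_⟩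
  · apply hf.1
    intro h
    apply hy
    intro a b hab
    apply h
    simp only [Pi.smul_apply, hab]
  · have h : ∀ u : Fin n, f (σ • Function.update y i u) =
        f (Function.update (σ • y) i (σ u)) := by
      intro u
      congr 1
      funext l
      by_cases hl : l = i
      · subst hl
        simp [Equiv.Perm.smul_def]
      · simp [Function.update_of_ne hl]
    rw [Finset.sum_congr rfl (fun u _ => h u)]
    rw [Equiv.sum_comp σ (fun u => f (Function.update (σ • y) i u))]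
    exact hf.2 i _

/-- The `InW` functions as a subspace of a Euclidean space. -/
def Wsub (n j : ℕ) : Submodule ℝ (EuclideanSpace ℝ (Fin j → Fin n)) where
  carrier := {f | InW (fun y => f y)}
  add_mem' := fun hf hg => inW_add hf hg
  zero_mem' := inW_zero
  smul_mem' := fun c _ hf => inW_smul c hf

theorem mem_Wsub (f : EuclideanSpace ℝ (Fin j → Fin n)) :
    f ∈ Wsub n j ↔ InW (fun y => f y) := Iff.rfl

/-- The action of a permutation on functions of tuples. -/
def actL (σ : Equiv.Perm (Fin n)) : EuclideanSpace ℝ (Fin j → Fin n) →ₗ[ℝ]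
    EuclideanSpace ℝ (Fin j → Fin n) where
  toFun f := WithLp.toLp 2 (fun y => f (σ⁻¹ • y))
  map_add' f g := by
    ext y
    rfl
  map_smul' c f := by
    ext y
    rfl

theorem actL_apply (σ : Equiv.Perm (Fin n)) (f : EuclideanSpace ℝ (Fin j → Fin n))
    (y : Fin j → Fin n) : actL σ f y = f (σ⁻¹ • y) := rfl

theorem actL_mem (σ : Equiv.Perm (Fin n)) {f : EuclideanSpace ℝ (Fin j → Fin n)}
    (hf : f ∈ Wsub n j) : actL σ f ∈ Wsub n j := inW_act σ⁻¹ hf

/-- The representation on the `InW` functions. -/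
def rho (n j : ℕ) : Equiv.Perm (Fin n) →* (Wsub n j →ₗ[ℝ] Wsub n j) where
  toFun σ := (actL σ).restrict (fun f hf => actL_mem σ hf)
  map_one' := by
    ext f y
    change (f : EuclideanSpace ℝ (Fin j → Fin n)) ((1 : Equiv.Perm (Fin n))⁻¹ • y) =
      (f : EuclideanSpace ℝ (Fin j → Fin n)) y
    rw [inv_one, one_smul]
  map_mul' σ τ := by
    ext f y
    change (f : EuclideanSpace ℝ (Fin j → Fin n)) ((σ * τ)⁻¹ • y) =
      (f : EuclideanSpace ℝ (Fin j → Fin n)) (τ⁻¹ • σ⁻¹ • y)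
    rw [mul_inv_rev, mul_smul]

theorem rho_apply (σ : Equiv.Perm (Fin n)) (f : Wsub n j) (y : Fin j → Fin n) :
    (rho n j σ f : EuclideanSpace ℝ (Fin j → Fin n)) y =
      (f : EuclideanSpace ℝ (Fin j → Fin n)) (σ⁻¹ • y) := rfl

theorem inner_eq (f g : Wsub n j) : ⟪f, g⟫_ℝ =
    ∑ y, (f : EuclideanSpace ℝ (Fin j → Fin n)) y *
      (g : EuclideanSpace ℝ (Fin j → Fin n)) y := by
  rw [Submodule.coe_inner, PiLp.inner_apply]
  refine Finset.sum_congr rfl (fun y _ => ?_)
  simp [mul_comm]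

theorem norm_sq_eq (f : Wsub n j) : ‖f‖ ^ 2 =
    ∑ y, (f : EuclideanSpace ℝ (Fin j → Fin n)) y ^ 2 := by
  rw [← real_inner_self_eq_norm_sq, inner_eq]
  exact Finset.sum_congr rfl (fun y _ => (pow_two _).symm)

theorem inner_rho (σ : Equiv.Perm (Fin n)) (f g : Wsub n j) : ⟪rho n j σ f, g⟫_ℝ =
    ∑ y, (f : EuclideanSpace ℝ (Fin j → Fin n)) y *
      (g : EuclideanSpace ℝ (Fin j → Fin n)) (σ • y) := by
  rw [inner_eq, ← Equiv.sum_comp (MulAction.toPerm σ)]
  refine Finset.sum_congr rfl (fun y _ => ?_)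
  rw [rho_apply, MulAction.toPerm_apply, inv_smul_smul]

theorem inner_rho_right (σ : Equiv.Perm (Fin n)) (f g : Wsub n j) : ⟪f, rho n j σ g⟫_ℝ =
    ⟪rho n j σ⁻¹ f, g⟫_ℝ := by
  rw [inner_rho, inner_eq]
  rfl

theorem norm_rho (σ : Equiv.Perm (Fin n)) (f : Wsub n j) : ‖rho n j σ f‖ = ‖f‖ := by
  have h : ‖rho n j σ f‖ ^ 2 = ‖f‖ ^ 2 := by
    rw [norm_sq_eq, norm_sq_eq, ← Equiv.sum_comp (MulAction.toPerm σ)]
    refine Finset.sum_congr rfl (fun y _ => ?_)
    rw [rho_apply, MulAction.toPerm_apply, inv_smul_smul]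
  rwa [sq_eq_sq₀ (norm_nonneg _) (norm_nonneg _)] at h

/-- The energy form in terms of sums over tuples. -/
theorem inner_rho_self (σ : Equiv.Perm (Fin n)) (f : Wsub n j) : ⟪rho n j σ f, f⟫_ℝ =
    ∑ y, (f : EuclideanSpace ℝ (Fin j → Fin n)) (σ • y) *
      (f : EuclideanSpace ℝ (Fin j → Fin n)) y := by
  rw [inner_rho]
  exact Finset.sum_congr rfl (fun y _ => mul_comm _ _)

theorem inner_rho_inv_self (σ : Equiv.Perm (Fin n)) (f : Wsub n j) :
    ⟪rho n j σ⁻¹ f, f⟫_ℝ = ⟪rho n j σ f, f⟫_ℝ := by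
  rw [← inner_rho_right, real_inner_comm]

theorem finrank_Wsub (n j : ℕ) : Module.finrank ℝ (Wsub n j) ≤ n ^ j := by
  refine (Submodule.finrank_le _).trans ?_
  rw [finrank_euclideanSpace]
  simp

end Base

end Pool.Agent.RC
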