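import Pool.Agent.Helper46.RC.Proc

/-!
# The bound of the normalized character used in the bootstrapping step
-/

namespace Pool.Agent.RC

/-- the bound of CORE and NB together -/
noncomputable def betaS (n j k r : ℕ) : ℝ :=
  ((j : ℝ) / (n - j)) ^ ((j + 1) / 2) + 2 ^ j * ((j : ℝ) / (n - j)) ^ (((j + 3) / 4 + 2) / 3) +
    2 ^ j * (2 ^ (8 * k) * (2 * (32 * (((j + 3) / 4 : ℕ) * (8 * k : ℕ)) / n) ^ r) ^ k +
        (8 * k : ℕ) * (2 ^ ((j + 3) / 4) /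
          ((n : ℝ) - ((j + 3) / 4 : ℕ) * (8 * k : ℕ)) ^ (((j + 3) / 4 + 1) / 2)))

end Pool.Agent.RC
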