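import Pool.Agent.Helper46.RC.Proc

/-!
# C1: probability of many bad macro steps
-/

open Finset

namespace Pool.Agent.RC

namespace C1

theorem desc_mul_pow_le (m n : ℕ) (hmn : m ≤ n) (r : ℕ) :
    m.descFactorial r * n ^ r ≤ m ^ r * n.descFactorial r := by
  induction r with
  | zero => simp
  | succ r ih =>
    rw [Nat.descFactorial_succ, Nat.descFactorial_succ, pow_succ, pow_succ]
    have h1 : (m - r) * n ≤ m * (n - r) := by
      rcases le_total m r with h | h
      · rw [Nat.sub_eq_zero_of_le h, zero_mul]
        exact Nat.zero_le _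
      · rw [Nat.sub_mul, Nat.mul_sub]
        have : m * r ≤ r * n := by rw [mul_comm]; exact Nat.mul_le_mul_left _ hmn
        omega
    calc (m - r) * m.descFactorial r * (n ^ r * n)
        = (m.descFactorial r * n ^ r) * ((m - r) * n) := by ring
      _ ≤ (m ^ r * n.descFactorial r) * (m * (n - r)) := Nat.mul_le_mul ih h1
      _ = m ^ r * m * ((n - r) * n.descFactorial r) := by ring

open Classical in
/-- For a mixing family the number of `u` which send many of the points `w i` to a small set is
small. -/
theorem hit_bound {n q r c M : ℕ} {𝒰 : Type*} [Fintype 𝒰] (g : 𝒰 → Equiv.Perm (Fin n))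
    (hmix : MixOK g r) (hr : 1 ≤ r) (hrc : 2 * r ≤ c + 1) (hcq : q ≤ 8 * c)
    (w : Fin q → Fin n) (hw : Function.Injective w) (T : Finset (Fin n)) (hT : T.card ≤ M)
    (hM : M ≤ n) :
    ((univ.filter (fun u : 𝒰 => c ≤ (univ.filter (fun i : Fin q => g u (w i) ∈ T)).card)).card : ℝ)
      ≤ 2 * (16 * M / n) ^ r * Fintype.card 𝒰 := by
  set Bad : Finset 𝒰 :=
    univ.filter (fun u : 𝒰 => c ≤ (univ.filter (fun i : Fin q => g u (w i) ∈ T)).card) with hBad
  have hqn : q ≤ n := by
    have := Fintype.card_le_of_injective w hw
    simpa using this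
  rcases lt_or_ge q r with hqr | hqr
  · have : Bad = ∅ := by
      apply Finset.filter_eq_empty_iff.2
      intro u _ hcon
      have h1 := Finset.card_le_univ (univ.filter (fun i : Fin q => g u (w i) ∈ T))
      rw [Fintype.card_fin] at h1
      omega
    rw [this]
    simp only [Finset.card_empty, Nat.cast_zero]
    positivity
  have hn0 : 0 < n := by omega
  have hnr : 0 < n.descFactorial r := Nat.descFactorial_pos.2 (by omega)
  have hcr : 0 < c.descFactorial r := Nat.descFactorial_pos.2 (by omega)
  -- the pairs (u, I)
  set P : 𝒰 → (Fin r ↪ Fin q) → Prop := fun u I => ∀ l, g u (w (I l)) ∈ T with hP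
  have h1 : ∀ u ∈ Bad, c.descFactorial r ≤ (univ.filter (fun I => P u I)).card := by
    intro u hu
    have hu' := (Finset.mem_filter.1 hu).2
    have h2 : Fintype.card (Fin r ↪ {i : Fin q // g u (w i) ∈ T}) ≤
        (univ.filter (fun I => P u I)).card := by
      rw [← Fintype.card_coe]
      apply Fintype.card_le_of_injective
        (fun J => (⟨J.trans (Function.Embedding.subtype _), by
          rw [Finset.mem_filter]
          exact ⟨mem_univ _, fun l => (J l).2⟩⟩ : {I // I ∈ univ.filter (fun I => P u I)}))
      intro J J' h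
      have h3 := congrArg Subtype.val h
      ext l
      have h4 := DFunLike.congr_fun h3 l
      exact congrArg Fin.val h4
    rw [Fintype.card_embedding_eq, Fintype.card_fin, Fintype.card_subtype] at h2
    exact (Nat.descFactorial_le r hu').trans h2
  have h2 : ∀ I : Fin r ↪ Fin q,
      ((univ.filter (fun u => P u I)).card : ℝ) * n.descFactorial r ≤
        T.card.descFactorial r * (2 * Fintype.card 𝒰) := by
    intro I
    have h3 : univ.filter (fun u => P u I) ⊆ (univ : Finset (Fin r ↪ T)).biUnion
        (fun z => univ.filter (fun u => g u • (w ∘ I) = fun l => (z l : Fin n))) := by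
      intro u hu
      have hu' := (Finset.mem_filter.1 hu).2
      rw [Finset.mem_biUnion]
      refine ⟨⟨fun l => ⟨g u (w (I l)), hu' l⟩, ?_⟩, mem_univ _, ?_⟩
      · intro l l' h
        have := congrArg Subtype.val h
        exact I.injective (hw ((g u).injective this))
      · rw [Finset.mem_filter]
        exact ⟨mem_univ _, rfl⟩
    have h4 : ∀ z : Fin r ↪ T,
        ((univ.filter (fun u => g u • (w ∘ I) = fun l => (z l : Fin n))).card : ℝ) *
          n.descFactorial r ≤ 2 * Fintype.card 𝒰 := by
      intro z
      have := hmix (w ∘ I) (fun l => (z l : Fin n)) (hw.comp I.injective)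
        (Subtype.val_injective.comp z.injective)
      rw [Nat.card_eq_fintype_card, Fintype.card_subtype] at this
      exact this
    calc ((univ.filter (fun u => P u I)).card : ℝ) * n.descFactorial r
        ≤ (∑ z : Fin r ↪ T,
            ((univ.filter (fun u => g u • (w ∘ I) = fun l => (z l : Fin n))).card : ℝ)) *
            n.descFactorial r := by
          apply mul_le_mul_of_nonneg_right _ (Nat.cast_nonneg _)
          exact_mod_cast (Finset.card_le_card h3).trans Finset.card_biUnion_le
      _ = ∑ z : Fin r ↪ T,
            ((univ.filter (fun u => g u • (w ∘ I) = fun l => (z l : Fin n))).card : ℝ) *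
            n.descFactorial r := by rw [Finset.sum_mul]
      _ ≤ ∑ z : Fin r ↪ T, (2 * Fintype.card 𝒰 : ℝ) := Finset.sum_le_sum (fun z _ => h4 z)
      _ = T.card.descFactorial r * (2 * Fintype.card 𝒰) := by
          rw [Finset.sum_const, Finset.card_univ, Fintype.card_embedding_eq, Fintype.card_fin,
            Fintype.card_coe, nsmul_eq_mul]
  -- double counting
  have h5 : (Bad.card : ℝ) * c.descFactorial r * n.descFactorial r ≤
      q.descFactorial r * (T.card.descFactorial r * (2 * Fintype.card 𝒰)) := by
    have h6 : Bad.card * c.descFactorial r ≤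
        ∑ I : Fin r ↪ Fin q, (univ.filter (fun u => P u I)).card := by
      calc Bad.card * c.descFactorial r = ∑ _u ∈ Bad, c.descFactorial r := by
            rw [Finset.sum_const, smul_eq_mul]
        _ ≤ ∑ u ∈ Bad, (univ.filter (fun I => P u I)).card := Finset.sum_le_sum h1
        _ ≤ ∑ u, (univ.filter (fun I => P u I)).card :=
            Finset.sum_le_sum_of_subset (Finset.subset_univ _)
        _ = ∑ I : Fin r ↪ Fin q, (univ.filter (fun u => P u I)).card := by
            simp only [Finset.card_filter]
            exact Finset.sum_comm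
    calc (Bad.card : ℝ) * c.descFactorial r * n.descFactorial r
        ≤ (∑ I : Fin r ↪ Fin q, ((univ.filter (fun u => P u I)).card : ℝ)) *
            n.descFactorial r := by
          apply mul_le_mul_of_nonneg_right _ (Nat.cast_nonneg _)
          exact_mod_cast h6
      _ = ∑ I : Fin r ↪ Fin q, ((univ.filter (fun u => P u I)).card : ℝ) *
            n.descFactorial r := by rw [Finset.sum_mul]
      _ ≤ ∑ _I : Fin r ↪ Fin q, (T.card.descFactorial r * (2 * Fintype.card 𝒰) : ℝ) :=
          Finset.sum_le_sum (fun I _ => h2 I)
      _ = _ := by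
          rw [Finset.sum_const, Finset.card_univ, Fintype.card_embedding_eq, Fintype.card_fin,
            Fintype.card_fin, nsmul_eq_mul]
  -- numerics
  have h7 : q.descFactorial r ≤ 16 ^ r * c.descFactorial r := by
    calc q.descFactorial r ≤ q ^ r := Nat.descFactorial_le_pow _ _
      _ ≤ (16 * (c + 1 - r)) ^ r := Nat.pow_le_pow_left (by omega) r
      _ = 16 ^ r * (c + 1 - r) ^ r := by rw [mul_pow]
      _ ≤ 16 ^ r * c.descFactorial r := Nat.mul_le_mul_left _ (Nat.pow_sub_le_descFactorial c r)
  have h8 : T.card.descFactorial r * n ^ r ≤ M ^ r * n.descFactorial r :=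
    (desc_mul_pow_le _ _ (hT.trans hM) r).trans
      (Nat.mul_le_mul_right _ (Nat.pow_le_pow_left hT r))
  have h7' : (q.descFactorial r : ℝ) ≤ 16 ^ r * c.descFactorial r := by exact_mod_cast h7
  have h8' : (T.card.descFactorial r : ℝ) * n ^ r ≤ M ^ r * n.descFactorial r := by
    exact_mod_cast h8
  have hnr' : (0 : ℝ) < n.descFactorial r := by exact_mod_cast hnr
  have hcr' : (0 : ℝ) < c.descFactorial r := by exact_mod_cast hcr
  have hnpow : (0 : ℝ) < (n : ℝ) ^ r := by positivity
  have h9 : (Bad.card : ℝ) * n ^ r * (c.descFactorial r * n.descFactorial r) ≤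
      (16 ^ r * M ^ r * (2 * Fintype.card 𝒰)) * (c.descFactorial r * n.descFactorial r) := by
    calc (Bad.card : ℝ) * n ^ r * (c.descFactorial r * n.descFactorial r)
        = ((Bad.card : ℝ) * c.descFactorial r * n.descFactorial r) * n ^ r := by ring
      _ ≤ (q.descFactorial r * (T.card.descFactorial r * (2 * Fintype.card 𝒰))) * n ^ r :=
          mul_le_mul_of_nonneg_right h5 hnpow.le
      _ = (q.descFactorial r * (T.card.descFactorial r * n ^ r)) * (2 * Fintype.card 𝒰) := by ring
      _ ≤ ((16 ^ r * c.descFactorial r) * (M ^ r * n.descFactorial r)) *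
            (2 * Fintype.card 𝒰) := by
          apply mul_le_mul_of_nonneg_right _ (by positivity)
          exact mul_le_mul h7' h8' (by positivity) (by positivity)
      _ = _ := by ring
  have h10 := le_of_mul_le_mul_right h9 (mul_pos hcr' hnr')
  rw [div_pow, mul_pow]
  rw [show 2 * (16 ^ r * (M : ℝ) ^ r / n ^ r) * Fintype.card 𝒰 =
    (16 ^ r * M ^ r * (2 * Fintype.card 𝒰)) / n ^ r by ring]
  rw [le_div_iff₀ hnpow]
  exact h10

section process

variable {n q : ℕ} {𝒰 : Type*} (g : 𝒰 → Equiv.Perm (Fin n)) (t : Equiv.Perm (Fin n))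

theorem pre_congr {V V' : ℕ → 𝒰 × Bool} {k : ℕ} (h : ∀ i < k, V i = V' i) :
    pre g t V k = pre g t V' k := by
  induction k with
  | zero => rfl
  | succ k ih =>
    show mac g t (V k) * pre g t V k = mac g t (V' k) * pre g t V' k
    rw [ih (fun i hi => h i (Nat.lt_succ_of_lt hi)), h k (Nat.lt_succ_self k)]

theorem src_congr {V V' : ℕ → 𝒰 × Bool} {k : ℕ} (h : ∀ i ≤ k, V i = V' i)
    (y : Fin q → Fin n) (i : Fin q) : src g t V y i k = src g t V' y i k := by
  unfold src
  rw [h k le_rfl, pre_congr g t (fun i hi => h i hi.le)]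

theorem bN_congr {V V' : ℕ → 𝒰 × Bool} {k : ℕ} (h : ∀ i < k, V i = V' i)
    (y : Fin q → Fin n) : bN g t V y k = bN g t V' y k := by
  unfold bN
  rw [pre_congr g t h]
  have : (fun i : Fin q => ∃ k' < k, ∃ i' : Fin q,
      pre g t V' k (y i) = src g t V y i' k' ∨ pre g t V' k (y i) = t (src g t V y i' k')) =
      (fun i : Fin q => ∃ k' < k, ∃ i' : Fin q,
      pre g t V' k (y i) = src g t V' y i' k' ∨ pre g t V' k (y i) = t (src g t V' y i' k')) := by
    funext i
    apply propext
    constructor
    · rintro ⟨k', hk', i', h'⟩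
      refine ⟨k', hk', i', ?_⟩
      rw [src_congr g t (fun i hi => h i (lt_of_le_of_lt hi hk'))] at h'
      exact h'
    · rintro ⟨k', hk', i', h'⟩
      refine ⟨k', hk', i', ?_⟩
      rw [src_congr g t (fun i hi => h i (lt_of_le_of_lt hi hk'))]
      exact h'
  rw [this]

open Classical in
/-- One macro step. -/
theorem step_bound {r c K : ℕ} [Fintype 𝒰]
    (hmix : MixOK g r) (hr : 1 ≤ r) (hrc : 2 * r ≤ c + 1) (hcq : q ≤ 8 * c)
    (hn : 2 * (q * K) ≤ n) (y : Fin q → Fin n)
    (hy : Function.Injective y) (V : ℕ → 𝒰 × Bool) (k : ℕ) (hk : k + 1 ≤ K) :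
    ((univ.filter (fun a : 𝒰 × Bool => c ≤ bN g t (Function.update V k a) y (k + 1))).card : ℝ)
      ≤ (2 * (32 * (q * K) / n) ^ r) * (2 * Fintype.card 𝒰) := by
  -- for a given sign
  have hsign : ∀ e : Bool,
      ((univ.filter (fun u : 𝒰 => c ≤ bN g t (Function.update V k (u, e)) y (k + 1))).card : ℝ)
        ≤ 2 * (32 * (q * K) / n) ^ r * Fintype.card 𝒰 := by
    intro e
    set te : Equiv.Perm (Fin n) := if e then t else t⁻¹ with hte
    set w : Fin q → Fin n := fun i => te (pre g t V k (y i)) with hw
    set sE : Fin q → ℕ → Fin n := fun i k' =>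
      if (if k' = k then e else (V k').2) then pre g t V k' (y i)
        else t⁻¹ (pre g t V k' (y i)) with hsE
    set T : Finset (Fin n) :=
      ((univ : Finset (Fin q)) ×ˢ range (k + 1)).image (fun p => sE p.1 p.2) ∪
      ((univ : Finset (Fin q)) ×ˢ range (k + 1)).image (fun p => t (sE p.1 p.2)) with hT
    have hTcard : T.card ≤ 2 * (q * K) := by
      have h1 : ((univ : Finset (Fin q)) ×ˢ range (k + 1)).card ≤ q * K := by
        rw [Finset.card_product, Finset.card_univ, Fintype.card_fin, Finset.card_range]
        exact Nat.mul_le_mul_left _ hk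
      have h2 := Finset.card_union_le
        (((univ : Finset (Fin q)) ×ˢ range (k + 1)).image (fun p => sE p.1 p.2))
        (((univ : Finset (Fin q)) ×ˢ range (k + 1)).image (fun p => t (sE p.1 p.2)))
      have h3 : (((univ : Finset (Fin q)) ×ˢ range (k + 1)).image
          (fun p => sE p.1 p.2)).card ≤ _ := Finset.card_image_le
      have h4 : (((univ : Finset (Fin q)) ×ˢ range (k + 1)).image
          (fun p => t (sE p.1 p.2))).card ≤ _ := Finset.card_image_le
      rw [hT]
      omega
    have hwinj : Function.Injective w := by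
      intro i i' h
      exact hy ((pre g t V k).injective (te.injective h))
    have hsrc : ∀ u : 𝒰, ∀ k' < k + 1, ∀ i',
        src g t (Function.update V k (u, e)) y i' k' = sE i' k' := by
      intro u k' hk' i'
      have hpre : pre g t (Function.update V k (u, e)) k' = pre g t V k' := by
        apply pre_congr
        intro i hi
        rw [Function.update_of_ne (by omega)]
      unfold src
      rw [hpre]
      by_cases hkk : k' = k
      · subst hkk
        simp [hsE]
      · rw [Function.update_of_ne hkk]
        simp [hsE, hkk]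
    have hbn : ∀ u : 𝒰, bN g t (Function.update V k (u, e)) y (k + 1) =
        (univ.filter (fun i : Fin q => g u (w i) ∈ T)).card := by
      intro u
      have hpre : pre g t (Function.update V k (u, e)) (k + 1) = g u * te * pre g t V k := by
        show mac g t (Function.update V k (u, e) k) * pre g t (Function.update V k (u, e)) k = _
        rw [Function.update_self, pre_congr g t (V' := V) (fun i hi => by
          rw [Function.update_of_ne (by omega)])]
        simp [mac, hte]
      unfold bN
      rw [Nat.card_eq_fintype_card, Fintype.card_subtype]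
      congr 1
      apply Finset.filter_congr
      intro i _
      rw [hpre]
      have hwi : (g u * te * pre g t V k) (y i) = g u (w i) := rfl
      rw [hwi]
      constructor
      · rintro ⟨k', hk', i', h'⟩
        rw [hsrc u k' hk' i'] at h'
        rw [hT, Finset.mem_union, Finset.mem_image, Finset.mem_image]
        rcases h' with h' | h'
        · exact Or.inl ⟨(i', k'), by simp [hk'], h'.symm⟩
        · exact Or.inr ⟨(i', k'), by simp [hk'], h'.symm⟩
      · intro h'
        rw [hT, Finset.mem_union, Finset.mem_image, Finset.mem_image] at h'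
        rcases h' with ⟨⟨i', k'⟩, hp, h'⟩ | ⟨⟨i', k'⟩, hp, h'⟩
        · have hk' : k' < k + 1 := by
            have := (Finset.mem_product.1 hp).2
            exact Finset.mem_range.1 this
          exact ⟨k', hk', i', Or.inl (by rw [hsrc u k' hk' i']; exact h'.symm)⟩
        · have hk' : k' < k + 1 := by
            have := (Finset.mem_product.1 hp).2
            exact Finset.mem_range.1 this
          exact ⟨k', hk', i', Or.inr (by rw [hsrc u k' hk' i']; exact h'.symm)⟩
    have hmain := hit_bound g hmix hr hrc hcq w hwinj T hTcard hn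
    simp only [hbn]
    refine hmain.trans (le_of_eq ?_)
    push_cast
    ring
  -- both signs together
  have hsplit : (univ.filter
      (fun a : 𝒰 × Bool => c ≤ bN g t (Function.update V k a) y (k + 1))).card =
      ∑ e : Bool, (univ.filter
        (fun u : 𝒰 => c ≤ bN g t (Function.update V k (u, e)) y (k + 1))).card := by
    simp only [Finset.card_filter]
    rw [Fintype.sum_prod_type, Finset.sum_comm]
  rw [hsplit]
  push_cast
  calc ∑ e : Bool, ((univ.filter
        (fun u : 𝒰 => c ≤ bN g t (Function.update V k (u, e)) y (k + 1))).card : ℝ)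
      ≤ ∑ _e : Bool, 2 * (32 * (q * K) / n : ℝ) ^ r * Fintype.card 𝒰 :=
        Finset.sum_le_sum (fun e _ => hsign e)
    _ = (2 * (32 * (q * K) / n) ^ r) * (2 * Fintype.card 𝒰) := by
        rw [Finset.sum_const, Finset.card_univ, Fintype.card_bool, nsmul_eq_mul]
        push_cast
        ring

end process

/-- Averaging over one letter. -/
theorem sum_update {K : ℕ} {A : Type*} [Fintype A] (k : Fin K)
    (f : (Fin K → A) → ℝ) :
    ∑ U : Fin K → A, ∑ a : A, f (Function.update U k a) = Fintype.card A * ∑ U, f U := by
  classical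
  let e : (Fin K → A) × A ≃ (Fin K → A) × A :=
    { toFun := fun p => (Function.update p.1 k p.2, p.1 k)
      invFun := fun p => (Function.update p.1 k p.2, p.1 k)
      left_inv := by
        rintro ⟨U, a⟩
        simp
      right_inv := by
        rintro ⟨U, a⟩
        simp }
  have h1 : ∑ p : (Fin K → A) × A, f (e p).1 = ∑ p : (Fin K → A) × A, f p.1 :=
    Equiv.sum_comp e (fun p => f p.1)
  rw [Fintype.sum_prod_type, Fintype.sum_prod_type] at h1
  calc ∑ U : Fin K → A, ∑ a : A, f (Function.update U k a) = ∑ U : Fin K → A, ∑ _a : A, f U := h1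
    _ = Fintype.card A * ∑ U, f U := by
        rw [Finset.mul_sum]
        apply Finset.sum_congr rfl
        intro U _
        rw [Finset.sum_const, Finset.card_univ, nsmul_eq_mul]

theorem ext_apply {A : Type*} {K : ℕ} (hK : 0 < K) (U : Fin K → A) (i : ℕ) (hi : i < K) :
    ext hK U i = U ⟨i, hi⟩ := by
  unfold ext
  congr 1
  exact Fin.ext (Nat.mod_eq_of_lt hi)

end C1

open C1

theorem c1 {n q r c K κ : ℕ} {𝒰 : Type*} [Fintype 𝒰] (g : 𝒰 → Equiv.Perm (Fin n))
    (hmix : MixOK g r) (hr : 1 ≤ r) (hrc : 2 * r ≤ c + 1) (hcq : q ≤ 8 * c)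
    (hn : 2 * (q * K) ≤ n) (t : Equiv.Perm (Fin n)) (y : Fin q → Fin n)
    (hy : Function.Injective y) (hK : 0 < K) :
    (Nat.card {U : Fin K → 𝒰 × Bool // κ ≤ Nat.card {k : Fin K // c ≤ bN g t (ext hK U) y k}} : ℝ)
      ≤ 2 ^ K * (2 * (32 * (q * K) / n) ^ r) ^ κ * (2 * Fintype.card 𝒰) ^ K := by
  classical
  set ρ : ℝ := 2 * (32 * (q * K) / n) ^ r with hρ
  have hρ0 : 0 ≤ ρ := by positivity
  have hcardA : (Fintype.card (𝒰 × Bool) : ℝ) = 2 * Fintype.card 𝒰 := by
    rw [Fintype.card_prod, Fintype.card_bool]
    push_cast
    ring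
  set b : (Fin K → 𝒰 × Bool) → ℕ → Prop := fun U k => c ≤ bN g t (ext hK U) y k with hb
  -- letters at or after `k` do not matter
  have hupd : ∀ (U : Fin K → 𝒰 × Bool) (k : Fin K) (a : 𝒰 × Bool) (j : ℕ), j ≤ k →
      (b (Function.update U k a) j ↔ b U j) := by
    intro U k a j hj
    show c ≤ bN g t (ext hK (Function.update U k a)) y j ↔ c ≤ bN g t (ext hK U) y j
    rw [bN_congr g t (V' := ext hK U)]
    intro i hi
    have hiK : i < K := lt_of_lt_of_le hi (hj.trans k.2.le)
    rw [ext_apply hK _ i hiK, ext_apply hK _ i hiK, Function.update_of_ne]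
    intro h
    have := congrArg Fin.val h
    simp only [] at this
    omega
  have hupd2 : ∀ (U : Fin K → 𝒰 × Bool) (k : Fin K) (a : 𝒰 × Bool), (k : ℕ) + 1 < K →
      (b (Function.update U k a) (k + 1) ↔
        c ≤ bN g t (Function.update (ext hK U) k a) y (k + 1)) := by
    intro U k a hk
    show c ≤ bN g t (ext hK (Function.update U k a)) y (k + 1) ↔ _
    rw [bN_congr g t (V' := Function.update (ext hK U) k a)]
    intro i hi
    have hiK : i < K := by omega
    rw [ext_apply hK _ i hiK]
    by_cases hik : i = k
    · subst hik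
      rw [Function.update_self]
      simp
    · rw [Function.update_of_ne hik, ext_apply hK _ i hiK, Function.update_of_ne]
      intro h
      exact hik (congrArg Fin.val h)
  -- main induction
  have hind : ∀ (S : Finset ℕ) (k : ℕ), k < K →
      ((univ.filter (fun U : Fin K → 𝒰 × Bool => ∀ j ∈ S, j ≤ k → b U j)).card : ℝ) ≤
        ρ ^ (S.filter (· ≤ k)).card * (2 * Fintype.card 𝒰) ^ K := by
    intro S k
    induction k with
    | zero =>
      intro _
      by_cases h0 : 0 ∈ S
      · have hemp : univ.filter (fun U : Fin K → 𝒰 × Bool => ∀ j ∈ S, j ≤ 0 → b U j) = ∅ := by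
          apply Finset.filter_eq_empty_iff.2
          intro U _ hcon
          have h1 : c ≤ bN g t (ext hK U) y 0 := hcon 0 h0 le_rfl
          have h2 : bN g t (ext hK U) y 0 = 0 := by
            unfold bN
            rw [Nat.card_eq_zero]
            left
            constructor
            rintro ⟨i, k', hk', -⟩
            exact absurd hk' (Nat.not_lt_zero _)
          omega
        rw [hemp]
        simp only [Finset.card_empty, Nat.cast_zero]
        positivity
      · have h1 : S.filter (· ≤ 0) = ∅ := by
          apply Finset.filter_eq_empty_iff.2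
          intro j hj hj0
          have : j = 0 := by omega
          rw [this] at hj
          exact h0 hj
        rw [h1, Finset.card_empty, pow_zero, one_mul]
        calc ((univ.filter (fun U : Fin K → 𝒰 × Bool => ∀ j ∈ S, j ≤ 0 → b U j)).card : ℝ)
            ≤ (Fintype.card (Fin K → 𝒰 × Bool) : ℝ) := by
              exact_mod_cast Finset.card_le_univ _
          _ = (2 * Fintype.card 𝒰) ^ K := by
              rw [Fintype.card_fun, Fintype.card_fin]
              push_cast
              rw [hcardA]
    | succ k ih =>
      intro hk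
      have ih' := ih (by omega)
      by_cases hkS : k + 1 ∈ S
      · have hfil : S.filter (· ≤ k + 1) = insert (k + 1) (S.filter (· ≤ k)) := by
          ext j
          simp only [Finset.mem_filter, Finset.mem_insert]
          constructor
          · rintro ⟨h1, h2⟩
            rcases Nat.lt_or_ge j (k + 1) with h | h
            · exact Or.inr ⟨h1, by omega⟩
            · exact Or.inl (by omega)
          · rintro (rfl | ⟨h1, h2⟩)
            · exact ⟨hkS, le_rfl⟩
            · exact ⟨h1, by omega⟩
        have hni : k + 1 ∉ S.filter (· ≤ k) := by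
          intro h
          have := (Finset.mem_filter.1 h).2
          omega
        rw [hfil, Finset.card_insert_of_notMem hni, pow_succ]
        -- double counting
        set kk : Fin K := ⟨k, by omega⟩ with hkk
        set f : (Fin K → 𝒰 × Bool) → ℝ := fun U =>
          if (∀ j ∈ S, j ≤ k → b U j) ∧ b U (k + 1) then 1 else 0 with hf
        have hcard1 : ((univ.filter (fun U : Fin K → 𝒰 × Bool =>
            ∀ j ∈ S, j ≤ k + 1 → b U j)).card : ℝ) = ∑ U, f U := by
          rw [Finset.card_filter]
          push_cast
          apply Finset.sum_congr rfl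
          intro U _
          simp only [hf]
          congr 1
          apply propext
          constructor
          · intro h
            exact ⟨fun j hj hjk => h j hj (by omega), h (k + 1) hkS le_rfl⟩
          · rintro ⟨h1, h2⟩ j hj hjk
            rcases Nat.lt_or_ge j (k + 1) with h | h
            · exact h1 j hj (by omega)
            · have : j = k + 1 := by omega
              rw [this]
              exact h2
        have hcard2 : ((univ.filter (fun U : Fin K → 𝒰 × Bool =>
            ∀ j ∈ S, j ≤ k → b U j)).card : ℝ) =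
            ∑ U : Fin K → 𝒰 × Bool, if (∀ j ∈ S, j ≤ k → b U j) then (1 : ℝ) else 0 := by
          rw [Finset.card_filter]
          push_cast
          rfl
        have hkey : Fintype.card (𝒰 × Bool) * ∑ U, f U ≤
            ρ * Fintype.card (𝒰 × Bool) *
              ∑ U : Fin K → 𝒰 × Bool, if (∀ j ∈ S, j ≤ k → b U j) then (1 : ℝ) else 0 := by
          rw [← sum_update kk f, Finset.mul_sum]
          apply Finset.sum_le_sum
          intro U _
          by_cases hU : ∀ j ∈ S, j ≤ k → b U j
          · rw [if_pos hU, mul_one]
            have h1 : ∑ a, f (Function.update U kk a) =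
                ((univ.filter (fun a : 𝒰 × Bool =>
                  c ≤ bN g t (Function.update (ext hK U) k a) y (k + 1))).card : ℝ) := by
              rw [Finset.card_filter]
              push_cast
              apply Finset.sum_congr rfl
              intro a _
              simp only [hf]
              congr 1
              apply propext
              constructor
              · rintro ⟨-, h2⟩
                exact (hupd2 U kk a hk).1 h2
              · intro h2
                refine ⟨fun j hj hjk => ?_, (hupd2 U kk a hk).2 h2⟩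
                exact (hupd U kk a j hjk).2 (hU j hj hjk)
            rw [h1, hcardA]
            exact step_bound g t hmix hr hrc hcq hn y hy (ext hK U) k (by omega)
          · rw [if_neg hU, mul_zero]
            apply le_of_eq
            apply Finset.sum_eq_zero
            intro a _
            simp only [hf]
            rw [if_neg]
            rintro ⟨h1, -⟩
            exact hU (fun j hj hjk => (hupd U kk a j hjk).1 (h1 j hj hjk))
        rw [hcard1]
        rcases Nat.eq_zero_or_pos (Fintype.card (𝒰 × Bool)) with h0 | hpos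
        · have : IsEmpty (Fin K → 𝒰 × Bool) := by
            have he : IsEmpty (𝒰 × Bool) := Fintype.card_eq_zero_iff.1 h0
            exact ⟨fun U => he.false (U ⟨0, hK⟩)⟩
          rw [Finset.sum_of_isEmpty]
          positivity
        · have hpos' : (0 : ℝ) < Fintype.card (𝒰 × Bool) := by exact_mod_cast hpos
          have h2 : ∑ U, f U ≤ ρ *
              ∑ U : Fin K → 𝒰 × Bool, if (∀ j ∈ S, j ≤ k → b U j) then (1 : ℝ) else 0 := by
            have h3 : Fintype.card (𝒰 × Bool) * ∑ U, f U ≤ Fintype.card (𝒰 × Bool) * (ρ *
              ∑ U : Fin K → 𝒰 × Bool, if (∀ j ∈ S, j ≤ k → b U j) then (1 : ℝ) else 0) := by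
              refine hkey.trans (le_of_eq ?_)
              ring
            exact le_of_mul_le_mul_left h3 hpos'
          rw [← hcard2] at h2
          calc ∑ U, f U ≤ ρ * ((univ.filter (fun U : Fin K → 𝒰 × Bool =>
                ∀ j ∈ S, j ≤ k → b U j)).card : ℝ) := h2
            _ ≤ ρ * (ρ ^ (S.filter (· ≤ k)).card * (2 * Fintype.card 𝒰) ^ K) :=
                mul_le_mul_of_nonneg_left ih' hρ0
            _ = _ := by ring
      · have hfil : S.filter (· ≤ k + 1) = S.filter (· ≤ k) := by
          apply Finset.filter_congr
          intro j hj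
          constructor
          · intro h
            rcases Nat.lt_or_ge j (k + 1) with h' | h'
            · omega
            · have : j = k + 1 := by omega
              rw [this] at hj
              exact absurd hj hkS
          · intro h
            omega
        rw [hfil]
        refine le_trans ?_ ih'
        have : univ.filter (fun U : Fin K → 𝒰 × Bool => ∀ j ∈ S, j ≤ k + 1 → b U j) ⊆
            univ.filter (fun U : Fin K → 𝒰 × Bool => ∀ j ∈ S, j ≤ k → b U j) := by
          intro U hU
          rw [Finset.mem_filter] at hU ⊢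
          exact ⟨mem_univ _, fun j hj hjk => hU.2 j hj (by omega)⟩
        exact_mod_cast Finset.card_le_card this
  -- union bound
  have hsub : univ.filter (fun U : Fin K → 𝒰 × Bool =>
      κ ≤ Nat.card {k : Fin K // c ≤ bN g t (ext hK U) y k}) ⊆
      ((range K).powersetCard κ).biUnion (fun S =>
        univ.filter (fun U : Fin K → 𝒰 × Bool => ∀ j ∈ S, j ≤ K - 1 → b U j)) := by
    intro U hU
    have hU' := (Finset.mem_filter.1 hU).2
    rw [Nat.card_eq_fintype_card, Fintype.card_subtype] at hU'
    have h1 : ((univ.filter (fun k : Fin K => c ≤ bN g t (ext hK U) y k)).map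
        Fin.valEmbedding).card = (univ.filter (fun k : Fin K =>
          c ≤ bN g t (ext hK U) y k)).card := Finset.card_map _
    rw [← h1] at hU'
    obtain ⟨S, hS1, hS2⟩ := Finset.exists_subset_card_eq hU'
    rw [Finset.mem_biUnion]
    refine ⟨S, ?_, ?_⟩
    · rw [Finset.mem_powersetCard]
      refine ⟨?_, hS2⟩
      intro j hj
      have := hS1 hj
      rw [Finset.mem_map] at this
      obtain ⟨k, -, rfl⟩ := this
      exact Finset.mem_range.2 k.2
    · rw [Finset.mem_filter]
      refine ⟨mem_univ _, fun j hj _ => ?_⟩
      have := hS1 hj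
      rw [Finset.mem_map] at this
      obtain ⟨k, hk, rfl⟩ := this
      exact (Finset.mem_filter.1 hk).2
  have hcount : (Nat.card {U : Fin K → 𝒰 × Bool //
      κ ≤ Nat.card {k : Fin K // c ≤ bN g t (ext hK U) y k}} : ℝ) =
      ((univ.filter (fun U : Fin K → 𝒰 × Bool =>
      κ ≤ Nat.card {k : Fin K // c ≤ bN g t (ext hK U) y k})).card : ℝ) := by
    rw [Nat.card_eq_fintype_card, Fintype.card_subtype]
  rw [hcount]
  calc ((univ.filter (fun U : Fin K → 𝒰 × Bool =>
      κ ≤ Nat.card {k : Fin K // c ≤ bN g t (ext hK U) y k})).card : ℝ)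
      ≤ ∑ S ∈ (range K).powersetCard κ, ((univ.filter (fun U : Fin K → 𝒰 × Bool =>
          ∀ j ∈ S, j ≤ K - 1 → b U j)).card : ℝ) := by
        exact_mod_cast (Finset.card_le_card hsub).trans Finset.card_biUnion_le
    _ ≤ ∑ S ∈ (range K).powersetCard κ, ρ ^ κ * (2 * Fintype.card 𝒰) ^ K := by
        apply Finset.sum_le_sum
        intro S hS
        rw [Finset.mem_powersetCard] at hS
        have h1 := hind S (K - 1) (by omega)
        have h2 : S.filter (· ≤ K - 1) = S := by
          apply Finset.filter_true_of_mem
          intro j hj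
          have := Finset.mem_range.1 (hS.1 hj)
          omega
        rw [h2, hS.2] at h1
        exact h1
    _ = (Nat.choose K κ : ℝ) * (ρ ^ κ * (2 * Fintype.card 𝒰) ^ K) := by
        rw [Finset.sum_const, Finset.card_powersetCard, Finset.card_range, nsmul_eq_mul]
    _ ≤ 2 ^ K * (ρ ^ κ * (2 * Fintype.card 𝒰) ^ K) := by
        apply mul_le_mul_of_nonneg_right _ (by positivity)
        exact_mod_cast Nat.choose_le_two_pow K κ
    _ = 2 ^ K * ρ ^ κ * (2 * Fintype.card 𝒰) ^ K := by ring

end Pool.Agent.RC
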