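import Pool.Agent.Helper46.RC.Proc

/-! Module C2: the pigeonhole argument for unique particles. -/

open Finset

namespace Pool.Agent.RC

namespace C2

theorem src_inj {n q : ℕ} {𝒰 : Type*} (g : 𝒰 → Equiv.Perm (Fin n)) (t : Equiv.Perm (Fin n))
    (V : ℕ → 𝒰 × Bool) (y : Fin q → Fin n) (hy : Function.Injective y) (k : ℕ) (i i' : Fin q)
    (h : src g t V y i k = src g t V y i' k) : i = i' := by
  unfold src at h
  split_ifs at h with hV
  · exact hy ((pre g t V k).injective h)
  · exact hy ((pre g t V k).injective ((t⁻¹).injective h))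

theorem card_prod {q K : ℕ} (p : Fin q × Fin K → Prop) :
    Nat.card {x // p x} = ∑ k, Nat.card {i : Fin q // p (i, k)} := by
  classical
  rw [Nat.card_eq_fintype_card, Fintype.card_subtype, Finset.card_filter,
    Fintype.sum_prod_type_right]
  refine Finset.sum_congr rfl fun k _ => ?_
  rw [Nat.card_eq_fintype_card, Fintype.card_subtype, Finset.card_filter]

/-- abstract pigeonhole: non-unique pairs are at most twice the non-first pairs -/
theorem nonuniq_le {q K : ℕ} {X : Type*} (S : Fin q × Fin K → X)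
    (hS : ∀ i i' k, S (i, k) = S (i', k) → i = i') :
    Nat.card {p : Fin q × Fin K // ∃ p' : Fin q × Fin K, p'.2 ≠ p.2 ∧ S p' = S p} ≤
      2 * Nat.card {p : Fin q × Fin K // ∃ p' : Fin q × Fin K, p'.2 < p.2 ∧ S p' = S p} := by
  classical
  rw [Nat.card_eq_fintype_card, Fintype.card_subtype, Nat.card_eq_fintype_card,
    Fintype.card_subtype]
  set NU := (univ.filter (fun p : Fin q × Fin K =>
        ∃ p' : Fin q × Fin K, p'.2 ≠ p.2 ∧ S p' = S p)) with hNU
  set F := (univ.filter (fun p : Fin q × Fin K =>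
        ∃ p' : Fin q × Fin K, p'.2 < p.2 ∧ S p' = S p)) with hF
  have hmem : ∀ p ∈ NU \ F, ∃ p' ∈ F, S p' = S p := by
    intro p hp
    rw [Finset.mem_sdiff] at hp
    obtain ⟨h1, h2⟩ := hp
    simp only [hNU, hF, Finset.mem_filter, Finset.mem_univ, true_and] at h1 h2
    obtain ⟨p', h3, h4⟩ := h1
    refine ⟨p', ?_, h4⟩
    simp only [hF, Finset.mem_filter, Finset.mem_univ, true_and]
    refine ⟨p, ?_, h4.symm⟩
    rcases lt_trichotomy p'.2 p.2 with h | h | h
    · exact absurd ⟨p', h, h4⟩ h2
    · exact absurd h h3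
    · exact h
  have hle : (NU \ F).card ≤ F.card := by
    choose f hf1 hf2 using hmem
    refine Finset.card_le_card_of_injOn (fun p => if hp : p ∈ NU \ F then f p hp else p) ?_ ?_
    · intro p hp
      have hp' : p ∈ NU \ F := hp
      simp only [dif_pos hp']
      exact hf1 p hp'
    · intro p hp p' hp' h
      have h1 : p ∈ NU \ F := hp
      have h2 : p' ∈ NU \ F := hp'
      simp only [dif_pos h1, dif_pos h2] at h
      have h3 : S p = S p' := by rw [← hf2 p h1, ← hf2 p' h2, h]
      have h5 := (Finset.mem_sdiff.1 h1).2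
      have h6 := (Finset.mem_sdiff.1 h2).2
      simp only [hF, Finset.mem_filter, Finset.mem_univ, true_and] at h5 h6
      rcases lt_trichotomy p.2 p'.2 with h7 | h7 | h7
      · exact absurd ⟨p, h7, h3⟩ h6
      · obtain ⟨i, k⟩ := p
        obtain ⟨i', k'⟩ := p'
        simp only at h7
        subst h7
        rw [hS i i' k h3]
      · exact absurd ⟨p', h7, h3.symm⟩ h5
  have h1 : NU.card ≤ (F ∪ (NU \ F)).card := Finset.card_le_card (by
    intro p hp
    rw [Finset.mem_union, Finset.mem_sdiff]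
    by_cases h : p ∈ F
    · exact Or.inl h
    · exact Or.inr ⟨hp, h⟩)
  have h2 := Finset.card_union_le F (NU \ F)
  omega

end C2

theorem c2 {n q c κ : ℕ} {𝒰 : Type*} (g : 𝒰 → Equiv.Perm (Fin n)) (t : Equiv.Perm (Fin n))
    (V : ℕ → 𝒰 × Bool) (y : Fin q → Fin n) (hy : Function.Injective y) (hκ : 1 ≤ κ)
    (hc1 : 1 ≤ c) (hc : 8 * (c - 1) ≤ q)
    (hbad : Nat.card {k : Fin (8 * κ) // c ≤ bN g t V y k} < κ) :
    ∃ k < 8 * κ, q ≤ 2 * uniqN g t V y (8 * κ) k := by
  classical
  set K := 8 * κ with hK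
  let S : Fin q × Fin K → Fin n := fun p => src g t V y p.1 p.2
  have hS : ∀ i i' k, S (i, k) = S (i', k) → i = i' := fun i i' k h =>
    C2.src_inj g t V y hy k i i' h
  have hNU := C2.nonuniq_le S hS
  rw [C2.card_prod, C2.card_prod] at hNU
  -- non-first particles
  have hF : ∀ k : Fin K, Nat.card {i : Fin q //
      ∃ p' : Fin q × Fin K, p'.2 < (i, k).2 ∧ S p' = S (i, k)} ≤
      if c ≤ bN g t V y k then q else c - 1 := by
    intro k
    have h1 : Nat.card {i : Fin q //
      ∃ p' : Fin q × Fin K, p'.2 < (i, k).2 ∧ S p' = S (i, k)} ≤ bN g t V y k := by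
      unfold bN
      rw [Nat.card_eq_fintype_card, Fintype.card_subtype, Nat.card_eq_fintype_card,
        Fintype.card_subtype]
      apply Finset.card_le_card
      intro i hi
      simp only [Finset.mem_filter, Finset.mem_univ, true_and] at hi ⊢
      obtain ⟨⟨i', k'⟩, h1, h2⟩ := hi
      refine ⟨k', h1, i', ?_⟩
      have h3 : src g t V y i' k' = src g t V y i k := h2
      rw [h3]
      unfold src
      split_ifs with hV
      · exact Or.inl rfl
      · right; simp
    split_ifs with hb
    · rw [Nat.card_eq_fintype_card, Fintype.card_subtype]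
      refine (Finset.card_le_univ _).trans ?_
      simp
    · omega
  have hsumF : ∑ k : Fin K, Nat.card {i : Fin q //
      ∃ p' : Fin q × Fin K, p'.2 < (i, k).2 ∧ S p' = S (i, k)} ≤ (2 * κ - 1) * q := by
    refine (Finset.sum_le_sum (fun k _ => hF k)).trans ?_
    rw [Finset.sum_ite, Finset.sum_const, Finset.sum_const, smul_eq_mul, smul_eq_mul]
    have h1 : (univ.filter (fun k : Fin K => c ≤ bN g t V y k)).card ≤ κ - 1 := by
      rw [Nat.card_eq_fintype_card, Fintype.card_subtype] at hbad
      omega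
    have h2 : (univ.filter (fun k : Fin K => ¬ c ≤ bN g t V y k)).card ≤ 8 * κ := by
      refine (Finset.card_le_univ _).trans ?_
      simp [hK]
    have h3 := Nat.mul_le_mul_right q h1
    have h4 := Nat.mul_le_mul_right (c - 1) h2
    have h5 : 8 * κ * (c - 1) ≤ κ * q := by
      calc 8 * κ * (c - 1) = κ * (8 * (c - 1)) := by ring
        _ ≤ κ * q := Nat.mul_le_mul_left κ hc
    have h6 : (2 * κ - 1) * q = (κ - 1) * q + κ * q := by
      rw [← Nat.add_mul]; congr 1; omega
    omega
  -- unique particles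
  have hU : ∀ k : Fin K, uniqN g t V y K k + Nat.card {i : Fin q //
      ∃ p' : Fin q × Fin K, p'.2 ≠ (i, k).2 ∧ S p' = S (i, k)} = q := by
    intro k
    unfold uniqN
    rw [Nat.card_eq_fintype_card, Fintype.card_subtype, Nat.card_eq_fintype_card,
      Fintype.card_subtype]
    have h1 := Finset.card_filter_add_card_filter_not (s := (univ : Finset (Fin q)))
      (fun i => ∀ k' < K, k' ≠ (k : ℕ) → ∀ i' : Fin q, src g t V y i' k' ≠ src g t V y i k)
    rw [Finset.card_univ, Fintype.card_fin] at h1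
    refine Eq.trans ?_ h1
    congr 2
    ext i
    simp only [Finset.mem_filter, Finset.mem_univ, true_and]
    constructor
    · rintro ⟨⟨i', k'⟩, h2, h3⟩ hcon
      exact hcon k' k'.2 (fun h => h2 (Fin.ext h)) i' h3
    · intro h
      push Not at h
      obtain ⟨k', h2, h3, i', h4⟩ := h
      exact ⟨(i', ⟨k', h2⟩), fun h => h3 (congrArg Fin.val h), h4⟩
  by_contra hcon
  push Not at hcon
  have hlt : ∀ k : Fin K, 2 * uniqN g t V y K k < q := fun k => hcon k k.2
  have hKpos : 0 < K := by omega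
  have hsumU := Finset.sum_lt_sum_of_nonempty (s := (univ : Finset (Fin K)))
    ⟨⟨0, hKpos⟩, Finset.mem_univ _⟩ (fun k _ => hlt k)
  rw [← Finset.mul_sum, Finset.sum_const, Finset.card_univ, Fintype.card_fin, smul_eq_mul] at hsumU
  have hsum2 := Finset.sum_congr rfl (fun k (_ : k ∈ (univ : Finset (Fin K))) => hU k)
  rw [Finset.sum_add_distrib, Finset.sum_const, Finset.card_univ, Fintype.card_fin,
    smul_eq_mul] at hsum2
  have hq : 0 < q := by
    have := hlt ⟨0, hKpos⟩
    omega
  have h7 : 2 * ((2 * κ - 1) * q) * 2 + 4 * q = K * q := by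
    have : 2 * κ - 1 + 1 = 2 * κ := by omega
    rw [hK]
    obtain ⟨κ', hκ'⟩ : ∃ κ', 2 * κ - 1 = κ' := ⟨_, rfl⟩
    rw [hκ'] at this ⊢
    have h8 : 8 * κ = 4 * (κ' + 1) := by omega
    rw [h8]; ring
  omega

end Pool.Agent.RC
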