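import Pool.Agent.Helper46.RC.Proc

/-! Module C3: rotation of closed words. -/

open Finset

namespace Pool.Agent.RC

namespace C3

theorem pre_eq_wrd {n : ℕ} {𝒰 : Type*} (g : 𝒰 → Equiv.Perm (Fin n)) (t : Equiv.Perm (Fin n))
    (V : ℕ → 𝒰 × Bool) (j : ℕ) : pre g t V j = wrd (mac g t) j (fun i : Fin j => V i) := by
  induction j with
  | zero => rfl
  | succ j ih =>
    simp only [pre, wrd]
    rw [ih]
    rfl

theorem pre_ext {n K : ℕ} {𝒰 : Type*} (g : 𝒰 → Equiv.Perm (Fin n)) (t : Equiv.Perm (Fin n))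
    (hK : 0 < K) (U : Fin K → 𝒰 × Bool) : pre g t (ext hK U) K = wrd (mac g t) K U := by
  rw [pre_eq_wrd]
  congr 1
  funext i
  unfold ext
  congr 1
  exact Fin.ext (Nat.mod_eq_of_lt i.2)

theorem pre_add {n : ℕ} {𝒰 : Type*} (g : 𝒰 → Equiv.Perm (Fin n)) (t : Equiv.Perm (Fin n))
    (V : ℕ → 𝒰 × Bool) (a l : ℕ) :
    pre g t (fun i => V (i + a)) l * pre g t V a = pre g t V (l + a) := by
  induction l with
  | zero => simp [pre]
  | succ l ih =>
    rw [Nat.succ_add]
    simp only [pre]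
    rw [mul_assoc, ih]

theorem ext_add {A : Type*} {K : ℕ} (hK : 0 < K) (U : Fin K → A) (i : ℕ) :
    ext hK U (i + K) = ext hK U i := by
  unfold ext
  congr 1
  exact Fin.ext (Nat.add_mod_right i K)

theorem ext_shift {A : Type*} {K : ℕ} (hK : 0 < K) (U : Fin K → A) (a i : ℕ) :
    ext hK (fun j : Fin K => ext hK U (j + a)) i = ext hK U (i + a) := by
  have h : ∀ i j : ℕ, i % K = j % K → ext hK U i = ext hK U j := by
    intro i j hij
    unfold ext
    congr 1
    exact Fin.ext hij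
  exact h _ _ (Nat.mod_add_mod i K a)

end C3

theorem c3 {n q K : ℕ} {𝒰 : Type*} [Fintype 𝒰] (g : 𝒰 → Equiv.Perm (Fin n))
    (t : Equiv.Perm (Fin n)) (hK : 0 < K) {k : ℕ} (hk : k < K) :
    Nat.card {p : (Fin K → 𝒰 × Bool) × (Fin q → Fin n) // Function.Injective p.2 ∧
        wrd (mac g t) K p.1 • p.2 = p.2 ∧ q ≤ 2 * uniqN g t (ext hK p.1) p.2 K k} ≤
      Nat.card {p : (Fin K → 𝒰 × Bool) × (Fin q → Fin n) // Function.Injective p.2 ∧
        wrd (mac g t) K p.1 • p.2 = p.2 ∧ q ≤ 2 * uniqN g t (ext hK p.1) p.2 K (K - 1)} := by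
  classical
  -- the rotated pair
  let U' : (Fin K → 𝒰 × Bool) → (Fin K → 𝒰 × Bool) := fun U j => ext hK U (j + (k + 1))
  let y' : (Fin K → 𝒰 × Bool) × (Fin q → Fin n) → (Fin q → Fin n) := fun p =>
    pre g t (ext hK p.1) (k + 1) • p.2
  have hext : ∀ U : Fin K → 𝒰 × Bool, ext hK (U' U) = fun i => ext hK U (i + (k + 1)) := by
    intro U; funext i; exact C3.ext_shift hK U (k + 1) i
  have hpre : ∀ (U : Fin K → 𝒰 × Bool) (y : Fin q → Fin n) (l : ℕ),
      pre g t (ext hK (U' U)) l • y' (U, y) = pre g t (ext hK U) (l + (k + 1)) • y := by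
    intro U y l
    rw [hext]
    simp only [y']
    rw [smul_smul, C3.pre_add]
  -- periodicity
  have hper : ∀ (U : Fin K → 𝒰 × Bool) (y : Fin q → Fin n), wrd (mac g t) K U • y = y →
      ∀ l, pre g t (ext hK U) (l + K) • y = pre g t (ext hK U) l • y := by
    intro U y hcl l
    rw [← C3.pre_add, ← smul_smul, C3.pre_ext, hcl]
    congr 2
    funext i
    exact C3.ext_add hK U i
  have hsrc : ∀ (U : Fin K → 𝒰 × Bool) (y : Fin q → Fin n) (i : Fin q) (l : ℕ),
      src g t (ext hK (U' U)) (y' (U, y)) i l = src g t (ext hK U) y i (l + (k + 1)) := by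
    intro U y i l
    have h1 := congrFun (hpre U y l) i
    have h2 : pre g t (ext hK (U' U)) l (y' (U, y) i) = pre g t (ext hK U) (l + (k + 1)) (y i) := h1
    unfold src
    rw [h2]
    have h3 : ext hK (U' U) l = ext hK U (l + (k + 1)) := congrFun (hext U) l
    rw [h3]
  have hsrcper : ∀ (U : Fin K → 𝒰 × Bool) (y : Fin q → Fin n), wrd (mac g t) K U • y = y →
      ∀ (i : Fin q) (l : ℕ), src g t (ext hK U) y i (l + K) = src g t (ext hK U) y i l := by
    intro U y hcl i l
    have h1 := congrFun (hper U y hcl l) i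
    have h2 : pre g t (ext hK U) (l + K) (y i) = pre g t (ext hK U) l (y i) := h1
    unfold src
    rw [h2, C3.ext_add]
  have huniq : ∀ (U : Fin K → 𝒰 × Bool) (y : Fin q → Fin n), wrd (mac g t) K U • y = y →
      uniqN g t (ext hK U) y K k ≤ uniqN g t (ext hK (U' U)) (y' (U, y)) K (K - 1) := by
    intro U y hcl
    unfold uniqN
    rw [Nat.card_eq_fintype_card, Fintype.card_subtype, Nat.card_eq_fintype_card,
      Fintype.card_subtype]
    apply Finset.card_le_card
    intro i hi
    simp only [Finset.mem_filter, Finset.mem_univ, true_and] at hi ⊢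
    intro k' hk' hne i'
    rw [hsrc, hsrc]
    have e1 : K - 1 + (k + 1) = k + K := by omega
    rw [e1, hsrcper U y hcl]
    by_cases hlt : k' + (k + 1) < K
    · exact hi _ hlt (by omega) i'
    · have e2 : k' + (k + 1) = (k' + (k + 1) - K) + K := by omega
      rw [e2, hsrcper U y hcl]
      exact hi _ (by omega) (by omega) i'
  refine Nat.card_le_card_of_injective (fun p => ⟨(U' p.1.1, y' p.1), ?_, ?_, ?_⟩) ?_
  · exact (pre g t (ext hK p.1.1) (k + 1)).injective.comp p.2.1
  · have h1 := hpre p.1.1 p.1.2 K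
    rw [C3.pre_ext] at h1
    rw [show K + (k + 1) = (k + 1) + K by omega, hper _ _ p.2.2.1] at h1
    exact h1
  · exact p.2.2.2.trans (Nat.mul_le_mul_left 2 (huniq _ _ p.2.2.1))
  · rintro ⟨⟨U1, y1⟩, h1⟩ ⟨⟨U2, y2⟩, h2⟩ h
    have h3 := congrArg (fun x => x.1) h
    simp only [Prod.mk.injEq] at h3
    obtain ⟨h4, h5⟩ := h3
    have hall : ∀ i, ext hK U1 (i + (k + 1)) = ext hK U2 (i + (k + 1)) := by
      intro i
      have e1 := congrFun (hext U1) i
      have e2 := congrFun (hext U2) i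
      rw [h4] at e1
      exact e1.symm.trans e2
    have hUU : U1 = U2 := by
      funext j
      have e1 := hall (j + K - (k + 1))
      rw [show (j : ℕ) + K - (k + 1) + (k + 1) = j + K by omega, C3.ext_add, C3.ext_add] at e1
      have e2 : ∀ U : Fin K → 𝒰 × Bool, ext hK U (j : ℕ) = U j := by
        intro U
        unfold ext
        congr 1
        exact Fin.ext (Nat.mod_eq_of_lt j.2)
      rw [e2, e2] at e1
      exact e1
    subst hUU
    have hyy : y1 = y2 := by
      simp only [y'] at h5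
      exact MulAction.injective _ h5
    subst hyy
    rfl

end Pool.Agent.RC
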