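import Pool.Agent.Helper46.RC.Proc

/-!
# Counting permutations for which the macro process closes up with many unique edges
-/

open Finset

namespace Pool.Agent.RC.C4

theorem perm_apply_inv {α : Type*} (t : Equiv.Perm α) (x : α) : t (t⁻¹ x) = x :=
  Equiv.apply_symm_apply t x

/-- Abstract switching bound. -/
theorem switch {n q : ℕ} (S : Equiv.Perm (Fin n) → Finset (Fin n))
    (s τ : Equiv.Perm (Fin n) → Fin q → Fin n)
    (hloc : ∀ t t' : Equiv.Perm (Fin n), (∀ x ∈ S t, t' x = t x) →
      S t' = S t ∧ s t' = s t ∧ τ t' = τ t)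
    (hinj : ∀ t, Function.Injective (s t)) (D : ℕ) (hD : ∀ t, (S t).card + q ≤ D)
    (I : Finset (Fin q)) :
    ((univ : Finset (Equiv.Perm (Fin n))).filter
      (fun t => ∀ i ∈ I, s t i ∉ S t ∧ t (s t i) = τ t i)).card * (n - D) ^ I.card ≤
      n.factorial := by
  classical
  induction I using Finset.induction_on with
  | empty =>
    rw [Finset.card_empty, pow_zero, mul_one]
    calc _ ≤ (univ : Finset (Equiv.Perm (Fin n))).card := Finset.card_filter_le _ _
      _ = n.factorial := by rw [Finset.card_univ, Fintype.card_perm, Fintype.card_fin]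
  | insert i I hi ih =>
    rw [Finset.card_insert_of_notMem hi, pow_succ, ← mul_assoc, mul_right_comm]
    refine le_trans (Nat.mul_le_mul_right _ ?_) ih
    set A := (univ : Finset (Equiv.Perm (Fin n))).filter
      (fun t => ∀ l ∈ insert i I, s t l ∉ S t ∧ t (s t l) = τ t l) with hA
    set B := (univ : Finset (Equiv.Perm (Fin n))).filter
      (fun t => ∀ l ∈ I, s t l ∉ S t ∧ t (s t l) = τ t l) with hB
    let C : Equiv.Perm (Fin n) → Finset (Fin n) := fun t => univ \ (S t ∪ I.image (s t))
    have hC : ∀ t, n - D ≤ (C t).card := by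
      intro t
      have h1 := Finset.card_sdiff_add_card_eq_card (Finset.subset_univ (S t ∪ I.image (s t)))
      rw [Finset.card_univ, Fintype.card_fin] at h1
      have h2 : (S t ∪ I.image (s t)).card ≤ (S t).card + q := by
        refine le_trans (Finset.card_union_le _ _) ?_
        have : (I.image (s t)).card ≤ q := by
          refine le_trans Finset.card_image_le ?_
          have := Finset.card_le_univ I
          rwa [Fintype.card_fin] at this
        omega
      have h3 := hD t
      change n - D ≤ (univ \ (S t ∪ I.image (s t))).card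
      omega
    have h4 : A.card * (n - D) ≤ (A.sigma C).card := by
      rw [Finset.card_sigma]
      calc A.card * (n - D) = ∑ _t ∈ A, (n - D) := by rw [Finset.sum_const, smul_eq_mul]
        _ ≤ _ := Finset.sum_le_sum (fun t _ => hC t)
    refine le_trans h4 ?_
    -- the switched permutation agrees with `t` on `S t`
    have hagree : ∀ t ∈ A, ∀ c ∈ C t, ∀ x ∈ S t, (t * Equiv.swap (s t i) c) x = t x := by
      intro t ht c hc x hx
      have h5 := (Finset.mem_filter.mp ht).2 i (Finset.mem_insert_self _ _)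
      have h6 : c ∉ S t := by
        have := (Finset.mem_sdiff.mp hc).2
        intro h; exact this (Finset.mem_union_left _ h)
      rw [Equiv.Perm.mul_apply, Equiv.swap_apply_of_ne_of_ne]
      · intro h; exact h5.1 (h ▸ hx)
      · intro h; exact h6 (h ▸ hx)
    refine Finset.card_le_card_of_injOn (fun p : Σ _ : Equiv.Perm (Fin n), Fin n =>
      p.1 * Equiv.swap (s p.1 i) p.2) ?_ ?_
    · rintro ⟨t, c⟩ hp
      rw [Finset.mem_coe, Finset.mem_sigma] at hp
      obtain ⟨ht, hc⟩ := hp
      obtain ⟨e1, e2, e3⟩ := hloc t (t * Equiv.swap (s t i) c) (hagree t ht c hc)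
      rw [Finset.mem_coe, hB, Finset.mem_filter]
      refine ⟨Finset.mem_univ _, fun l hl => ?_⟩
      have h7 := (Finset.mem_filter.mp ht).2 l (Finset.mem_insert_of_mem hl)
      change s (t * Equiv.swap (s t i) c) l ∉ S (t * Equiv.swap (s t i) c) ∧
        (t * Equiv.swap (s t i) c) (s (t * Equiv.swap (s t i) c) l) =
          τ (t * Equiv.swap (s t i) c) l
      rw [e1, e2, e3]
      refine ⟨h7.1, ?_⟩
      rw [Equiv.Perm.mul_apply, Equiv.swap_apply_of_ne_of_ne]
      · exact h7.2
      · intro h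
        have := hinj t h
        exact hi (this ▸ hl)
      · intro h
        have := (Finset.mem_sdiff.mp hc).2
        exact this (Finset.mem_union_right _ (Finset.mem_image.mpr ⟨l, hl, h⟩))
    · rintro ⟨t, c⟩ hp ⟨t', c'⟩ hp' heq
      rw [Finset.mem_coe, Finset.mem_sigma] at hp hp'
      obtain ⟨ht, hc⟩ := hp
      obtain ⟨ht', hc'⟩ := hp'
      simp only at ht hc ht' hc' heq
      obtain ⟨e1, e2, e3⟩ := hloc t (t * Equiv.swap (s t i) c) (hagree t ht c hc)
      obtain ⟨e1', e2', e3'⟩ := hloc t' (t' * Equiv.swap (s t' i) c') (hagree t' ht' c' hc')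
      rw [heq] at e1 e2 e3
      have hs : s t = s t' := by rw [← e2, e2']
      have hτ : τ t = τ t' := by rw [← e3, e3']
      have h8 : (t * Equiv.swap (s t i) c) c = τ t i := by
        rw [Equiv.Perm.mul_apply, Equiv.swap_apply_right]
        exact ((Finset.mem_filter.mp ht).2 i (Finset.mem_insert_self _ _)).2
      have h9 : (t' * Equiv.swap (s t' i) c') c' = τ t' i := by
        rw [Equiv.Perm.mul_apply, Equiv.swap_apply_right]
        exact ((Finset.mem_filter.mp ht').2 i (Finset.mem_insert_self _ _)).2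
      have h10 : c = c' := by
        rw [heq, hτ, ← h9] at h8
        exact (t' * Equiv.swap (s t' i) c').injective h8
      subst h10
      rw [hs] at heq
      have h11 : t = t' := mul_right_cancel heq
      subst h11
      rfl

theorem wrd_eq_pre {n : ℕ} {𝒰 : Type*} (g : 𝒰 → Equiv.Perm (Fin n)) (t : Equiv.Perm (Fin n))
    (V : ℕ → 𝒰 × Bool) (K : ℕ) : wrd (mac g t) K (fun i => V i) = pre g t V K := by
  induction K with
  | zero => rfl
  | succ K ih =>
    change mac g t (V K) * wrd (mac g t) K (fun i => V i) = mac g t (V K) * pre g t V K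
    rw [ih]

theorem ext_apply {A : Type*} {K : ℕ} (hK : 0 < K) (U : Fin K → A) :
    (fun i : Fin K => ext hK U i) = U := by
  funext i
  unfold ext
  congr 1
  exact Fin.ext (Nat.mod_eq_of_lt i.2)

theorem mac_apply {n : ℕ} {𝒰 : Type*} (g : 𝒰 → Equiv.Perm (Fin n)) (t : Equiv.Perm (Fin n))
    (p : 𝒰 × Bool) (x : Fin n) :
    mac g t p x = g p.1 ((if p.2 then t else t⁻¹) x) := by
  unfold mac
  rw [Equiv.Perm.mul_apply]

/-- The sources used before the last macro step. -/
noncomputable def Sset {n q : ℕ} {𝒰 : Type*} (g : 𝒰 → Equiv.Perm (Fin n)) (V : ℕ → 𝒰 × Bool)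
    (y : Fin q → Fin n) (m : ℕ) (t : Equiv.Perm (Fin n)) : Finset (Fin n) :=
  (univ : Finset (Fin q × Fin m)).image (fun p => src g t V y p.1 p.2)

theorem local_pre {n q : ℕ} {𝒰 : Type*} (g : 𝒰 → Equiv.Perm (Fin n)) (V : ℕ → 𝒰 × Bool)
    (y : Fin q → Fin n) (m : ℕ) (t t' : Equiv.Perm (Fin n))
    (h : ∀ x ∈ Sset g V y m t, t' x = t x) (k : ℕ) (hk : k ≤ m) (i : Fin q) :
    pre g t' V k (y i) = pre g t V k (y i) := by
  induction k with
  | zero => rfl
  | succ k ih =>
    have h1 := ih (by omega)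
    have hmem : src g t V y i k ∈ Sset g V y m t :=
      Finset.mem_image.mpr ⟨(i, ⟨k, by omega⟩), Finset.mem_univ _, rfl⟩
    have h2 := h _ hmem
    change (mac g t' (V k) * pre g t' V k) (y i) = (mac g t (V k) * pre g t V k) (y i)
    rw [Equiv.Perm.mul_apply, Equiv.Perm.mul_apply, h1, mac_apply, mac_apply]
    congr 1
    unfold src at h2
    by_cases hε : (V k).2
    · simp only [hε, if_true] at h2 ⊢
      exact h2
    · simp only [hε, Bool.false_eq_true, if_false] at h2 ⊢
      rw [perm_apply_inv] at h2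
      rw [Equiv.Perm.inv_eq_iff_eq]
      exact h2.symm

theorem local_src {n q : ℕ} {𝒰 : Type*} (g : 𝒰 → Equiv.Perm (Fin n)) (V : ℕ → 𝒰 × Bool)
    (y : Fin q → Fin n) (m : ℕ) (t t' : Equiv.Perm (Fin n))
    (h : ∀ x ∈ Sset g V y m t, t' x = t x) (k : ℕ) (hk : k < m) (i : Fin q) :
    src g t' V y i k = src g t V y i k := by
  have hmem : src g t V y i k ∈ Sset g V y m t :=
    Finset.mem_image.mpr ⟨(i, ⟨k, hk⟩), Finset.mem_univ _, rfl⟩
  have h2 := h _ hmem
  have h1 := local_pre g V y m t t' h k hk.le i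
  unfold src at h2 ⊢
  rw [h1]
  by_cases hε : (V k).2
  · simp only [hε, if_true]
  · simp only [hε, Bool.false_eq_true, if_false] at h2 ⊢
    rw [perm_apply_inv] at h2
    rw [Equiv.Perm.inv_eq_iff_eq]
    exact h2.symm

theorem main {n q m : ℕ} {𝒰 : Type*} (g : 𝒰 → Equiv.Perm (Fin n)) (V : ℕ → 𝒰 × Bool)
    (y : Fin q → Fin n) (hy : Function.Injective y) :
    Nat.card {t : Equiv.Perm (Fin n) // (∀ i, pre g t V (m + 1) (y i) = y i) ∧
        q ≤ 2 * uniqN g t V y (m + 1) m} * (n - q * (m + 1)) ^ ((q + 1) / 2) ≤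
      2 ^ q * n.factorial := by
  classical
  let b : Fin q → Fin n := fun i => (g (V m).1)⁻¹ (y i)
  let s : Equiv.Perm (Fin n) → Fin q → Fin n := fun t i =>
    if (V m).2 then pre g t V m (y i) else b i
  let τ : Equiv.Perm (Fin n) → Fin q → Fin n := fun t i =>
    if (V m).2 then b i else pre g t V m (y i)
  have hloc : ∀ t t' : Equiv.Perm (Fin n), (∀ x ∈ Sset g V y m t, t' x = t x) →
      Sset g V y m t' = Sset g V y m t ∧ s t' = s t ∧ τ t' = τ t := by
    intro t t' h
    refine ⟨?_, ?_, ?_⟩
    · unfold Sset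
      congr 1
      funext p
      exact local_src g V y m t t' h p.2 p.2.2 p.1
    · funext i
      simp only [s, local_pre g V y m t t' h m le_rfl i]
    · funext i
      simp only [τ, local_pre g V y m t t' h m le_rfl i]
  have hinj : ∀ t, Function.Injective (s t) := by
    intro t a c hac
    simp only [s, b] at hac
    split_ifs at hac
    · exact hy ((pre g t V m).injective hac)
    · exact hy ((g (V m).1)⁻¹.injective hac)
  have hD : ∀ t, (Sset g V y m t).card + q ≤ q * (m + 1) := by
    intro t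
    have : (Sset g V y m t).card ≤ q * m := by
      refine le_trans Finset.card_image_le ?_
      rw [Finset.card_univ, Fintype.card_prod, Fintype.card_fin, Fintype.card_fin]
    rw [mul_add, mul_one]
    omega
  have hsw := switch (Sset g V y m) s τ hloc hinj (q * (m + 1)) hD
  set T := (univ : Finset (Equiv.Perm (Fin n))).filter (fun t =>
    (∀ i, pre g t V (m + 1) (y i) = y i) ∧ q ≤ 2 * uniqN g t V y (m + 1) m) with hT
  have hTcard : Nat.card {t : Equiv.Perm (Fin n) // (∀ i, pre g t V (m + 1) (y i) = y i) ∧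
        q ≤ 2 * uniqN g t V y (m + 1) m} = T.card := by
    rw [Nat.card_eq_fintype_card, Fintype.card_subtype]
  rw [hTcard]
  let 𝓘 : Finset (Finset (Fin q)) := univ.filter (fun I => I.card = (q + 1) / 2)
  let TI : Finset (Fin q) → Finset (Equiv.Perm (Fin n)) := fun I => univ.filter
      (fun t => ∀ i ∈ I, s t i ∉ Sset g V y m t ∧ t (s t i) = τ t i)
  have hsub : T ⊆ 𝓘.biUnion TI := by
    intro t ht
    obtain ⟨hclosed, huniq⟩ := (Finset.mem_filter.mp ht).2
    let J : Finset (Fin q) := univ.filter (fun i => ∀ k' < m + 1, k' ≠ m → ∀ i' : Fin q,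
      src g t V y i' k' ≠ src g t V y i m)
    have hJ : uniqN g t V y (m + 1) m = J.card := by
      unfold uniqN
      rw [Nat.card_eq_fintype_card, Fintype.card_subtype]
    have hJm : (q + 1) / 2 ≤ J.card := by omega
    obtain ⟨I, hIJ, hI⟩ := Finset.exists_subset_card_eq hJm
    rw [Finset.mem_biUnion]
    refine ⟨I, Finset.mem_filter.mpr ⟨Finset.mem_univ _, hI⟩, Finset.mem_filter.mpr
      ⟨Finset.mem_univ _, fun i hi => ?_⟩⟩
    have hiJ := (Finset.mem_filter.mp (hIJ hi)).2
    have hcl := hclosed i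
    change (mac g t (V m) * pre g t V m) (y i) = y i at hcl
    rw [Equiv.Perm.mul_apply, mac_apply] at hcl
    have hcl' : (if (V m).2 then t else t⁻¹) (pre g t V m (y i)) = b i := by
      rw [← hcl]
      simp only [b]
      rw [hcl]
      rw [Equiv.Perm.eq_inv_iff_eq]
      exact hcl
    have hsrc : src g t V y i m = s t i := by
      unfold src
      simp only [s]
      by_cases hε : (V m).2
      · simp only [hε, if_true]
      · simp only [hε, Bool.false_eq_true, if_false] at hcl' ⊢
        exact hcl'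
    refine ⟨?_, ?_⟩
    · intro hmem
      obtain ⟨p, _, hp⟩ := Finset.mem_image.mp hmem
      have := hiJ p.2 (by omega) (by omega) p.1
      rw [hsrc] at this
      exact this hp
    · simp only [s, τ]
      by_cases hε : (V m).2
      · simp only [hε, if_true] at hcl' ⊢
        exact hcl'
      · simp only [hε, Bool.false_eq_true, if_false] at hcl' ⊢
        rw [← hcl', perm_apply_inv]
  calc T.card * (n - q * (m + 1)) ^ ((q + 1) / 2)
      ≤ (∑ I ∈ 𝓘, (TI I).card) * (n - q * (m + 1)) ^ ((q + 1) / 2) :=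
        Nat.mul_le_mul_right _ (le_trans (Finset.card_le_card hsub) Finset.card_biUnion_le)
    _ = ∑ I ∈ 𝓘, (TI I).card * (n - q * (m + 1)) ^ ((q + 1) / 2) := by
        rw [Finset.sum_mul]
    _ ≤ ∑ _I ∈ 𝓘, n.factorial := by
        refine Finset.sum_le_sum (fun I hI => ?_)
        have h1 := hsw I
        rw [(Finset.mem_filter.mp hI).2] at h1
        exact h1
    _ = 𝓘.card * n.factorial := by rw [Finset.sum_const, smul_eq_mul]
    _ ≤ 2 ^ q * n.factorial := by
        refine Nat.mul_le_mul_right _ ?_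
        refine le_trans (Finset.card_filter_le _ _) ?_
        rw [Finset.card_univ, Fintype.card_finset, Fintype.card_fin]

end Pool.Agent.RC.C4

namespace Pool.Agent.RC

open C4 in
theorem c4 {n q K : ℕ} {𝒰 : Type*} (g : 𝒰 → Equiv.Perm (Fin n)) (hK : 0 < K) (hn : q * K < n)
    (U : Fin K → 𝒰 × Bool) (y : Fin q → Fin n) (hy : Function.Injective y) :
    (Nat.card {t : Equiv.Perm (Fin n) // wrd (mac g t) K U • y = y ∧
        q ≤ 2 * uniqN g t (ext hK U) y K (K - 1)} : ℝ) ≤
      2 ^ q * n.factorial / ((n : ℝ) - q * K) ^ ((q + 1) / 2) := by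
  obtain ⟨m, rfl⟩ : ∃ m, K = m + 1 := ⟨K - 1, by omega⟩
  have h1 := main (m := m) g (ext hK U) y hy
  have h2 : Nat.card {t : Equiv.Perm (Fin n) // wrd (mac g t) (m + 1) U • y = y ∧
        q ≤ 2 * uniqN g t (ext hK U) y (m + 1) (m + 1 - 1)} =
      Nat.card {t : Equiv.Perm (Fin n) // (∀ i, pre g t (ext hK U) (m + 1) (y i) = y i) ∧
        q ≤ 2 * uniqN g t (ext hK U) y (m + 1) m} := by
    refine Nat.card_congr (Equiv.subtypeEquivRight (fun t => ?_))
    rw [← wrd_eq_pre, ext_apply]
    refine and_congr ?_ Iff.rfl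
    constructor
    · intro h i
      exact congrFun h i
    · intro h
      funext i
      exact h i
  rw [h2]
  have hpos : (0 : ℝ) < (n : ℝ) - q * (m + 1 : ℕ) := by
    rw [sub_pos]; exact_mod_cast hn
  rw [le_div_iff₀ (pow_pos hpos _)]
  have h3 : ((n - q * (m + 1) : ℕ) : ℝ) = (n : ℝ) - q * (m + 1 : ℕ) := by
    rw [Nat.cast_sub hn.le]; push_cast; ring
  rw [← h3]
  exact_mod_cast h1

end Pool.Agent.RC
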