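import Pool.Agent.Helper46.RC.C1
import Pool.Agent.Helper46.RC.C2
import Pool.Agent.Helper46.RC.C3
import Pool.Agent.Helper46.RC.C4

/-!
# The core estimate: few fixed tuples of the macro word
-/

open Finset

namespace Pool.Agent.RC

namespace CoreAux

theorem card_fst {A B : Type*} [Fintype A] [Fintype B] (P : A → B → Prop) :
    Nat.card {p : A × B // P p.1 p.2} = ∑ a, Nat.card {b // P a b} := by
  rw [Nat.card_congr (Equiv.subtypeProdEquivSigmaSubtype P), Nat.card_sigma]

theorem card_snd {A B : Type*} [Fintype A] [Fintype B] (P : A → B → Prop) :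
    Nat.card {p : A × B // P p.1 p.2} = ∑ b, Nat.card {a // P a b} := by
  rw [← card_fst (fun b a => P a b)]
  exact Nat.card_congr ((Equiv.prodComm A B).subtypeEquiv (by simp))

theorem card_and {A : Type*} [Fintype A] (Q : Prop) [Decidable Q] (P : A → Prop) (b : ℝ)
    (h : Q → (Nat.card {a // P a} : ℝ) ≤ b) :
    (Nat.card {a // Q ∧ P a} : ℝ) ≤ if Q then b else 0 := by
  by_cases hQ : Q
  · simp only [hQ, true_and, if_true]
    exact h hQ
  · simp [hQ]

theorem card_inj (q n : ℕ) :
    Nat.card {y : Fin q → Fin n // Function.Injective y} = n.descFactorial q := by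
  rw [Nat.card_congr (Equiv.subtypeInjectiveEquivEmbedding (Fin q) (Fin n)),
    Nat.card_eq_fintype_card, Fintype.card_embedding_eq]
  simp

open Classical in
theorem sum_inj (q n : ℕ) (b : ℝ) :
    ∑ y : Fin q → Fin n, (if Function.Injective y then b else 0) = n.descFactorial q * b := by
  rw [← Finset.sum_filter, Finset.sum_const, nsmul_eq_mul, ← card_inj q n,
    Nat.card_eq_fintype_card, Fintype.card_subtype]

end CoreAux

open CoreAux

theorem core {n q k r : ℕ} {𝒰 : Type*} [Fintype 𝒰] (g : 𝒰 → Equiv.Perm (Fin n))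
    (hmix : MixOK g r) (hk : 1 ≤ k) (hq : 1 ≤ q) (hr : 1 ≤ r) (hrq : 2 * r ≤ (q + 7) / 8 + 1)
    (hn : 2 * (q * (8 * k)) ≤ n) :
    ∑ t : Equiv.Perm (Fin n), ∑ U : Fin (8 * k) → 𝒰 × Bool,
        (Nat.card {y : Fin q → Fin n // Function.Injective y ∧
          wrd (mac g t) (8 * k) U • y = y} : ℝ) ≤
      (2 ^ (8 * k) * (2 * (32 * (q * (8 * k : ℕ)) / n) ^ r) ^ k +
        (8 * k : ℕ) * (2 ^ q / ((n : ℝ) - q * (8 * k : ℕ)) ^ ((q + 1) / 2))) *
      (n.factorial * (2 * Fintype.card 𝒰) ^ (8 * k) * n.descFactorial q) := by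
  classical
  set K := 8 * k with hKdef
  have hK : 0 < K := by omega
  set c := (q + 7) / 8 with hc
  have hc1 : 1 ≤ c := by omega
  have hcq : q ≤ 8 * c := by omega
  have hcc : 8 * (c - 1) ≤ q := by omega
  have hqK : q * K < n := by
    have : 1 ≤ q * K := Nat.one_le_iff_ne_zero.mpr (by positivity)
    omega
  have hpos : (0 : ℝ) < (n : ℝ) - q * K := by
    have : ((q * K : ℕ) : ℝ) < n := by exact_mod_cast hqK
    push_cast at this
    linarith
  set b1 : ℝ := 2 ^ K * (2 * (32 * (q * K) / n) ^ r) ^ k * (2 * Fintype.card 𝒰) ^ K with hb1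
  set b2 : ℝ := 2 ^ q * n.factorial / ((n : ℝ) - q * K) ^ ((q + 1) / 2) with hb2
  have hb1n : 0 ≤ b1 := by positivity
  have hb2n : 0 ≤ b2 := by
    have := hpos.le
    positivity
  -- the two kinds of pairs
  set Bad : Equiv.Perm (Fin n) → (Fin K → 𝒰 × Bool) → (Fin q → Fin n) → Prop :=
    fun t U y => Function.Injective y ∧ k ≤ Nat.card {i : Fin K // c ≤ bN g t (ext hK U) y i}
    with hBad
  set Uq : Equiv.Perm (Fin n) → ℕ → (Fin K → 𝒰 × Bool) → (Fin q → Fin n) → Prop :=
    fun t i U y => Function.Injective y ∧ wrd (mac g t) K U • y = y ∧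
      q ≤ 2 * uniqN g t (ext hK U) y K i with hUq
  have hcover : ∀ t : Equiv.Perm (Fin n),
      Nat.card {p : (Fin K → 𝒰 × Bool) × (Fin q → Fin n) // Function.Injective p.2 ∧
        wrd (mac g t) K p.1 • p.2 = p.2} ≤
      Nat.card {p : (Fin K → 𝒰 × Bool) × (Fin q → Fin n) // Bad t p.1 p.2} +
        K * Nat.card {p : (Fin K → 𝒰 × Bool) × (Fin q → Fin n) // Uq t (K - 1) p.1 p.2} := by
    intro t
    have h1 : ∀ p : (Fin K → 𝒰 × Bool) × (Fin q → Fin n),
        (Function.Injective p.2 ∧ wrd (mac g t) K p.1 • p.2 = p.2) →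
          Bad t p.1 p.2 ∨ ∃ i ∈ Finset.range K, Uq t i p.1 p.2 := by
      rintro ⟨U, y⟩ ⟨hy, hw⟩
      by_cases hb : k ≤ Nat.card {i : Fin K // c ≤ bN g t (ext hK U) y i}
      · exact Or.inl ⟨hy, hb⟩
      · push Not at hb
        obtain ⟨i, hi, hi2⟩ := c2 g t (ext hK U) y hy hk hc1 hcc hb
        exact Or.inr ⟨i, Finset.mem_range.mpr hi, hy, hw, hi2⟩
    simp only [Nat.card_eq_fintype_card, Fintype.card_subtype]
    calc (univ.filter (fun p : (Fin K → 𝒰 × Bool) × (Fin q → Fin n) =>
            Function.Injective p.2 ∧ wrd (mac g t) K p.1 • p.2 = p.2)).card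
        ≤ ((univ.filter (fun p : (Fin K → 𝒰 × Bool) × (Fin q → Fin n) => Bad t p.1 p.2)) ∪
            (Finset.range K).biUnion (fun i => univ.filter
              (fun p : (Fin K → 𝒰 × Bool) × (Fin q → Fin n) => Uq t i p.1 p.2))).card := by
          apply Finset.card_le_card
          intro p hp
          rw [Finset.mem_filter] at hp
          rcases h1 p hp.2 with h | ⟨i, hi, h⟩
          · exact Finset.mem_union_left _ (Finset.mem_filter.mpr ⟨Finset.mem_univ _, h⟩)
          · exact Finset.mem_union_right _ (Finset.mem_biUnion.mpr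
              ⟨i, hi, Finset.mem_filter.mpr ⟨Finset.mem_univ _, h⟩⟩)
      _ ≤ _ := by
          refine (Finset.card_union_le _ _).trans (Nat.add_le_add_left ?_ _)
          refine Finset.card_biUnion_le.trans ?_
          have hle : ∀ i ∈ Finset.range K,
              (univ.filter (fun p : (Fin K → 𝒰 × Bool) × (Fin q → Fin n) =>
                Uq t i p.1 p.2)).card ≤
              (univ.filter (fun p : (Fin K → 𝒰 × Bool) × (Fin q → Fin n) =>
                Uq t (K - 1) p.1 p.2)).card := by
            intro i hi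
            have := c3 (q := q) g t hK (Finset.mem_range.mp hi)
            simp only [Nat.card_eq_fintype_card, Fintype.card_subtype] at this
            exact this
          refine (Finset.sum_le_card_nsmul _ _ _ hle).trans ?_
          rw [Finset.card_range, smul_eq_mul]
  have hBadB : ∀ t, (Nat.card {p : (Fin K → 𝒰 × Bool) × (Fin q → Fin n) // Bad t p.1 p.2} : ℝ) ≤
      n.descFactorial q * b1 := by
    intro t
    rw [card_snd (Bad t)]
    push_cast
    calc ∑ y : Fin q → Fin n, (Nat.card {U // Bad t U y} : ℝ)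
        ≤ ∑ y : Fin q → Fin n, (if Function.Injective y then b1 else 0) := by
          refine Finset.sum_le_sum fun y _ => ?_
          refine card_and (Function.Injective y) (fun U : Fin K → 𝒰 × Bool =>
            k ≤ Nat.card {i : Fin K // c ≤ bN g t (ext hK U) y i}) b1 fun hy => ?_
          exact c1 g hmix hr hrq hcq hn t y hy hK
      _ = _ := sum_inj q n b1
  have hUqB : ∑ t : Equiv.Perm (Fin n),
      (Nat.card {p : (Fin K → 𝒰 × Bool) × (Fin q → Fin n) // Uq t (K - 1) p.1 p.2} : ℝ) ≤
      (2 * Fintype.card 𝒰) ^ K * (n.descFactorial q * b2) := by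
    have h2 : ∑ t : Equiv.Perm (Fin n),
        (Nat.card {p : (Fin K → 𝒰 × Bool) × (Fin q → Fin n) // Uq t (K - 1) p.1 p.2} : ℝ) =
        ∑ p : (Fin K → 𝒰 × Bool) × (Fin q → Fin n),
          (Nat.card {t : Equiv.Perm (Fin n) // Uq t (K - 1) p.1 p.2} : ℝ) := by
      have e1 := card_fst (fun (t : Equiv.Perm (Fin n))
        (p : (Fin K → 𝒰 × Bool) × (Fin q → Fin n)) => Uq t (K - 1) p.1 p.2)
      have e2 := card_snd (fun (t : Equiv.Perm (Fin n))
        (p : (Fin K → 𝒰 × Bool) × (Fin q → Fin n)) => Uq t (K - 1) p.1 p.2)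
      have e3 := e1.symm.trans e2
      exact_mod_cast e3
    rw [h2, Fintype.sum_prod_type]
    calc ∑ U : Fin K → 𝒰 × Bool, ∑ y : Fin q → Fin n,
          (Nat.card {t : Equiv.Perm (Fin n) // Uq t (K - 1) U y} : ℝ)
        ≤ ∑ U : Fin K → 𝒰 × Bool, ∑ y : Fin q → Fin n,
          (if Function.Injective y then b2 else 0) := by
          refine Finset.sum_le_sum fun U _ => Finset.sum_le_sum fun y _ => ?_
          refine card_and (Function.Injective y) (fun t : Equiv.Perm (Fin n) =>
            wrd (mac g t) K U • y = y ∧ q ≤ 2 * uniqN g t (ext hK U) y K (K - 1)) b2 fun hy => ?_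
          exact c4 g hK hqK U y hy
      _ = _ := by
          rw [Finset.sum_const, sum_inj q n b2, nsmul_eq_mul, Finset.card_univ,
            Fintype.card_fun, Fintype.card_prod, Fintype.card_bool, Fintype.card_fin]
          push_cast
          ring
  calc ∑ t : Equiv.Perm (Fin n), ∑ U : Fin K → 𝒰 × Bool,
        (Nat.card {y : Fin q → Fin n // Function.Injective y ∧
          wrd (mac g t) K U • y = y} : ℝ)
      = ∑ t : Equiv.Perm (Fin n), (Nat.card {p : (Fin K → 𝒰 × Bool) × (Fin q → Fin n) //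
          Function.Injective p.2 ∧ wrd (mac g t) K p.1 • p.2 = p.2} : ℝ) := by
        refine Finset.sum_congr rfl fun t _ => ?_
        rw [card_fst (fun (U : Fin K → 𝒰 × Bool) (y : Fin q → Fin n) =>
          Function.Injective y ∧ wrd (mac g t) K U • y = y)]
        push_cast
        rfl
    _ ≤ ∑ t : Equiv.Perm (Fin n), (n.descFactorial q * b1 + K *
          (Nat.card {p : (Fin K → 𝒰 × Bool) × (Fin q → Fin n) // Uq t (K - 1) p.1 p.2} : ℝ)) := by
        refine Finset.sum_le_sum fun t _ => ?_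
        have := hcover t
        have h' : (Nat.card {p : (Fin K → 𝒰 × Bool) × (Fin q → Fin n) //
          Function.Injective p.2 ∧ wrd (mac g t) K p.1 • p.2 = p.2} : ℝ) ≤
          (Nat.card {p : (Fin K → 𝒰 × Bool) × (Fin q → Fin n) // Bad t p.1 p.2} : ℝ) + K *
          (Nat.card {p : (Fin K → 𝒰 × Bool) × (Fin q → Fin n) // Uq t (K - 1) p.1 p.2} : ℝ) := by
          exact_mod_cast this
        linarith [hBadB t]
    _ ≤ n.factorial * (n.descFactorial q * b1) +
          K * ((2 * Fintype.card 𝒰) ^ K * (n.descFactorial q * b2)) := by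
        rw [Finset.sum_add_distrib, Finset.sum_const, Finset.card_univ,
          Fintype.card_perm, Fintype.card_fin, nsmul_eq_mul,
          ← Finset.mul_sum (Finset.univ) (fun t => (Nat.card {p : (Fin K → 𝒰 × Bool) ×
            (Fin q → Fin n) // Uq t (K - 1) p.1 p.2} : ℝ)) (K : ℝ)]
        have hKn : (0 : ℝ) ≤ K := by positivity
        have := mul_le_mul_of_nonneg_left hUqB hKn
        linarith
    _ = _ := by
        rw [hb1, hb2]
        ring

end Pool.Agent.RC
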