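import Mathlib

/-!
# Random permutations: definitions

Shared definitions for the spectral gap of random Cayley graphs of alternating groups on
functions of low degree. `Equiv.Perm (Fin n)` acts on tuples `y : Fin j → Fin n` by
`(σ • y) l = σ (y l)`.
-/

open Finset

namespace Pool.Agent.RC

/-- Real functions on `j`-tuples that vanish on tuples with a repeated entry and whose sum over
each single coordinate is zero. -/
def InW {n j : ℕ} (f : (Fin j → Fin n) → ℝ) : Prop :=
  (∀ y, ¬ Function.Injective y → f y = 0) ∧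
    ∀ (i : Fin j) (y : Fin j → Fin n), ∑ u : Fin n, f (Function.update y i u) = 0

/-- The generators `x` have energy at least `ε` on all `InW` functions on `j`-tuples, for all
`1 ≤ j ≤ r`. -/
def GapUpTo (n m r : ℕ) (ε : ℝ) (x : Fin m → Equiv.Perm (Fin n)) : Prop :=
  ∀ j, 1 ≤ j → j ≤ r → ∀ f : (Fin j → Fin n) → ℝ, InW f →
    ∑ i, ∑ y, f (x i • y) * f y ≤ ((m : ℝ) - ε) * ∑ y, f y ^ 2

/-- Product `m (U (K-1)) * ... * m (U 0)` along a word `U` of length `K`. -/
def wrd {G A : Type*} [Group G] (m : A → G) : (K : ℕ) → (Fin K → A) → G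
  | 0, _ => 1
  | K + 1, U => m (U (Fin.last K)) * wrd m K (fun i => U i.castSucc)

/-- A lazy letter: `1` if the first entry is `false`, and `(x i)^{±1}` otherwise. -/
def letter {G : Type*} [Group G] {s : ℕ} (x : Fin s → G) (c : Bool × Fin s × Bool) : G :=
  if c.1 then (if c.2.2 then x c.2.1 else (x c.2.1)⁻¹) else 1

/-- A macro letter: first `t^{±1}`, then `g u`. -/
def mac {G 𝒰 : Type*} [Group G] (g : 𝒰 → G) (t : G) (p : 𝒰 × Bool) : G :=
  g p.1 * (if p.2 then t else t⁻¹)

/-- The finite family `g` of permutations moves injective `r`-tuples nearly uniformly. -/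
def MixOK {n : ℕ} {𝒰 : Type*} [Fintype 𝒰] (g : 𝒰 → Equiv.Perm (Fin n)) (r : ℕ) : Prop :=
  ∀ y z : Fin r → Fin n, Function.Injective y → Function.Injective z →
    (Nat.card {u // g u • y = z} : ℝ) * n.descFactorial r ≤ 2 * Fintype.card 𝒰

open Classical in
/-- The number of coordinates of `y` that `σ` moves out of the range of `y`. -/
noncomputable def outN {n j : ℕ} (σ : Equiv.Perm (Fin n)) (y : Fin j → Fin n) : ℕ :=
  (univ.filter (fun i : Fin j => ∀ l, σ (y i) ≠ y l)).card

/-- The span of the eigenspaces of `D` with eigenvalue below `ε`. -/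
noncomputable def low {E : Type*} [NormedAddCommGroup E] [InnerProductSpace ℝ E]
    (D : E →ₗ[ℝ] E) (ε : ℝ) : Submodule ℝ E :=
  ⨆ μ : {μ : ℝ // μ < ε}, Module.End.eigenspace D μ.1

/-- The level property: for some number `m` of generators and some `ε > 0`, with probability
tending to one, `m` random permutations have energy at least `ε` at all levels up to `n ^ γ`. -/
def Lev (γ : ℝ) : Prop :=
  ∃ m : ℕ, 1 ≤ m ∧ ∃ ε : ℝ, 0 < ε ∧
    Filter.Tendsto (fun n : ℕ =>
      (Nat.card {x : Fin m → Equiv.Perm (Fin n) // ¬ GapUpTo n m ⌊(n : ℝ) ^ γ⌋₊ ε x} : ℝ) /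
        (n.factorial : ℝ) ^ m) Filter.atTop (nhds 0)

end Pool.Agent.RC
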