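import Pool.Agent.Helper46.RC.LevStep
import Pool.Agent.Helper46.RC.Base

/-!
# All levels below one
-/

open Finset Filter

namespace Pool.Agent.RC

theorem Lev.mono {γ γ' : ℝ} (h : Lev γ) (hle : γ' ≤ γ) : Lev γ' := by
  obtain ⟨m, hm, ε, hε, hlim⟩ := h
  refine ⟨m, hm, ε, hε, ?_⟩
  refine squeeze_zero' (Eventually.of_forall fun n => by positivity) ?_ hlim
  filter_upwards [eventually_ge_atTop 1] with n hn
  have hn1 : (1 : ℝ) ≤ n := by exact_mod_cast hn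
  have hfl : ⌊(n : ℝ) ^ γ'⌋₊ ≤ ⌊(n : ℝ) ^ γ⌋₊ :=
    Nat.floor_le_floor (Real.rpow_le_rpow_of_exponent_le hn1 hle)
  have hc : Nat.card {x : Fin m → Equiv.Perm (Fin n) // ¬ GapUpTo n m ⌊(n : ℝ) ^ γ'⌋₊ ε x} ≤
      Nat.card {x : Fin m → Equiv.Perm (Fin n) // ¬ GapUpTo n m ⌊(n : ℝ) ^ γ⌋₊ ε x} :=
    Nat.card_le_card_of_injective
      (fun x => ⟨x.1, fun h => x.2 (fun j hj hjr => h j hj (hjr.trans hfl))⟩)
      (fun x x' h => Subtype.ext (by simpa using h))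
  have hc' : (Nat.card {x : Fin m → Equiv.Perm (Fin n) //
      ¬ GapUpTo n m ⌊(n : ℝ) ^ γ'⌋₊ ε x} : ℝ) ≤
      Nat.card {x : Fin m → Equiv.Perm (Fin n) // ¬ GapUpTo n m ⌊(n : ℝ) ^ γ⌋₊ ε x} := by
    exact_mod_cast hc
  gcongr

theorem lev_seq (i : ℕ) : Lev (1 - (3 / 4 : ℝ) ^ i) := by
  induction i with
  | zero => simpa using lev_zero
  | succ i ih =>
    have h1 : (0 : ℝ) < (3 / 4) ^ i := by positivity
    have h2 : (3 / 4 : ℝ) ^ i ≤ 1 := pow_le_one₀ (by norm_num) (by norm_num)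
    refine lev_step (by linarith) (by linarith) ?_ ih
    rw [pow_succ]
    linarith

theorem lev_all {γ : ℝ} (hγ : γ < 1) : Lev γ := by
  obtain ⟨i, hi⟩ := exists_pow_lt_of_lt_one (show (0 : ℝ) < 1 - γ by linarith)
    (show (3 / 4 : ℝ) < 1 by norm_num)
  exact (lev_seq i).mono (by linarith)

end Pool.Agent.RC
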