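import Pool.Agent.Helper46.RC.StepW
import Pool.Agent.Helper46.RC.Asy

/-!
# The bootstrapping step
-/

open Finset Filter

namespace Pool.Agent.RC

namespace LevAux

theorem sum_mul_le {n j : ℕ} (σ : Equiv.Perm (Fin n)) (f : (Fin j → Fin n) → ℝ) :
    ∑ y, f (σ • y) * f y ≤ ∑ y, f y ^ 2 := by
  have h1 := sum_smul_tuple σ (fun y => f y ^ 2)
  have h2 : ∑ y, f (σ • y) * f y ≤ ∑ y, (f (σ • y) ^ 2 + f y ^ 2) / 2 :=
    Finset.sum_le_sum fun y _ => by nlinarith [sq_nonneg (f (σ • y) - f y)]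
  rw [← Finset.sum_div, Finset.sum_add_distrib, h1] at h2
  linarith

theorem GapUpTo.mono {n m r : ℕ} {ε ε' : ℝ} {x : Fin m → Equiv.Perm (Fin n)}
    (hx : GapUpTo n m r ε x) (h : ε' ≤ ε) : GapUpTo n m r ε' x := by
  intro j hj hjr f hf
  refine (hx j hj hjr f hf).trans ?_
  have : 0 ≤ ∑ y, f y ^ 2 := Finset.sum_nonneg fun y _ => sq_nonneg _
  nlinarith

/-- the type of one block -/
abbrev BlkT (s n : ℕ) : Type := (Fin s → Equiv.Perm (Fin n)) × Equiv.Perm (Fin n)

theorem card_BlkT (s n : ℕ) : (Fintype.card (BlkT s n) : ℝ) = (n.factorial : ℝ) ^ (s + 1) := by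
  rw [Fintype.card_prod, Fintype.card_fun, Fintype.card_perm, Fintype.card_fin,
    Fintype.card_fin, pow_succ]
  push_cast
  ring

theorem sum_geo (n r R : ℕ) (hn : 2 ≤ n) :
    ∑ j ∈ Finset.Ioc r R, 4 / (n : ℝ) ^ j ≤ 8 / n := by
  have hnr : (2 : ℝ) ≤ n := by exact_mod_cast hn
  have h1 : ∑ j ∈ Finset.Ioc r R, 4 / (n : ℝ) ^ j ≤
      ∑ j ∈ (Finset.range R).image Nat.succ, 4 / (n : ℝ) ^ j := by
    refine Finset.sum_le_sum_of_subset_of_nonneg ?_ (fun j _ _ => by positivity)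
    intro j hj
    rw [Finset.mem_Ioc] at hj
    rw [Finset.mem_image]
    exact ⟨j - 1, Finset.mem_range.mpr (by omega), by omega⟩
  refine h1.trans ?_
  rw [Finset.sum_image (fun a _ b _ h => Nat.succ_injective h)]
  have h2 : ∀ j ∈ Finset.range R, 4 / (n : ℝ) ^ (Nat.succ j) ≤ 4 / n * (1 / 2 : ℝ) ^ j := by
    intro j _
    rw [Nat.succ_eq_add_one, pow_succ, ← div_div, div_div, mul_comm, ← div_div]
    have h3 : (4 : ℝ) / n / n ^ j = 4 / n * (1 / n) ^ j := by
      rw [div_pow, one_pow]; ring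
    rw [h3]
    have h4 : (1 : ℝ) / n ≤ 1 / 2 := one_div_le_one_div_of_le (by norm_num) hnr
    gcongr
  refine (Finset.sum_le_sum h2).trans ?_
  rw [← Finset.mul_sum]
  have h5 := sum_geometric_two_le R
  calc 4 / (n : ℝ) * ∑ i ∈ Finset.range R, (1 / 2 : ℝ) ^ i ≤ 4 / n * 2 := by gcongr
    _ = 8 / n := by ring

/-- the blocks of a family of `B * (s + 1)` permutations -/
def blk {n B s : ℕ} (x : Fin (B * (s + 1)) → Equiv.Perm (Fin n)) (b : Fin B) :
    BlkT s n :=
  (fun i => x (finProdFinEquiv (b, i.castSucc)), x (finProdFinEquiv (b, Fin.last s)))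

theorem blk_inj {n B s : ℕ} : Function.Injective (blk (n := n) (B := B) (s := s)) := by
  intro x x' h
  funext l
  obtain ⟨⟨b, i⟩, rfl⟩ := finProdFinEquiv.surjective l
  have hb := congrFun h b
  simp only [blk, Prod.mk.injEq] at hb
  refine Fin.lastCases ?_ (fun i => ?_) i
  · exact hb.2
  · exact congrFun hb.1 i

theorem sum_blk {n B s : ℕ} (x : Fin (B * (s + 1)) → Equiv.Perm (Fin n))
    (F : Equiv.Perm (Fin n) → ℝ) :
    ∑ l, F (x l) = ∑ b, ((∑ i, F ((blk x b).1 i)) + F (blk x b).2) := by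
  rw [← finProdFinEquiv.sum_comp, Fintype.sum_prod_type]
  refine Finset.sum_congr rfl fun b _ => ?_
  rw [Fin.sum_univ_castSucc]
  rfl

theorem card_coord {Ω : Type*} [Fintype Ω] {B : ℕ} (b : Fin B) (P : Ω → Prop) :
    Nat.card {ω : Fin B → Ω // P (ω b)} = Nat.card {w // P w} * Fintype.card Ω ^ (B - 1) := by
  classical
  rw [Nat.card_eq_fintype_card, Nat.card_eq_fintype_card, Fintype.card_subtype,
    Fintype.card_subtype]
  have h : (univ.filter (fun ω : Fin B → Ω => P (ω b))) =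
      Fintype.piFinset (fun b' => if b' = b then univ.filter P else univ) := by
    ext ω
    simp only [Finset.mem_filter, Finset.mem_univ, true_and, Fintype.mem_piFinset]
    constructor
    · intro h b'
      by_cases hb : b' = b
      · subst hb; simpa using h
      · simp [hb]
    · intro h
      have := h b
      simpa using this
  rw [h, Fintype.card_piFinset, Fintype.prod_eq_mul_prod_compl b]
  simp only [if_true]
  congr 1
  rw [Finset.prod_congr rfl (g := fun _ => Fintype.card Ω)]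
  · rw [Finset.prod_const, Finset.card_compl, Fintype.card_fin, Finset.card_singleton]
  · intro b' hb'
    have : b' ≠ b := by simpa using hb'
    simp [this]

end LevAux

open LevAux

theorem lev_step {γ γ' : ℝ} (hγ : 0 ≤ γ) (hγ1 : γ < 1) (hγ' : γ' < (1 + γ) / 2)
    (h : Lev γ) : Lev γ' := by
  classical
  obtain ⟨s, hs, ε₁, hε₁, hlim⟩ := h
  set ε₀ : ℝ := min ε₁ (2 * s) with hε₀def
  have hsr : (1 : ℝ) ≤ s := by exact_mod_cast hs
  have hε₀ : 0 < ε₀ := lt_min hε₁ (by linarith)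
  have hε₀s : ε₀ ≤ 2 * s := min_le_right _ _
  obtain ⟨ε, hε, hε', B, hB, N, hN⟩ := asy s hs ε₀ γ γ' hε₀ hε₀s hγ hγ1 hγ'
  have hBr : (1 : ℝ) ≤ B := by exact_mod_cast hB
  set ε₂ : ℝ := ε / (400 * B ^ 2) with hε₂
  have hε₂0 : 0 < ε₂ := by positivity
  refine ⟨B * (s + 1), Nat.mul_pos hB (Nat.succ_pos s), min ε₀ ε₂, lt_min hε₀ hε₂0, ?_⟩
  set p : ℕ → ℝ := fun n =>
    (Nat.card {x : Fin s → Equiv.Perm (Fin n) // ¬ GapUpTo n s ⌊(n : ℝ) ^ γ⌋₊ ε₁ x} : ℝ) /
      (n.factorial : ℝ) ^ s with hp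
  -- the main inclusion
  have hincl : ∀ n : ℕ, ∀ x : Fin (B * (s + 1)) → Equiv.Perm (Fin n),
      ¬ GapUpTo n (B * (s + 1)) ⌊(n : ℝ) ^ γ'⌋₊ (min ε₀ ε₂) x →
      (∃ b, ¬ GapUpTo n s ⌊(n : ℝ) ^ γ⌋₊ ε₀ (blk x b).1) ∨
      ∃ j ∈ Finset.Ioc ⌊(n : ℝ) ^ γ⌋₊ ⌊(n : ℝ) ^ γ'⌋₊,
        (∀ b, GapUpTo n s ⌊(n : ℝ) ^ γ⌋₊ ε₀ (blk x b).1) ∧
          ∃ f : (Fin j → Fin n) → ℝ, InW f ∧ f ≠ 0 ∧
          ∑ b, ((∑ i, (∑ y, f y ^ 2 - ∑ y, f ((blk x b).1 i • y) * f y)) +
            (∑ y, f y ^ 2 - ∑ y, f ((blk x b).2 • y) * f y)) <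
              ε / (400 * B ^ 2) * ∑ y, f y ^ 2 := by
    intro n x hx
    by_cases hgood : ∀ b, GapUpTo n s ⌊(n : ℝ) ^ γ⌋₊ ε₀ (blk x b).1
    swap
    · push Not at hgood
      exact Or.inl hgood
    right
    unfold GapUpTo at hx
    push Not at hx
    obtain ⟨j, hj1, hjR, f, hf, hlt⟩ := hx
    have hf2 : 0 ≤ ∑ y, f y ^ 2 := Finset.sum_nonneg fun y _ => sq_nonneg _
    rw [sum_blk x (fun σ => ∑ y, f (σ • y) * f y)] at hlt
    have hfpos : 0 < ∑ y, f y ^ 2 := by
      rcases hf2.lt_or_eq with h | h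
      · exact h
      · exfalso
        have hz : ∀ σ : Equiv.Perm (Fin n), ∑ y, f (σ • y) * f y ≤ 0 := fun σ => by
          have := sum_mul_le σ f
          linarith
        have : ∑ b, ((∑ i, ∑ y, f ((blk x b).1 i • y) * f y) +
            ∑ y, f ((blk x b).2 • y) * f y) ≤ 0 :=
          Finset.sum_nonpos fun b _ => add_nonpos (Finset.sum_nonpos fun i _ => hz _) (hz _)
        rw [← h, mul_zero] at hlt
        linarith
    have hf0 : f ≠ 0 := by
      rintro rfl
      simp at hfpos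
    rcases le_or_gt j ⌊(n : ℝ) ^ γ⌋₊ with hjr | hjr
    · -- low level: the first block alone suffices
      exfalso
      have h0 := hgood ⟨0, hB⟩ j hj1 hjr f hf
      have hle : ∑ b, ((∑ i, ∑ y, f ((blk x b).1 i • y) * f y) +
            ∑ y, f ((blk x b).2 • y) * f y) ≤
          ∑ b : Fin B, (((s : ℝ) + 1) * ∑ y, f y ^ 2 -
            (if b = ⟨0, hB⟩ then ε₀ * ∑ y, f y ^ 2 else 0)) := by
        refine Finset.sum_le_sum fun b _ => ?_
        have h2 := sum_mul_le (blk x b).2 f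
        by_cases hb : b = ⟨0, hB⟩
        · subst hb
          rw [if_pos rfl]
          linarith
        · rw [if_neg hb]
          have h3 : ∑ i, ∑ y, f ((blk x b).1 i • y) * f y ≤ ∑ i : Fin s, ∑ y, f y ^ 2 :=
            Finset.sum_le_sum fun i _ => sum_mul_le _ f
          rw [Finset.sum_const, Finset.card_univ, Fintype.card_fin, nsmul_eq_mul] at h3
          linarith
      rw [Finset.sum_sub_distrib, Finset.sum_ite_eq' univ (⟨0, hB⟩ : Fin B), Finset.sum_const,
        Finset.card_univ, Fintype.card_fin, nsmul_eq_mul, if_pos (Finset.mem_univ _)] at hle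
      have h4 : min ε₀ ε₂ * ∑ y, f y ^ 2 ≤ ε₀ * ∑ y, f y ^ 2 :=
        mul_le_mul_of_nonneg_right (min_le_left _ _) hf2
      push_cast at hlt
      nlinarith
    · refine ⟨j, Finset.mem_Ioc.mpr ⟨hjr, hjR⟩, hgood, f, hf, hf0, ?_⟩
      have h4 : min ε₀ ε₂ * ∑ y, f y ^ 2 ≤ ε₂ * ∑ y, f y ^ 2 :=
        mul_le_mul_of_nonneg_right (min_le_right _ _) hf2
      have h5 : ∑ b, ((∑ i, (∑ y, f y ^ 2 - ∑ y, f ((blk x b).1 i • y) * f y)) +
            (∑ y, f y ^ 2 - ∑ y, f ((blk x b).2 • y) * f y)) =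
          (B * (s + 1)) * ∑ y, f y ^ 2 -
          ∑ b, ((∑ i, ∑ y, f ((blk x b).1 i • y) * f y) +
            ∑ y, f ((blk x b).2 • y) * f y) := by
        simp only [Finset.sum_sub_distrib, Finset.sum_add_distrib, Finset.sum_const,
          Finset.card_univ, Fintype.card_fin, nsmul_eq_mul]
        ring
      rw [h5]
      push_cast at hlt
      linarith
  -- the counting bound
  have hcount : ∀ n ≥ max N 2, (Nat.card {x : Fin (B * (s + 1)) → Equiv.Perm (Fin n) //
      ¬ GapUpTo n (B * (s + 1)) ⌊(n : ℝ) ^ γ'⌋₊ (min ε₀ ε₂) x} : ℝ) /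
        (n.factorial : ℝ) ^ (B * (s + 1)) ≤ B * p n + 8 / n := by
    intro n hn
    have hnN : N ≤ n := (le_max_left _ _).trans hn
    have hn2 : 2 ≤ n := (le_max_right _ _).trans hn
    have hnr : (2 : ℝ) ≤ n := by exact_mod_cast hn2
    set r := ⌊(n : ℝ) ^ γ⌋₊ with hr
    set R := ⌊(n : ℝ) ^ γ'⌋₊ with hR
    set M : ℝ := (n.factorial : ℝ) ^ (B * (s + 1)) with hM
    have hM0 : 0 < M := by positivity
    have hMeq : M = ((n.factorial : ℝ) ^ (s + 1)) ^ B := by
      rw [hM, ← pow_mul, mul_comm]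
    let A : Fin B → Finset (Fin B → (BlkT s n)) := fun b =>
      univ.filter (fun ω => ¬ GapUpTo n s r ε₀ (ω b).1)
    let C : ℕ → Finset (Fin B → (BlkT s n)) := fun j =>
      univ.filter (fun ω => (∀ b, GapUpTo n s r ε₀ (ω b).1) ∧
          ∃ f : (Fin j → Fin n) → ℝ, InW f ∧ f ≠ 0 ∧
          ∑ b, ((∑ i, (∑ y, f y ^ 2 - ∑ y, f ((ω b).1 i • y) * f y)) +
            (∑ y, f y ^ 2 - ∑ y, f ((ω b).2 • y) * f y)) <
              ε / (400 * B ^ 2) * ∑ y, f y ^ 2)
    have hA : ∀ b, ((A b).card : ℝ) ≤ p n * M := by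
      intro b
      have h1 : (A b).card = Nat.card {w : (BlkT s n) // ¬ GapUpTo n s r ε₀ w.1} *
          Fintype.card (BlkT s n) ^ (B - 1) := by
        rw [← card_coord b (fun w : (BlkT s n) => ¬ GapUpTo n s r ε₀ w.1), Nat.card_eq_fintype_card,
          Fintype.card_subtype]
      have h2 : Nat.card {w : (BlkT s n) // ¬ GapUpTo n s r ε₀ w.1} =
          Nat.card {x : Fin s → Equiv.Perm (Fin n) // ¬ GapUpTo n s r ε₀ x} * n.factorial := by
        have h3 := CoreAux.card_snd (A := Fin s → Equiv.Perm (Fin n))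
          (B := Equiv.Perm (Fin n)) (fun x _ => ¬ GapUpTo n s r ε₀ x)
        rw [h3, Finset.sum_const, Finset.card_univ, Fintype.card_perm, Fintype.card_fin,
          smul_eq_mul, mul_comm]
      have h4 : (Nat.card {x : Fin s → Equiv.Perm (Fin n) // ¬ GapUpTo n s r ε₀ x} : ℝ) ≤
          p n * (n.factorial : ℝ) ^ s := by
        rw [hp]
        simp only
        rw [div_mul_cancel₀ _ (by positivity)]
        have : Nat.card {x : Fin s → Equiv.Perm (Fin n) // ¬ GapUpTo n s r ε₀ x} ≤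
            Nat.card {x : Fin s → Equiv.Perm (Fin n) // ¬ GapUpTo n s r ε₁ x} :=
          Nat.card_le_card_of_injective
            (fun x => ⟨x.1, fun h => x.2 (GapUpTo.mono (x := x.1) h (min_le_left _ _))⟩)
            (fun x x' h => Subtype.ext (by simpa using h))
        exact_mod_cast this
      rw [h1, h2]
      push_cast
      rw [card_BlkT, hMeq]
      calc _ ≤ p n * (n.factorial : ℝ) ^ s * n.factorial *
            ((n.factorial : ℝ) ^ (s + 1)) ^ (B - 1) := by gcongr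
        _ = _ := by
          have : ((n.factorial : ℝ) ^ (s + 1)) ^ B =
              ((n.factorial : ℝ) ^ (s + 1)) ^ (B - 1) * (n.factorial : ℝ) ^ (s + 1) := by
            rw [← pow_succ]
            congr 1
            omega
          rw [this, pow_succ]
          ring
    have hC : ∀ j ∈ Finset.Ioc r R, ((C j).card : ℝ) ≤ 4 / (n : ℝ) ^ j * M := by
      intro j hj
      rw [Finset.mem_Ioc] at hj
      obtain ⟨h2j, k, r', a, hk, hr', hrr, hrq, hnk, ha, hmixa, hfin⟩ := hN n hnN j hj.1 hj.2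
      have h1 := stepW (B := B) hs hB (by omega) h2j hk hr' hrr hrq hnk ha hε₀.le hε₀s hε hε'
        hmixa
      have h2 : ((C j).card : ℝ) = (Nat.card {ω : Fin B → (BlkT s n) //
        (∀ b, GapUpTo n s r ε₀ (ω b).1) ∧ ∃ f : (Fin j → Fin n) → ℝ, InW f ∧ f ≠ 0 ∧
          ∑ b, ((∑ i, (∑ y, f y ^ 2 - ∑ y, f ((ω b).1 i • y) * f y)) +
            (∑ y, f y ^ 2 - ∑ y, f ((ω b).2 • y) * f y)) <
              ε / (400 * B ^ 2) * ∑ y, f y ^ 2} : ℝ) := by
        rw [Nat.card_eq_fintype_card, Fintype.card_subtype]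
      rw [h2, hMeq]
      refine h1.trans ?_
      gcongr
    have hle : Nat.card {x : Fin (B * (s + 1)) → Equiv.Perm (Fin n) //
        ¬ GapUpTo n (B * (s + 1)) R (min ε₀ ε₂) x} ≤
        ((Finset.univ.biUnion A) ∪ (Finset.Ioc r R).biUnion C).card := by
      rw [Nat.card_eq_fintype_card, Fintype.card_subtype]
      refine Finset.card_le_card_of_injOn blk (fun x hx => ?_) blk_inj.injOn
      have hx' := (Finset.mem_filter.mp hx).2
      rcases hincl n x hx' with ⟨b, hb⟩ | ⟨j, hj, hb⟩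
      · exact Finset.mem_union_left _ (Finset.mem_biUnion.mpr
          ⟨b, Finset.mem_univ _, Finset.mem_filter.mpr ⟨Finset.mem_univ _, hb⟩⟩)
      · exact Finset.mem_union_right _ (Finset.mem_biUnion.mpr
          ⟨j, hj, Finset.mem_filter.mpr ⟨Finset.mem_univ _, hb⟩⟩)
    have hle2 : (Nat.card {x : Fin (B * (s + 1)) → Equiv.Perm (Fin n) //
        ¬ GapUpTo n (B * (s + 1)) R (min ε₀ ε₂) x} : ℝ) ≤
        ∑ b, ((A b).card : ℝ) + ∑ j ∈ Finset.Ioc r R, ((C j).card : ℝ) := by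
      have h1 : ((Finset.univ.biUnion A) ∪ (Finset.Ioc r R).biUnion C).card ≤
          ∑ b, (A b).card + ∑ j ∈ Finset.Ioc r R, (C j).card :=
        (Finset.card_union_le _ _).trans
          (add_le_add Finset.card_biUnion_le Finset.card_biUnion_le)
      exact_mod_cast hle.trans h1
    rw [div_le_iff₀ hM0]
    refine hle2.trans ?_
    have h5 : ∑ b, ((A b).card : ℝ) ≤ B * (p n * M) := by
      refine (Finset.sum_le_sum fun b _ => hA b).trans (le_of_eq ?_)
      simp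
    have h6 : ∑ j ∈ Finset.Ioc r R, ((C j).card : ℝ) ≤ 8 / n * M := by
      refine (Finset.sum_le_sum hC).trans ?_
      rw [← Finset.sum_mul]
      refine mul_le_mul_of_nonneg_right ?_ hM0.le
      exact sum_geo n r R hn2
    linarith
  have hlim2 : Tendsto (fun n : ℕ => (B : ℝ) * p n + 8 / n) atTop (nhds 0) := by
    have h1 : Tendsto (fun n : ℕ => (B : ℝ) * p n) atTop (nhds ((B : ℝ) * 0)) :=
      hlim.const_mul _
    have h2 : Tendsto (fun n : ℕ => (8 : ℝ) / n) atTop (nhds 0) :=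
      tendsto_const_div_atTop_nhds_zero_nat 8
    simpa using h1.add h2
  refine squeeze_zero' (Eventually.of_forall fun n => by positivity) ?_ hlim2
  filter_upwards [eventually_ge_atTop (max N 2)] with n hn
  exact hcount n hn

end Pool.Agent.RC
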