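import Pool.Agent.Helper46.RC.Pow
import Pool.Agent.Helper46.RC.Red

/-!
# Mixing of tuples from the spectral gap
-/

open Finset

namespace Pool.Agent.RC

open scoped InnerProductSpace

namespace Mix

/-- A symmetric operator with eigenvalues in `[0, c]` has norm at most `c`. -/
theorem norm_le_of_eig {E : Type*} [NormedAddCommGroup E] [InnerProductSpace ℝ E]
    [FiniteDimensional ℝ E] (T : E →ₗ[ℝ] E) (hT : T.IsSymmetric) (c : ℝ) (hc : 0 ≤ c)
    (h : ∀ (l : ℝ) (v : E), v ≠ 0 → T v = l • v → 0 ≤ l ∧ l ≤ c) (v : E) :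
    ‖T v‖ ≤ c * ‖v‖ := by
  have hn : Module.finrank ℝ E = Module.finrank ℝ E := rfl
  have h1 : ∀ i, 0 ≤ hT.eigenvalues hn i ∧ hT.eigenvalues hn i ≤ c := by
    intro i
    have h2 := hT.hasEigenvector_eigenvectorBasis hn i
    exact h _ _ h2.2 (by simp)
  have h3 : ‖T v‖ ^ 2 ≤ (c * ‖v‖) ^ 2 := by
    rw [← (hT.eigenvectorBasis hn).sum_sq_inner_right (T v), mul_pow,
      ← (hT.eigenvectorBasis hn).sum_sq_inner_right v, Finset.mul_sum]
    apply Finset.sum_le_sum
    intro i _
    have h4 : ⟪(hT.eigenvectorBasis hn) i, T v⟫_ℝ =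
        hT.eigenvalues hn i * ⟪(hT.eigenvectorBasis hn) i, v⟫_ℝ := by
      have h5 := hT.eigenvectorBasis_apply_self_apply hn v i
      rw [OrthonormalBasis.repr_apply_apply, OrthonormalBasis.repr_apply_apply] at h5
      simpa using h5
    rw [h4, mul_pow]
    apply mul_le_mul_of_nonneg_right _ (sq_nonneg _)
    exact pow_le_pow_left₀ (h1 i).1 (h1 i).2 2
  exact le_of_sq_le_sq h3 (mul_nonneg hc (norm_nonneg _))

section Rep

variable {n r : ℕ}

/-- The permutation representation on functions on embeddings. -/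
noncomputable def rho (n r : ℕ) : Equiv.Perm (Fin n) →*
    (EuclideanSpace ℝ (Fin r ↪ Fin n) →ₗ[ℝ] EuclideanSpace ℝ (Fin r ↪ Fin n)) where
  toFun σ :=
    { toFun := fun F => WithLp.toLp 2 (fun y => F (σ⁻¹ • y))
      map_add' := fun F G => by ext y; simp
      map_smul' := fun c F => by ext y; simp }
  map_one' := by ext F y; simp
  map_mul' σ τ := by
    ext F y
    simp [mul_smul]

theorem rho_apply (σ : Equiv.Perm (Fin n)) (F : EuclideanSpace ℝ (Fin r ↪ Fin n))
    (y : Fin r ↪ Fin n) : rho n r σ F y = F (σ⁻¹ • y) := rfl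

theorem inner_eq (F G : EuclideanSpace ℝ (Fin r ↪ Fin n)) : ⟪F, G⟫_ℝ = ∑ y, F y * G y := by
  rw [PiLp.inner_apply]
  apply Finset.sum_congr rfl
  intro y _
  simp [mul_comm]

theorem rho_inner (σ : Equiv.Perm (Fin n)) (F G : EuclideanSpace ℝ (Fin r ↪ Fin n)) :
    ⟪rho n r σ F, G⟫_ℝ = ⟪F, rho n r σ⁻¹ G⟫_ℝ := by
  rw [inner_eq, inner_eq]
  rw [← Equiv.sum_comp (MulAction.toPerm σ)]
  apply Finset.sum_congr rfl
  intro y _
  simp [rho_apply]

theorem rho_norm (σ : Equiv.Perm (Fin n)) (F : EuclideanSpace ℝ (Fin r ↪ Fin n)) :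
    ‖rho n r σ F‖ = ‖F‖ := by
  have h : ‖rho n r σ F‖ ^ 2 = ‖F‖ ^ 2 := by
    rw [← real_inner_self_eq_norm_sq, ← real_inner_self_eq_norm_sq, rho_inner]
    rw [← Module.End.mul_apply, ← map_mul]
    simp
  exact (sq_eq_sq₀ (norm_nonneg _) (norm_nonneg _)).1 h

/-- sum over all lazy letters. -/
theorem sum_letter {s : ℕ} (x : Fin s → Equiv.Perm (Fin n)) (F : EuclideanSpace ℝ (Fin r ↪ Fin n)) :
    (∑ c, rho n r (letter x c)) F = (2 * s : ℝ) • F +
      ∑ i, (rho n r (x i) F + rho n r (x i)⁻¹ F) := by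
  rw [LinearMap.sum_apply, Fintype.sum_prod_type]
  simp only [letter, Fintype.sum_bool, if_true, Bool.false_eq_true, if_false, map_one,
    Module.End.one_apply, Fintype.sum_prod_type, Finset.sum_const, Finset.card_univ,
    Fintype.card_fin]
  rw [add_comm]
  congr 1
  rw [← Nat.cast_smul_eq_nsmul ℝ s, ← two_smul ℝ F, smul_smul]
  congr 1
  ring

theorem sum_letter_symm {s : ℕ} (x : Fin s → Equiv.Perm (Fin n)) :
    (∑ c, rho n r (letter x c)).IsSymmetric := by
  intro F G
  rw [sum_letter, sum_letter, inner_add_left, inner_add_right, sum_inner, inner_sum,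
    real_inner_smul_left, real_inner_smul_right]
  congr 1
  apply Finset.sum_congr rfl
  intro i _
  rw [inner_add_left, inner_add_right, rho_inner, rho_inner, inv_inv, add_comm]

/-- the sum of the values. -/
noncomputable def tot (n r : ℕ) : EuclideanSpace ℝ (Fin r ↪ Fin n) →ₗ[ℝ] ℝ where
  toFun F := ∑ y, F y
  map_add' F G := by simp [Finset.sum_add_distrib]
  map_smul' c F := by simp [Finset.mul_sum]

theorem tot_rho (σ : Equiv.Perm (Fin n)) (F : EuclideanSpace ℝ (Fin r ↪ Fin n)) :
    tot n r (rho n r σ F) = tot n r F := by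
  show ∑ y, rho n r σ F y = ∑ y, F y
  rw [← Equiv.sum_comp (MulAction.toPerm σ)]
  apply Finset.sum_congr rfl
  intro y _
  simp [rho_apply]

end Rep

theorem eig_bound {n s r r' : ℕ} {ε : ℝ} (x : Fin s → Equiv.Perm (Fin n))
    (hx : GapUpTo n s r ε x) (hr' : r' ≤ r) (hrn : r' ≤ n)
    (l : ℝ) (F : EuclideanSpace ℝ (Fin r' ↪ Fin n)) (hF : F ≠ 0) (hF0 : tot n r' F = 0)
    (hl : (∑ c, rho n r' (letter x c)) F = l • F) : 0 ≤ l ∧ l ≤ 4 * s - 2 * ε := by
  classical
  have hFn : 0 < ‖F‖ := norm_pos_iff.2 hF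
  have hμ : ∑ i, (rho n r' (x i) F + rho n r' (x i)⁻¹ F) = (l - 2 * s) • F := by
    have h1 := sum_letter x F
    rw [hl] at h1
    rw [sub_smul, h1]
    simp
  constructor
  · have h1 : ‖∑ i, (rho n r' (x i) F + rho n r' (x i)⁻¹ F)‖ ≤ 2 * s * ‖F‖ := by
      refine (norm_sum_le _ _).trans ?_
      have h2 : ∀ i ∈ (univ : Finset (Fin s)), ‖rho n r' (x i) F + rho n r' (x i)⁻¹ F‖ ≤ 2 * ‖F‖ := by
        intro i _
        refine (norm_add_le _ _).trans ?_
        rw [rho_norm, rho_norm]
        linarith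
      refine (Finset.sum_le_sum h2).trans ?_
      simp
      linarith
    rw [hμ, norm_smul] at h1
    have h2 : ‖l - 2 * s‖ ≤ 2 * s := le_of_mul_le_mul_right h1 hFn
    have h3 := (abs_le.1 h2).1
    linarith
  · let a₀ : Fin r' ↪ Fin n := Fin.castLEEmb hrn
    have htr : ∀ y : Fin r' ↪ Fin n, ∃ σ : Equiv.Perm (Fin n), σ • a₀ = y := fun y =>
      Equiv.Perm.exists_smul_eq_embedding a₀ y
    have : Fintype (⊤ : Subgroup (Equiv.Perm (Fin n))) := Fintype.ofFinite _
    let f : (⊤ : Subgroup (Equiv.Perm (Fin n))) → ℝ := fun g => F ((g : Equiv.Perm (Fin n)) • a₀)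
    let x' : Fin s → (⊤ : Subgroup (Equiv.Perm (Fin n))) := fun i => ⟨x i, trivial⟩
    obtain ⟨j, hj1, hjr, h, hW, hne, hh⟩ := red (r := r') (⊤ : Subgroup (Equiv.Perm (Fin n))) x'
      (l - 2 * s) f (by
        apply Submodule.subset_span
        refine ⟨⇑a₀, fun z => if hz : Function.Injective z then F ⟨z, hz⟩ else 0, ?_⟩
        funext g
        have hinj : Function.Injective ((g : Equiv.Perm (Fin n)) • (⇑a₀)) := by
          rw [← Function.Embedding.coe_smul]
          exact Function.Embedding.injective _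
        simp only [f]
        rw [dif_pos hinj]
        rfl) (by
        have e1 : ∑ g, f g = ∑ g : Equiv.Perm (Fin n), F (g • a₀) := by
          rw [← Equiv.sum_comp (Subgroup.topEquiv (G := Equiv.Perm (Fin n))).toEquiv]
          apply Finset.sum_congr rfl
          intro g _
          rfl
        have e2 : ∀ y : Fin r' ↪ Fin n, ∑ σ : Equiv.Perm (Fin n), F (σ • y) =
            ∑ σ : Equiv.Perm (Fin n), F (σ • a₀) := by
          intro y
          obtain ⟨τ, rfl⟩ := htr y
          rw [← Equiv.sum_comp (Equiv.mulRight τ) (fun σ => F (σ • a₀))]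
          apply Finset.sum_congr rfl
          intro σ _
          simp [mul_smul]
        have e3 : ∑ y : Fin r' ↪ Fin n, ∑ σ : Equiv.Perm (Fin n), F (σ • y) = 0 := by
          rw [Finset.sum_comm]
          apply Finset.sum_eq_zero
          intro σ _
          exact (Equiv.sum_comp (MulAction.toPerm σ) (fun y => F y)).trans hF0
        rw [Finset.sum_congr rfl (fun y _ => e2 y), Finset.sum_const, nsmul_eq_mul] at e3
        rw [e1]
        rcases mul_eq_zero.1 e3 with h | h
        · have : (0 : ℝ) < ((univ : Finset (Fin r' ↪ Fin n)).card : ℝ) := by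
            have : 0 < (univ : Finset (Fin r' ↪ Fin n)).card := Finset.card_pos.2 ⟨a₀, mem_univ _⟩
            exact_mod_cast this
          linarith
        · exact h) (by
        intro hf0
        apply hF
        ext y
        obtain ⟨σ, rfl⟩ := htr y
        exact congrFun hf0 ⟨σ, trivial⟩) (by
        intro g
        have e1 := congrArg (fun G : EuclideanSpace ℝ (Fin r' ↪ Fin n) =>
          G ((g : Equiv.Perm (Fin n)) • a₀)) hμ
        simp only [WithLp.ofLp_sum, Finset.sum_apply, PiLp.add_apply, PiLp.smul_apply,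
          rho_apply, inv_inv, smul_eq_mul] at e1
        rw [← e1]
        apply Finset.sum_congr rfl
        intro i _
        simp only [f, x', Subgroup.coe_mul, mul_smul, Subgroup.coe_inv])
    have hg := hx j hj1 (hjr.trans hr') h hW
    have hpos : 0 < ∑ y, h y ^ 2 := by
      obtain ⟨y, hy⟩ := Function.ne_iff.1 hne
      apply Finset.sum_pos' (fun y _ => sq_nonneg _) ⟨y, mem_univ _, ?_⟩
      exact lt_of_le_of_ne (sq_nonneg _) (Ne.symm (pow_ne_zero 2 hy))
    have e1 : (l - 2 * s) * ∑ y, h y ^ 2 = 2 * ∑ i, ∑ y, h (x i • y) * h y := by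
      have e2 : (l - 2 * s) * ∑ y, h y ^ 2 =
          ∑ y, (∑ i, (h ((x i)⁻¹ • y) + h (x i • y))) * h y := by
        rw [Finset.mul_sum]
        apply Finset.sum_congr rfl
        intro y _
        have := hh y
        simp only [x'] at this
        rw [this]
        ring
      rw [e2]
      have e3 : ∀ y, (∑ i, (h ((x i)⁻¹ • y) + h (x i • y))) * h y =
          ∑ i, (h ((x i)⁻¹ • y) * h y + h (x i • y) * h y) := by
        intro y
        rw [Finset.sum_mul]
        apply Finset.sum_congr rfl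
        intro i _
        ring
      rw [Finset.sum_congr rfl (fun y _ => e3 y), Finset.sum_comm, Finset.mul_sum]
      apply Finset.sum_congr rfl
      intro i _
      rw [Finset.sum_add_distrib]
      have e4 : ∑ y, h ((x i)⁻¹ • y) * h y = ∑ y, h (x i • y) * h y := by
        rw [← Equiv.sum_comp (MulAction.toPerm (x i))]
        apply Finset.sum_congr rfl
        intro y _
        simp [mul_comm]
      rw [e4]
      ring
    have e5 : (l - 2 * s) * ∑ y, h y ^ 2 ≤ (2 * (s - ε)) * ∑ y, h y ^ 2 := by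
      rw [e1]
      nlinarith [hg]
    have e6 : l - 2 * s ≤ 2 * (s - ε) := le_of_mul_le_mul_right e5 hpos
    linarith

end Mix

open Mix in
theorem mix {n s r r' a : ℕ} {ε : ℝ} (hs : 1 ≤ s) (x : Fin s → Equiv.Perm (Fin n))
    (hx : GapUpTo n s r ε x) (hr' : r' ≤ r) (hrn : r' ≤ n) (hε : 0 ≤ ε) (hεs : ε ≤ 2 * s)
    (ha : (1 - ε / (2 * s)) ^ a * (n.descFactorial r' : ℝ) ≤ 1) :
    MixOK (wrd (letter x) a) r' := by
  classical
  intro y z hy hz
  have hs0 : (0 : ℝ) < s := by exact_mod_cast hs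
  let T : EuclideanSpace ℝ (Fin r' ↪ Fin n) →ₗ[ℝ] EuclideanSpace ℝ (Fin r' ↪ Fin n) := ∑ c, rho n r' (letter x c)
  have hTs : T.IsSymmetric := sum_letter_symm x
  let V : Submodule ℝ (EuclideanSpace ℝ (Fin r' ↪ Fin n)) := LinearMap.ker (tot n r')
  have hTtot : ∀ F : EuclideanSpace ℝ (Fin r' ↪ Fin n), tot n r' (T F) = 4 * s * tot n r' F := by
    intro F
    show tot n r' ((∑ c, rho n r' (letter x c)) F) = _
    rw [LinearMap.sum_apply, map_sum]
    rw [Finset.sum_congr rfl (fun c _ => tot_rho (letter x c) F)]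
    rw [Finset.sum_const, nsmul_eq_mul]
    congr 1
    simp [Fintype.card_prod]
    ring
  have hV : ∀ F ∈ V, T F ∈ V := by
    intro F hF
    rw [LinearMap.mem_ker] at hF ⊢
    rw [hTtot, hF, mul_zero]
  have hTV : ∀ F ∈ V, ‖T F‖ ≤ (4 * s - 2 * ε) * ‖F‖ := by
    intro F hF
    have h1 := norm_le_of_eig (T.restrict hV) (hTs.restrict_invariant hV) (4 * s - 2 * ε)
      (by linarith) (by
        intro l v hv hl
        apply eig_bound x hx hr' hrn l v.1 (fun h => hv (Subtype.ext h)) (LinearMap.mem_ker.1 v.2)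
        exact congrArg Subtype.val hl) ⟨F, hF⟩
    exact h1
  have hTa : ∀ (k : ℕ) (F : EuclideanSpace ℝ (Fin r' ↪ Fin n)), F ∈ V → (T ^ k) F ∈ V ∧ ‖(T ^ k) F‖ ≤ (4 * s - 2 * ε) ^ k * ‖F‖ := by
    intro k
    induction k with
    | zero => intro F hF; simpa using hF
    | succ k ih =>
      intro F hF
      obtain ⟨h1, h2⟩ := ih F hF
      rw [pow_succ', Module.End.mul_apply]
      refine ⟨hV _ h1, (hTV _ h1).trans ?_⟩
      calc (4 * s - 2 * ε) * ‖(T ^ k) F‖ ≤ (4 * s - 2 * ε) * ((4 * s - 2 * ε) ^ k * ‖F‖) :=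
            mul_le_mul_of_nonneg_left h2 (by linarith)
        _ = (4 * s - 2 * ε) ^ (k + 1) * ‖F‖ := by ring
  -- the constant function and the delta function
  let one : EuclideanSpace ℝ (Fin r' ↪ Fin n) := WithLp.toLp 2 (fun _ => 1)
  have hTone : ∀ k, (T ^ k) one = ((4 * s : ℝ) ^ k) • one := by
    intro k
    induction k with
    | zero => simp
    | succ k ih =>
      rw [pow_succ', Module.End.mul_apply, ih, map_smul]
      have h1 : T one = (4 * s : ℝ) • one := by
        ext w
        show ((∑ c, rho n r' (letter x c)) one) w = _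
        rw [LinearMap.sum_apply]
        simp only [WithLp.ofLp_sum, Finset.sum_apply, rho_apply]
        simp [one]
        ring
      rw [h1, smul_smul, pow_succ]
  let y' : Fin r' ↪ Fin n := ⟨y, hy⟩
  let z' : Fin r' ↪ Fin n := ⟨z, hz⟩
  let dl : EuclideanSpace ℝ (Fin r' ↪ Fin n) := WithLp.toLp 2 (fun w => if w = y' then 1 else 0)
  have hN0 : 0 < (n.descFactorial r' : ℝ) := by
    have : 0 < n.descFactorial r' := Nat.pos_of_ne_zero (fun h => by
      rw [Nat.descFactorial_eq_zero_iff_lt] at h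
      omega)
    exact_mod_cast this
  have hN : ((univ : Finset (Fin r' ↪ Fin n)).card : ℝ) = n.descFactorial r' := by
    rw [Finset.card_univ, Fintype.card_embedding_eq]
    simp
  let F : EuclideanSpace ℝ (Fin r' ↪ Fin n) := dl - (1 / (n.descFactorial r' : ℝ)) • one
  have htone : tot n r' one = n.descFactorial r' := by
    show ∑ w : Fin r' ↪ Fin n, (1 : ℝ) = _
    simp only [Finset.sum_const, nsmul_eq_mul, mul_one]
    exact hN
  have htdl : tot n r' dl = 1 := by
    show ∑ w : Fin r' ↪ Fin n, (if w = y' then (1 : ℝ) else 0) = _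
    simp
  have hFV : F ∈ V := by
    rw [LinearMap.mem_ker]
    simp only [F, map_sub, map_smul, htone, htdl, smul_eq_mul]
    field_simp
    ring
  have hFn : ‖F‖ ≤ 1 := by
    have h1 : dl = F + (1 / (n.descFactorial r' : ℝ)) • one := by simp [F]
    have h2 : ⟪F, (1 / (n.descFactorial r' : ℝ)) • one⟫_ℝ = 0 := by
      rw [real_inner_smul_right, inner_eq]
      have : ∑ w, F w * one w = tot n r' F := by
        show ∑ w, F w * one w = ∑ w, F w
        simp [one]
      rw [this, LinearMap.mem_ker.1 hFV, mul_zero]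
    have h3 : ‖dl‖ ^ 2 = ‖F‖ ^ 2 + ‖(1 / (n.descFactorial r' : ℝ)) • one‖ ^ 2 := by
      rw [h1, pow_two, pow_two, pow_two]
      exact norm_add_sq_eq_norm_sq_add_norm_sq_real h2
    have h4 : ‖dl‖ ^ 2 = 1 := by
      rw [← real_inner_self_eq_norm_sq, inner_eq]
      simp [dl]
    have h5 : ‖F‖ ^ 2 ≤ 1 := by nlinarith [sq_nonneg ‖(1 / (n.descFactorial r' : ℝ)) • one‖]
    nlinarith [norm_nonneg F]
  -- counting
  have hcount : (Nat.card {u // wrd (letter x) a u • y = z} : ℝ) = ((T ^ a) dl) z' := by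
    have h1 : T ^ a = ∑ U : Fin a → Bool × Fin s × Bool, rho n r' (wrd (letter x) a U) :=
      sum_pow_wrd (rho n r') (letter x) a
    rw [h1, LinearMap.sum_apply]
    simp only [WithLp.ofLp_sum, Finset.sum_apply, rho_apply]
    rw [Nat.card_eq_fintype_card, Fintype.card_subtype]
    rw [Finset.card_filter]
    push_cast
    apply Finset.sum_congr rfl
    intro U _
    have h2 : wrd (letter x) a U • y = z ↔ (wrd (letter x) a U)⁻¹ • z' = y' := by
      rw [inv_smul_eq_iff]
      constructor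
      · intro h
        ext i
        have := congrFun h i
        simp only [Function.Embedding.smul_apply]
        show (z i : ℕ) = _
        rw [← this]
        rfl
      · intro h
        funext i
        have := congrArg (fun e : Fin r' ↪ Fin n => e i) h
        simp only [Function.Embedding.smul_apply] at this
        exact this.symm
    by_cases h3 : wrd (letter x) a U • y = z
    · rw [if_pos h3]
      simp [dl, h2.1 h3]
    · rw [if_neg h3]
      simp only [dl]
      rw [if_neg (fun h => h3 (h2.2 h))]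
  have hdl : (T ^ a) dl = (T ^ a) F + (1 / (n.descFactorial r' : ℝ) * (4 * s : ℝ) ^ a) • one := by
    have h1 : dl = F + (1 / (n.descFactorial r' : ℝ)) • one := by simp [F]
    rw [h1, map_add, map_smul, hTone, smul_smul]
  have hz' : ((T ^ a) F) z' ≤ (4 * s - 2 * ε) ^ a := by
    calc ((T ^ a) F) z' ≤ |((T ^ a) F) z'| := le_abs_self _
      _ = ‖((T ^ a) F) z'‖ := rfl
      _ ≤ ‖(T ^ a) F‖ := PiLp.norm_apply_le _ _
      _ ≤ (4 * s - 2 * ε) ^ a * ‖F‖ := (hTa a F hFV).2
      _ ≤ (4 * s - 2 * ε) ^ a * 1 := mul_le_mul_of_nonneg_left hFn (pow_nonneg (by linarith) _)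
      _ = _ := mul_one _
  have h4s : (4 * s - 2 * ε : ℝ) = (4 * s) * (1 - ε / (2 * s)) := by field_simp; ring
  rw [hcount, hdl]
  simp only [PiLp.add_apply, PiLp.smul_apply, smul_eq_mul]
  have hone : one z' = 1 := rfl
  rw [hone, mul_one, add_mul]
  have hcard : (Fintype.card (Fin a → Bool × Fin s × Bool) : ℝ) = (4 * s) ^ a := by
    simp [Fintype.card_prod]
    ring
  rw [hcard]
  have h5 : ((T ^ a) F) z' * (n.descFactorial r' : ℝ) ≤ (4 * s) ^ a := by
    calc ((T ^ a) F) z' * (n.descFactorial r' : ℝ) ≤ (4 * s - 2 * ε) ^ a * (n.descFactorial r' : ℝ) :=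
          mul_le_mul_of_nonneg_right hz' hN0.le
      _ = (4 * s) ^ a * ((1 - ε / (2 * s)) ^ a * (n.descFactorial r' : ℝ)) := by
          rw [h4s, mul_pow]; ring
      _ ≤ (4 * s) ^ a * 1 := mul_le_mul_of_nonneg_left ha (by positivity)
      _ = _ := mul_one _
  have h6 : 1 / (n.descFactorial r' : ℝ) * (4 * s : ℝ) ^ a * (n.descFactorial r' : ℝ) = (4 * s) ^ a := by
    field_simp
  rw [h6]
  linarith

end Pool.Agent.RC
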