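import Pool.Agent.Helper46.RC.Proc

open Finset

namespace Pool.Agent.RC

namespace NBound

/-- `C(N, s) ≥ (N / s) ^ s`. -/
theorem choose_lb (s : ℕ) : ∀ N : ℕ, s ≤ N → ((N : ℝ) / s) ^ s ≤ (N.choose s : ℝ) := by
  induction s with
  | zero => intro N _; simp
  | succ s ih =>
    intro N hN
    obtain ⟨M, rfl⟩ : ∃ M, N = M + 1 := ⟨N - 1, by omega⟩
    have hsM : s ≤ M := by omega
    have h1 := ih M hsM
    have h2 : ((M + 1 : ℕ) : ℝ) * (M.choose s : ℝ) = ((M + 1).choose (s + 1) : ℝ) * ((s + 1 : ℕ) : ℝ) := by
      exact_mod_cast Nat.add_one_mul_choose_eq M s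
    have hs1 : (0 : ℝ) < ((s + 1 : ℕ) : ℝ) := by positivity
    have h3 : ((M + 1).choose (s + 1) : ℝ) = ((M + 1 : ℕ) : ℝ) / ((s + 1 : ℕ) : ℝ) * (M.choose s : ℝ) := by
      rw [div_mul_eq_mul_div, h2, mul_div_cancel_right₀ _ hs1.ne']
    rw [h3, pow_succ, mul_comm]
    refine mul_le_mul_of_nonneg_left (le_trans ?_ h1) (by positivity)
    rcases Nat.eq_zero_or_pos s with h0 | h0
    · subst h0; simp
    · apply pow_le_pow_left₀ (by positivity)
      have hs0 : (0 : ℝ) < s := by exact_mod_cast h0
      rw [div_le_div_iff₀ hs1 hs0]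
      push_cast
      have : (s : ℝ) ≤ M := by exact_mod_cast hsM
      nlinarith

variable {n j : ℕ}

/-- The coordinates fixed by `σ`. -/
def F1 (σ : Equiv.Perm (Fin n)) (y : Fin j → Fin n) : Finset (Fin j) :=
  univ.filter (fun i => σ (y i) = y i)

/-- The coordinates moved by `σ` to another coordinate. -/
def F2 (σ : Equiv.Perm (Fin n)) (y : Fin j → Fin n) : Finset (Fin j) :=
  univ.filter (fun i => ∃ l, l ≠ i ∧ σ (y i) = y l)

theorem card_le (σ : Equiv.Perm (Fin n)) (y : Fin j → Fin n) :
    j ≤ outN σ y + (F1 σ y).card + (F2 σ y).card := by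
  classical
  have h : (univ : Finset (Fin j)) ⊆
      (univ.filter (fun i : Fin j => ∀ l, σ (y i) ≠ y l) ∪ F1 σ y) ∪ F2 σ y := by
    intro i _
    simp only [F1, F2, mem_union, mem_filter, mem_univ, true_and]
    by_cases h1 : ∀ l, σ (y i) ≠ y l
    · exact Or.inl (Or.inl h1)
    · push Not at h1
      obtain ⟨l, hl⟩ := h1
      by_cases h2 : l = i
      · subst h2; exact Or.inl (Or.inr hl)
      · exact Or.inr ⟨l, h2, hl⟩
  have h1 := (card_le_card h).trans (card_union_le _ _)
  have h2 := card_union_le (univ.filter (fun i : Fin j => ∀ l, σ (y i) ≠ y l)) (F1 σ y)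
  rw [card_univ, Fintype.card_fin] at h1
  unfold outN
  convert h1.trans (Nat.add_le_add_right h2 _) using 3

theorem outN_le (σ : Equiv.Perm (Fin n)) (y : Fin j → Fin n) : outN σ y ≤ j := by
  unfold outN
  refine (card_filter_le _ _).trans ?_
  rw [card_univ, Fintype.card_fin]

theorem term_le_one (σ : Equiv.Perm (Fin n)) (y : Fin j → Fin n) :
    (1 / ((n - j).choose (outN σ y) : ℝ)) ≤ 1 := by
  rcases Nat.eq_zero_or_pos ((n - j).choose (outN σ y)) with h | h
  · rw [h]; simp
  · rw [div_le_one (by exact_mod_cast h)]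
    exact_mod_cast h

theorem term_le (hj : 1 ≤ j) (hn : 2 * j ≤ n) (σ : Equiv.Perm (Fin n)) (y : Fin j → Fin n)
    (h : (j + 1) / 2 ≤ outN σ y) :
    (1 / ((n - j).choose (outN σ y) : ℝ)) ≤ ((j : ℝ) / (n - j)) ^ ((j + 1) / 2) := by
  have hs := outN_le σ y
  set s := outN σ y with hsdef
  have hs0 : 0 < s := by omega
  have hcast : (((n - j : ℕ) : ℕ) : ℝ) = (n : ℝ) - j := by
    rw [Nat.cast_sub (by omega)]
  have hnj : (0 : ℝ) < (n : ℝ) - j := by
    rw [← hcast]
    have : 0 < n - j := by omega
    exact_mod_cast this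
  have h1 := choose_lb s (n - j) (by omega)
  rw [hcast] at h1
  have hs0' : (0 : ℝ) < s := by exact_mod_cast hs0
  have h2 : (0 : ℝ) < (((n : ℝ) - j) / s) ^ s := by positivity
  calc (1 / ((n - j).choose s : ℝ)) ≤ 1 / ((((n : ℝ) - j) / s) ^ s) :=
        one_div_le_one_div_of_le h2 h1
    _ = ((s : ℝ) / (n - j)) ^ s := by
        rw [one_div, ← inv_pow, inv_div]
    _ ≤ ((j : ℝ) / (n - j)) ^ s := by
        apply pow_le_pow_left₀ (by positivity)
        apply div_le_div_of_nonneg_right _ hnj.le
        exact_mod_cast hs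
    _ ≤ ((j : ℝ) / (n - j)) ^ ((j + 1) / 2) := by
        apply pow_le_pow_of_le_one (by positivity) _ h
        rw [div_le_one hnj]
        have : ((2 * j : ℕ) : ℝ) ≤ n := by exact_mod_cast hn
        push_cast at this
        linarith

/-- A large independent set in a partial injection without fixed points. -/
theorem exists_indep (σ : Equiv.Perm (Fin n)) (y : Fin j → Fin n) (hy : Function.Injective y) {q : ℕ}
    (hq : q ≤ (F2 σ y).card) :
    ∃ I ∈ powersetCard ((q + 2) / 3) (univ : Finset (Fin j)),
      ∃ f ∈ Fintype.piFinset (fun i : Fin j => if i ∈ I then (univ : Finset (Fin j)) else {i}),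
        (∀ i ∈ I, f i ∉ I) ∧ ∀ i ∈ I, σ (y i) = y (f i) := by
  classical
  have hτ : ∀ i, ∃ l, i ∈ F2 σ y → l ≠ i ∧ σ (y i) = y l := by
    intro i
    by_cases h : i ∈ F2 σ y
    · have h' := h
      unfold F2 at h'
      obtain ⟨l, hl⟩ := (mem_filter.1 h').2
      exact ⟨l, fun _ => hl⟩
    · exact ⟨i, fun h' => absurd h' h⟩
  choose τ hτ using hτ
  have hinj : ∀ a ∈ F2 σ y, ∀ b ∈ F2 σ y, τ a = τ b → a = b := by
    intro a ha b hb hab
    apply hy
    apply σ.injective
    rw [(hτ a ha).2, (hτ b hb).2, hab]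
  obtain ⟨I, hI, hmax⟩ := Finset.exists_max_image
    ((F2 σ y).powerset.filter (fun I => ∀ i ∈ I, τ i ∉ I)) Finset.card
    ⟨∅, by simp⟩
  rw [mem_filter, mem_powerset] at hI
  have hsub : F2 σ y ⊆ (I ∪ I.image τ) ∪ (F2 σ y).filter (fun i => τ i ∈ I) := by
    intro i hi
    by_contra hcon
    simp only [mem_union, mem_image, mem_filter, not_or, not_exists, not_and] at hcon
    obtain ⟨⟨h1, h2⟩, h3⟩ := hcon
    have h4 : insert i I ∈ (F2 σ y).powerset.filter (fun I => ∀ i ∈ I, τ i ∉ I) := by
      rw [mem_filter, mem_powerset]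
      refine ⟨insert_subset hi hI.1, ?_⟩
      intro k hk hk2
      rw [mem_insert] at hk hk2
      rcases hk with rfl | hk
      · rcases hk2 with hk2 | hk2
        · exact (hτ k hi).1 hk2
        · exact h3 hi hk2
      · rcases hk2 with hk2 | hk2
        · exact h2 k hk hk2
        · exact hI.2 k hk hk2
    have h5 := hmax _ h4
    rw [card_insert_of_notMem h1] at h5
    omega
  have hc3 : ((F2 σ y).filter (fun i => τ i ∈ I)).card ≤ I.card := by
    apply card_le_card_of_injOn τ
    · intro a ha
      exact (mem_filter.1 ha).2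
    · intro a ha b hb hab
      exact hinj a (mem_filter.1 ha).1 b (mem_filter.1 hb).1 hab
  have hcI : (q + 2) / 3 ≤ I.card := by
    have h1 := (card_le_card hsub).trans (card_union_le _ _)
    have h2 := card_union_le I (I.image τ)
    have h3 := card_image_le (s := I) (f := τ)
    omega
  obtain ⟨I', hI'I, hI'c⟩ := exists_subset_card_eq hcI
  refine ⟨I', mem_powersetCard.2 ⟨subset_univ _, hI'c⟩, fun i => if i ∈ I' then τ i else i, ?_, ?_, ?_⟩
  · rw [Fintype.mem_piFinset]
    intro i
    by_cases h : i ∈ I' <;> simp [h]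
  · intro i hi
    simp only [hi, if_true]
    exact fun h => hI.2 i (hI'I hi) (hI'I h)
  · intro i hi
    simp only [hi, if_true]
    exact (hτ i (hI.1 (hI'I hi))).2

theorem class_card (σ : Equiv.Perm (Fin n)) (I : Finset (Fin j)) (f : Fin j → Fin j)
    (hf : ∀ i ∈ I, f i ∉ I) :
    (univ.filter (fun y : Fin j ↪ Fin n => ∀ i ∈ I, σ (y i) = y (f i))).card ≤
      n.descFactorial (j - I.card) := by
  classical
  rcases (univ.filter (fun y : Fin j ↪ Fin n => ∀ i ∈ I, σ (y i) = y (f i))).eq_empty_or_nonempty
    with h | ⟨y0, hy0⟩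
  · rw [h]; simp
  · have hy0 := (mem_filter.1 hy0).2
    have hfinj : Set.InjOn f I := by
      intro a ha b hb hab
      apply y0.injective
      apply σ.injective
      rw [hy0 a ha, hy0 b hb, hab]
    have hJ : (I.image f).card = I.card := card_image_of_injOn hfinj
    have hcard : Fintype.card ({x : Fin j // x ∉ I.image f} ↪ Fin n) =
        n.descFactorial (j - I.card) := by
      rw [Fintype.card_embedding_eq, Fintype.card_fin, Fintype.card_subtype_compl,
        Fintype.card_fin, Fintype.card_coe, hJ]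
    rw [← hcard, ← card_univ]
    apply card_le_card_of_injOn
      (fun y => (Function.Embedding.subtype (fun x : Fin j => x ∉ I.image f)).trans y)
    · intro a _
      exact mem_univ _
    · intro y hy y' hy' hyy
      have hy := (mem_filter.1 hy).2
      have hy' := (mem_filter.1 hy').2
      have hagree : ∀ x, x ∉ I.image f → y x = y' x := by
        intro x hx
        exact DFunLike.congr_fun hyy (⟨x, hx⟩ : {x : Fin j // x ∉ I.image f})
      apply DFunLike.ext
      intro x
      by_cases hx : x ∈ I.image f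
      · obtain ⟨i, hi, rfl⟩ := mem_image.1 hx
        rw [← hy i hi, ← hy' i hi, hagree i]
        intro hi2
        obtain ⟨i', hi', rfl⟩ := mem_image.1 hi2
        exact hf i' hi' hi
      · exact hagree x hx

theorem desc_le {m : ℕ} (hmj : m ≤ j) (hjn : j ≤ n) :
    (n - j) ^ m * n.descFactorial (j - m) ≤ n.descFactorial j := by
  have h1 := Nat.descFactorial_mul_descFactorial (n := n) (k := j - m) (m := j) (by omega)
  rw [← h1]
  apply Nat.mul_le_mul_right
  have h2 : j - (j - m) = m := by omega
  rw [h2]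
  have h3 := Nat.pow_sub_le_descFactorial (n - (j - m)) m
  refine le_trans ?_ h3
  apply Nat.pow_le_pow_left
  omega

theorem cardB (hn : 2 * j ≤ n) (hj : 1 ≤ j) (σ : Equiv.Perm (Fin n)) {q : ℕ} (hqj : (q + 2) / 3 ≤ j) :
    ((univ.filter (fun y : Fin j ↪ Fin n => q ≤ (F2 σ y).card)).card : ℝ) ≤
      n.descFactorial j * (2 ^ j * ((j : ℝ) / (n - j)) ^ ((q + 2) / 3)) := by
  classical
  set q3 := (q + 2) / 3 with hq3
  have hsub : univ.filter (fun y : Fin j ↪ Fin n => q ≤ (F2 σ y).card) ⊆
      (powersetCard q3 (univ : Finset (Fin j))).biUnion (fun I =>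
        ((Fintype.piFinset (fun i : Fin j => if i ∈ I then (univ : Finset (Fin j)) else {i})).filter
          (fun f => ∀ i ∈ I, f i ∉ I)).biUnion
          (fun f => univ.filter (fun y : Fin j ↪ Fin n => ∀ i ∈ I, σ (y i) = y (f i)))) := by
    intro y hy
    obtain ⟨I, hI, f, hf, h1, h2⟩ := exists_indep σ y y.injective (mem_filter.1 hy).2
    rw [mem_biUnion]
    refine ⟨I, hI, ?_⟩
    rw [mem_biUnion]
    exact ⟨f, mem_filter.2 ⟨hf, h1⟩, mem_filter.2 ⟨mem_univ _, h2⟩⟩
  have h1 : (univ.filter (fun y : Fin j ↪ Fin n => q ≤ (F2 σ y).card)).card ≤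
      2 ^ j * (j ^ q3 * n.descFactorial (j - q3)) := by
    refine (card_le_card hsub).trans (card_biUnion_le.trans ?_)
    calc ∑ I ∈ powersetCard q3 (univ : Finset (Fin j)),
          (((Fintype.piFinset (fun i : Fin j => if i ∈ I then (univ : Finset (Fin j)) else {i})).filter
            (fun f => ∀ i ∈ I, f i ∉ I)).biUnion
            (fun f => univ.filter (fun y : Fin j ↪ Fin n => ∀ i ∈ I, σ (y i) = y (f i)))).card
        ≤ ∑ _I ∈ powersetCard q3 (univ : Finset (Fin j)), (j ^ q3 * n.descFactorial (j - q3)) := by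
          refine sum_le_sum fun I hI => ?_
          have hIc := (mem_powersetCard.1 hI).2
          refine card_biUnion_le.trans ?_
          calc ∑ f ∈ (Fintype.piFinset (fun i : Fin j =>
                if i ∈ I then (univ : Finset (Fin j)) else {i})).filter (fun f => ∀ i ∈ I, f i ∉ I),
                (univ.filter (fun y : Fin j ↪ Fin n => ∀ i ∈ I, σ (y i) = y (f i))).card
              ≤ ∑ _f ∈ (Fintype.piFinset (fun i : Fin j =>
                if i ∈ I then (univ : Finset (Fin j)) else {i})).filter (fun f => ∀ i ∈ I, f i ∉ I),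
                n.descFactorial (j - q3) := by
                refine sum_le_sum fun f hf => ?_
                have := class_card σ I f (mem_filter.1 hf).2
                rwa [hIc] at this
            _ ≤ j ^ q3 * n.descFactorial (j - q3) := by
                rw [sum_const, smul_eq_mul]
                apply Nat.mul_le_mul_right
                refine (card_filter_le _ _).trans ?_
                rw [Fintype.card_piFinset]
                have : ∀ i : Fin j, (if i ∈ I then (univ : Finset (Fin j)) else {i}).card =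
                    if i ∈ I then j else 1 := by
                  intro i
                  by_cases h : i ∈ I <;> simp [h]
                simp only [this]
                rw [prod_ite, prod_const, prod_const_one, mul_one]
                apply le_of_eq
                congr 1
                rw [← hIc]
                congr 1
                ext i
                simp
      _ ≤ 2 ^ j * (j ^ q3 * n.descFactorial (j - q3)) := by
          rw [sum_const, smul_eq_mul]
          apply Nat.mul_le_mul_right
          rw [card_powersetCard, card_univ, Fintype.card_fin]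
          exact Nat.choose_le_two_pow _ _
  have h2 := desc_le (n := n) (j := j) (m := q3) hqj (by omega)
  have h1' : ((univ.filter (fun y : Fin j ↪ Fin n => q ≤ (F2 σ y).card)).card : ℝ) ≤
      2 ^ j * ((j : ℝ) ^ q3 * n.descFactorial (j - q3)) := by exact_mod_cast h1
  have hcast : (((n - j : ℕ) : ℕ) : ℝ) = (n : ℝ) - j := by
    rw [Nat.cast_sub (by omega)]
  have h2' : ((n : ℝ) - j) ^ q3 * (n.descFactorial (j - q3) : ℝ) ≤ n.descFactorial j := by
    rw [← hcast]; exact_mod_cast h2
  have hnj : (0 : ℝ) < (n : ℝ) - j := by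
    rw [← hcast]
    have : 0 < n - j := by omega
    exact_mod_cast this
  refine h1'.trans ?_
  have h3 : (n.descFactorial (j - q3) : ℝ) ≤ n.descFactorial j / ((n : ℝ) - j) ^ q3 := by
    rw [le_div_iff₀ (by positivity), mul_comm]
    exact h2'
  calc 2 ^ j * ((j : ℝ) ^ q3 * n.descFactorial (j - q3))
      ≤ 2 ^ j * ((j : ℝ) ^ q3 * (n.descFactorial j / ((n : ℝ) - j) ^ q3)) := by gcongr
    _ = n.descFactorial j * (2 ^ j * ((j : ℝ) / (n - j)) ^ q3) := by
        rw [div_pow]; ring

theorem classC (σ : Equiv.Perm (Fin n)) (I : Finset (Fin j)) {q : ℕ} (hI : I.card = q) :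
    (univ.filter (fun y : Fin j ↪ Fin n => ∀ i ∈ I, σ (y i) = y i)).card ≤
      (n - q).descFactorial (j - q) *
        (univ.filter (fun y : Fin q → Fin n => Function.Injective y ∧ σ • y = y)).card := by
  classical
  let e1 : Fin q ≃ {x // x ∈ I} := (I.equivFinOfCardEq hI).symm
  apply card_le_mul_card_image_of_maps_to (f := fun y : Fin j ↪ Fin n => fun a : Fin q => y (e1 a))
  · intro y hy
    have hy := (mem_filter.1 hy).2
    refine mem_filter.2 ⟨mem_univ _, ?_, ?_⟩
    · intro a b hab
      exact e1.injective (Subtype.ext (y.injective hab))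
    · funext a
      exact hy _ (e1 a).2
  · intro f hf
    have hf := (mem_filter.1 hf).2
    have hcard : Fintype.card ({x : Fin j // x ∉ I} ↪ ((Set.range f)ᶜ : Set (Fin n))) =
        (n - q).descFactorial (j - q) := by
      rw [Fintype.card_embedding_eq]
      congr 1
      · rw [Fintype.card_compl_set, Fintype.card_fin, Set.card_range_of_injective hf.1,
          Fintype.card_fin]
      · rw [Fintype.card_subtype_compl, Fintype.card_fin, Fintype.card_coe, hI]
    rw [← hcard, ← Fintype.card_coe]
    refine Fintype.card_le_of_injective (fun y => ⟨fun x => ⟨y.1 x.1, ?_⟩, ?_⟩) ?_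
    · rintro ⟨a, ha⟩
      have h1 := (mem_filter.1 y.2).2
      have h2 : y.1 (e1 a) = f a := congrFun h1 a
      rw [← h2] at ha
      have h3 := y.1.injective ha
      exact x.2 (h3 ▸ (e1 a).2)
    · intro a b hab
      have := congrArg Subtype.val hab
      exact Subtype.ext (y.1.injective this)
    · intro y y' hyy
      apply Subtype.ext
      apply DFunLike.ext
      intro x
      by_cases hx : x ∈ I
      · have h1 := congrFun ((mem_filter.1 y.2).2.trans (mem_filter.1 y'.2).2.symm) (e1.symm ⟨x, hx⟩)
        simpa using h1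
      · have h1 := DFunLike.congr_fun hyy (⟨x, hx⟩ : {x : Fin j // x ∉ I})
        exact congrArg Subtype.val h1

theorem cardC (σ : Equiv.Perm (Fin n)) {q : ℕ} :
    (univ.filter (fun y : Fin j ↪ Fin n => q ≤ (F1 σ y).card)).card ≤
      2 ^ j * (Nat.card {y : Fin q → Fin n // Function.Injective y ∧ σ • y = y} *
        (n - q).descFactorial (j - q)) := by
  classical
  have hsub : univ.filter (fun y : Fin j ↪ Fin n => q ≤ (F1 σ y).card) ⊆
      (powersetCard q (univ : Finset (Fin j))).biUnion (fun I =>
        univ.filter (fun y : Fin j ↪ Fin n => ∀ i ∈ I, σ (y i) = y i)) := by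
    intro y hy
    obtain ⟨I, hI, hIc⟩ := exists_subset_card_eq (mem_filter.1 hy).2
    rw [mem_biUnion]
    refine ⟨I, mem_powersetCard.2 ⟨subset_univ _, hIc⟩, mem_filter.2 ⟨mem_univ _, ?_⟩⟩
    intro i hi
    exact (mem_filter.1 (hI hi)).2
  refine (card_le_card hsub).trans (card_biUnion_le.trans ?_)
  calc ∑ I ∈ powersetCard q (univ : Finset (Fin j)),
        (univ.filter (fun y : Fin j ↪ Fin n => ∀ i ∈ I, σ (y i) = y i)).card
      ≤ ∑ _I ∈ powersetCard q (univ : Finset (Fin j)), ((n - q).descFactorial (j - q) *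
        (univ.filter (fun y : Fin q → Fin n => Function.Injective y ∧ σ • y = y)).card) :=
        sum_le_sum fun I hI => classC σ I (mem_powersetCard.1 hI).2
    _ ≤ 2 ^ j * (Nat.card {y : Fin q → Fin n // Function.Injective y ∧ σ • y = y} *
        (n - q).descFactorial (j - q)) := by
        rw [sum_const, smul_eq_mul, Nat.card_eq_fintype_card, Fintype.card_subtype]
        rw [mul_comm ((n - q).descFactorial (j - q))]
        apply Nat.mul_le_mul_right
        rw [card_powersetCard, card_univ, Fintype.card_fin]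
        exact Nat.choose_le_two_pow _ _

end NBound

open NBound in
theorem nbound {n j : ℕ} (hj : 1 ≤ j) (hn : 2 * j ≤ n) (σ : Equiv.Perm (Fin n)) :
    ∑ y : Fin j ↪ Fin n, (1 / ((n - j).choose (outN σ y) : ℝ)) ≤
      n.descFactorial j * (((j : ℝ) / (n - j)) ^ ((j + 1) / 2) +
        2 ^ j * ((j : ℝ) / (n - j)) ^ (((j + 3) / 4 + 2) / 3))
      + 2 ^ j * (Nat.card {y : Fin ((j + 3) / 4) → Fin n //
          Function.Injective y ∧ σ • y = y} : ℝ) *
        (n - (j + 3) / 4).descFactorial (j - (j + 3) / 4) := by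
  classical
  set q := (j + 3) / 4 with hq
  set t : ℝ := ((j : ℝ) / (n - j)) ^ ((j + 1) / 2) with ht
  have ht0 : 0 ≤ t := by
    apply pow_nonneg
    apply div_nonneg (by positivity)
    have : ((2 * j : ℕ) : ℝ) ≤ n := by exact_mod_cast hn
    push_cast at this
    have hj0 : (0 : ℝ) ≤ j := Nat.cast_nonneg j
    linarith
  have hterm : ∀ y : Fin j ↪ Fin n, (1 / ((n - j).choose (outN σ y) : ℝ)) ≤
      t + (if q ≤ (F2 σ y).card then 1 else 0) + (if q ≤ (F1 σ y).card then 1 else 0) := by
    intro y
    have h1 := term_le_one σ (y : Fin j → Fin n)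
    by_cases hB : q ≤ (F2 σ y).card
    · rw [if_pos hB]
      split_ifs <;> linarith
    · by_cases hC : q ≤ (F1 σ y).card
      · rw [if_neg hB, if_pos hC]; linarith
      · rw [if_neg hB, if_neg hC, add_zero, add_zero]
        apply term_le hj hn
        have := card_le σ (y : Fin j → Fin n)
        omega
  refine (sum_le_sum fun y _ => hterm y).trans ?_
  rw [sum_add_distrib, sum_add_distrib, sum_const, card_univ, Fintype.card_embedding_eq,
    Fintype.card_fin, Fintype.card_fin, nsmul_eq_mul, sum_boole, sum_boole]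
  have hB := cardB hn hj σ (q := q) (by omega)
  have hC := cardC (n := n) (j := j) σ (q := q)
  have hC' : ((univ.filter (fun y : Fin j ↪ Fin n => q ≤ (F1 σ y).card)).card : ℝ) ≤
      2 ^ j * ((Nat.card {y : Fin q → Fin n // Function.Injective y ∧ σ • y = y} : ℝ) *
        (n - q).descFactorial (j - q)) := by exact_mod_cast hC
  have h3 := add_le_add (add_le_add (le_refl ((n.descFactorial j : ℝ) * t)) hB) hC'
  refine h3.trans (le_of_eq ?_)
  ring

end Pool.Agent.RC
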