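import Pool.Agent.Helper46.RC.Defs

/-!
# The macro process: positions, sources, touched particles, unique particles
-/

open Finset

namespace Pool.Agent.RC

/-- Cyclic extension of a word of positive length. -/
def ext {A : Type*} {K : ℕ} (hK : 0 < K) (U : Fin K → A) (i : ℕ) : A :=
  U ⟨i % K, Nat.mod_lt i hK⟩

/-- Product of the first `k` macro letters. -/
def pre {n : ℕ} {𝒰 : Type*} (g : 𝒰 → Equiv.Perm (Fin n)) (t : Equiv.Perm (Fin n))
    (V : ℕ → 𝒰 × Bool) : ℕ → Equiv.Perm (Fin n)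
  | 0 => 1
  | k + 1 => mac g t (V k) * pre g t V k

/-- The source (as an edge `a ↦ t a`) of the `t`-edge used by particle `i` in macro step `k`. -/
def src {n q : ℕ} {𝒰 : Type*} (g : 𝒰 → Equiv.Perm (Fin n)) (t : Equiv.Perm (Fin n))
    (V : ℕ → 𝒰 × Bool) (y : Fin q → Fin n) (i : Fin q) (k : ℕ) : Fin n :=
  if (V k).2 then pre g t V k (y i) else t⁻¹ (pre g t V k (y i))

/-- Number of particles which, just before macro step `k`, sit on an end point of a `t`-edge
used in an earlier macro step. -/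
noncomputable def bN {n q : ℕ} {𝒰 : Type*} (g : 𝒰 → Equiv.Perm (Fin n))
    (t : Equiv.Perm (Fin n)) (V : ℕ → 𝒰 × Bool) (y : Fin q → Fin n) (k : ℕ) : ℕ :=
  Nat.card {i : Fin q // ∃ k' < k, ∃ i' : Fin q,
    pre g t V k (y i) = src g t V y i' k' ∨ pre g t V k (y i) = t (src g t V y i' k')}

/-- Number of particles whose `t`-edge in macro step `k` is not used in any other of the first
`K` macro steps. -/
noncomputable def uniqN {n q : ℕ} {𝒰 : Type*} (g : 𝒰 → Equiv.Perm (Fin n))
    (t : Equiv.Perm (Fin n)) (V : ℕ → 𝒰 × Bool) (y : Fin q → Fin n) (K k : ℕ) : ℕ :=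
  Nat.card {i : Fin q // ∀ k' < K, k' ≠ k → ∀ i' : Fin q,
    src g t V y i' k' ≠ src g t V y i k}

end Pool.Agent.RC
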