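import Pool.Agent.Helper46.RC.Proc

/-!
# The representation on the `InW` functions
-/

open Finset

namespace Pool.Agent.RC

open scoped InnerProductSpace

/-- The permutation representation on functions of `j`-tuples: `(rep σ f) y = f (σ⁻¹ • y)`. -/
noncomputable def rep (n j : ℕ) : Equiv.Perm (Fin n) →*
    (EuclideanSpace ℝ (Fin j → Fin n) →ₗ[ℝ] EuclideanSpace ℝ (Fin j → Fin n)) where
  toFun σ := (LinearIsometryEquiv.piLpCongrLeft 2 ℝ ℝ
    (MulAction.toPerm σ : Equiv.Perm (Fin j → Fin n))).toLinearEquiv.toLinearMap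
  map_one' := by
    ext f y
    simp [LinearIsometryEquiv.piLpCongrLeft_apply, Equiv.piCongrLeft']
  map_mul' σ τ := by
    ext f y
    simp [LinearIsometryEquiv.piLpCongrLeft_apply, Equiv.piCongrLeft', mul_smul]

theorem rep_apply {n j : ℕ} (σ : Equiv.Perm (Fin n)) (f : EuclideanSpace ℝ (Fin j → Fin n))
    (y : Fin j → Fin n) : rep n j σ f y = f (σ⁻¹ • y) := by
  simp [rep, LinearIsometryEquiv.piLpCongrLeft_apply, Equiv.piCongrLeft']

theorem norm_rep {n j : ℕ} (σ : Equiv.Perm (Fin n)) (f : EuclideanSpace ℝ (Fin j → Fin n)) :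
    ‖rep n j σ f‖ = ‖f‖ :=
  (LinearIsometryEquiv.piLpCongrLeft 2 ℝ ℝ
    (MulAction.toPerm σ : Equiv.Perm (Fin j → Fin n))).norm_map f

/-- The space of `InW` functions. -/
def Wsp (n j : ℕ) : Submodule ℝ (EuclideanSpace ℝ (Fin j → Fin n)) where
  carrier := {f | InW (fun y => f y)}
  add_mem' {f g} hf hg := by
    refine ⟨fun y hy => ?_, fun i y => ?_⟩
    · have h1 := hf.1 y hy
      have h2 := hg.1 y hy
      simp only [PiLp.add_apply] at *
      rw [h1, h2, add_zero]
    · have h1 := hf.2 i y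
      have h2 := hg.2 i y
      simp only [PiLp.add_apply, Finset.sum_add_distrib] at *
      rw [h1, h2, add_zero]
  zero_mem' := ⟨fun y _ => rfl, fun i y => by simp⟩
  smul_mem' c f hf := by
    refine ⟨fun y hy => ?_, fun i y => ?_⟩
    · have h1 := hf.1 y hy
      simp only [PiLp.smul_apply, smul_eq_mul] at *
      rw [h1, mul_zero]
    · have h1 := hf.2 i y
      simp only [PiLp.smul_apply, smul_eq_mul, ← Finset.mul_sum] at *
      rw [h1, mul_zero]

theorem mem_Wsp {n j : ℕ} (f : EuclideanSpace ℝ (Fin j → Fin n)) :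
    f ∈ Wsp n j ↔ InW (fun y => f y) := Iff.rfl

theorem inj_smul {n j : ℕ} (σ : Equiv.Perm (Fin n)) (y : Fin j → Fin n) :
    Function.Injective (σ • y) ↔ Function.Injective y := by
  constructor
  · intro h a b hab
    exact h (by simp only [Pi.smul_apply, hab])
  · intro h a b hab
    exact h (MulAction.injective σ (by simpa only [Pi.smul_apply] using hab))

theorem smul_update {n j : ℕ} (σ : Equiv.Perm (Fin n)) (y : Fin j → Fin n) (i : Fin j)
    (u : Fin n) : σ • Function.update y i u = Function.update (σ • y) i (σ u) := by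
  ext l
  by_cases h : l = i
  · subst h; simp
  · simp [Function.update_of_ne h]

theorem InW.smul {n j : ℕ} {f : (Fin j → Fin n) → ℝ} (hf : InW f) (σ : Equiv.Perm (Fin n)) :
    InW (fun y => f (σ • y)) := by
  refine ⟨fun y hy => hf.1 _ (fun h => hy ((inj_smul σ y).mp h)), fun i y => ?_⟩
  simp only [smul_update]
  rw [Equiv.sum_comp σ (fun u => f (Function.update (σ • y) i u))]
  exact hf.2 i _

theorem rep_mem {n j : ℕ} (σ : Equiv.Perm (Fin n)) (f : EuclideanSpace ℝ (Fin j → Fin n))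
    (hf : f ∈ Wsp n j) : rep n j σ f ∈ Wsp n j := by
  rw [mem_Wsp] at *
  simp only [rep_apply]
  exact hf.smul σ⁻¹

/-- The representation on `InW` functions. -/
noncomputable def repW (n j : ℕ) : Equiv.Perm (Fin n) →* (Wsp n j →ₗ[ℝ] Wsp n j) where
  toFun σ := (rep n j σ).restrict (fun f hf => rep_mem σ f hf)
  map_one' := LinearMap.ext fun f => Subtype.ext
    (show rep n j 1 (f : EuclideanSpace ℝ (Fin j → Fin n)) = f by rw [map_one]; rfl)
  map_mul' σ τ := LinearMap.ext fun f => Subtype.ext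
    (show rep n j (σ * τ) (f : EuclideanSpace ℝ (Fin j → Fin n)) =
      rep n j σ (rep n j τ f) by rw [map_mul]; rfl)

theorem repW_coe {n j : ℕ} (σ : Equiv.Perm (Fin n)) (f : Wsp n j) :
    ((repW n j σ f : Wsp n j) : EuclideanSpace ℝ (Fin j → Fin n)) = rep n j σ f := rfl

theorem norm_repW {n j : ℕ} (σ : Equiv.Perm (Fin n)) (f : Wsp n j) : ‖repW n j σ f‖ = ‖f‖ := by
  rw [Submodule.coe_norm, repW_coe, norm_rep, ← Submodule.coe_norm]

theorem sum_smul_tuple {n j : ℕ} (σ : Equiv.Perm (Fin n)) (F : (Fin j → Fin n) → ℝ) :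
    ∑ y, F (σ • y) = ∑ y, F y :=
  Equiv.sum_comp (MulAction.toPerm σ : Equiv.Perm (Fin j → Fin n)) F

theorem inner_repW {n j : ℕ} (σ : Equiv.Perm (Fin n)) (f : Wsp n j) :
    ⟪repW n j σ f, f⟫_ℝ = ∑ y, (f : EuclideanSpace ℝ (Fin j → Fin n)) (σ • y) *
      (f : EuclideanSpace ℝ (Fin j → Fin n)) y := by
  rw [Submodule.coe_inner, repW_coe, PiLp.inner_apply]
  rw [← sum_smul_tuple σ]
  refine Finset.sum_congr rfl fun y _ => ?_
  rw [rep_apply, inv_smul_smul]
  simp

theorem norm_sq_Wsp {n j : ℕ} (f : Wsp n j) :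
    ‖f‖ ^ 2 = ∑ y, (f : EuclideanSpace ℝ (Fin j → Fin n)) y ^ 2 := by
  rw [Submodule.coe_norm, EuclideanSpace.real_norm_sq_eq]

theorem finrank_Wsp_le (n j : ℕ) : Module.finrank ℝ (Wsp n j) ≤ n ^ j := by
  refine (Submodule.finrank_le _).trans (le_of_eq ?_)
  rw [finrank_euclideanSpace]
  simp

theorem GapUpTo.conj {n m r : ℕ} {ε : ℝ} {x : Fin m → Equiv.Perm (Fin n)}
    (hx : GapUpTo n m r ε x) (h : Equiv.Perm (Fin n)) :
    GapUpTo n m r ε (fun i => h * x i * h⁻¹) := by
  intro j hj hjr f hf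
  have := hx j hj hjr (fun y => f (h • y)) (hf.smul h)
  rw [sum_smul_tuple h (fun y => f y ^ 2)] at this
  refine le_trans (le_of_eq ?_) this
  refine Finset.sum_congr rfl fun i _ => ?_
  rw [← sum_smul_tuple h]
  refine Finset.sum_congr rfl fun y _ => ?_
  rw [← mul_smul, ← mul_smul]
  simp [mul_assoc]

/-- conjugation by `h` on permutations as an equivalence -/
def conjE {n : ℕ} (h : Equiv.Perm (Fin n)) : Equiv.Perm (Fin n) ≃ Equiv.Perm (Fin n) :=
  (MulAut.conj h).toEquiv

theorem conjE_apply {n : ℕ} (h g : Equiv.Perm (Fin n)) : conjE h g = h * g * h⁻¹ := rfl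

/-- conjugation on good families -/
def conjGood {n m r : ℕ} {ε : ℝ} (h : Equiv.Perm (Fin n)) :
    {x : Fin m → Equiv.Perm (Fin n) // GapUpTo n m r ε x} ≃
      {x : Fin m → Equiv.Perm (Fin n) // GapUpTo n m r ε x} where
  toFun x := ⟨fun i => h * x.1 i * h⁻¹, x.2.conj h⟩
  invFun x := ⟨fun i => h⁻¹ * x.1 i * h, by simpa using x.2.conj h⁻¹⟩
  left_inv x := by ext i : 2; simp [mul_assoc]
  right_inv x := by ext i : 2; simp [mul_assoc]

end Pool.Agent.RC
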