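import Pool.Agent.Helper46.RC.Abs
import Pool.Agent.Helper46.RC.Core
import Pool.Agent.Helper46.RC.Op
import Pool.Agent.Helper46.RC.NBound
import Pool.Agent.Helper46.RC.Mix
import Pool.Agent.Helper46.RC.Beta
import Pool.Agent.Helper46.RC.Rep

/-!
# The counting estimate for one level `j`
-/

open Finset

namespace Pool.Agent.RC

open scoped InnerProductSpace

namespace StepAux

/-- The family of all macro words. -/
abbrev Zt (n s r a K : ℕ) (ε₀ : ℝ) : Type :=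
  ({x : Fin s → Equiv.Perm (Fin n) // GapUpTo n s r ε₀ x} × Equiv.Perm (Fin n)) ×
    (Fin K → (Fin a → Bool × Fin s × Bool) × Bool)

/-- The permutation of a macro word. -/
def gz {n s r a K : ℕ} {ε₀ : ℝ} (z : Zt n s r a K ε₀) : Equiv.Perm (Fin n) :=
  wrd (mac (wrd (letter z.1.1.1) a) z.1.2) K z.2

theorem wrd_conj {G A : Type*} [Group G] (m m' : A → G) (h : G)
    (hm : ∀ a, m' a = h * m a * h⁻¹) (K : ℕ) (U : Fin K → A) :
    wrd m' K U = h * wrd m K U * h⁻¹ := by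
  induction K with
  | zero => simp [wrd]
  | succ K ih =>
    simp only [wrd]
    rw [ih, hm]
    group

theorem gz_conj {n s r a K : ℕ} {ε₀ : ℝ} (h : Equiv.Perm (Fin n)) :
    ∃ e : Zt n s r a K ε₀ ≃ Zt n s r a K ε₀, ∀ z, gz (e z) = h * gz z * h⁻¹ := by
  refine ⟨((conjGood h).prodCongr (conjE h)).prodCongr (Equiv.refl _), fun z => ?_⟩
  refine wrd_conj _ _ h (fun p => ?_) K z.2
  have h1 : ∀ u, wrd (letter (fun i => h * z.1.1.1 i * h⁻¹)) a u =
      h * wrd (letter z.1.1.1) a u * h⁻¹ := by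
    refine fun u => wrd_conj _ _ h (fun c => ?_) a u
    unfold letter
    split_ifs <;> group
  show mac (wrd (letter (fun i => h * z.1.1.1 i * h⁻¹)) a) (h * z.1.2 * h⁻¹) p = _
  unfold mac
  rw [h1]
  split_ifs <;> group

theorem beta_nonneg {n j k r : ℕ} (hjn : 2 * j ≤ n) (hn : 2 * ((j + 3) / 4 * (8 * k)) ≤ n) :
    0 ≤ betaS n j k r := by
  have h1 : (0 : ℝ) ≤ (n : ℝ) - j := by
    have : ((2 * j : ℕ) : ℝ) ≤ n := by exact_mod_cast hjn
    push_cast at this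
    have : (0 : ℝ) ≤ j := by positivity
    linarith
  have h2 : (0 : ℝ) ≤ (n : ℝ) - ((j + 3) / 4 : ℕ) * (8 * k : ℕ) := by
    have h3 : ((2 * ((j + 3) / 4 * (8 * k)) : ℕ) : ℝ) ≤ n := by exact_mod_cast hn
    rw [Nat.cast_mul, Nat.cast_mul] at h3
    have : (0 : ℝ) ≤ ((j + 3) / 4 : ℕ) * (8 * k : ℕ) := by positivity
    have h4 : ((2 : ℕ) : ℝ) = 2 := by norm_num
    rw [h4] at h3
    linarith
  unfold betaS
  positivity

open Classical in
theorem sum_out {n s r r' j a k : ℕ} {ε₀ : ℝ} (hs : 1 ≤ s) (hj : 1 ≤ j)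
    (hjn : 2 * j ≤ n) (hk : 1 ≤ k) (hr : 1 ≤ r') (hrr : r' ≤ r)
    (hrq : 2 * r' ≤ ((j + 3) / 4 + 7) / 8 + 1) (hn : 2 * ((j + 3) / 4 * (8 * k)) ≤ n)
    (hε₀ : 0 ≤ ε₀) (hε₀s : ε₀ ≤ 2 * s)
    (hmixa : (1 - ε₀ / (2 * s)) ^ a * (n.descFactorial r' : ℝ) ≤ 1) :
    ∑ z : Zt n s r a (8 * k) ε₀, ∑ y : Fin j ↪ Fin n,
        (1 / ((n - j).choose (outN (gz z) y) : ℝ)) ≤
      betaS n j k r' * Fintype.card (Zt n s r a (8 * k) ε₀) * n.descFactorial j := by
  set K := 8 * k with hK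
  set q := (j + 3) / 4 with hq
  have hqj : q ≤ j := by omega
  have hq1 : 1 ≤ q := by omega
  have hrn : r' ≤ n := by omega
  set T : ℝ := ((j : ℝ) / (n - j)) ^ ((j + 1) / 2) +
    2 ^ j * ((j : ℝ) / (n - j)) ^ ((q + 2) / 3) with hT
  set X : ℝ := (2 ^ K * (2 * (32 * (q * (K : ℕ)) / n) ^ r') ^ k +
        (K : ℕ) * (2 ^ q / ((n : ℝ) - q * (K : ℕ)) ^ ((q + 1) / 2))) with hX
  have hbeta : betaS n j k r' = T + 2 ^ j * X := by
    rw [betaS]
  have h1 : ∀ z : Zt n s r a K ε₀, ∑ y : Fin j ↪ Fin n,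
      (1 / ((n - j).choose (outN (gz z) y) : ℝ)) ≤ n.descFactorial j * T + 2 ^ j *
        (Nat.card {y : Fin q → Fin n // Function.Injective y ∧ gz z • y = y} : ℝ) *
        (n - q).descFactorial (j - q) := fun z => nbound hj hjn (gz z)
  have h2 : ∑ z : Zt n s r a K ε₀,
      (Nat.card {y : Fin q → Fin n // Function.Injective y ∧ gz z • y = y} : ℝ) ≤
      X * (Fintype.card (Zt n s r a K ε₀) * n.descFactorial q) := by
    rw [Fintype.sum_prod_type, Fintype.sum_prod_type]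
    have h3 : ∀ x : {x : Fin s → Equiv.Perm (Fin n) // GapUpTo n s r ε₀ x},
        ∑ t : Equiv.Perm (Fin n), ∑ U : Fin K → (Fin a → Bool × Fin s × Bool) × Bool,
          (Nat.card {y : Fin q → Fin n // Function.Injective y ∧
            gz (((x, t), U) : Zt n s r a K ε₀) • y = y} : ℝ) ≤
        X * (n.factorial * (2 * Fintype.card (Fin a → Bool × Fin s × Bool)) ^ K *
          n.descFactorial q) := by
      intro x
      exact core (wrd (letter x.1) a) (mix hs x.1 x.2 hrr hrn hε₀ hε₀s hmixa) hk hq1 hr hrq hn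
    refine (Finset.sum_le_sum fun x _ => h3 x).trans (le_of_eq ?_)
    rw [Finset.sum_const, Finset.card_univ, nsmul_eq_mul, Fintype.card_prod, Fintype.card_prod,
      Fintype.card_perm, Fintype.card_fin]
    rw [Fintype.card_fun (α := Fin K), Fintype.card_prod, Fintype.card_bool, Fintype.card_fin]
    push_cast
    ring
  have h4 : ((n - q).descFactorial (j - q) : ℝ) * n.descFactorial q = n.descFactorial j := by
    exact_mod_cast Nat.descFactorial_mul_descFactorial hqj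
  calc ∑ z : Zt n s r a K ε₀, ∑ y : Fin j ↪ Fin n,
        (1 / ((n - j).choose (outN (gz z) y) : ℝ))
      ≤ ∑ z : Zt n s r a K ε₀, (n.descFactorial j * T + 2 ^ j *
        (Nat.card {y : Fin q → Fin n // Function.Injective y ∧ gz z • y = y} : ℝ) *
        (n - q).descFactorial (j - q)) := Finset.sum_le_sum fun z _ => h1 z
    _ = Fintype.card (Zt n s r a K ε₀) * (n.descFactorial j * T) +
        2 ^ j * (n - q).descFactorial (j - q) * ∑ z : Zt n s r a K ε₀,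
        (Nat.card {y : Fin q → Fin n // Function.Injective y ∧ gz z • y = y} : ℝ) := by
        rw [Finset.sum_add_distrib, Finset.sum_const, Finset.card_univ, nsmul_eq_mul,
          Finset.mul_sum]
        congr 1
        exact Finset.sum_congr rfl fun z _ => by ring
    _ ≤ Fintype.card (Zt n s r a K ε₀) * (n.descFactorial j * T) +
        2 ^ j * (n - q).descFactorial (j - q) *
          (X * (Fintype.card (Zt n s r a K ε₀) * n.descFactorial q)) := by
        gcongr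
    _ = _ := by
        rw [hbeta, ← h4]
        ring

end StepAux

open StepAux

theorem stepW {n s r r' j a k B : ℕ} {ε₀ ε : ℝ} (hs : 1 ≤ s) (hB : 1 ≤ B) (hj : 1 ≤ j)
    (hjn : 2 * j ≤ n) (hk : 1 ≤ k) (hr : 1 ≤ r') (hrr : r' ≤ r)
    (hrq : 2 * r' ≤ ((j + 3) / 4 + 7) / 8 + 1) (hn : 2 * ((j + 3) / 4 * (8 * k)) ≤ n)
    (ha : Even a) (hε₀ : 0 ≤ ε₀) (hε₀s : ε₀ ≤ 2 * s) (hε : 0 < ε) (hε' : ε ≤ 1 / 2)
    (hmixa : (1 - ε₀ / (2 * s)) ^ a * (n.descFactorial r' : ℝ) ≤ 1) :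
    (Nat.card {ω : Fin B → (Fin s → Equiv.Perm (Fin n)) × Equiv.Perm (Fin n) //
        (∀ b, GapUpTo n s r ε₀ (ω b).1) ∧ ∃ f : (Fin j → Fin n) → ℝ, InW f ∧ f ≠ 0 ∧
          ∑ b, ((∑ i, (∑ y, f y ^ 2 - ∑ y, f ((ω b).1 i • y) * f y)) +
            (∑ y, f y ^ 2 - ∑ y, f ((ω b).2 • y) * f y)) <
              ε / (400 * B ^ 2) * ∑ y, f y ^ 2} : ℝ) ≤
      4 * (betaS n j k r' / (1 / 2 * (1 - ε) ^ a) ^ (8 * k)) ^ B * n ^ j *
        ((n.factorial : ℝ) ^ (s + 1)) ^ B := by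
  classical
  have hβ0 := beta_nonneg (r := r') hjn hn
  have key := abs_block (repW n j) norm_repW hs
    (Ω := {x : Fin s → Equiv.Perm (Fin n) // GapUpTo n s r ε₀ x} × Equiv.Perm (Fin n))
    (fun ω => ω.1.1) (fun ω => ω.2)
    (fun h => ⟨(conjGood h).prodCongr (conjE h), fun ω => ⟨fun i => rfl, rfl⟩⟩)
    a (8 * k) B ha ⟨4 * k, by ring⟩ hB ε (betaS n j k r') hε hε' hβ0 (fun v => by
      have h1 := op (fun z : Zt n s r a (8 * k) ε₀ => gz z) gz_conj (betaS n j k r')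
        (sum_out hs hj hjn hk hr hrr hrq hn hε₀ hε₀s hmixa)
        (fun y => (v : EuclideanSpace ℝ (Fin j → Fin n)) y) v.2
      rw [Fintype.sum_prod_type] at h1
      simp only [inner_repW, norm_sq_Wsp]
      refine h1.trans (le_of_eq ?_)
      rw [Fintype.card_prod]
      push_cast
      ring)
  have hθ : 0 < (1 / 2 * (1 - ε) ^ a : ℝ) ^ (8 * k) := by
    have : 0 < 1 - ε := by linarith
    positivity
  have hκ : 0 ≤ (betaS n j k r' / (1 / 2 * (1 - ε) ^ a) ^ (8 * k)) ^ B := by positivity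
  -- transfer of the counting set
  have hcard : Nat.card {ω : Fin B → (Fin s → Equiv.Perm (Fin n)) × Equiv.Perm (Fin n) //
        (∀ b, GapUpTo n s r ε₀ (ω b).1) ∧ ∃ f : (Fin j → Fin n) → ℝ, InW f ∧ f ≠ 0 ∧
          ∑ b, ((∑ i, (∑ y, f y ^ 2 - ∑ y, f ((ω b).1 i • y) * f y)) +
            (∑ y, f y ^ 2 - ∑ y, f ((ω b).2 • y) * f y)) <
              ε / (400 * B ^ 2) * ∑ y, f y ^ 2} ≤
      Nat.card {ω : Fin B → {x : Fin s → Equiv.Perm (Fin n) // GapUpTo n s r ε₀ x} ×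
        Equiv.Perm (Fin n) // ∃ v : Wsp n j, v ≠ 0 ∧
        ∑ b, ((∑ i, (‖v‖ ^ 2 - ⟪repW n j ((ω b).1.1 i) v, v⟫_ℝ)) +
          (‖v‖ ^ 2 - ⟪repW n j ((ω b).2) v, v⟫_ℝ)) < ε / (400 * B ^ 2) * ‖v‖ ^ 2} := by
    refine Nat.card_le_card_of_injective
      (fun ω => ⟨fun b => (⟨(ω.1 b).1, ω.2.1 b⟩, (ω.1 b).2), ?_⟩) ?_
    · obtain ⟨f, hf, hf0, hlt⟩ := ω.2.2
      have hmem : (WithLp.toLp 2 f : EuclideanSpace ℝ (Fin j → Fin n)) ∈ Wsp n j := hf
      refine ⟨⟨WithLp.toLp 2 f, hmem⟩, ?_, ?_⟩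
      · intro h0
        apply hf0
        have h1 := congrArg (fun v : Wsp n j => (v : EuclideanSpace ℝ (Fin j → Fin n))) h0
        ext y
        exact congrFun (congrArg (fun v : EuclideanSpace ℝ (Fin j → Fin n) => v.ofLp) h1) y
      · simp only [inner_repW, norm_sq_Wsp]
        exact hlt
    · intro ω ω' h
      apply Subtype.ext
      have h1 := congrArg Subtype.val h
      funext b
      have h2 := congrFun h1 b
      simp only [Prod.mk.injEq, Subtype.mk.injEq] at h2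
      exact Prod.ext h2.1 h2.2
  have hΩ : (Fintype.card ({x : Fin s → Equiv.Perm (Fin n) // GapUpTo n s r ε₀ x} ×
      Equiv.Perm (Fin n)) : ℝ) ≤ (n.factorial : ℝ) ^ (s + 1) := by
    rw [Fintype.card_prod, Fintype.card_perm, Fintype.card_fin, pow_succ]
    push_cast
    have : (Fintype.card {x : Fin s → Equiv.Perm (Fin n) // GapUpTo n s r ε₀ x} : ℝ) ≤
        (n.factorial : ℝ) ^ s := by
      have h1 := Fintype.card_subtype_le (fun x : Fin s → Equiv.Perm (Fin n) =>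
        GapUpTo n s r ε₀ x)
      rw [Fintype.card_fun, Fintype.card_perm, Fintype.card_fin, Fintype.card_fin] at h1
      exact_mod_cast h1
    gcongr
  have hfin : (Module.finrank ℝ (Wsp n j) : ℝ) ≤ (n : ℝ) ^ j := by
    exact_mod_cast finrank_Wsp_le n j
  calc _ ≤ _ := by exact_mod_cast hcard
    _ ≤ _ := key
    _ ≤ _ := by gcongr

end Pool.Agent.RC
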